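import Mathlib
set_option autoImplicit false

/-! # Dyadic arcs of the circle -/

namespace Pool.Agent.V5helper17.SR

open MeasureTheory Set Filter
open scoped ENNReal

/-- the left end point of the arc number `l` of generation `J` -/
noncomputable def da (J l : ℕ) : ℝ := -Real.pi + 2 * Real.pi * l / 2 ^ J

theorem da_zero (J : ℕ) : da J 0 = -Real.pi := by simp [da]

theorem da_last (J : ℕ) : da J (2 ^ J) = Real.pi := by
  unfold da
  push_cast
  field_simp
  ring

theorem da_len (J l : ℕ) : da J (l + 1) - da J l = 2 * Real.pi / 2 ^ J := by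
  unfold da
  push_cast
  field_simp
  ring

theorem da_strict (J : ℕ) : StrictMono (da J) := by
  refine strictMono_nat_of_lt_succ fun l => ?_
  have h := da_len J l
  have : 0 < 2 * Real.pi / 2 ^ J := by positivity
  linarith

theorem da_anc {N N' : ℕ} (h : N ≤ N') (l : ℕ) : da N' (l * 2 ^ (N' - N)) = da N l := by
  unfold da
  have h1 : (2 : ℝ) ^ N' = 2 ^ N * 2 ^ (N' - N) := by rw [← pow_add]; congr 1; omega
  push_cast
  rw [h1]
  field_simp

/-- the arc number `l` of generation `J` -/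
def ar (J l : ℕ) : Set ℝ := Ioc (da J l) (da J (l + 1))

theorem ar_meas (J l : ℕ) : MeasurableSet (ar J l) := measurableSet_Ioc

theorem ar_disj {J l l' : ℕ} {φ : ℝ} (h : φ ∈ ar J l) (h' : φ ∈ ar J l') : l = l' := by
  by_contra hne
  rcases Nat.lt_or_gt_of_ne hne with hl | hl
  · have := (da_strict J).monotone (Nat.succ_le_of_lt hl)
    have h1 := h.2
    have h2 := h'.1
    simp only [Nat.succ_eq_add_one] at this
    linarith
  · have := (da_strict J).monotone (Nat.succ_le_of_lt hl)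
    have h1 := h'.2
    have h2 := h.1
    simp only [Nat.succ_eq_add_one] at this
    linarith

theorem ar_ex {J : ℕ} {φ : ℝ} (h : φ ∈ Ioc (-Real.pi) Real.pi) : ∃ l : Fin (2 ^ J), φ ∈ ar J l := by
  classical
  have hex : ∃ l, φ ≤ da J l := ⟨2 ^ J, by rw [da_last]; exact h.2⟩
  set m := Nat.find hex with hm
  have h1 : φ ≤ da J m := Nat.find_spec hex
  have h0 : m ≠ 0 := by
    intro h0
    rw [h0, da_zero] at h1
    linarith [h.1]
  obtain ⟨l, hl⟩ := Nat.exists_eq_succ_of_ne_zero h0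
  have h2 : da J l < φ := by
    by_contra h3
    push Not at h3
    have := Nat.find_min' hex h3
    omega
  have h3 : m ≤ 2 ^ J := Nat.find_min' hex (by rw [da_last]; exact h.2)
  refine ⟨⟨l, by omega⟩, h2, ?_⟩
  rw [← Nat.succ_eq_add_one, ← hl]
  exact h1

theorem ar_anc {N N' : ℕ} (h : N ≤ N') {k : ℕ} {φ : ℝ} (hφ : φ ∈ ar N' k) :
    φ ∈ ar N (k / 2 ^ (N' - N)) := by
  set q := k / 2 ^ (N' - N) with hq
  have h1 : q * 2 ^ (N' - N) ≤ k := Nat.div_mul_le_self _ _
  have h2 : k + 1 ≤ (q + 1) * 2 ^ (N' - N) := by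
    have := Nat.lt_mul_div_succ k (show 0 < 2 ^ (N' - N) by positivity)
    rw [← hq] at this
    rw [mul_comm (q + 1)]
    omega
  constructor
  · rw [← da_anc h q]
    exact lt_of_le_of_lt ((da_strict N').monotone h1) hφ.1
  · rw [← da_anc h (q + 1)]
    exact hφ.2.trans ((da_strict N').monotone h2)

theorem ar_anc_lt {N N' : ℕ} (h : N ≤ N') (k : Fin (2 ^ N')) : (k : ℕ) / 2 ^ (N' - N) < 2 ^ N := by
  rw [Nat.div_lt_iff_lt_mul (by positivity), ← pow_add]
  have : N + (N' - N) = N' := by omega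
  rw [this]
  exact k.2

theorem ar_sub {J : ℕ} (l : Fin (2 ^ J)) : ar J l ⊆ Ioc (-Real.pi) Real.pi := by
  intro φ hφ
  constructor
  · rw [← da_zero J]
    exact lt_of_le_of_lt ((da_strict J).monotone (Nat.zero_le _)) hφ.1
  · rw [← da_last J]
    exact hφ.2.trans ((da_strict J).monotone l.2)

theorem ar_vol (J l : ℕ) : volume.real (ar J l) = 2 * Real.pi / 2 ^ J := by
  unfold ar
  have : 0 < 2 * Real.pi / 2 ^ J := by positivity
  rw [Real.volume_real_Ioc_of_le (by linarith [da_len J l]), da_len]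

/-- the mean value over an arc -/
noncomputable def av (u : ℝ → ℂ) (J l : ℕ) : ℂ := ⨍ φ in ar J l, u φ

theorem av_eq (u : ℝ → ℂ) (J l : ℕ) :
    av u J l = ((2 * Real.pi / 2 ^ J : ℝ) : ℂ)⁻¹ * ∫ φ in ar J l, u φ := by
  unfold av
  rw [setAverage_eq, ar_vol, Complex.real_smul, Complex.ofReal_inv]

theorem av_int {u : ℝ → ℂ} {J l : ℕ} (hu : IntegrableOn u (ar J l)) :
    ∫ φ in ar J l, (av u J l - u φ) = 0 := by
  have hv : volume (ar J l) ≠ ⊤ := by
    unfold ar
    rw [Real.volume_Ioc]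
    exact ENNReal.ofReal_ne_top
  have hc : Integrable (fun _ : ℝ => av u J l) (volume.restrict (ar J l)) := integrableOn_const hv
  rw [integral_sub hc hu, setIntegral_const, ar_vol, av_eq, Complex.real_smul, ← mul_assoc]
  have h0 : ((2 * Real.pi / 2 ^ J : ℝ) : ℂ) ≠ 0 := by
    have : (0 : ℝ) < 2 * Real.pi / 2 ^ J := by positivity
    exact_mod_cast this.ne'
  rw [mul_inv_cancel₀ h0, one_mul, sub_self]

theorem av_norm (u : ℝ → ℂ) (J l : ℕ) :
    (2 * Real.pi / 2 ^ J) * ‖av u J l‖ ≤ ∫ φ in ar J l, ‖u φ‖ := by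
  have h0 : (0 : ℝ) < 2 * Real.pi / 2 ^ J := by positivity
  rw [av_eq, norm_mul, norm_inv, Complex.norm_real, Real.norm_of_nonneg h0.le, ← mul_assoc,
    mul_inv_cancel₀ h0.ne', one_mul]
  exact norm_integral_le_integral_norm _

/-- the oscillation bound on one arc -/
theorem arc_bd {u e : ℝ → ℂ} {J l : ℕ} (hu : IntegrableOn u (ar J l)) (he : Continuous e)
    {ε : ℝ} (hε : ∀ φ ∈ ar J l, ‖e φ - e (da J l)‖ ≤ ε) :
    ‖∫ φ in ar J l, e φ * (av u J l - u φ)‖ ≤ 2 * ε * ∫ φ in ar J l, ‖u φ‖ := by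
  have hv : volume (ar J l) ≠ ⊤ := by
    unfold ar
    rw [Real.volume_Ioc]
    exact ENNReal.ofReal_ne_top
  have h0 : (0 : ℝ) < 2 * Real.pi / 2 ^ J := by positivity
  have hint : IntegrableOn (fun φ => av u J l - u φ) (ar J l) := (integrableOn_const hv).sub hu
  have hne : (ar J l).Nonempty := by
    refine nonempty_Ioc.2 ?_
    linarith [da_len J l]
  have hε0 : 0 ≤ ε := (norm_nonneg _).trans (hε _ hne.some_mem)
  have hdm : AEStronglyMeasurable (fun φ => e φ - e (da J l)) (volume.restrict (ar J l)) :=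
    (he.sub continuous_const).aestronglyMeasurable
  have hdb : ∀ᵐ φ ∂(volume.restrict (ar J l)), ‖e φ - e (da J l)‖ ≤ ε := by
    filter_upwards [ae_restrict_mem (ar_meas J l)] with φ hφ using hε φ hφ
  have hint2 : IntegrableOn (fun φ => (e φ - e (da J l)) * (av u J l - u φ)) (ar J l) :=
    hint.bdd_mul hdm hdb
  have e1 : ∫ φ in ar J l, e φ * (av u J l - u φ) =
      ∫ φ in ar J l, (e φ - e (da J l)) * (av u J l - u φ) := by
    have e2 : ∀ φ, e φ * (av u J l - u φ) = (e φ - e (da J l)) * (av u J l - u φ) +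
        e (da J l) * (av u J l - u φ) := fun φ => by ring
    simp only [e2]
    rw [integral_add hint2 (hint.const_mul _), integral_const_mul, av_int hu, mul_zero, add_zero]
  rw [e1]
  calc ‖∫ φ in ar J l, (e φ - e (da J l)) * (av u J l - u φ)‖
      ≤ ∫ φ in ar J l, ‖(e φ - e (da J l)) * (av u J l - u φ)‖ := norm_integral_le_integral_norm _
    _ ≤ ∫ φ in ar J l, ε * (‖av u J l‖ + ‖u φ‖) := by
        refine setIntegral_mono_on hint2.norm
          ((((integrableOn_const hv).add hu.norm)).const_mul _) (ar_meas J l) fun φ hφ => ?_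
        rw [norm_mul]
        exact mul_le_mul (hε φ hφ) (norm_sub_le _ _) (norm_nonneg _) hε0
    _ = ε * ((2 * Real.pi / 2 ^ J) * ‖av u J l‖ + ∫ φ in ar J l, ‖u φ‖) := by
        have hc : Integrable (fun _ : ℝ => ‖av u J l‖) (volume.restrict (ar J l)) :=
          integrableOn_const hv
        rw [integral_const_mul, integral_add hc hu.norm, setIntegral_const, ar_vol, smul_eq_mul]
    _ ≤ ε * ((∫ φ in ar J l, ‖u φ‖) + ∫ φ in ar J l, ‖u φ‖) := by
        gcongr
        exact av_norm u J l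
    _ = _ := by ring

/-- the conditional expectation of generation `J` -/
noncomputable def EJ (u : ℝ → ℂ) (J : ℕ) (φ : ℝ) : ℂ :=
  ∑ k : Fin (2 ^ J), (ar J k).indicator (fun _ => av u J k) φ

theorem sum_ind {J : ℕ} {k : Fin (2 ^ J)} {φ : ℝ} (h : φ ∈ ar J k) (F : Fin (2 ^ J) → ℂ) :
    ∑ l : Fin (2 ^ J), (ar J l).indicator (fun _ => F l) φ = F k := by
  rw [Finset.sum_eq_single k]
  · rw [indicator_of_mem h]
  · intro l _ hl
    apply indicator_of_notMem
    intro h2
    exact hl (Fin.ext (ar_disj h2 h))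
  · intro h2
    exact absurd (Finset.mem_univ k) h2

theorem EJ_mem {u : ℝ → ℂ} {J : ℕ} {k : Fin (2 ^ J)} {φ : ℝ} (h : φ ∈ ar J k) :
    EJ u J φ = av u J k := sum_ind h fun l => av u J l

theorem sum_arcs (f : ℝ → ℂ) (J : ℕ) (hf : IntegrableOn f (Ioc (-Real.pi) Real.pi)) :
    ∫ φ in Ioc (-Real.pi) Real.pi, f φ = ∑ k : Fin (2 ^ J), ∫ φ in ar J k, f φ := by
  have hU : Ioc (-Real.pi) Real.pi = ⋃ k : Fin (2 ^ J), ar J k := by
    ext φ
    simp only [mem_iUnion]
    exact ⟨fun h => ar_ex h, fun ⟨k, hk⟩ => ar_sub k hk⟩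
  rw [hU] at hf ⊢
  refine integral_iUnion_fintype (fun k => ar_meas J k) (fun k l hkl => ?_) fun k =>
    hf.mono_set (subset_iUnion (fun k : Fin (2 ^ J) => ar J k) k)
  rw [Function.onFun, Set.disjoint_left]
  intro φ h1 h2
  exact hkl (Fin.ext (ar_disj h1 h2))

theorem sum_arcs_real (f : ℝ → ℝ) (J : ℕ) (hf : IntegrableOn f (Ioc (-Real.pi) Real.pi)) :
    ∫ φ in Ioc (-Real.pi) Real.pi, f φ = ∑ k : Fin (2 ^ J), ∫ φ in ar J k, f φ := by
  have hU : Ioc (-Real.pi) Real.pi = ⋃ k : Fin (2 ^ J), ar J k := by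
    ext φ
    simp only [mem_iUnion]
    exact ⟨fun h => ar_ex h, fun ⟨k, hk⟩ => ar_sub k hk⟩
  rw [hU] at hf ⊢
  refine integral_iUnion_fintype (fun k => ar_meas J k) (fun k l hkl => ?_) fun k =>
    hf.mono_set (subset_iUnion (fun k : Fin (2 ^ J) => ar J k) k)
  rw [Function.onFun, Set.disjoint_left]
  intro φ h1 h2
  exact hkl (Fin.ext (ar_disj h1 h2))

theorem EJ_meas (u : ℝ → ℂ) (J : ℕ) : Measurable (EJ u J) := by
  unfold EJ
  exact Finset.measurable_fun_sum _ fun k _ => measurable_const.indicator (ar_meas J k)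

theorem EJ_bdd (u : ℝ → ℂ) (J : ℕ) : ∃ B : ℝ, ∀ φ, ‖EJ u J φ‖ ≤ B := by
  refine ⟨∑ k : Fin (2 ^ J), ‖av u J k‖, fun φ => ?_⟩
  unfold EJ
  refine (norm_sum_le _ _).trans (Finset.sum_le_sum fun k _ => ?_)
  exact norm_indicator_le_norm_self _ _

theorem EJ_int (u : ℝ → ℂ) (J : ℕ) : IntegrableOn (EJ u J) (Ioc (-Real.pi) Real.pi) := by
  obtain ⟨B, hB⟩ := EJ_bdd u J
  exact Integrable.of_bound (EJ_meas u J).aestronglyMeasurable B (Eventually.of_forall hB)

/-- the conditional expectations converge weakly with a rate on Lipschitz functions -/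
theorem EJ_weak {u e : ℝ → ℂ} (J : ℕ) (hu : IntegrableOn u (Ioc (-Real.pi) Real.pi))
    (he : Continuous e) {B K : ℝ} (hB : ∀ φ, ‖e φ‖ ≤ B) (hK : ∀ φ ψ, ‖e φ - e ψ‖ ≤ K * |φ - ψ|) :
    ‖∫ φ in Ioc (-Real.pi) Real.pi, e φ * (EJ u J φ - u φ)‖ ≤
      2 * (K * (2 * Real.pi / 2 ^ J)) * ∫ φ in Ioc (-Real.pi) Real.pi, ‖u φ‖ := by
  have hint : IntegrableOn (fun φ => e φ * (EJ u J φ - u φ)) (Ioc (-Real.pi) Real.pi) :=
    ((EJ_int u J).sub hu).bdd_mul he.aestronglyMeasurable (Eventually.of_forall hB)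
  have hK0 : 0 ≤ K := by
    have := (norm_nonneg _).trans (hK 1 0)
    simpa using this
  rw [sum_arcs _ J hint, sum_arcs_real _ J hu.norm, Finset.mul_sum]
  refine (norm_sum_le _ _).trans (Finset.sum_le_sum fun k _ => ?_)
  have e1 : ∫ φ in ar J k, e φ * (EJ u J φ - u φ) = ∫ φ in ar J k, e φ * (av u J k - u φ) :=
    setIntegral_congr_fun (ar_meas J k) fun φ hφ => by rw [EJ_mem hφ]
  rw [e1]
  refine arc_bd (hu.mono_set (ar_sub k)) he fun φ hφ => ?_
  refine (hK φ (da J k)).trans ?_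
  gcongr
  have h1 := hφ.1
  have h2 := hφ.2
  rw [abs_of_nonneg (by linarith), ← da_len J k]
  linarith

end Pool.Agent.V5helper17.SR
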