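import Mathlib
import Pool.Agent.V5helper63.RH.R4
set_option autoImplicit false

/-! # Second and fourth moments of martingales -/

namespace Pool.Agent.V5helper17.SR

open MeasureTheory Set ProbabilityTheory Filter
open scoped ENNReal
open Pool.Agent.V5helper63.RH (BM)

variable {Ω : Type*} {mΩ : MeasurableSpace Ω}

theorem four_real (P : Measure Ω) [IsProbabilityMeasure P] (F : Filtration ℕ mΩ) (D : ℕ → Ω → ℝ)
    (hD : ∀ n, BM (F (n + 1)) (D n))
    (horth : ∀ n (Z : Ω → ℝ), BM (F n) Z → ∫ ω, Z ω * D n ω ∂P = 0) (N : ℕ) :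
    ∫ ω, (∑ n ∈ Finset.range N, D n ω) ^ 4 ∂P ≤
      294 * ∫ ω, (∑ n ∈ Finset.range N, D n ω ^ 2) ^ 2 ∂P := by
  set S : ℕ → Ω → ℝ := fun n ω => ∑ i ∈ Finset.range n, D i ω with hSdef
  have hDm : ∀ {i n : ℕ}, i < n → BM (F n) (D i) := fun {i n} h => (hD i).mono (F.mono h)
  have hSm : ∀ n, BM (F n) (S n) := fun n =>
    BM.sum _ fun i hi => hDm (Finset.mem_range.mp hi)
  have hSM : ∀ n, BM mΩ (S n) := fun n => (hSm n).mono (F.le n)
  have hDM : ∀ n, BM mΩ (D n) := fun n => (hD n).mono (F.le _)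
  have hSs : ∀ n ω, S (n + 1) ω = S n ω + D n ω := fun n ω => by
    rw [hSdef]
    simp only
    rw [Finset.sum_range_succ]
  -- one step
  have step : ∀ n, ∫ ω, S (n + 1) ω ^ 4 ∂P ≤ ∫ ω, S n ω ^ 4 ∂P +
      (8 * ∫ ω, S n ω ^ 2 * D n ω ^ 2 ∂P + 3 * ∫ ω, D n ω ^ 4 ∂P) := by
    intro n
    have i1 : Integrable (fun ω => S n ω ^ 4) P := ((hSM n).pow 4).int
    have i2 : Integrable (fun ω => 4 * (S n ω ^ 3 * D n ω)) P :=
      ((BM.const 4).mul (((hSM n).pow 3).mul (hDM n))).int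
    have i3 : Integrable (fun ω => 8 * (S n ω ^ 2 * D n ω ^ 2)) P :=
      ((BM.const 8).mul (((hSM n).pow 2).mul ((hDM n).pow 2))).int
    have i4 : Integrable (fun ω => 3 * D n ω ^ 4) P := ((BM.const 3).mul ((hDM n).pow 4)).int
    have i12 : Integrable (fun ω => S n ω ^ 4 + 4 * (S n ω ^ 3 * D n ω)) P := i1.add i2
    have i34 : Integrable (fun ω => 8 * (S n ω ^ 2 * D n ω ^ 2) + 3 * D n ω ^ 4) P := i3.add i4
    have h1 : ∫ ω, S (n + 1) ω ^ 4 ∂P ≤ ∫ ω, ((S n ω ^ 4 + 4 * (S n ω ^ 3 * D n ω)) +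
        (8 * (S n ω ^ 2 * D n ω ^ 2) + 3 * D n ω ^ 4)) ∂P := by
      refine integral_mono ((hSM (n + 1)).pow 4).int (i12.add i34) fun ω => ?_
      simp only
      rw [hSs]
      nlinarith [mul_nonneg (sq_nonneg (D n ω)) (sq_nonneg (S n ω - D n ω))]
    rw [integral_add i12 i34, integral_add i1 i2, integral_add i3 i4,
      integral_const_mul, integral_const_mul, integral_const_mul,
      horth n (fun ω => S n ω ^ 3) ((hSm n).pow 3), mul_zero, add_zero] at h1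
    exact h1
  have tel : ∫ ω, S N ω ^ 4 ∂P ≤ ∑ n ∈ Finset.range N,
      (8 * ∫ ω, S n ω ^ 2 * D n ω ^ 2 ∂P + 3 * ∫ ω, D n ω ^ 4 ∂P) := by
    have : ∀ n, ∫ ω, S n ω ^ 4 ∂P ≤ ∑ i ∈ Finset.range n,
        (8 * ∫ ω, S i ω ^ 2 * D i ω ^ 2 ∂P + 3 * ∫ ω, D i ω ^ 4 ∂P) := by
      intro n
      induction n with
      | zero => simp [hSdef]
      | succ n ih =>
        rw [Finset.sum_range_succ]
        exact (step n).trans (by linarith)
    exact this N
  -- comparison with the final value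
  have cmp : ∀ n < N, ∫ ω, S n ω ^ 2 * D n ω ^ 2 ∂P ≤
      2 * ∫ ω, S N ω ^ 2 * D n ω ^ 2 ∂P + 2 * ∫ ω, D n ω ^ 4 ∂P := by
    intro n hn
    have i1 : Integrable (fun ω => S (n + 1) ω ^ 2 * D n ω ^ 2) P :=
      (((hSM _).pow 2).mul ((hDM n).pow 2)).int
    have i2 : Integrable (fun ω => D n ω ^ 4) P := ((hDM n).pow 4).int
    have i3 : Integrable (fun ω => S N ω ^ 2 * D n ω ^ 2) P :=
      (((hSM _).pow 2).mul ((hDM n).pow 2)).int
    have a1 : ∫ ω, S n ω ^ 2 * D n ω ^ 2 ∂P ≤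
        2 * ∫ ω, S (n + 1) ω ^ 2 * D n ω ^ 2 ∂P + 2 * ∫ ω, D n ω ^ 4 ∂P := by
      rw [← integral_const_mul, ← integral_const_mul, ← integral_add (i1.const_mul 2)
        (i2.const_mul 2)]
      refine integral_mono (((hSM n).pow 2).mul ((hDM n).pow 2)).int
        ((i1.const_mul 2).add (i2.const_mul 2)) fun ω => ?_
      simp only
      rw [hSs]
      nlinarith [mul_nonneg (sq_nonneg (D n ω)) (sq_nonneg (S n ω + 2 * D n ω))]
    have a2 : ∫ ω, S (n + 1) ω ^ 2 * D n ω ^ 2 ∂P ≤ ∫ ω, S N ω ^ 2 * D n ω ^ 2 ∂P := by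
      have hz : ∀ m, n + 1 ≤ m → ∫ ω, (D n ω ^ 2 * S (n + 1) ω) * (S m ω - S (n + 1) ω) ∂P = 0 := by
        intro m hm
        induction m, hm using Nat.le_induction with
        | base => simp
        | succ m hm ih =>
          have e1 : ∀ ω, (D n ω ^ 2 * S (n + 1) ω) * (S (m + 1) ω - S (n + 1) ω) =
              (D n ω ^ 2 * S (n + 1) ω) * (S m ω - S (n + 1) ω) +
                (D n ω ^ 2 * S (n + 1) ω) * D m ω := by
            intro ω
            rw [hSs m]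
            ring
          have b1 : BM (F m) fun ω => D n ω ^ 2 * S (n + 1) ω :=
            ((hDm (by omega : n < m)).pow 2).mul ((hSm (n + 1)).mono (F.mono hm))
          have b2 : BM mΩ fun ω => (D n ω ^ 2 * S (n + 1) ω) * (S m ω - S (n + 1) ω) :=
            (((hDM n).pow 2).mul (hSM (n + 1))).mul ((hSM m).sub (hSM (n + 1)))
          simp only [e1]
          rw [integral_add b2.int ((b1.mono (F.le m)).mul (hDM m)).int, ih, horth m _ b1, add_zero]
      have h0 := hz N hn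
      have b3 : BM mΩ fun ω => (D n ω ^ 2 * S (n + 1) ω) * (S N ω - S (n + 1) ω) :=
        (((hDM n).pow 2).mul (hSM (n + 1))).mul ((hSM N).sub (hSM (n + 1)))
      have h1 : ∫ ω, (S (n + 1) ω ^ 2 * D n ω ^ 2 +
          2 * ((D n ω ^ 2 * S (n + 1) ω) * (S N ω - S (n + 1) ω))) ∂P ≤
          ∫ ω, S N ω ^ 2 * D n ω ^ 2 ∂P := by
        refine integral_mono (i1.add (b3.int.const_mul 2)) i3 fun ω => ?_
        simp only
        nlinarith [mul_nonneg (sq_nonneg (D n ω)) (sq_nonneg (S N ω - S (n + 1) ω))]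
      rw [integral_add i1 (b3.int.const_mul 2), integral_const_mul, h0, mul_zero, add_zero] at h1
      exact h1
    linarith
  set Q : Ω → ℝ := fun ω => ∑ n ∈ Finset.range N, D n ω ^ 2 with hQ
  have hQM : BM mΩ Q := BM.sum _ fun i _ => (hDM i).pow 2
  have main : ∫ ω, S N ω ^ 4 ∂P ≤ 16 * ∫ ω, S N ω ^ 2 * Q ω ∂P + 19 * ∫ ω, Q ω ^ 2 ∂P := by
    have c1 : ∑ n ∈ Finset.range N, ∫ ω, S N ω ^ 2 * D n ω ^ 2 ∂P = ∫ ω, S N ω ^ 2 * Q ω ∂P := by
      rw [← integral_finsetSum]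
      · refine integral_congr_ae (Eventually.of_forall fun ω => ?_)
        simp only [hQ]
        rw [Finset.mul_sum]
      · intro n _
        exact (((hSM _).pow 2).mul ((hDM n).pow 2)).int
    have c2 : ∑ n ∈ Finset.range N, ∫ ω, D n ω ^ 4 ∂P ≤ ∫ ω, Q ω ^ 2 ∂P := by
      rw [← integral_finsetSum _ fun n _ => ((hDM n).pow 4).int]
      refine integral_mono (BM.sum _ fun i _ => (hDM i).pow 4).int (hQM.pow 2).int fun ω => ?_
      simp only [hQ]
      have h4 : ∀ n ∈ Finset.range N, D n ω ^ 4 ≤ D n ω ^ 2 *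
          ∑ i ∈ Finset.range N, D i ω ^ 2 := by
        intro n hn
        have h5 : D n ω ^ 2 ≤ ∑ i ∈ Finset.range N, D i ω ^ 2 :=
          Finset.single_le_sum (f := fun i => D i ω ^ 2) (fun _ _ => sq_nonneg _) hn
        calc D n ω ^ 4 = D n ω ^ 2 * D n ω ^ 2 := by ring
          _ ≤ _ := by gcongr
      refine (Finset.sum_le_sum h4).trans (le_of_eq ?_)
      rw [← Finset.sum_mul, sq]
    calc ∫ ω, S N ω ^ 4 ∂P ≤ ∑ n ∈ Finset.range N,
        (8 * ∫ ω, S n ω ^ 2 * D n ω ^ 2 ∂P + 3 * ∫ ω, D n ω ^ 4 ∂P) := tel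
      _ ≤ ∑ n ∈ Finset.range N, (16 * ∫ ω, S N ω ^ 2 * D n ω ^ 2 ∂P +
          19 * ∫ ω, D n ω ^ 4 ∂P) := by
          refine Finset.sum_le_sum fun n hn => ?_
          have := cmp n (Finset.mem_range.1 hn)
          linarith
      _ = 16 * ∫ ω, S N ω ^ 2 * Q ω ∂P + 19 * ∑ n ∈ Finset.range N, ∫ ω, D n ω ^ 4 ∂P := by
          rw [Finset.sum_add_distrib, ← Finset.mul_sum, ← Finset.mul_sum, c1]
      _ ≤ _ := by gcongr
  have fin : 16 * ∫ ω, S N ω ^ 2 * Q ω ∂P ≤ 1 / 2 * ∫ ω, S N ω ^ 4 ∂P +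
      128 * ∫ ω, Q ω ^ 2 ∂P := by
    have j1 : Integrable (fun ω => S N ω ^ 4) P := ((hSM _).pow 4).int
    have j2 : Integrable (fun ω => Q ω ^ 2) P := (hQM.pow 2).int
    rw [← integral_const_mul, ← integral_const_mul, ← integral_const_mul,
      ← integral_add (j1.const_mul _) (j2.const_mul _)]
    refine integral_mono (((BM.const 16).mul (((hSM _).pow 2).mul hQM)).int)
      ((j1.const_mul _).add (j2.const_mul _)) fun ω => ?_
    simp only
    nlinarith [sq_nonneg (S N ω ^ 2 - 16 * Q ω)]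
  have hgoal : ∫ ω, S N ω ^ 4 ∂P ≤ 294 * ∫ ω, Q ω ^ 2 ∂P := by linarith
  exact hgoal

theorem two_real (P : Measure Ω) [IsProbabilityMeasure P] (F : Filtration ℕ mΩ) (D : ℕ → Ω → ℝ)
    (hD : ∀ n, BM (F (n + 1)) (D n))
    (horth : ∀ n (Z : Ω → ℝ), BM (F n) Z → ∫ ω, Z ω * D n ω ∂P = 0) (N : ℕ) :
    ∫ ω, (∑ n ∈ Finset.range N, D n ω) ^ 2 ∂P =
      ∫ ω, (∑ n ∈ Finset.range N, D n ω ^ 2) ∂P := by
  have hDm : ∀ {i n : ℕ}, i < n → BM (F n) (D i) := fun {i n} h => (hD i).mono (F.mono h)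
  have hDM : ∀ n, BM mΩ (D n) := fun n => (hD n).mono (F.le _)
  induction N with
  | zero => simp
  | succ N ih =>
    have hSm : BM (F N) (fun ω => ∑ n ∈ Finset.range N, D n ω) :=
      BM.sum _ fun i hi => hDm (Finset.mem_range.mp hi)
    have hSM := hSm.mono (F.le N)
    have e1 : ∀ ω, (∑ n ∈ Finset.range (N + 1), D n ω) ^ 2 =
        ((∑ n ∈ Finset.range N, D n ω) ^ 2 + D N ω ^ 2) +
          2 * ((∑ n ∈ Finset.range N, D n ω) * D N ω) := by
      intro ω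
      rw [Finset.sum_range_succ]
      ring
    simp only [e1]
    have i1 : Integrable (fun ω => (∑ n ∈ Finset.range N, D n ω) ^ 2 + D N ω ^ 2) P :=
      ((hSM.pow 2).add ((hDM N).pow 2)).int
    have i2 : Integrable (fun ω => 2 * ((∑ n ∈ Finset.range N, D n ω) * D N ω)) P :=
      ((BM.const 2).mul (hSM.mul (hDM N))).int
    rw [integral_add i1 i2, integral_add (hSM.pow 2).int ((hDM N).pow 2).int,
      integral_const_mul, horth N _ hSm, mul_zero, add_zero, ih]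
    simp only [Finset.sum_range_succ]
    rw [integral_add (BM.sum _ fun i _ => (hDM i).pow 2).int ((hDM N).pow 2).int]

end Pool.Agent.V5helper17.SR
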