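import Mathlib
import Pool.Agent.V5helper17.SR.Mart
set_option autoImplicit false

/-! # Second and fourth moments of complex martingales -/

namespace Pool.Agent.V5helper17.SR

open MeasureTheory Set ProbabilityTheory Filter
open scoped ENNReal
open Pool.Agent.V5helper63.RH (BM)

variable {Ω : Type*} {mΩ : MeasurableSpace Ω}

/-- fair sequences of complex random variables -/
structure Fs (P : Measure Ω) (F : Filtration ℕ mΩ) (D : ℕ → Ω → ℂ) : Prop where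
  meas : ∀ n, Measurable[F (n + 1)] (D n)
  bdd : ∀ n, ∃ c : ℝ, ∀ ω, ‖D n ω‖ ≤ c
  orth : ∀ n (Z : Ω → ℝ), BM (F n) Z → ∫ ω, (Z ω : ℂ) * D n ω ∂P = 0

variable {P : Measure Ω} [IsProbabilityMeasure P] {F : Filtration ℕ mΩ} {D : ℕ → Ω → ℂ}

theorem Fs.mM (h : Fs P F D) (n : ℕ) : Measurable (D n) := (h.meas n).mono (F.le _) le_rfl

theorem Fs.int (h : Fs P F D) (n : ℕ) (Z : Ω → ℝ) (hZ : BM mΩ Z) :
    Integrable (fun ω => (Z ω : ℂ) * D n ω) P := by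
  obtain ⟨c, hc⟩ := h.bdd n
  obtain ⟨d, hd⟩ := hZ.bdd
  refine Integrable.of_bound ((Complex.measurable_ofReal.comp hZ.meas).mul
    (h.mM n)).aestronglyMeasurable (d * c) (Eventually.of_forall fun ω => ?_)
  rw [norm_mul, Complex.norm_real, Real.norm_eq_abs]
  exact mul_le_mul (hd ω) (hc ω) (norm_nonneg _) ((abs_nonneg _).trans (hd ω))

theorem Fs.re (h : Fs P F D) : (∀ n, BM (F (n + 1)) fun ω => (D n ω).re) ∧
    ∀ n (Z : Ω → ℝ), BM (F n) Z → ∫ ω, Z ω * (D n ω).re ∂P = 0 := by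
  refine ⟨fun n => ?_, fun n Z hZ => ?_⟩
  · obtain ⟨c, hc⟩ := h.bdd n
    exact ⟨Complex.measurable_re.comp (h.meas n), c, fun ω =>
      (Complex.abs_re_le_norm _).trans (hc ω)⟩
  · have h1 := congrArg Complex.re (h.orth n Z hZ)
    have h2 := integral_re (h.int n Z (hZ.mono (F.le n)))
    simp only [Complex.zero_re] at h1
    have h3 : ∫ ω, RCLike.re ((Z ω : ℂ) * D n ω) ∂P = ∫ ω, Z ω * (D n ω).re ∂P := by
      refine integral_congr_ae (Eventually.of_forall fun ω => ?_)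
      exact Complex.re_ofReal_mul _ _
    rw [← h3, h2]
    exact h1

theorem Fs.im (h : Fs P F D) : (∀ n, BM (F (n + 1)) fun ω => (D n ω).im) ∧
    ∀ n (Z : Ω → ℝ), BM (F n) Z → ∫ ω, Z ω * (D n ω).im ∂P = 0 := by
  refine ⟨fun n => ?_, fun n Z hZ => ?_⟩
  · obtain ⟨c, hc⟩ := h.bdd n
    exact ⟨Complex.measurable_im.comp (h.meas n), c, fun ω =>
      (Complex.abs_im_le_norm _).trans (hc ω)⟩
  · have h1 := congrArg Complex.im (h.orth n Z hZ)
    have h2 := integral_im (h.int n Z (hZ.mono (F.le n)))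
    simp only [Complex.zero_im] at h1
    have h3 : ∫ ω, RCLike.im ((Z ω : ℂ) * D n ω) ∂P = ∫ ω, Z ω * (D n ω).im ∂P := by
      refine integral_congr_ae (Eventually.of_forall fun ω => ?_)
      exact Complex.im_ofReal_mul _ _
    rw [← h3, h2]
    exact h1

theorem norm_sq_re_im (z : ℂ) : ‖z‖ ^ 2 = z.re ^ 2 + z.im ^ 2 := by
  rw [← Complex.normSq_eq_norm_sq, Complex.normSq_apply]
  ring

theorem BMint {f : Ω → ℝ} (h : BM mΩ f) (h0 : ∀ ω, 0 ≤ f ω) :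
    ∫⁻ ω, ENNReal.ofReal (f ω) ∂P = ENNReal.ofReal (∫ ω, f ω ∂P) :=
  (ofReal_integral_eq_lintegral_ofReal h.int (Eventually.of_forall h0)).symm

theorem mart2 (h : Fs P F D) (N : ℕ) : ∫⁻ ω, ‖∑ n ∈ Finset.range N, D n ω‖ₑ ^ 2 ∂P ≤
    ∫⁻ ω, ∑ n ∈ Finset.range N, ‖D n ω‖ₑ ^ 2 ∂P := by
  have hr := two_real P F _ h.re.1 h.re.2 N
  have hi := two_real P F _ h.im.1 h.im.2 N
  have bre : ∀ n, BM mΩ fun ω => (D n ω).re := fun n => (h.re.1 n).mono (F.le _)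
  have bim : ∀ n, BM mΩ fun ω => (D n ω).im := fun n => (h.im.1 n).mono (F.le _)
  have e2 : ∀ z : ℂ, ‖z‖ₑ ^ 2 = ENNReal.ofReal (z.re ^ 2 + z.im ^ 2) := by
    intro z
    rw [← ofReal_norm, ← ENNReal.ofReal_pow (norm_nonneg _), norm_sq_re_im]
  have b1 : BM mΩ fun ω => (∑ n ∈ Finset.range N, (D n ω).re) ^ 2 :=
    (BM.sum _ fun i _ => bre i).pow 2
  have b2 : BM mΩ fun ω => (∑ n ∈ Finset.range N, (D n ω).im) ^ 2 :=
    (BM.sum _ fun i _ => bim i).pow 2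
  have b3 : BM mΩ fun ω => ∑ n ∈ Finset.range N, (D n ω).re ^ 2 :=
    BM.sum _ fun i _ => (bre i).pow 2
  have b4 : BM mΩ fun ω => ∑ n ∈ Finset.range N, (D n ω).im ^ 2 :=
    BM.sum _ fun i _ => (bim i).pow 2
  have e3 : ∀ ω, ‖∑ n ∈ Finset.range N, D n ω‖ₑ ^ 2 = ENNReal.ofReal
      ((∑ n ∈ Finset.range N, (D n ω).re) ^ 2 + (∑ n ∈ Finset.range N, (D n ω).im) ^ 2) := by
    intro ω
    rw [e2, Complex.re_sum, Complex.im_sum]
  have e4 : ∀ ω, ∑ n ∈ Finset.range N, ‖D n ω‖ₑ ^ 2 = ENNReal.ofReal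
      (∑ n ∈ Finset.range N, (D n ω).re ^ 2 + ∑ n ∈ Finset.range N, (D n ω).im ^ 2) := by
    intro ω
    simp only [e2]
    rw [← ENNReal.ofReal_sum_of_nonneg (fun _ _ => by positivity), Finset.sum_add_distrib]
  simp only [e3, e4]
  rw [BMint (b1.add b2) (fun ω => by positivity), BMint (b3.add b4) (fun ω => by positivity),
    integral_add b1.int b2.int, integral_add b3.int b4.int, hr, hi]

theorem mart4 (h : Fs P F D) (N : ℕ) : ∫⁻ ω, ‖∑ n ∈ Finset.range N, D n ω‖ₑ ^ 4 ∂P ≤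
    ENNReal.ofReal 588 * ∫⁻ ω, (∑ n ∈ Finset.range N, ‖D n ω‖ₑ ^ 2) ^ 2 ∂P := by
  have hr := four_real P F _ h.re.1 h.re.2 N
  have hi := four_real P F _ h.im.1 h.im.2 N
  have bre : ∀ n, BM mΩ fun ω => (D n ω).re := fun n => (h.re.1 n).mono (F.le _)
  have bim : ∀ n, BM mΩ fun ω => (D n ω).im := fun n => (h.im.1 n).mono (F.le _)
  have e2 : ∀ z : ℂ, ‖z‖ₑ ^ 2 = ENNReal.ofReal (z.re ^ 2 + z.im ^ 2) := by
    intro z
    rw [← ofReal_norm, ← ENNReal.ofReal_pow (norm_nonneg _), norm_sq_re_im]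
  have b1 : BM mΩ fun ω => (∑ n ∈ Finset.range N, (D n ω).re) ^ 4 :=
    (BM.sum _ fun i _ => bre i).pow 4
  have b2 : BM mΩ fun ω => (∑ n ∈ Finset.range N, (D n ω).im) ^ 4 :=
    (BM.sum _ fun i _ => bim i).pow 4
  have b3 : BM mΩ fun ω => (∑ n ∈ Finset.range N, (D n ω).re ^ 2) ^ 2 :=
    (BM.sum _ fun i _ => (bre i).pow 2).pow 2
  have b4 : BM mΩ fun ω => (∑ n ∈ Finset.range N, (D n ω).im ^ 2) ^ 2 :=
    (BM.sum _ fun i _ => (bim i).pow 2).pow 2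
  have b5 : BM mΩ fun ω => (∑ n ∈ Finset.range N, ((D n ω).re ^ 2 + (D n ω).im ^ 2)) ^ 2 :=
    (BM.sum _ fun i _ => ((bre i).pow 2).add ((bim i).pow 2)).pow 2
  have e3 : ∀ ω, ‖∑ n ∈ Finset.range N, D n ω‖ₑ ^ 4 ≤ ENNReal.ofReal
      (2 * ((∑ n ∈ Finset.range N, (D n ω).re) ^ 4 +
        (∑ n ∈ Finset.range N, (D n ω).im) ^ 4)) := by
    intro ω
    have : ‖∑ n ∈ Finset.range N, D n ω‖ₑ ^ 4 = (‖∑ n ∈ Finset.range N, D n ω‖ₑ ^ 2) ^ 2 := by
      rw [← pow_mul]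
    rw [this, e2, Complex.re_sum, Complex.im_sum, ← ENNReal.ofReal_pow (by positivity)]
    apply ENNReal.ofReal_le_ofReal
    nlinarith [sq_nonneg ((∑ n ∈ Finset.range N, (D n ω).re) ^ 2 -
      (∑ n ∈ Finset.range N, (D n ω).im) ^ 2)]
  have e4 : ∀ ω, (∑ n ∈ Finset.range N, ‖D n ω‖ₑ ^ 2) ^ 2 = ENNReal.ofReal
      ((∑ n ∈ Finset.range N, ((D n ω).re ^ 2 + (D n ω).im ^ 2)) ^ 2) := by
    intro ω
    simp only [e2]
    rw [← ENNReal.ofReal_sum_of_nonneg (fun _ _ => by positivity),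
      ENNReal.ofReal_pow (Finset.sum_nonneg fun _ _ => by positivity)]
  calc ∫⁻ ω, ‖∑ n ∈ Finset.range N, D n ω‖ₑ ^ 4 ∂P
      ≤ ∫⁻ ω, ENNReal.ofReal (2 * ((∑ n ∈ Finset.range N, (D n ω).re) ^ 4 +
        (∑ n ∈ Finset.range N, (D n ω).im) ^ 4)) ∂P := lintegral_mono e3
    _ = ENNReal.ofReal (2 * (∫ ω, (∑ n ∈ Finset.range N, (D n ω).re) ^ 4 ∂P +
        ∫ ω, (∑ n ∈ Finset.range N, (D n ω).im) ^ 4 ∂P)) := by
        rw [BMint ((BM.const 2).mul (b1.add b2)) (fun ω => by positivity), integral_const_mul,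
          integral_add b1.int b2.int]
    _ ≤ ENNReal.ofReal (588 * ∫ ω, (∑ n ∈ Finset.range N,
          ((D n ω).re ^ 2 + (D n ω).im ^ 2)) ^ 2 ∂P) := by
        apply ENNReal.ofReal_le_ofReal
        have h5 : ∫ ω, (∑ n ∈ Finset.range N, (D n ω).re ^ 2) ^ 2 ∂P +
            ∫ ω, (∑ n ∈ Finset.range N, (D n ω).im ^ 2) ^ 2 ∂P ≤
            ∫ ω, (∑ n ∈ Finset.range N, ((D n ω).re ^ 2 + (D n ω).im ^ 2)) ^ 2 ∂P := by
          rw [← integral_add b3.int b4.int]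
          refine integral_mono (b3.int.add b4.int) b5.int fun ω => ?_
          simp only
          rw [Finset.sum_add_distrib]
          have n1 : 0 ≤ ∑ n ∈ Finset.range N, (D n ω).re ^ 2 :=
            Finset.sum_nonneg fun _ _ => sq_nonneg _
          have n2 : 0 ≤ ∑ n ∈ Finset.range N, (D n ω).im ^ 2 :=
            Finset.sum_nonneg fun _ _ => sq_nonneg _
          nlinarith [mul_nonneg n1 n2]
        linarith
    _ = _ := by
        simp only [e4]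
        rw [BMint b5 (fun ω => by positivity), ENNReal.ofReal_mul (by norm_num)]

end Pool.Agent.V5helper17.SR
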