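import Mathlib
import Pool.Agent.V5helper17.SR.MartC
set_option autoImplicit false

/-! # Fair families of random functions: the interpolated moment -/

namespace Pool.Agent.V5helper17.SR

open MeasureTheory Set ProbabilityTheory Filter
open scoped ENNReal
open Pool.Agent.V5helper63.RH (BM)

variable {Ω : Type*} {mΩ : MeasurableSpace Ω}

/-- fair families: the members of rank `n` are measurable at the time `n+1` and orthogonal to the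
past -/
structure Ff (P : Measure Ω) (F : Filtration ℕ mΩ) {N : ℕ} (rk : Fin N → ℕ) (G : Fin N → Ω → ℂ) :
    Prop where
  meas : ∀ k, Measurable[F (rk k + 1)] (G k)
  bdd : ∀ k, ∃ c : ℝ, ∀ ω, ‖G k ω‖ ≤ c
  orth : ∀ k (Z : Ω → ℝ), BM (F (rk k)) Z → ∫ ω, (Z ω : ℂ) * G k ω ∂P = 0

variable {P : Measure Ω} [IsProbabilityMeasure P] {F : Filtration ℕ mΩ} {N : ℕ}
  {rk : Fin N → ℕ} {G : Fin N → Ω → ℂ}

theorem Ff.mM (h : Ff P F rk G) (k : Fin N) : Measurable (G k) := (h.meas k).mono (F.le _) le_rfl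

theorem Ff.fs (h : Ff P F rk G) :
    Fs P F fun n ω => ∑ k ∈ Finset.univ.filter (fun k => rk k = n), G k ω := by
  refine ⟨fun n => ?_, fun n => ?_, fun n Z hZ => ?_⟩
  · refine Finset.measurable_fun_sum _ fun k hk => ?_
    rw [Finset.mem_filter] at hk
    rw [← hk.2]
    exact h.meas k
  · choose c hc using h.bdd
    refine ⟨∑ k ∈ Finset.univ.filter (fun k => rk k = n), c k, fun ω => ?_⟩
    exact (norm_sum_le _ _).trans (Finset.sum_le_sum fun k _ => hc k ω)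
  · have hZm : BM mΩ Z := hZ.mono (F.le n)
    obtain ⟨d, hd⟩ := hZm.bdd
    have hint : ∀ k, Integrable (fun ω => (Z ω : ℂ) * G k ω) P := by
      intro k
      obtain ⟨c, hc⟩ := h.bdd k
      refine Integrable.of_bound ((Complex.measurable_ofReal.comp hZm.meas).mul
        (h.mM k)).aestronglyMeasurable (d * c) (Eventually.of_forall fun ω => ?_)
      rw [norm_mul, Complex.norm_real, Real.norm_eq_abs]
      exact mul_le_mul (hd ω) (hc ω) (norm_nonneg _) ((abs_nonneg _).trans (hd ω))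
    simp only [Finset.mul_sum]
    rw [integral_finsetSum _ fun k _ => hint k]
    refine Finset.sum_eq_zero fun k hk => ?_
    rw [Finset.mem_filter] at hk
    refine h.orth k Z ?_
    rw [hk.2]
    exact hZ

theorem cs_fin {ι : Type*} (s : Finset ι) (x : ι → ℂ) :
    ‖∑ k ∈ s, x k‖ₑ ^ 2 ≤ (s.card : ℝ≥0∞) * ∑ k ∈ s, ‖x k‖ₑ ^ 2 := by
  have h1 : ‖∑ k ∈ s, x k‖ ^ 2 ≤ s.card * ∑ k ∈ s, ‖x k‖ ^ 2 :=
    (pow_le_pow_left₀ (norm_nonneg _) (norm_sum_le _ _) 2).trans sq_sum_le_card_mul_sum_sq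
  have e : ∀ z : ℂ, ‖z‖ₑ ^ 2 = ENNReal.ofReal (‖z‖ ^ 2) := fun z => by
    rw [← ofReal_norm, ENNReal.ofReal_pow (norm_nonneg _)]
  simp only [e]
  rw [← ENNReal.ofReal_sum_of_nonneg fun _ _ => by positivity, ← ENNReal.ofReal_natCast,
    ← ENNReal.ofReal_mul (by positivity)]
  exact ENNReal.ofReal_le_ofReal h1

/-- all members of a family -/
theorem sum_rank {M : Type*} [AddCommMonoid M] (rk : Fin N → ℕ) (x : Fin N → M) :
    ∑ n ∈ Finset.range (Finset.univ.sup rk + 1),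
      ∑ k ∈ Finset.univ.filter (fun k => rk k = n), x k = ∑ k, x k := by
  refine Finset.sum_fiberwise_of_maps_to (fun k _ => ?_) _
  rw [Finset.mem_range]
  exact Nat.lt_succ_of_le (Finset.le_sup (f := rk) (Finset.mem_univ k))

theorem sum_rank_sq (rk : Fin N → ℕ) (L : ℕ)
    (hL : ∀ n, (Finset.univ.filter fun k => rk k = n).card ≤ L) (x : Fin N → ℂ) :
    ∑ n ∈ Finset.range (Finset.univ.sup rk + 1),
      ‖∑ k ∈ Finset.univ.filter (fun k => rk k = n), x k‖ₑ ^ 2 ≤ L * ∑ k, ‖x k‖ₑ ^ 2 := by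
  rw [← sum_rank rk fun k => ‖x k‖ₑ ^ 2, Finset.mul_sum]
  refine Finset.sum_le_sum fun n _ => (cs_fin _ _).trans ?_
  gcongr
  exact hL n

theorem Ff.two (h : Ff P F rk G) (L : ℕ)
    (hL : ∀ n, (Finset.univ.filter fun k => rk k = n).card ≤ L) :
    ∫⁻ ω, ‖∑ k, G k ω‖ₑ ^ 2 ∂P ≤ L * ∫⁻ ω, ∑ k, ‖G k ω‖ₑ ^ 2 ∂P := by
  have h1 := mart2 h.fs (Finset.univ.sup rk + 1)
  have e1 : ∀ ω, ∑ n ∈ Finset.range (Finset.univ.sup rk + 1),
      ∑ k ∈ Finset.univ.filter (fun k => rk k = n), G k ω = ∑ k, G k ω := fun ω =>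
    sum_rank rk fun k => G k ω
  simp only [e1] at h1
  refine h1.trans ?_
  rw [← lintegral_const_mul' _ _ (ENNReal.natCast_ne_top L)]
  exact lintegral_mono fun ω => sum_rank_sq rk L hL fun k => G k ω

theorem Ff.four (h : Ff P F rk G) (L : ℕ)
    (hL : ∀ n, (Finset.univ.filter fun k => rk k = n).card ≤ L) :
    ∫⁻ ω, ‖∑ k, G k ω‖ₑ ^ 4 ∂P ≤
      ENNReal.ofReal 588 * (L : ℝ≥0∞) ^ 2 * ∫⁻ ω, (∑ k, ‖G k ω‖ₑ ^ 2) ^ 2 ∂P := by
  have h1 := mart4 h.fs (Finset.univ.sup rk + 1)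
  have e1 : ∀ ω, ∑ n ∈ Finset.range (Finset.univ.sup rk + 1),
      ∑ k ∈ Finset.univ.filter (fun k => rk k = n), G k ω = ∑ k, G k ω := fun ω =>
    sum_rank rk fun k => G k ω
  simp only [e1] at h1
  refine h1.trans ?_
  rw [mul_assoc, ← lintegral_const_mul' _ _ (ENNReal.pow_ne_top (ENNReal.natCast_ne_top L))]
  gcongr with ω
  rw [← mul_pow]
  exact pow_le_pow_left' (sum_rank_sq rk L hL fun k => G k ω) 2

/-- the moments of order `2 + 2t` of a fair family of random functions -/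
theorem fair_interp {X : Type*} [MeasurableSpace X] (μ : Measure X) [SFinite μ]
    (H : Fin N → Ω → X → ℂ) (hH : ∀ k, Measurable fun q : Ω × X => H k q.1 q.2)
    (L : ℕ) (hL : ∀ n, (Finset.univ.filter fun k => rk k = n).card ≤ L)
    (hf : ∀ x, Ff P F rk fun k ω => H k ω x) (t : ℝ) (ht0 : 0 ≤ t) (ht1 : t ≤ 1)
    (A2 A4 : ℝ≥0∞) (h2 : ∀ ω, ∫⁻ x, ∑ k, ‖H k ω x‖ₑ ^ 2 ∂μ ≤ A2)
    (h4 : ∀ ω, ∫⁻ x, (∑ k, ‖H k ω x‖ₑ ^ 2) ^ 2 ∂μ ≤ A4) :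
    ∫⁻ ω, ∫⁻ x, ‖∑ k, H k ω x‖ₑ ^ (2 + 2 * t) ∂μ ∂P ≤
      (L * A2) ^ (1 - t) * (ENNReal.ofReal 588 * (L : ℝ≥0∞) ^ 2 * A4) ^ t := by
  have hS : Measurable fun q : Ω × X => ∑ k, H k q.1 q.2 :=
    Finset.measurable_fun_sum _ fun k _ => hH k
  have hQ : Measurable fun q : Ω × X => ∑ k, ‖H k q.1 q.2‖ₑ ^ 2 :=
    Finset.measurable_fun_sum _ fun k _ => (hH k).enorm.pow_const 2
  -- interpolation on the product space
  have i0 := ENNReal.lintegral_mul_norm_pow_le (μ := P.prod μ)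
    (f := fun q : Ω × X => ‖∑ k, H k q.1 q.2‖ₑ ^ 2)
    (g := fun q : Ω × X => ‖∑ k, H k q.1 q.2‖ₑ ^ 4)
    (hS.enorm.pow_const 2).aemeasurable (hS.enorm.pow_const 4).aemeasurable
    (p := 1 - t) (q := t) (by linarith) ht0 (by ring)
  have e0 : ∀ q : Ω × X, (‖∑ k, H k q.1 q.2‖ₑ ^ 2) ^ (1 - t) * (‖∑ k, H k q.1 q.2‖ₑ ^ 4) ^ t =
      ‖∑ k, H k q.1 q.2‖ₑ ^ (2 + 2 * t) := by
    intro q
    rw [← ENNReal.rpow_natCast, ← ENNReal.rpow_natCast, ← ENNReal.rpow_mul, ← ENNReal.rpow_mul,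
      ← ENNReal.rpow_add_of_nonneg _ _ (by push_cast; linarith) (by push_cast; linarith)]
    congr 1
    push_cast
    ring
  simp only [e0] at i0
  rw [lintegral_prod _ (hS.enorm.pow_const _).aemeasurable] at i0
  refine i0.trans (mul_le_mul' (ENNReal.rpow_le_rpow ?_ (by linarith))
    (ENNReal.rpow_le_rpow ?_ ht0))
  · rw [lintegral_prod_symm' _ (hS.enorm.pow_const 2)]
    calc ∫⁻ x, ∫⁻ ω, ‖∑ k, H k ω x‖ₑ ^ 2 ∂P ∂μ
        ≤ ∫⁻ x, L * ∫⁻ ω, ∑ k, ‖H k ω x‖ₑ ^ 2 ∂P ∂μ :=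
          lintegral_mono fun x => (hf x).two L hL
      _ = L * ∫⁻ x, ∫⁻ ω, ∑ k, ‖H k ω x‖ₑ ^ 2 ∂P ∂μ :=
          lintegral_const_mul' _ _ (ENNReal.natCast_ne_top L)
      _ = L * ∫⁻ ω, ∫⁻ x, ∑ k, ‖H k ω x‖ₑ ^ 2 ∂μ ∂P := by
          rw [← lintegral_prod_symm' (μ := P) (ν := μ) _ hQ, lintegral_prod _ hQ.aemeasurable]
      _ ≤ L * ∫⁻ _, A2 ∂P := by
          gcongr with ω
          exact h2 ω
      _ = L * A2 := by simp
  · rw [lintegral_prod_symm' _ (hS.enorm.pow_const 4)]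
    have hc : ENNReal.ofReal 588 * (L : ℝ≥0∞) ^ 2 ≠ ⊤ :=
      ENNReal.mul_ne_top ENNReal.ofReal_ne_top (ENNReal.pow_ne_top (ENNReal.natCast_ne_top L))
    calc ∫⁻ x, ∫⁻ ω, ‖∑ k, H k ω x‖ₑ ^ 4 ∂P ∂μ
        ≤ ∫⁻ x, ENNReal.ofReal 588 * (L : ℝ≥0∞) ^ 2 *
            ∫⁻ ω, (∑ k, ‖H k ω x‖ₑ ^ 2) ^ 2 ∂P ∂μ :=
          lintegral_mono fun x => (hf x).four L hL
      _ = ENNReal.ofReal 588 * (L : ℝ≥0∞) ^ 2 *
            ∫⁻ x, ∫⁻ ω, (∑ k, ‖H k ω x‖ₑ ^ 2) ^ 2 ∂P ∂μ :=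
          lintegral_const_mul' _ _ hc
      _ = ENNReal.ofReal 588 * (L : ℝ≥0∞) ^ 2 *
            ∫⁻ ω, ∫⁻ x, (∑ k, ‖H k ω x‖ₑ ^ 2) ^ 2 ∂μ ∂P := by
          rw [← lintegral_prod_symm' (μ := P) (ν := μ) _ (hQ.pow_const 2),
            lintegral_prod _ (hQ.pow_const 2).aemeasurable]
      _ ≤ ENNReal.ofReal 588 * (L : ℝ≥0∞) ^ 2 * ∫⁻ _, A4 ∂P := by
          gcongr with ω
          exact h4 ω
      _ = _ := by simp

end Pool.Agent.V5helper17.SR
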