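import Mathlib
set_option autoImplicit false

/-! # An oscillatory integral over an interval, bounded by a weighted `L^2` norm -/

namespace Pool.Agent.V5helper17.SR

open MeasureTheory Set intervalIntegral

theorem cs_ii {a b : ℝ} (hab : a ≤ b) (f g : ℝ → ℝ) (hf : ContinuousOn f (Icc a b))
    (hg : ContinuousOn g (Icc a b)) :
    (∫ x in a..b, f x * g x) ^ 2 ≤ (∫ x in a..b, f x ^ 2) * ∫ x in a..b, g x ^ 2 := by
  have hu : uIcc a b = Icc a b := uIcc_of_le hab
  have i1 : IntervalIntegrable (fun x => f x ^ 2) volume a b :=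
    ContinuousOn.intervalIntegrable (by rw [hu]; exact hf.pow 2)
  have i2 : IntervalIntegrable (fun x => g x ^ 2) volume a b :=
    ContinuousOn.intervalIntegrable (by rw [hu]; exact hg.pow 2)
  have i3 : IntervalIntegrable (fun x => f x * g x) volume a b :=
    ContinuousOn.intervalIntegrable (by rw [hu]; exact hf.mul hg)
  have key : ∀ t : ℝ, 0 ≤ (∫ x in a..b, f x ^ 2) * (t * t) + (2 * ∫ x in a..b, f x * g x) * t +
      ∫ x in a..b, g x ^ 2 := by
    intro t
    have h1 : (∫ x in a..b, (t * f x + g x) ^ 2) = (∫ x in a..b, f x ^ 2) * (t * t) +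
        (2 * ∫ x in a..b, f x * g x) * t + ∫ x in a..b, g x ^ 2 := by
      have e : (fun x => (t * f x + g x) ^ 2) = fun x => ((t * t) * f x ^ 2 +
          (2 * t) * (f x * g x)) + g x ^ 2 := by
        funext x; ring
      rw [e, intervalIntegral.integral_add ((i1.const_mul _).add (i3.const_mul _)) i2,
        intervalIntegral.integral_add (i1.const_mul _) (i3.const_mul _),
        intervalIntegral.integral_const_mul, intervalIntegral.integral_const_mul]
      ring
    rw [← h1]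
    exact intervalIntegral.integral_nonneg hab fun x _ => sq_nonneg _
  have h := discrim_le_zero key
  unfold discrim at h
  nlinarith

theorem cs_one {a b : ℝ} (hab : a ≤ b) (f : ℝ → ℝ) (hf : ContinuousOn f (Icc a b)) :
    (∫ x in a..b, f x) ^ 2 ≤ (b - a) * ∫ x in a..b, f x ^ 2 := by
  have h := cs_ii hab f (fun _ => 1) hf continuousOn_const
  simp only [mul_one, one_pow, intervalIntegral.integral_const, smul_eq_mul] at h
  linarith

/-- the setting -/
structure Os (a b ρ η : ℝ) (s s' : ℝ → ℝ) (σ : ℂ) (e e1 : ℝ → ℂ) : Prop where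
  hab : a ≤ b
  hρ : 0 < ρ
  hη : 0 < η
  hρη : 1 ≤ ρ * η ^ 2
  hs : ∀ x, HasDerivAt s (s' x) x
  hs'c : Continuous s'
  hs'1 : ∀ x, |s' x| ≤ 1
  hsη : ∀ x ∈ Icc a b, η ≤ s x
  he : Continuous e
  hσ : ‖σ‖ = 1
  h1 : ∀ x, HasDerivAt e1 (σ * (ρ : ℂ) * (s x : ℂ) * e x) x

namespace Os

variable {a b ρ η : ℝ} {s s' : ℝ → ℝ} {σ : ℂ} {e e1 : ℝ → ℂ}

theorem cs (h : Os a b ρ η s s' σ e e1) : Continuous s :=
  continuous_iff_continuousAt.2 fun x => (h.hs x).continuousAt

theorem ce1 (h : Os a b ρ η s s' σ e e1) : Continuous e1 :=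
  continuous_iff_continuousAt.2 fun x => (h.h1 x).continuousAt

theorem spos (h : Os a b ρ η s s' σ e e1) {x : ℝ} (hx : x ∈ Icc a b) : 0 < s x :=
  lt_of_lt_of_le h.hη (h.hsη x hx)

theorem s_lip (h : Os a b ρ η s s' σ e e1) (x y : ℝ) : |s x - s y| ≤ |x - y| := by
  have := Convex.norm_image_sub_le_of_norm_hasDerivWithin_le (f := s) (f' := s') (s := univ)
    (C := 1) (x := y) (y := x) (fun z _ => (h.hs z).hasDerivWithinAt)
    (fun z _ => by rw [Real.norm_eq_abs]; exact h.hs'1 z) convex_univ (mem_univ _) (mem_univ _)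
  simpa [Real.norm_eq_abs] using this

/-- comparability inside a window -/
theorem win (h : Os a b ρ η s s' σ e e1) {x0 x : ℝ} (hx0 : x0 ∈ Icc a b)
    (hx : |x - x0| ≤ 1 / (2 * ρ * s x0)) : s x0 / 2 ≤ s x ∧ s x ≤ 3 / 2 * s x0 := by
  have h0 := h.spos hx0
  have hρ := h.hρ
  have h1 : 1 / (2 * ρ * s x0) ≤ s x0 / 2 := by
    have hη := h.hη
    have h2 := h.hsη x0 hx0
    rw [div_le_div_iff₀ (by positivity) (by norm_num)]
    have h3 : η ^ 2 ≤ s x0 ^ 2 := pow_le_pow_left₀ hη.le h2 2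
    have h4 : ρ * η ^ 2 ≤ ρ * s x0 ^ 2 := by gcongr
    have h5 := h.hρη
    nlinarith
  have h2 := h.s_lip x x0
  have h3 := abs_le.1 (h2.trans (hx.trans h1))
  constructor <;> linarith [h3.1, h3.2]

/-- the density -/
noncomputable def M (ρ : ℝ) (s : ℝ → ℝ) (e e1 : ℝ → ℂ) (x : ℝ) : ℝ :=
  (‖e x‖ ^ 2 + ‖e1 x‖ ^ 2) / (ρ * s x)

theorem M_cont (h : Os a b ρ η s s' σ e e1) : ContinuousOn (M ρ s e e1) (Icc a b) := by
  unfold M
  have h1 := h.cs
  have h2 := h.ce1
  have h3 := h.he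
  apply ContinuousOn.div
  · fun_prop
  · fun_prop
  · intro x hx
    exact (mul_pos h.hρ (h.spos hx)).ne'

theorem M_nonneg (h : Os a b ρ η s s' σ e e1) {x : ℝ} (hx : x ∈ Icc a b) : 0 ≤ M ρ s e e1 x := by
  unfold M
  have := mul_pos h.hρ (h.spos hx)
  positivity

theorem M_int (h : Os a b ρ η s s' σ e e1) {c d : ℝ} (hc : a ≤ c) (hcd : c ≤ d) (hd : d ≤ b) :
    IntervalIntegrable (M ρ s e e1) volume c d :=
  ContinuousOn.intervalIntegrable (by
    rw [uIcc_of_le hcd]
    exact h.M_cont.mono (Icc_subset_Icc hc hd))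

theorem M_le (h : Os a b ρ η s s' σ e e1) {c d : ℝ} (hc : a ≤ c) (hcd : c ≤ d) (hd : d ≤ b) :
    ∫ x in c..d, M ρ s e e1 x ≤ ∫ x in a..b, M ρ s e e1 x := by
  have i := h.M_int le_rfl h.hab le_rfl
  apply intervalIntegral.integral_mono_interval hc hcd hd _ i
  filter_upwards [ae_restrict_mem measurableSet_Ioc] with x hx
  exact h.M_nonneg (Ioc_subset_Icc_self hx)

/-- short intervals -/
theorem short (h : Os a b ρ η s s' σ e e1) {x0 : ℝ} (hx0 : x0 ∈ Icc a b)
    (hw : b - a ≤ 1 / (2 * ρ * s x0)) :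
    ‖∫ x in a..b, e x‖ ^ 2 ≤ ∫ x in a..b, M ρ s e e1 x := by
  have h0 := h.spos hx0
  have hρ := h.hρ
  have hab := h.hab
  have h1 : ‖∫ x in a..b, e x‖ ≤ ∫ x in a..b, ‖e x‖ := by
    exact intervalIntegral.norm_integral_le_integral_norm hab
  have h2 : ‖∫ x in a..b, e x‖ ^ 2 ≤ (∫ x in a..b, ‖e x‖) ^ 2 :=
    pow_le_pow_left₀ (norm_nonneg _) h1 2
  refine h2.trans ((cs_one hab _ h.he.norm.continuousOn).trans ?_)
  rw [← intervalIntegral.integral_const_mul]
  apply intervalIntegral.integral_mono_on hab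
  · exact ((h.he.norm.pow 2).const_mul _ |>.intervalIntegrable _ _)
  · exact h.M_int le_rfl hab le_rfl
  · intro x hx
    have h3 : |x - x0| ≤ 1 / (2 * ρ * s x0) := by
      refine le_trans ?_ hw
      rw [abs_le]
      constructor <;> linarith [hx.1, hx.2, hx0.1, hx0.2]
    have h4 := (h.win hx0 h3).2
    have h5 := h.spos hx
    unfold M
    rw [le_div_iff₀ (by positivity)]
    have h6 : (b - a) * (ρ * s x) ≤ 1 := by
      calc (b - a) * (ρ * s x) ≤ 1 / (2 * ρ * s x0) * (ρ * (3 / 2 * s x0)) := by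
            have : 0 ≤ b - a := by linarith
            gcongr
        _ = 3 / 4 := by field_simp; norm_num
        _ ≤ 1 := by norm_num
    calc (b - a) * ‖e x‖ ^ 2 * (ρ * s x) = ((b - a) * (ρ * s x)) * ‖e x‖ ^ 2 := by ring
      _ ≤ 1 * ‖e x‖ ^ 2 := by gcongr
      _ ≤ _ := by nlinarith [sq_nonneg ‖e1 x‖]

/-- the value at a point is bounded by the integral over a window -/
theorem pt (h : Os a b ρ η s s' σ e e1) {x0 c d : ℝ} (hc : a ≤ c) (hcd : c ≤ d) (hd : d ≤ b)
    (hx0 : x0 ∈ Icc c d) (hw : d - c = 1 / (2 * ρ * s x0)) :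
    (‖e1 x0‖ / (ρ * s x0)) ^ 2 ≤ 6 * ∫ x in c..d, M ρ s e e1 x := by
  have hx0' : x0 ∈ Icc a b := ⟨hc.trans hx0.1, hx0.2.trans hd⟩
  have h0 := h.spos hx0'
  have hρ := h.hρ
  have hp : 0 < ρ * s x0 := by positivity
  have hwin : ∀ x ∈ Icc c d, s x0 / 2 ≤ s x ∧ s x ≤ 3 / 2 * s x0 := fun x hx => by
    apply h.win hx0'
    rw [← hw, abs_le]
    constructor <;> linarith [hx.1, hx.2, hx0.1, hx0.2]
  set A := ∫ x in c..d, ‖e x‖ with hA
  set B := ∫ x in c..d, ‖e1 x‖ with hB
  have he := h.he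
  have he1 := h.ce1
  have hA0 : 0 ≤ A := intervalIntegral.integral_nonneg hcd fun x _ => norm_nonneg _
  have hB0 : 0 ≤ B := intervalIntegral.integral_nonneg hcd fun x _ => norm_nonneg _
  -- variation
  have hvar : ∀ x ∈ Icc c d, ‖e1 x0‖ ≤ ‖e1 x‖ + 3 / 2 * (ρ * s x0) * A := by
    intro x hx
    have hcont : Continuous fun y : ℝ => σ * (ρ : ℂ) * (s y : ℂ) * e y := by
      have := h.cs
      fun_prop
    have h1 : ∫ y in x..x0, (σ * (ρ : ℂ) * (s y : ℂ) * e y) = e1 x0 - e1 x :=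
      intervalIntegral.integral_eq_sub_of_hasDerivAt (fun y _ => h.h1 y)
        (hcont.intervalIntegrable _ _)
    have hsub : uIoc x x0 ⊆ Ioc c d := by
      intro y hy
      rcases le_total x x0 with hle | hle
      · rw [uIoc_of_le hle] at hy
        exact ⟨lt_of_le_of_lt hx.1 hy.1, hy.2.trans hx0.2⟩
      · rw [uIoc_of_ge hle] at hy
        exact ⟨lt_of_le_of_lt hx0.1 hy.1, hy.2.trans hx.2⟩
    have h2 : ‖∫ y in x..x0, (σ * (ρ : ℂ) * (s y : ℂ) * e y)‖ ≤ 3 / 2 * (ρ * s x0) * A := by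
      calc ‖∫ y in x..x0, (σ * (ρ : ℂ) * (s y : ℂ) * e y)‖
          ≤ ∫ y in uIoc x x0, ‖σ * (ρ : ℂ) * (s y : ℂ) * e y‖ :=
            intervalIntegral.norm_integral_le_integral_norm_uIoc
        _ ≤ ∫ y in Ioc c d, ‖σ * (ρ : ℂ) * (s y : ℂ) * e y‖ := by
            apply setIntegral_mono_set
            · exact (hcont.norm.continuousOn.integrableOn_Icc).mono_set Ioc_subset_Icc_self
            · exact Filter.Eventually.of_forall fun y => norm_nonneg _
            · exact hsub.eventuallyLE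
        _ = ∫ y in c..d, ‖σ * (ρ : ℂ) * (s y : ℂ) * e y‖ := by
            rw [intervalIntegral.integral_of_le hcd]
        _ ≤ ∫ y in c..d, 3 / 2 * (ρ * s x0) * ‖e y‖ := by
            apply intervalIntegral.integral_mono_on hcd
            · exact hcont.norm.intervalIntegrable _ _
            · exact (he.norm.const_mul _).intervalIntegrable _ _
            · intro y hy
              have h3 := hwin y hy
              have h4 : 0 < s y := by linarith [h3.1]
              rw [norm_mul, norm_mul, norm_mul, h.hσ, Complex.norm_real, Complex.norm_real,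
                Real.norm_of_nonneg hρ.le, Real.norm_of_nonneg h4.le, one_mul]
              apply mul_le_mul_of_nonneg_right _ (norm_nonneg _)
              nlinarith [h3.2]
        _ = _ := by rw [intervalIntegral.integral_const_mul]
    rw [h1] at h2
    calc ‖e1 x0‖ = ‖e1 x + (e1 x0 - e1 x)‖ := by congr 1; ring
      _ ≤ ‖e1 x‖ + ‖e1 x0 - e1 x‖ := norm_add_le _ _
      _ ≤ _ := by linarith
  -- average
  have hav : (d - c) * ‖e1 x0‖ ≤ B + (d - c) * (3 / 2 * (ρ * s x0) * A) := by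
    have h1 : ∫ x in c..d, ‖e1 x0‖ ≤ ∫ x in c..d, (‖e1 x‖ + 3 / 2 * (ρ * s x0) * A) := by
      apply intervalIntegral.integral_mono_on hcd
      · exact intervalIntegrable_const
      · exact (he1.norm.add continuous_const).intervalIntegrable _ _
      · exact hvar
    rw [intervalIntegral.integral_const, smul_eq_mul, intervalIntegral.integral_add
      (he1.norm.intervalIntegrable _ _) intervalIntegrable_const, intervalIntegral.integral_const,
      smul_eq_mul] at h1
    exact h1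
  have hdiv : ‖e1 x0‖ / (ρ * s x0) ≤ 2 * (A + B) := by
    rw [hw] at hav
    have h2 : 1 / (2 * ρ * s x0) * ‖e1 x0‖ = (‖e1 x0‖ / (ρ * s x0)) / 2 := by
      field_simp
    have h3 : 1 / (2 * ρ * s x0) * (3 / 2 * (ρ * s x0) * A) = 3 / 4 * A := by
      field_simp
      ring
    rw [h2, h3] at hav
    linarith
  have h4 : (‖e1 x0‖ / (ρ * s x0)) ^ 2 ≤ 4 * (A + B) ^ 2 := by
    have h5 : 0 ≤ ‖e1 x0‖ / (ρ * s x0) := by positivity
    calc _ ≤ (2 * (A + B)) ^ 2 := pow_le_pow_left₀ h5 hdiv 2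
      _ = _ := by ring
  have h5 : (A + B) ^ 2 ≤ (d - c) * ∫ x in c..d, (‖e x‖ + ‖e1 x‖) ^ 2 := by
    rw [hA, hB, ← intervalIntegral.integral_add (he.norm.intervalIntegrable _ _)
      (he1.norm.intervalIntegrable _ _)]
    exact cs_one hcd _ (he.norm.add he1.norm).continuousOn
  have h6 : (d - c) * ∫ x in c..d, (‖e x‖ + ‖e1 x‖) ^ 2 ≤ 3 / 2 * ∫ x in c..d, M ρ s e e1 x := by
    rw [← intervalIntegral.integral_const_mul, ← intervalIntegral.integral_const_mul]
    apply intervalIntegral.integral_mono_on hcd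
    · exact (((he.norm.add he1.norm).pow 2).const_mul _).intervalIntegrable _ _
    · exact (h.M_int hc hcd hd).const_mul _
    · intro x hx
      have h7 := hwin x hx
      have h8 : 0 < s x := by linarith [h7.1]
      unfold M
      rw [← mul_div_assoc, le_div_iff₀ (by positivity), hw]
      have h9 : 1 / (2 * ρ * s x0) * (ρ * s x) ≤ 3 / 4 := by
        calc 1 / (2 * ρ * s x0) * (ρ * s x) ≤ 1 / (2 * ρ * s x0) * (ρ * (3 / 2 * s x0)) := by
              gcongr
              exact h7.2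
          _ = 3 / 4 := by field_simp; norm_num
      calc 1 / (2 * ρ * s x0) * (‖e x‖ + ‖e1 x‖) ^ 2 * (ρ * s x)
          = (1 / (2 * ρ * s x0) * (ρ * s x)) * (‖e x‖ + ‖e1 x‖) ^ 2 := by ring
        _ ≤ 3 / 4 * (‖e x‖ + ‖e1 x‖) ^ 2 := by gcongr
        _ ≤ _ := by nlinarith [sq_nonneg (‖e x‖ - ‖e1 x‖)]
  linarith

theorem main (h : Os a b ρ η s s' σ e e1) (C0 : ℝ) (hC0 : ∫ x in a..b, 1 / (ρ * s x ^ 3) ≤ C0) :
    ‖∫ x in a..b, e x‖ ^ 2 ≤ (36 + 3 * C0) * ∫ x in a..b, M ρ s e e1 x := by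
  have hab := h.hab
  have hρ := h.hρ
  have he := h.he
  have he1 := h.ce1
  have hsc := h.cs
  have ha : a ∈ Icc a b := left_mem_Icc.2 hab
  have hb : b ∈ Icc a b := right_mem_Icc.2 hab
  set X := ∫ x in a..b, M ρ s e e1 x with hX
  have hX0 : 0 ≤ X := intervalIntegral.integral_nonneg hab fun x hx => h.M_nonneg hx
  have hC00 : 0 ≤ C0 := by
    refine le_trans ?_ hC0
    apply intervalIntegral.integral_nonneg hab
    intro x hx
    have := h.spos hx
    positivity
  have big : ‖∫ x in a..b, e x‖ ^ 2 ≤ X → ‖∫ x in a..b, e x‖ ^ 2 ≤ (36 + 3 * C0) * X := by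
    intro h1
    nlinarith [mul_nonneg hC00 hX0]
  rcases le_or_gt (b - a) (1 / (2 * ρ * s a)) with c1 | c1
  · exact big (h.short ha c1)
  rcases le_or_gt (b - a) (1 / (2 * ρ * s b)) with c2 | c2
  · exact big (h.short hb c2)
  have sa := h.spos ha
  have sb := h.spos hb
  -- the endpoints
  have wa : 0 < 1 / (2 * ρ * s a) := by positivity
  have wb : 0 < 1 / (2 * ρ * s b) := by positivity
  have pa : (‖e1 a‖ / (ρ * s a)) ^ 2 ≤ 6 * X := by
    refine (h.pt (x0 := a) (c := a) (d := a + 1 / (2 * ρ * s a)) le_rfl (by linarith)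
      (by linarith) ⟨le_rfl, by linarith⟩ (by ring)).trans ?_
    gcongr
    exact h.M_le le_rfl (by linarith) (by linarith)
  have pb : (‖e1 b‖ / (ρ * s b)) ^ 2 ≤ 6 * X := by
    refine (h.pt (x0 := b) (c := b - 1 / (2 * ρ * s b)) (d := b) (by linarith) (by linarith)
      le_rfl ⟨by linarith, le_rfl⟩ (by ring)).trans ?_
    gcongr
    exact h.M_le (by linarith) (by linarith) le_rfl
  -- integration by parts
  have hσ0 : σ ≠ 0 := by
    intro h0
    have := h.hσ
    rw [h0, norm_zero] at this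
    norm_num at this
  have hs0 : ∀ x ∈ Icc a b, (s x : ℂ) ≠ 0 := fun x hx => by
    exact_mod_cast (h.spos hx).ne'
  have hρ0 : (ρ : ℂ) ≠ 0 := by exact_mod_cast hρ.ne'
  set v : ℝ → ℂ := fun x => (σ * (ρ : ℂ) * (s x : ℂ))⁻¹ with hv
  set v' : ℝ → ℂ := fun x => -(σ * (ρ : ℂ) * (s' x : ℂ)) / (σ * (ρ : ℂ) * (s x : ℂ)) ^ 2 with hv'
  have hu : uIcc a b = Icc a b := uIcc_of_le hab
  have hvd : ∀ x ∈ uIcc a b, HasDerivAt v (v' x) x := by
    intro x hx
    rw [hu] at hx
    have h2 : HasDerivAt (fun x => σ * (ρ : ℂ) * (s x : ℂ)) (σ * (ρ : ℂ) * (s' x : ℂ)) x :=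
      ((h.hs x).ofReal_comp).const_mul _
    exact h2.inv (mul_ne_zero (mul_ne_zero hσ0 hρ0) (hs0 x hx))
  have hv'c : ContinuousOn v' (uIcc a b) := by
    rw [hu, hv']
    have := h.hs'c
    apply ContinuousOn.div
    · fun_prop
    · fun_prop
    · intro x hx
      exact pow_ne_zero _ (mul_ne_zero (mul_ne_zero hσ0 hρ0) (hs0 x hx))
  have hdc : Continuous fun x : ℝ => σ * (ρ : ℂ) * (s x : ℂ) * e x := by fun_prop
  have hibp := intervalIntegral.integral_mul_deriv_eq_deriv_mul (u := v) (v := e1) (u' := v')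
    (v' := fun x => σ * (ρ : ℂ) * (s x : ℂ) * e x) hvd (fun x _ => h.h1 x)
    (hv'c.intervalIntegrable) (hdc.intervalIntegrable _ _)
  have hlhs : ∫ x in a..b, v x * (σ * (ρ : ℂ) * (s x : ℂ) * e x) = ∫ x in a..b, e x := by
    apply intervalIntegral.integral_congr
    intro x hx
    rw [hu] at hx
    have : σ * (ρ : ℂ) * (s x : ℂ) ≠ 0 := mul_ne_zero (mul_ne_zero hσ0 hρ0) (hs0 x hx)
    simp only [hv]
    rw [inv_mul_cancel_left₀ this]
  rw [hlhs] at hibp
  have nv : ∀ x ∈ Icc a b, ‖v x‖ = 1 / (ρ * s x) := by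
    intro x hx
    rw [hv]
    simp only
    rw [norm_inv, norm_mul, norm_mul, h.hσ, Complex.norm_real, Complex.norm_real,
      Real.norm_of_nonneg hρ.le, Real.norm_of_nonneg (h.spos hx).le]
    simp
  have nv' : ∀ x ∈ Icc a b, ‖v' x‖ ≤ 1 / (ρ * s x ^ 2) := by
    intro x hx
    have h2 := h.spos hx
    rw [hv']
    simp only
    rw [norm_div, norm_neg, norm_pow, norm_mul, norm_mul, norm_mul, norm_mul, h.hσ,
      Complex.norm_real, Complex.norm_real, Complex.norm_real, Real.norm_of_nonneg hρ.le,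
      Real.norm_of_nonneg h2.le, Real.norm_eq_abs]
    rw [div_le_div_iff₀ (by positivity) (by positivity)]
    have h3 := h.hs'1 x
    have h4 : 0 ≤ ρ ^ 2 * s x ^ 2 := by positivity
    nlinarith
  have h3 : ‖∫ x in a..b, v' x * e1 x‖ ^ 2 ≤ C0 * X := by
    have i1 : ContinuousOn (fun x => Real.sqrt (1 / (ρ * s x ^ 3))) (Icc a b) := by
      apply ContinuousOn.sqrt
      apply ContinuousOn.div continuousOn_const
      · fun_prop
      · intro x hx
        have := h.spos hx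
        positivity
    have i2 : ContinuousOn (fun x => ‖e1 x‖ * Real.sqrt (1 / (ρ * s x))) (Icc a b) := by
      apply ContinuousOn.mul he1.norm.continuousOn
      apply ContinuousOn.sqrt
      apply ContinuousOn.div continuousOn_const
      · fun_prop
      · intro x hx
        have := h.spos hx
        positivity
    have h4 : ‖∫ x in a..b, v' x * e1 x‖ ≤ ∫ x in a..b, Real.sqrt (1 / (ρ * s x ^ 3)) *
        (‖e1 x‖ * Real.sqrt (1 / (ρ * s x))) := by
      refine (intervalIntegral.norm_integral_le_integral_norm hab).trans ?_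
      apply intervalIntegral.integral_mono_on hab
      · apply ContinuousOn.intervalIntegrable
        exact (hv'c.mul he1.continuousOn).norm
      · apply ContinuousOn.intervalIntegrable
        rw [hu]
        exact i1.mul i2
      · intro x hx
        have h2 := h.spos hx
        rw [norm_mul]
        have e2 : Real.sqrt (1 / (ρ * s x ^ 3)) * Real.sqrt (1 / (ρ * s x)) = 1 / (ρ * s x ^ 2) := by
          rw [← Real.sqrt_mul (by positivity)]
          have : 1 / (ρ * s x ^ 3) * (1 / (ρ * s x)) = (1 / (ρ * s x ^ 2)) ^ 2 := by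
            field_simp
          rw [this, Real.sqrt_sq (by positivity)]
        calc ‖v' x‖ * ‖e1 x‖ ≤ 1 / (ρ * s x ^ 2) * ‖e1 x‖ := by
              gcongr
              exact nv' x hx
          _ = _ := by rw [← e2]; ring
    have h5 := cs_ii hab _ _ i1 i2
    have h6 : ∫ x in a..b, Real.sqrt (1 / (ρ * s x ^ 3)) ^ 2 ≤ C0 := by
      refine le_trans (le_of_eq ?_) hC0
      apply intervalIntegral.integral_congr
      intro x hx
      rw [hu] at hx
      have := h.spos hx
      simp only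
      rw [Real.sq_sqrt (by positivity)]
    have h7 : ∫ x in a..b, (‖e1 x‖ * Real.sqrt (1 / (ρ * s x))) ^ 2 ≤ X := by
      apply intervalIntegral.integral_mono_on hab
      · apply ContinuousOn.intervalIntegrable
        rw [hu]
        exact i2.pow 2
      · exact h.M_int le_rfl hab le_rfl
      · intro x hx
        have h2 := h.spos hx
        rw [mul_pow, Real.sq_sqrt (by positivity)]
        unfold M
        rw [mul_one_div]
        gcongr
        nlinarith [sq_nonneg ‖e x‖]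
    have h70 : 0 ≤ ∫ x in a..b, (‖e1 x‖ * Real.sqrt (1 / (ρ * s x))) ^ 2 :=
      intervalIntegral.integral_nonneg hab fun x _ => sq_nonneg _
    calc ‖∫ x in a..b, v' x * e1 x‖ ^ 2 ≤ (∫ x in a..b, Real.sqrt (1 / (ρ * s x ^ 3)) *
        (‖e1 x‖ * Real.sqrt (1 / (ρ * s x)))) ^ 2 := pow_le_pow_left₀ (norm_nonneg _) h4 2
      _ ≤ _ := h5
      _ ≤ C0 * X := mul_le_mul h6 h7 h70 hC00
  rw [hibp]
  have n1 : ‖v b * e1 b‖ ^ 2 ≤ 6 * X := by
    rw [norm_mul, nv b hb, one_div_mul_eq_div]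
    exact pb
  have n2 : ‖v a * e1 a‖ ^ 2 ≤ 6 * X := by
    rw [norm_mul, nv a ha, one_div_mul_eq_div]
    exact pa
  have n3 : ‖v b * e1 b - v a * e1 a - ∫ x in a..b, v' x * e1 x‖ ≤
      ‖v b * e1 b‖ + ‖v a * e1 a‖ + ‖∫ x in a..b, v' x * e1 x‖ :=
    (norm_sub_le _ _).trans (by gcongr; exact norm_sub_le _ _)
  set x1 := ‖v b * e1 b‖
  set x2 := ‖v a * e1 a‖
  set x3 := ‖∫ x in a..b, v' x * e1 x‖
  calc _ ≤ (x1 + x2 + x3) ^ 2 := pow_le_pow_left₀ (norm_nonneg _) n3 2
    _ ≤ 3 * (x1 ^ 2 + x2 ^ 2 + x3 ^ 2) := by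
        nlinarith [sq_nonneg (x1 - x2), sq_nonneg (x1 - x3), sq_nonneg (x2 - x3)]
    _ ≤ _ := by nlinarith

end Os

end Pool.Agent.V5helper17.SR
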