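import Mathlib
import Pool.Agent.V5helper17.SR.Osc
set_option autoImplicit false

/-! # The integral of a wave over an arc is bounded by a weighted `L^2` norm over the arc -/

namespace Pool.Agent.V5helper17.SR

open MeasureTheory Set
open scoped ENNReal

/-- the weight -/
noncomputable def KR (R ε : ℝ) (x : ℝ) : ℝ≥0∞ :=
  ENNReal.ofReal (R ^ (-1 + ε / 2)) * ENNReal.ofReal |Real.sin x| ^ (-(1 - ε))

theorem KR_meas (R ε : ℝ) : Measurable (KR R ε) := by
  unfold KR
  have : Measurable fun x : ℝ => |Real.sin x| := by fun_prop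
  exact measurable_const.mul (this.ennreal_ofReal.pow_const _)

/-- the setting: `e` and its primitive -/
structure Wv (ρ : ℝ) (e e1 : ℝ → ℂ) : Prop where
  he : Continuous e
  h1 : ∀ x, HasDerivAt e1 (Complex.I * (ρ : ℂ) * (Real.sin x : ℂ) * e x) x

theorem Wv.ce1 {ρ : ℝ} {e e1 : ℝ → ℂ} (h : Wv ρ e e1) : Continuous e1 :=
  continuous_iff_continuousAt.2 fun x => (h.h1 x).continuousAt

/-- the integrand on the right -/
noncomputable def Rt (R ε : ℝ) (e e1 : ℝ → ℂ) (x : ℝ) : ℝ≥0∞ :=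
  KR R ε x * (‖e x‖ₑ ^ 2 + ‖e1 x‖ₑ ^ 2)

theorem enorm_sq' (z : ℂ) : ‖z‖ₑ ^ 2 = ENNReal.ofReal (‖z‖ ^ 2) := by
  rw [← ofReal_norm, ← ENNReal.ofReal_pow (norm_nonneg _)]

theorem near {R ε c d : ℝ} (hR : 1 ≤ R) (hε0 : 0 < ε) (hε1 : ε < 1) {ρ : ℝ} {e e1 : ℝ → ℂ}
    (h : Wv ρ e e1) (hcd : c ≤ d) (hl : d - c ≤ Real.pi * R ^ (-(1 / 2) : ℝ))
    (hs : ∀ x ∈ Icc c d, |Real.sin x| ≤ Real.pi / 2 * R ^ (-(1 / 2) : ℝ)) :
    ‖∫ x in c..d, e x‖ₑ ^ 2 ≤ ENNReal.ofReal 42 * ∫⁻ x in Ioc c d, Rt R ε e e1 x := by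
  have hR0 : 0 < R := by linarith
  have hpi := Real.pi_pos
  have he := h.he
  set η : ℝ := R ^ (-(1 / 2) : ℝ) with hη
  have hη0 : 0 < η := by positivity
  have h1 : ‖∫ x in c..d, e x‖ ^ 2 ≤ (d - c) * ∫ x in c..d, ‖e x‖ ^ 2 :=
    (pow_le_pow_left₀ (norm_nonneg _) (intervalIntegral.norm_integral_le_integral_norm hcd) 2).trans
      (cs_one hcd _ he.norm.continuousOn)
  have h2 : ENNReal.ofReal (∫ x in c..d, ‖e x‖ ^ 2) = ∫⁻ x in Ioc c d, ‖e x‖ₑ ^ 2 := by
    rw [intervalIntegral.integral_of_le hcd, ofReal_integral_eq_lintegral_ofReal]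
    · simp only [enorm_sq']
    · exact ((he.norm.pow 2).continuousOn.integrableOn_Icc).mono_set Ioc_subset_Icc_self
    · exact Filter.Eventually.of_forall fun x => by positivity
  have hK : ∀ x ∈ Ioc c d, ENNReal.ofReal (Real.pi * η) ≤ ENNReal.ofReal 42 * KR R ε x := by
    intro x hx
    have h3 := hs x (Ioc_subset_Icc_self hx)
    unfold KR
    have h4 : ENNReal.ofReal (Real.pi / 2 * η) ^ (-(1 - ε)) ≤
        ENNReal.ofReal |Real.sin x| ^ (-(1 - ε)) := by
      rw [ENNReal.rpow_neg, ENNReal.rpow_neg, ENNReal.inv_le_inv]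
      exact ENNReal.rpow_le_rpow (ENNReal.ofReal_le_ofReal h3) (by linarith)
    refine le_trans ?_ (mul_le_mul_right (mul_le_mul_right h4 _) _)
    rw [ENNReal.ofReal_rpow_of_pos (by positivity), ← ENNReal.ofReal_mul (by positivity),
      ← ENNReal.ofReal_mul (by norm_num)]
    apply ENNReal.ofReal_le_ofReal
    have h5 : R ^ (-1 + ε / 2) * (Real.pi / 2 * η) ^ (-(1 - ε)) =
        (Real.pi / 2) ^ (-(1 - ε)) * η := by
      rw [Real.mul_rpow (by positivity) hη0.le, hη, ← Real.rpow_mul hR0.le]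
      have : R ^ (-1 + ε / 2) * R ^ (-(1 / 2) * -(1 - ε)) = R ^ (-(1 / 2) : ℝ) := by
        rw [← Real.rpow_add hR0]
        congr 1
        ring
      calc R ^ (-1 + ε / 2) * ((Real.pi / 2) ^ (-(1 - ε)) * R ^ (-(1 / 2) * -(1 - ε)))
          = (Real.pi / 2) ^ (-(1 - ε)) * (R ^ (-1 + ε / 2) * R ^ (-(1 / 2) * -(1 - ε))) := by ring
        _ = _ := by rw [this]
    rw [h5]
    have h6 : (Real.pi / 2) ^ (-1 : ℝ) ≤ (Real.pi / 2) ^ (-(1 - ε)) :=
      Real.rpow_le_rpow_of_exponent_le (by linarith [Real.pi_gt_three]) (by linarith)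
    have h7 : (Real.pi / 2) ^ (-1 : ℝ) = 2 / Real.pi := by
      rw [Real.rpow_neg_one, inv_div]
    rw [h7] at h6
    have h8 : Real.pi ≤ 42 * (2 / Real.pi) := by
      rw [← mul_div_assoc, le_div_iff₀ hpi]
      nlinarith [Real.pi_lt_four]
    calc Real.pi * η ≤ 42 * (2 / Real.pi) * η := by gcongr
      _ ≤ 42 * (Real.pi / 2) ^ (-(1 - ε)) * η := by gcongr
      _ = _ := by ring
  calc ‖∫ x in c..d, e x‖ₑ ^ 2 = ENNReal.ofReal (‖∫ x in c..d, e x‖ ^ 2) := enorm_sq' _
    _ ≤ ENNReal.ofReal ((d - c) * ∫ x in c..d, ‖e x‖ ^ 2) := ENNReal.ofReal_le_ofReal h1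
    _ = ENNReal.ofReal (d - c) * ∫⁻ x in Ioc c d, ‖e x‖ₑ ^ 2 := by
        rw [ENNReal.ofReal_mul (by linarith), h2]
    _ ≤ ENNReal.ofReal (Real.pi * η) * ∫⁻ x in Ioc c d, ‖e x‖ₑ ^ 2 := by gcongr
    _ = ∫⁻ x in Ioc c d, ENNReal.ofReal (Real.pi * η) * ‖e x‖ₑ ^ 2 := by
        rw [lintegral_const_mul' _ _ ENNReal.ofReal_ne_top]
    _ ≤ ∫⁻ x in Ioc c d, ENNReal.ofReal 42 * Rt R ε e e1 x := by
        refine setLIntegral_mono' measurableSet_Ioc fun x hx => ?_
        unfold Rt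
        rw [← mul_assoc]
        exact mul_le_mul' (hK x hx) le_self_add
    _ = _ := by rw [lintegral_const_mul' _ _ ENNReal.ofReal_ne_top]

theorem cot2 (x : ℝ) (hx : Real.sin x ≠ 0) :
    HasDerivAt (fun x => Real.cos x / Real.sin x ^ 2)
      (-(1 + Real.cos x ^ 2) / Real.sin x ^ 3) x := by
  have h := (Real.hasDerivAt_cos x).div ((Real.hasDerivAt_sin x).pow 2) (pow_ne_zero 2 hx)
  refine h.congr_deriv ?_
  have h2 := Real.sin_sq_add_cos_sq x
  simp only [Nat.cast_ofNat, Nat.add_one_sub_one, pow_one, Pi.pow_apply]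
  have h3 : Real.cos x ^ 2 = 1 - Real.sin x ^ 2 := by linarith
  rw [h3]
  field_simp
  rw [h3]
  ring

theorem far {R ε c d : ℝ} (hR : 1 ≤ R) (hε0 : 0 < ε) (hε1 : ε < 1) {ρ : ℝ} (hρR : R ≤ ρ)
    {e e1 : ℝ → ℂ} (h : Wv ρ e e1) (hcd : c ≤ d) (τ : ℝ) (hτ : τ = 1 ∨ τ = -1)
    (hs : ∀ x ∈ Icc c d, R ^ (-(1 / 2) : ℝ) ≤ τ * Real.sin x) :
    ‖∫ x in c..d, e x‖ₑ ^ 2 ≤ ENNReal.ofReal 42 * ∫⁻ x in Ioc c d, Rt R ε e e1 x := by
  have hR0 : 0 < R := by linarith
  have hρ0 : 0 < ρ := by linarith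
  have he := h.he
  have he1 := h.ce1
  set η : ℝ := R ^ (-(1 / 2) : ℝ) with hη
  have hη0 : 0 < η := by positivity
  have hη2 : η ^ 2 = R⁻¹ := by
    rw [hη, ← Real.rpow_natCast, ← Real.rpow_mul hR0.le]
    norm_num
    rw [Real.rpow_neg_one]
  have hτ2 : τ * τ = 1 := by rcases hτ with rfl | rfl <;> norm_num
  have hτa : |τ| = 1 := by rcases hτ with rfl | rfl <;> norm_num
  have hOs : Os c d ρ η (fun x => τ * Real.sin x) (fun x => τ * Real.cos x)
      (Complex.I * (τ : ℂ)) e e1 := by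
    refine ⟨hcd, hρ0, hη0, ?_, ?_, by fun_prop, ?_, hs, he, ?_, ?_⟩
    · rw [hη2, ← div_eq_mul_inv, le_div_iff₀ hR0]
      linarith
    · intro x
      exact (Real.hasDerivAt_sin x).const_mul τ
    · intro x
      rw [abs_mul, hτa, one_mul]
      exact Real.abs_cos_le_one x
    · rw [norm_mul, Complex.norm_I, Complex.norm_real, Real.norm_eq_abs, hτa, one_mul]
    · intro x
      have h1 := h.h1 x
      convert h1 using 1
      have hτc : (τ : ℂ) * (τ : ℂ) = 1 := by exact_mod_cast hτ2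
      push_cast
      linear_combination (Complex.I * (ρ : ℂ) * Complex.sin (x : ℂ) * e x) * hτc
  have hC0 : ∫ x in c..d, 1 / (ρ * (τ * Real.sin x) ^ 3) ≤ 2 := by
    have hsin : ∀ x ∈ Icc c d, Real.sin x ≠ 0 := by
      intro x hx h0
      have := hs x hx
      rw [h0, mul_zero] at this
      linarith
    have hu : uIcc c d = Icc c d := uIcc_of_le hcd
    have hcont : ContinuousOn (fun x => -(1 + Real.cos x ^ 2) / Real.sin x ^ 3) (Icc c d) := by
      apply ContinuousOn.div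
      · fun_prop
      · fun_prop
      · intro x hx
        exact pow_ne_zero _ (hsin x hx)
    have hftc : ∫ x in c..d, -(1 + Real.cos x ^ 2) / Real.sin x ^ 3 =
        Real.cos d / Real.sin d ^ 2 - Real.cos c / Real.sin c ^ 2 :=
      intervalIntegral.integral_eq_sub_of_hasDerivAt (fun x hx => cot2 x (hsin x (hu ▸ hx)))
        (ContinuousOn.intervalIntegrable (by rw [hu]; exact hcont))
    have hb : ∀ x ∈ Icc c d, |Real.cos x / Real.sin x ^ 2| ≤ R := by
      intro x hx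
      have h2 := hs x hx
      have h3 : η ^ 2 ≤ Real.sin x ^ 2 := by
        calc η ^ 2 ≤ (τ * Real.sin x) ^ 2 := pow_le_pow_left₀ hη0.le h2 2
          _ = (τ * τ) * Real.sin x ^ 2 := by ring
          _ = _ := by rw [hτ2, one_mul]
      rw [hη2] at h3
      have h4 : 0 < Real.sin x ^ 2 := lt_of_lt_of_le (by positivity) h3
      rw [abs_div, abs_of_pos h4, div_le_iff₀ h4]
      calc |Real.cos x| ≤ 1 := Real.abs_cos_le_one x
        _ = R * R⁻¹ := by field_simp
        _ ≤ _ := by gcongr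
    have h5 : ∫ x in c..d, 1 / (ρ * (τ * Real.sin x) ^ 3) ≤
        ∫ x in c..d, (-(τ / ρ)) * (-(1 + Real.cos x ^ 2) / Real.sin x ^ 3) := by
      apply intervalIntegral.integral_mono_on hcd
      · apply ContinuousOn.intervalIntegrable
        rw [hu]
        apply ContinuousOn.div continuousOn_const
        · fun_prop
        · intro x hx
          have := hs x hx
          have : 0 < τ * Real.sin x := by linarith
          positivity
      · apply ContinuousOn.intervalIntegrable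
        rw [hu]
        exact hcont.const_mul _ 
      · intro x hx
        have h6 := hs x hx
        have h7 : 0 < τ * Real.sin x := by linarith
        have h8 := hsin x hx
        have e1 : -(τ / ρ) * (-(1 + Real.cos x ^ 2) / Real.sin x ^ 3) =
            (1 + Real.cos x ^ 2) / (ρ * (τ * Real.sin x) ^ 3) := by
          have hτ0 : τ ≠ 0 := by
            intro h0
            rw [h0] at hτ2
            norm_num at hτ2
          have hτ4 : τ ^ 4 = 1 := by
            calc τ ^ 4 = (τ * τ) * (τ * τ) := by ring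
              _ = 1 := by rw [hτ2]; norm_num
          field_simp
          linear_combination hτ4
        rw [e1]
        gcongr
        nlinarith [sq_nonneg (Real.cos x)]
    refine h5.trans ?_
    rw [intervalIntegral.integral_const_mul, hftc]
    have h9 : |Real.cos d / Real.sin d ^ 2 - Real.cos c / Real.sin c ^ 2| ≤ R + R :=
      (abs_sub _ _).trans (add_le_add (hb d (right_mem_Icc.2 hcd)) (hb c (left_mem_Icc.2 hcd)))
    calc -(τ / ρ) * (Real.cos d / Real.sin d ^ 2 - Real.cos c / Real.sin c ^ 2)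
        ≤ |-(τ / ρ) * (Real.cos d / Real.sin d ^ 2 - Real.cos c / Real.sin c ^ 2)| := le_abs_self _
      _ = (1 / ρ) * |Real.cos d / Real.sin d ^ 2 - Real.cos c / Real.sin c ^ 2| := by
          rw [abs_mul, abs_neg, abs_div, hτa, abs_of_pos hρ0]
      _ ≤ (1 / ρ) * (R + R) := by gcongr
      _ ≤ 2 := by
          rw [one_div, inv_mul_le_iff₀ hρ0]
          linarith
  have h2 := hOs.main 2 hC0
  norm_num at h2
  have hMi := hOs.M_int le_rfl hcd le_rfl
  have h3 : ENNReal.ofReal (∫ x in c..d, Os.M ρ (fun x => τ * Real.sin x) e e1 x) =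
      ∫⁻ x in Ioc c d, ENNReal.ofReal (Os.M ρ (fun x => τ * Real.sin x) e e1 x) := by
    rw [intervalIntegral.integral_of_le hcd, ofReal_integral_eq_lintegral_ofReal]
    · exact (intervalIntegrable_iff_integrableOn_Ioc_of_le hcd).1 hMi
    · filter_upwards [ae_restrict_mem measurableSet_Ioc] with x hx
      exact hOs.M_nonneg (Ioc_subset_Icc_self hx)
  calc ‖∫ x in c..d, e x‖ₑ ^ 2 = ENNReal.ofReal (‖∫ x in c..d, e x‖ ^ 2) := enorm_sq' _
    _ ≤ ENNReal.ofReal (42 * ∫ x in c..d, Os.M ρ (fun x => τ * Real.sin x) e e1 x) :=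
        ENNReal.ofReal_le_ofReal h2
    _ = ENNReal.ofReal 42 * ∫⁻ x in Ioc c d,
          ENNReal.ofReal (Os.M ρ (fun x => τ * Real.sin x) e e1 x) := by
        rw [ENNReal.ofReal_mul (by norm_num), h3]
    _ ≤ _ := by
        gcongr ENNReal.ofReal 42 * ?_
        refine setLIntegral_mono' measurableSet_Ioc fun x hx => ?_
        have h4 := hs x (Ioc_subset_Icc_self hx)
        have h5 : 0 < τ * Real.sin x := by linarith
        have h6 : |Real.sin x| = τ * Real.sin x := by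
          rw [← abs_of_pos h5, abs_mul, hτa, one_mul]
        set y := τ * Real.sin x with hy
        unfold Rt KR Os.M
        rw [h6, ENNReal.ofReal_rpow_of_pos h5, ← ENNReal.ofReal_mul (by positivity), enorm_sq',
          enorm_sq', ← ENNReal.ofReal_add (by positivity) (by positivity),
          ← ENNReal.ofReal_mul (by positivity)]
        apply ENNReal.ofReal_le_ofReal
        rw [div_eq_mul_inv, mul_comm]
        apply mul_le_mul_of_nonneg_right _ (by positivity)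
        change (ρ * (τ * Real.sin x))⁻¹ ≤ _
        rw [← hy, mul_inv]
        have h7 : ρ⁻¹ ≤ R⁻¹ := inv_anti₀ hR0 hρR
        have h8 : y⁻¹ = y ^ (-(1 - ε)) * y ^ (-ε) := by
          rw [← Real.rpow_add h5, ← Real.rpow_neg_one]
          congr 1
          ring
        have h9 : y ^ (-ε) ≤ R ^ (ε / 2) := by
          calc y ^ (-ε) ≤ η ^ (-ε) := Real.rpow_le_rpow_of_nonpos hη0 h4 (by linarith)
            _ = R ^ (ε / 2) := by
                rw [hη, ← Real.rpow_mul hR0.le]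
                congr 1
                ring
        have h10 : R ^ (-1 + ε / 2) = R⁻¹ * R ^ (ε / 2) := by
          rw [Real.rpow_add hR0, Real.rpow_neg_one]
        rw [h8, h10]
        calc ρ⁻¹ * (y ^ (-(1 - ε)) * y ^ (-ε)) ≤ R⁻¹ * (y ^ (-(1 - ε)) * R ^ (ε / 2)) := by
              gcongr
          _ = _ := by ring

/-- breakpoints -/
noncomputable def bp (R : ℝ) (i : ℕ) : ℝ :=
  (((i / 2 : ℕ) : ℝ) - 2) * Real.pi + (if i % 2 = 0 then -1 else 1) *
    (Real.pi / 2 * R ^ (-(1 / 2) : ℝ))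

/-- clipped breakpoints -/
noncomputable def cp (R p q : ℝ) (i : ℕ) : ℝ := max p (min q (bp R i))

theorem bp_even (R : ℝ) (j : ℕ) : bp R (2 * j) = ((j : ℝ) - 2) * Real.pi -
    Real.pi / 2 * R ^ (-(1 / 2) : ℝ) := by
  unfold bp
  have h1 : 2 * j / 2 = j := by omega
  have h2 : 2 * j % 2 = 0 := by omega
  rw [h1, h2, if_pos rfl]
  ring

theorem bp_odd (R : ℝ) (j : ℕ) : bp R (2 * j + 1) = ((j : ℝ) - 2) * Real.pi +
    Real.pi / 2 * R ^ (-(1 / 2) : ℝ) := by
  unfold bp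
  have h1 : (2 * j + 1) / 2 = j := by omega
  have h2 : (2 * j + 1) % 2 = 1 := by omega
  rw [h1, h2, if_neg (by norm_num)]
  ring

theorem bp_step {R : ℝ} (hR : 1 ≤ R) (i : ℕ) : bp R i ≤ bp R (i + 1) := by
  have hpi := Real.pi_pos
  have hη0 : 0 < R ^ (-(1 / 2) : ℝ) := by positivity
  have hη1 : R ^ (-(1 / 2) : ℝ) ≤ 1 := Real.rpow_le_one_of_one_le_of_nonpos hR (by norm_num)
  rcases Nat.even_or_odd' i with ⟨j, rfl | rfl⟩
  · rw [bp_even, bp_odd]
    have : 0 < Real.pi / 2 * R ^ (-(1 / 2) : ℝ) := by positivity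
    linarith
  · have e : 2 * j + 1 + 1 = 2 * (j + 1) := by ring
    rw [e, bp_even, bp_odd]
    push_cast
    have : Real.pi / 2 * R ^ (-(1 / 2) : ℝ) ≤ Real.pi / 2 * 1 := by gcongr
    nlinarith

theorem cp_step {R : ℝ} (hR : 1 ≤ R) (p q : ℝ) (i : ℕ) : cp R p q i ≤ cp R p q (i + 1) := by
  unfold cp
  have := bp_step hR i
  gcongr

theorem cp_loc {R p q : ℝ} (hpq : p ≤ q) {i : ℕ}
    (h : cp R p q i < cp R p q (i + 1)) {x : ℝ} (hx : x ∈ Icc (cp R p q i) (cp R p q (i + 1))) :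
    bp R i ≤ x ∧ x ≤ bp R (i + 1) := by
  have h1 : cp R p q (i + 1) ≤ bp R (i + 1) := by
    unfold cp at h ⊢
    rcases le_or_gt (min q (bp R (i + 1))) p with h2 | h2
    · exfalso
      rw [max_eq_left h2] at h
      exact absurd h (not_lt.2 (le_max_left _ _))
    · rw [max_eq_right h2.le]
      exact min_le_right _ _
  have h2 : bp R i ≤ cp R p q i := by
    unfold cp at h ⊢
    rcases le_or_gt q (bp R i) with h3 | h3
    · exfalso
      rw [min_eq_left h3, max_eq_right hpq] at h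
      have : max p (min q (bp R (i + 1))) ≤ q := max_le hpq (min_le_left _ _)
      linarith
    · rw [min_eq_right h3.le]
      exact le_max_right _ _
  exact ⟨h2.trans hx.1, hx.2.trans h1⟩

theorem sin_shift (x : ℝ) (j : ℕ) : Real.sin (x - ((j : ℝ) - 2) * Real.pi) =
    (-1) ^ j * Real.sin x := by
  have e : x - ((j : ℝ) - 2) * Real.pi = (x + 2 * Real.pi) - (j : ℝ) * Real.pi := by ring
  rw [e, Real.sin_sub_nat_mul_pi, Real.sin_add_two_pi]

theorem piece {R ε p q : ℝ} (hR : 1 ≤ R) (hε0 : 0 < ε) (hε1 : ε < 1) {ρ : ℝ} (hρR : R ≤ ρ)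
    {e e1 : ℝ → ℂ} (h : Wv ρ e e1) (hpq : p ≤ q) (i : ℕ) :
    ‖∫ x in (cp R p q i)..(cp R p q (i + 1)), e x‖ₑ ^ 2 ≤
      ENNReal.ofReal 42 * ∫⁻ x in Ioc (cp R p q i) (cp R p q (i + 1)), Rt R ε e e1 x := by
  have hpi := Real.pi_pos
  have hη0 : 0 < R ^ (-(1 / 2) : ℝ) := by positivity
  have hη1 : R ^ (-(1 / 2) : ℝ) ≤ 1 := Real.rpow_le_one_of_one_le_of_nonpos hR (by norm_num)
  set η := R ^ (-(1 / 2) : ℝ) with hη
  have hb : Real.pi / 2 * η ≤ Real.pi / 2 := by nlinarith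
  rcases (cp_step hR p q i).eq_or_lt with h0 | h0
  · rw [← h0, intervalIntegral.integral_same]
    simp
  have hloc := fun {x : ℝ} hx => cp_loc hpq h0 (x := x) hx
  have hle := h0.le
  have hL := hloc (left_mem_Icc.2 hle)
  have hRt := hloc (right_mem_Icc.2 hle)
  rcases Nat.even_or_odd' i with ⟨j, rfl | rfl⟩
  · rw [bp_even] at hL
    rw [bp_odd] at hRt
    apply near hR hε0 hε1 h hle
    · rw [← hη]
      linarith [hL.1, hRt.2]
    · intro x hx
      have h1 := hloc hx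
      rw [bp_even, bp_odd] at h1
      have h2 : |Real.sin x| = |Real.sin (x - ((j : ℝ) - 2) * Real.pi)| := by
        rw [sin_shift, abs_mul, abs_pow, abs_neg, abs_one, one_pow, one_mul]
      rw [h2]
      refine Real.abs_sin_le_abs.trans ?_
      rw [abs_le]
      constructor <;> linarith [h1.1, h1.2]
  · have e2 : 2 * j + 1 + 1 = 2 * (j + 1) := by ring
    have hτ : ((-1 : ℝ) ^ j = 1 ∨ (-1 : ℝ) ^ j = -1) := neg_one_pow_eq_or ℝ j
    apply far hR hε0 hε1 hρR h hle ((-1) ^ j) hτ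
    intro x hx
    have h1 := hloc hx
    rw [e2, bp_odd, bp_even] at h1
    push_cast at h1
    rw [← sin_shift]
    set y := x - ((j : ℝ) - 2) * Real.pi with hy
    have y1 : Real.pi / 2 * η ≤ y := by rw [hy]; linarith [h1.1]
    have y2 : y ≤ Real.pi - Real.pi / 2 * η := by rw [hy]; linarith [h1.2]
    rcases le_total y (Real.pi / 2) with hc | hc
    · have h3 := Real.mul_le_sin (by linarith [mul_pos hpi hη0] : 0 ≤ y) hc
      calc η = 2 / Real.pi * (Real.pi / 2 * η) := by field_simp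
        _ ≤ 2 / Real.pi * y := by gcongr
        _ ≤ _ := h3
    · rw [← Real.sin_pi_sub]
      have h3 := Real.mul_le_sin (x := Real.pi - y) (by linarith [mul_pos hpi hη0])
        (by linarith)
      calc η = 2 / Real.pi * (Real.pi / 2 * η) := by field_simp
        _ ≤ 2 / Real.pi * (Real.pi - y) := by gcongr; linarith
        _ ≤ _ := h3

theorem lint_adj (f : ℝ → ℝ≥0∞) (c : ℕ → ℝ) (hc : ∀ i, c i ≤ c (i + 1)) (n : ℕ) :
    ∑ i ∈ Finset.range n, ∫⁻ x in Ioc (c i) (c (i + 1)), f x = ∫⁻ x in Ioc (c 0) (c n), f x := by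
  have hm : Monotone c := monotone_nat_of_le_succ hc
  induction n with
  | zero => simp
  | succ n ih =>
    rw [Finset.sum_range_succ, ih, ← lintegral_union measurableSet_Ioc,
      Ioc_union_Ioc_eq_Ioc (hm (Nat.zero_le n)) (hc n)]
    rw [Set.disjoint_left]
    intro x h1 h2
    exact absurd h1.2 (not_le.2 h2.1)

/-- the main pointwise inequality -/
theorem arc {R ε p q : ℝ} (hR : 1 ≤ R) (hε0 : 0 < ε) (hε1 : ε < 1) {ρ : ℝ} (hρR : R ≤ ρ)
    {e e1 : ℝ → ℂ} (h : Wv ρ e e1) (hp : -(2 * Real.pi) ≤ p) (hpq : p ≤ q)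
    (hq : q ≤ 2 * Real.pi) :
    ‖∫ x in p..q, e x‖ₑ ^ 2 ≤ ENNReal.ofReal 378 * ∫⁻ x in Ioc p q, Rt R ε e e1 x := by
  have hpi := Real.pi_pos
  have hη0 : 0 < R ^ (-(1 / 2) : ℝ) := by positivity
  have hb : 0 < Real.pi / 2 * R ^ (-(1 / 2) : ℝ) := by positivity
  have c0 : cp R p q 0 = p := by
    have h0 : bp R 0 ≤ p := by
      have := bp_even R 0
      simp only [mul_zero, Nat.cast_zero] at this
      rw [this]
      linarith
    unfold cp
    rw [min_eq_right (h0.trans hpq), max_eq_left h0]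
  have c9 : cp R p q 9 = q := by
    have h0 : q ≤ bp R 9 := by
      have := bp_odd R 4
      norm_num at this
      rw [this]
      norm_num at hb ⊢
      linarith
    unfold cp
    rw [min_eq_left h0, max_eq_right hpq]
  have hsum : ∫ x in p..q, e x = ∑ i ∈ Finset.range 9,
      ∫ x in (cp R p q i)..(cp R p q (i + 1)), e x := by
    rw [intervalIntegral.sum_integral_adjacent_intervals
      (fun i _ => h.he.intervalIntegrable _ _), c0, c9]
  have h2 : ‖∫ x in p..q, e x‖ ^ 2 ≤ 9 * ∑ i ∈ Finset.range 9,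
      ‖∫ x in (cp R p q i)..(cp R p q (i + 1)), e x‖ ^ 2 := by
    rw [hsum]
    refine (pow_le_pow_left₀ (norm_nonneg _) (norm_sum_le _ _) 2).trans ?_
    have h3 := sq_sum_le_card_mul_sum_sq (s := Finset.range 9)
      (f := fun i => ‖∫ x in (cp R p q i)..(cp R p q (i + 1)), e x‖)
    simpa using h3
  calc ‖∫ x in p..q, e x‖ₑ ^ 2 = ENNReal.ofReal (‖∫ x in p..q, e x‖ ^ 2) := enorm_sq' _
    _ ≤ ENNReal.ofReal (9 * ∑ i ∈ Finset.range 9,
          ‖∫ x in (cp R p q i)..(cp R p q (i + 1)), e x‖ ^ 2) := ENNReal.ofReal_le_ofReal h2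
    _ = ENNReal.ofReal 9 * ∑ i ∈ Finset.range 9,
          ‖∫ x in (cp R p q i)..(cp R p q (i + 1)), e x‖ₑ ^ 2 := by
        rw [ENNReal.ofReal_mul (by norm_num), ENNReal.ofReal_sum_of_nonneg
          (fun i _ => sq_nonneg _)]
        simp only [enorm_sq']
    _ ≤ ENNReal.ofReal 9 * ∑ i ∈ Finset.range 9, ENNReal.ofReal 42 *
          ∫⁻ x in Ioc (cp R p q i) (cp R p q (i + 1)), Rt R ε e e1 x := by
        gcongr with i _
        exact piece hR hε0 hε1 hρR h hpq i
    _ = ENNReal.ofReal 9 * (ENNReal.ofReal 42 * ∫⁻ x in Ioc p q, Rt R ε e e1 x) := by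
        rw [← Finset.mul_sum, lint_adj _ _ (cp_step hR p q), c0, c9]
    _ = _ := by
        rw [← mul_assoc, ← ENNReal.ofReal_mul (by norm_num)]
        norm_num

end Pool.Agent.V5helper17.SR
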