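import Mathlib
import Pool.Agent.TH335.RF.Q2
set_option autoImplicit false

/-! # The planar `L^4` estimate with singular weight, strong type in `L^q` -/

namespace Pool.Agent.V5helper17.SR

open MeasureTheory Set Complex
open scoped ENNReal
open Pool.Agent.H789R2.FR (sc band Ex)
open Pool.Agent.H789R2.FR.E4w (Ex_meas)
open Pool.Agent.TH335.RF (bd bd_meas sc_meas' sc_pos sc_le exists_bd mink geo)

/-- level sets -/
def lv (g : ℝ → ℂ) (l : ℕ) : Set ℝ := {c | (l = 0 ∨ (2 : ℝ) ^ (l - 1) < ‖g c‖) ∧ ‖g c‖ ≤ 2 ^ l}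

theorem lv_meas (g : ℝ → ℂ) (hg : Measurable g) (l : ℕ) : MeasurableSet (lv g l) := by
  unfold lv
  refine MeasurableSet.inter ?_ (measurableSet_le hg.norm measurable_const)
  by_cases h : l = 0
  · simp only [h, true_or]
    exact MeasurableSet.univ
  · simp only [h, false_or]
    exact measurableSet_lt measurable_const hg.norm

theorem exists_lv (g : ℝ → ℂ) (c : ℝ) : ∃ l, c ∈ lv g l ∧ ∀ i, i ≠ l → c ∉ lv g i := by
  classical
  have hex : ∃ l : ℕ, ‖g c‖ ≤ 2 ^ l := by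
    obtain ⟨n, hn⟩ := pow_unbounded_of_one_lt ‖g c‖ (by norm_num : (1 : ℝ) < 2)
    exact ⟨n, hn.le⟩
  refine ⟨Nat.find hex, ⟨?_, Nat.find_spec hex⟩, fun i hi h => ?_⟩
  · by_cases h0 : Nat.find hex = 0
    · exact Or.inl h0
    · right
      have h1 : Nat.find hex - 1 < Nat.find hex := by omega
      exact not_le.1 (Nat.find_min hex h1)
  · have h1 : Nat.find hex ≤ i := Nat.find_min' hex h.2
    have h2 : Nat.find hex < i := lt_of_le_of_ne h1 (Ne.symm hi)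
    rcases h.1 with h3 | h3
    · omega
    · have h4 := Nat.find_spec hex
      have h5 : (2 : ℝ) ^ (Nat.find hex) ≤ 2 ^ (i - 1) :=
        pow_le_pow_right₀ (by norm_num) (by omega)
      linarith

/-- the weighted density -/
noncomputable def wd (g : ℝ → ℂ) (c : ℝ) : ℂ := (((sc c)⁻¹ : ℝ) : ℂ) * g c

theorem wd_meas (g : ℝ → ℂ) (hg : Measurable g) : Measurable (wd g) := by
  unfold wd
  exact (sc_meas'.inv).complex_ofReal.mul hg

/-- pieces -/
noncomputable def pc (g : ℝ → ℂ) (n : ℕ) : ℝ → ℂ :=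
  (bd n.unpair.1 ∩ lv g n.unpair.2).indicator (wd g)

theorem pc_meas (g : ℝ → ℂ) (hg : Measurable g) (n : ℕ) : Measurable (pc g n) :=
  (wd_meas g hg).indicator ((bd_meas _).inter (lv_meas g hg _))

theorem exists_n (g : ℝ → ℂ) {c : ℝ} (hc : c ∈ Ioo (-1 : ℝ) 1) :
    ∃ n : ℕ, c ∈ bd n.unpair.1 ∩ lv g n.unpair.2 ∧
      ∀ i : ℕ, i ≠ n → c ∉ bd i.unpair.1 ∩ lv g i.unpair.2 := by
  obtain ⟨j, hj, hj'⟩ := exists_bd hc
  obtain ⟨l, hl, hl'⟩ := exists_lv g c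
  refine ⟨Nat.pair j l, ?_, fun i hi h => ?_⟩
  · rw [Nat.unpair_pair]
    exact ⟨hj, hl⟩
  · have h1 : i.unpair.1 = j := by
      by_contra hne
      exact hj' _ hne h.1
    have h2 : i.unpair.2 = l := by
      by_contra hne
      exact hl' _ hne h.2
    apply hi
    rw [← Nat.pair_unpair i, h1, h2]

theorem pc_le (g : ℝ → ℂ) (n : ℕ) (c : ℝ) :
    ‖pc g n c‖ ≤ 2 / (1 / 2 : ℝ) ^ n.unpair.1 * 2 ^ n.unpair.2 := by
  set μ : ℝ := (1 / 2 : ℝ) ^ n.unpair.1 with hμ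
  have hμ0 : 0 < μ := by positivity
  unfold pc
  by_cases hc : c ∈ bd n.unpair.1 ∩ lv g n.unpair.2
  · rw [indicator_of_mem hc]
    unfold wd
    have h1 : μ / 2 < sc c := hc.1.2.1
    have h2 : ‖g c‖ ≤ 2 ^ n.unpair.2 := hc.2.2
    have h3 : 0 < sc c := lt_trans (by positivity) h1
    rw [norm_mul, Complex.norm_real, Real.norm_of_nonneg (by positivity)]
    refine mul_le_mul ?_ h2 (norm_nonneg _) (by positivity)
    calc (sc c)⁻¹ ≤ (μ / 2)⁻¹ := inv_anti₀ (by positivity) h1.le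
      _ = 2 / μ := by rw [inv_div]
  · rw [indicator_of_notMem hc, norm_zero]
    positivity

theorem bd_vol (j : ℕ) : volume (bd j) ≤ ENNReal.ofReal (2 * ((1 / 2 : ℝ) ^ j) ^ 2) := by
  set μ : ℝ := (1 / 2 : ℝ) ^ j with hμ
  have hμ0 : 0 < μ := by positivity
  have hμ1 : μ ≤ 1 := pow_le_one₀ (by norm_num) (by norm_num)
  set r : ℝ := 1 - μ ^ 2 with hr
  have hr0 : 0 ≤ r := by nlinarith
  have hsub : bd j ⊆ Icc (-1 : ℝ) (-r) ∪ Icc r 1 := by
    intro c hc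
    obtain ⟨h1, -, h3⟩ := hc
    rw [← hμ] at h3
    have h1' := abs_lt.1 h1
    have h4 : 1 - c ^ 2 ≤ μ ^ 2 := by
      have h5 : 0 ≤ 1 - c ^ 2 := by nlinarith
      calc 1 - c ^ 2 = sc c ^ 2 := by unfold sc; rw [Real.sq_sqrt h5]
        _ ≤ μ ^ 2 := pow_le_pow_left₀ (Real.sqrt_nonneg _) h3 2
    rcases le_total 0 c with h | h
    · right
      refine ⟨?_, h1'.2.le⟩
      nlinarith
    · left
      refine ⟨h1'.1.le, ?_⟩
      nlinarith
  refine (measure_mono hsub).trans ((measure_union_le _ _).trans ?_)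
  have hr1 : r ≤ 1 := by nlinarith [sq_nonneg μ]
  rw [Real.volume_Icc, Real.volume_Icc, ← ENNReal.ofReal_add (by linarith) (by linarith)]
  apply ENNReal.ofReal_le_ofReal
  rw [hr]
  linarith

theorem lv_vol (g : ℝ → ℂ) (hg : Measurable g) (q : ℝ) (hq : 0 < q)
    (h1 : ∫⁻ c in Ioo (-1 : ℝ) 1, ‖g c‖ₑ ^ q ≤ 1) (l : ℕ) (hl : l ≠ 0) :
    volume (Ioo (-1 : ℝ) 1 ∩ lv g l) ≤ ENNReal.ofReal ((2 : ℝ) ^ (-(((l : ℝ) - 1) * q))) := by
  have h0 : (0 : ℝ) < 2 ^ (((l : ℝ) - 1) * q) := by positivity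
  have h2 : ENNReal.ofReal ((2 : ℝ) ^ (((l : ℝ) - 1) * q)) * volume (Ioo (-1 : ℝ) 1 ∩ lv g l) ≤ 1 := by
    calc ENNReal.ofReal ((2 : ℝ) ^ (((l : ℝ) - 1) * q)) * volume (Ioo (-1 : ℝ) 1 ∩ lv g l)
        = ∫⁻ _ in Ioo (-1 : ℝ) 1 ∩ lv g l, ENNReal.ofReal ((2 : ℝ) ^ (((l : ℝ) - 1) * q)) := by
          rw [lintegral_const, Measure.restrict_apply_univ]
      _ ≤ ∫⁻ c in Ioo (-1 : ℝ) 1 ∩ lv g l, ‖g c‖ₑ ^ q := by
          refine setLIntegral_mono' (measurableSet_Ioo.inter (lv_meas g hg l)) fun c hc => ?_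
          have h3 : (2 : ℝ) ^ (l - 1) < ‖g c‖ := by
            rcases hc.2.1 with h | h
            · exact absurd h hl
            · exact h
          rw [← ofReal_norm, ENNReal.ofReal_rpow_of_nonneg (norm_nonneg _) hq.le]
          apply ENNReal.ofReal_le_ofReal
          rw [Real.rpow_mul (by norm_num)]
          apply Real.rpow_le_rpow (by positivity) _ hq.le
          refine le_trans (le_of_eq ?_) h3.le
          rw [← Real.rpow_natCast, Nat.cast_sub (by omega)]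
          norm_num
      _ ≤ ∫⁻ c in Ioo (-1 : ℝ) 1, ‖g c‖ₑ ^ q := lintegral_mono_set inter_subset_left
      _ ≤ 1 := h1
  have h3 : ENNReal.ofReal ((2 : ℝ) ^ (-(((l : ℝ) - 1) * q))) *
      ENNReal.ofReal ((2 : ℝ) ^ (((l : ℝ) - 1) * q)) = 1 := by
    rw [← ENNReal.ofReal_mul (by positivity), ← Real.rpow_add (by norm_num)]
    simp
  calc volume (Ioo (-1 : ℝ) 1 ∩ lv g l)
      = ENNReal.ofReal ((2 : ℝ) ^ (-(((l : ℝ) - 1) * q))) *
        (ENNReal.ofReal ((2 : ℝ) ^ (((l : ℝ) - 1) * q)) * volume (Ioo (-1 : ℝ) 1 ∩ lv g l)) := by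
        rw [← mul_assoc, h3, one_mul]
    _ ≤ ENNReal.ofReal ((2 : ℝ) ^ (-(((l : ℝ) - 1) * q))) * 1 := by gcongr
    _ = _ := mul_one _

/-- the measure of a piece -/
theorem pc_vol (g : ℝ → ℂ) (hg : Measurable g) (q θ : ℝ) (hq : 2 < q) (hθ0 : 0 < θ) (hθ1 : θ < 1)
    (h1 : ∫⁻ c in Ioo (-1 : ℝ) 1, ‖g c‖ₑ ^ q ≤ 1) (j l : ℕ) :
    (volume (bd j ∩ lv g l)).toReal ≤ (2 : ℝ) ^ (-(((l : ℝ) - 1) * q * θ)) *
      (2 * ((1 / 2 : ℝ) ^ j) ^ 2) ^ (1 - θ) := by
  set μ : ℝ := (1 / 2 : ℝ) ^ j with hμ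
  have hμ0 : 0 < μ := by positivity
  have hμ1 : μ ≤ 1 := pow_le_one₀ (by norm_num) (by norm_num)
  set v : ℝ := (volume (bd j ∩ lv g l)).toReal with hv
  have hv0 : 0 ≤ v := ENNReal.toReal_nonneg
  have hfin : volume (bd j ∩ lv g l) ≤ ENNReal.ofReal (2 * μ ^ 2) :=
    (measure_mono inter_subset_left).trans (bd_vol j)
  have hv1 : v ≤ 2 * μ ^ 2 := by
    rw [hv]
    exact ENNReal.toReal_le_of_le_ofReal (by positivity) hfin
  have hv2 : v ≤ (2 : ℝ) ^ (-(((l : ℝ) - 1) * q)) := by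
    by_cases hl : l = 0
    · refine hv1.trans ?_
      rw [hl]
      have h2 : (2 : ℝ) ^ (1 : ℝ) ≤ 2 ^ (-((((0 : ℕ) : ℝ) - 1) * q)) := by
        apply Real.rpow_le_rpow_of_exponent_le (by norm_num)
        push_cast
        linarith
      rw [Real.rpow_one] at h2
      nlinarith
    · rw [hv]
      refine ENNReal.toReal_le_of_le_ofReal (by positivity) ?_
      refine (measure_mono (inter_subset_inter_left _ ?_)).trans
        (lv_vol g hg q (by linarith) h1 l hl)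
      intro c hc
      exact abs_lt.1 hc.1
  calc v = v ^ θ * v ^ (1 - θ) := by
        rcases hv0.eq_or_lt with h | h
        · rw [← h, Real.zero_rpow hθ0.ne', zero_mul]
        · rw [← Real.rpow_add h]
          simp
    _ ≤ ((2 : ℝ) ^ (-(((l : ℝ) - 1) * q))) ^ θ * (2 * μ ^ 2) ^ (1 - θ) := by
        apply mul_le_mul
        · exact Real.rpow_le_rpow hv0 hv2 hθ0.le
        · exact Real.rpow_le_rpow hv0 hv1 (by linarith)
        · positivity
        · positivity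
    _ = _ := by
        rw [← Real.rpow_mul (by norm_num)]
        congr 2
        ring

end Pool.Agent.V5helper17.SR
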