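import Mathlib
import Pool.Agent.V5helper17.SR.Pl4
set_option autoImplicit false

/-! # The planar `L^4` estimate: summing the pieces -/

namespace Pool.Agent.V5helper17.SR

open MeasureTheory Set Complex
open scoped ENNReal
open Pool.Agent.H789R2.FR (sc band Ex)
open Pool.Agent.H789R2.FR.E4w (Ex_meas norm_phase)
open Pool.Agent.TH335.RF (bd bd_meas sc_meas' sc_pos sc_le exists_bd mink geo)

theorem pc_int (g : ℝ → ℂ) (hg : Measurable g) (n : ℕ) :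
    ∫ c, ‖pc g n c‖ ^ 2 ≤ (2 / (1 / 2 : ℝ) ^ n.unpair.1 * 2 ^ n.unpair.2) ^ 2 *
      (volume (bd n.unpair.1 ∩ lv g n.unpair.2)).toReal := by
  set B : ℝ := 2 / (1 / 2 : ℝ) ^ n.unpair.1 * 2 ^ n.unpair.2 with hB
  set S := bd n.unpair.1 ∩ lv g n.unpair.2 with hS
  have hB0 : 0 ≤ B := by positivity
  have hSm : MeasurableSet S := (bd_meas _).inter (lv_meas g hg _)
  have hSf : volume S ≠ ⊤ := ((measure_mono inter_subset_left).trans_lt
    ((bd_vol _).trans_lt ENNReal.ofReal_lt_top)).ne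
  have h1 : ∀ c, ‖pc g n c‖ ^ 2 ≤ S.indicator (fun _ => B ^ 2) c := by
    intro c
    by_cases hc : c ∈ S
    · rw [indicator_of_mem hc]
      exact pow_le_pow_left₀ (norm_nonneg _) (pc_le g n c) 2
    · rw [indicator_of_notMem hc]
      unfold pc
      rw [indicator_of_notMem hc]
      simp
  have h2 : ∫ c, S.indicator (fun _ => B ^ 2) c = B ^ 2 * (volume S).toReal := by
    rw [integral_indicator hSm, setIntegral_const, smul_eq_mul, mul_comm]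
    rfl
  rw [← h2]
  apply integral_mono_of_nonneg (Filter.Eventually.of_forall fun c => by positivity)
  · exact (integrable_indicator_iff hSm).2 (integrableOn_const hSf)
  · exact Filter.Eventually.of_forall h1

theorem alg1 (C L μ θ q : ℝ) (l : ℕ) (hμ : 0 < μ) (v : ℝ)
    (hC : 0 ≤ C) (hL : 0 ≤ L)
    (hv : v ≤ (2 : ℝ) ^ (-(((l : ℝ) - 1) * q * θ)) * (2 * μ ^ 2) ^ (1 - θ)) :
    C * (2 / μ * 2 ^ l) ^ 2 * μ ^ 3 * L * ((2 / μ * 2 ^ l) ^ 2 * v) ≤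
      C * 16 * 2 ^ (q * θ + (1 - θ)) * L * (μ ^ (1 - 2 * θ) * (2 : ℝ) ^ ((l : ℝ) * (4 - q * θ))) := by
  have e1 : C * (2 / μ * 2 ^ l) ^ 2 * μ ^ 3 * L * ((2 / μ * 2 ^ l) ^ 2 * v) =
      (C * 16 * L * (μ⁻¹ * (2 : ℝ) ^ ((l : ℝ) * 4))) * v := by
    have : (2 : ℝ) ^ ((l : ℝ) * 4) = (2 ^ l) ^ 4 := by
      rw [← Real.rpow_natCast 2 l, ← Real.rpow_natCast, ← Real.rpow_mul (by norm_num)]
      norm_num
    rw [this]
    field_simp
    ring
  rw [e1]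
  calc (C * 16 * L * (μ⁻¹ * (2 : ℝ) ^ ((l : ℝ) * 4))) * v
      ≤ (C * 16 * L * (μ⁻¹ * (2 : ℝ) ^ ((l : ℝ) * 4))) *
        ((2 : ℝ) ^ (-(((l : ℝ) - 1) * q * θ)) * (2 * μ ^ 2) ^ (1 - θ)) := by gcongr
    _ = _ := by
        have e2 : (2 * μ ^ 2) ^ (1 - θ) = 2 ^ (1 - θ) * μ ^ (2 - 2 * θ) := by
          rw [Real.mul_rpow (by norm_num) (by positivity), ← Real.rpow_natCast μ 2,
            ← Real.rpow_mul hμ.le]
          congr 2
          push_cast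
          ring
        have e3 : μ ^ (1 - 2 * θ) = μ⁻¹ * μ ^ (2 - 2 * θ) := by
          rw [← Real.rpow_neg_one μ, ← Real.rpow_add hμ]
          congr 1
          ring
        have e4 : (2 : ℝ) ^ ((l : ℝ) * (4 - q * θ)) =
            (2 : ℝ) ^ ((l : ℝ) * 4) * (2 : ℝ) ^ (-(((l : ℝ) - 1) * q * θ)) * 2 ^ (-(q * θ)) := by
          rw [← Real.rpow_add (by norm_num), ← Real.rpow_add (by norm_num)]
          congr 1
          ring
        have e5 : (2 : ℝ) ^ (q * θ + (1 - θ)) * 2 ^ (-(q * θ)) = 2 ^ (1 - θ) := by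
          rw [← Real.rpow_add (by norm_num)]
          congr 1
          ring
        rw [e2, e3, e4]
        calc _ = C * 16 * L * μ⁻¹ * (2 : ℝ) ^ ((l : ℝ) * 4) *
              (2 : ℝ) ^ (-(((l : ℝ) - 1) * q * θ)) * μ ^ (2 - 2 * θ) * 2 ^ (1 - θ) := by ring
          _ = _ := by
              rw [← e5]
              ring

theorem piece4 (q θ : ℝ) (hq : 2 < q) (hθ0 : 0 < θ) (hθ1 : θ < 1) : ∃ K : ℝ, 0 < K ∧
    ∀ g : ℝ → ℂ, Measurable g → ∫⁻ c in Ioo (-1 : ℝ) 1, ‖g c‖ₑ ^ q ≤ 1 →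
    ∀ (n : ℕ) (Y : ℝ), 1 ≤ Y →
    ∫⁻ y in Icc (-Y) Y, ∫⁻ z : ℝ, ‖Ex (pc g n) y z‖ₑ ^ (4 : ℝ) ≤
      ENNReal.ofReal (K * (1 + Real.log Y) * (((1 / 2 : ℝ) ^ n.unpair.1) ^ (1 - 2 * θ) *
        (2 : ℝ) ^ ((n.unpair.2 : ℝ) * (4 - q * θ)))) := by
  obtain ⟨C, hC, h⟩ := Pool.Agent.H789R2.FR.E4r
  refine ⟨C * 16 * 2 ^ (q * θ + (1 - θ)), by positivity, fun g hg hg1 n Y hY => ?_⟩
  set μ : ℝ := (1 / 2 : ℝ) ^ n.unpair.1 with hμ
  have hμ0 : 0 < μ := by positivity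
  have hμ1 : μ ≤ 1 := pow_le_one₀ (by norm_num) (by norm_num)
  have hlogY : 0 ≤ Real.log Y := Real.log_nonneg hY
  have e1 : ∀ w : ℂ, ‖w‖ₑ ^ (4 : ℝ) = ENNReal.ofReal (‖w‖ ^ 4) := by
    intro w
    rw [← ofReal_norm, ENNReal.ofReal_rpow_of_nonneg (norm_nonneg _) (by norm_num)]
    norm_num
  simp only [e1]
  have hv := pc_vol g hg q θ hq hθ0 hθ1 hg1 n.unpair.1 n.unpair.2
  have key : ∀ Y' : ℝ, 1 ≤ Y' * μ →
      ∫⁻ y in Icc (-Y') Y', ∫⁻ z : ℝ, ENNReal.ofReal (‖Ex (pc g n) y z‖ ^ 4) ≤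
      ENNReal.ofReal (C * 16 * 2 ^ (q * θ + (1 - θ)) * (1 + Real.log (Y' * μ)) *
        (μ ^ (1 - 2 * θ) * (2 : ℝ) ^ ((n.unpair.2 : ℝ) * (4 - q * θ)))) := by
    intro Y' hY'
    have hl0 : 0 ≤ Real.log (Y' * μ) := Real.log_nonneg hY'
    refine (h μ hμ0 hμ1 Y' hY' (pc g n) (pc_meas g hg n) _ (pc_le g n)
      (fun c hc => ?_)).trans ?_
    · unfold pc
      exact indicator_of_notMem (fun h' => hc h'.1) _
    · apply ENNReal.ofReal_le_ofReal
      rw [← hμ]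
      refine le_trans ?_ (alg1 C (1 + Real.log (Y' * μ)) μ θ q n.unpair.2 hμ0 _ hC.le
        (by linarith) hv)
      gcongr
      exact pc_int g hg n
  by_cases hc : 1 ≤ Y * μ
  · refine (key Y hc).trans ?_
    apply ENNReal.ofReal_le_ofReal
    have h2 : Real.log (Y * μ) ≤ Real.log Y :=
      Real.log_le_log (by positivity) (by nlinarith)
    gcongr
  · have h3 : Y ≤ 1 / μ := by
      rw [le_div_iff₀ hμ0]
      linarith
    have h4 : (1 / μ) * μ = 1 := by field_simp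
    refine le_trans ?_ ((key (1 / μ) (by rw [h4])).trans ?_)
    · exact lintegral_mono_set (Icc_subset_Icc (by linarith) h3)
    · apply ENNReal.ofReal_le_ofReal
      rw [h4, Real.log_one]
      gcongr

/-- sum over the pieces -/
theorem Ex_le_pc (g : ℝ → ℂ) (hg : Measurable g) (M : ℝ) (hM : ∀ c, ‖g c‖ ≤ M) (y z : ℝ) :
    ‖Ex (wd g) y z‖ₑ ≤ ∑' n, ‖Ex (pc g n) y z‖ₑ := by
  have hm : ∀ n, Measurable fun c : ℝ =>
      Complex.exp (-((y * sc c + z * c : ℝ) : ℂ) * I) * pc g n c := by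
    intro n
    have := pc_meas g hg n
    have := sc_meas'
    fun_prop
  have h1 : Ex (wd g) y z = ∫ c in Ioo (-1 : ℝ) 1, ∑' n,
      Complex.exp (-((y * sc c + z * c : ℝ) : ℂ) * I) * pc g n c := by
    unfold Ex
    refine setIntegral_congr_fun measurableSet_Ioo fun c hc => ?_
    obtain ⟨n, hn, hi⟩ := exists_n g hc
    rw [tsum_eq_single n]
    · unfold pc
      rw [indicator_of_mem hn]
    · intro i hij
      unfold pc
      rw [indicator_of_notMem (hi i hij), mul_zero]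
  have hnorm : ∀ n c, ‖Complex.exp (-((y * sc c + z * c : ℝ) : ℂ) * I) * pc g n c‖ₑ =
      ‖pc g n c‖ₑ := by
    intro n c
    rw [enorm_mul, ← ofReal_norm (Complex.exp _), norm_phase, ENNReal.ofReal_one, one_mul]
  have hsum : ∑' n, ∫⁻ c in Ioo (-1 : ℝ) 1,
      ‖Complex.exp (-((y * sc c + z * c : ℝ) : ℂ) * I) * pc g n c‖ₑ ≠ ⊤ := by
    simp only [hnorm]
    rw [← lintegral_tsum (fun n => (pc_meas g hg n).enorm.aemeasurable)]
    have h2 : ∫⁻ c in Ioo (-1 : ℝ) 1, ∑' n, ‖pc g n c‖ₑ ≤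
        ∫⁻ c in Ioo (-1 : ℝ) 1, ENNReal.ofReal ‖M * (1 - c ^ 2) ^ (-(1 / 2) : ℝ)‖ := by
      refine setLIntegral_mono' measurableSet_Ioo fun c hc => ?_
      obtain ⟨n, hn, hi⟩ := exists_n g hc
      rw [tsum_eq_single n]
      · unfold pc
        rw [indicator_of_mem hn, ← ofReal_norm]
        apply ENNReal.ofReal_le_ofReal
        have h3 : 0 < 1 - c ^ 2 := by nlinarith [hc.1, hc.2]
        have h4 : (1 - c ^ 2) ^ (-(1 / 2) : ℝ) = (sc c)⁻¹ := by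
          unfold sc
          rw [Real.sqrt_eq_rpow, ← Real.rpow_neg h3.le]
        rw [h4]
        unfold wd
        have h5 := sc_pos hc
        rw [norm_mul, Complex.norm_real, norm_mul, Real.norm_eq_abs M, mul_comm]
        gcongr
        exact (hM c).trans (le_abs_self M)
      · intro i hij
        unfold pc
        rw [indicator_of_notMem (hi i hij), enorm_zero]
    refine (h2.trans_lt ?_).ne
    have h5 := (Pool.Agent.H438R2.BR.arcsin_int.1.const_mul M).2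
    rw [hasFiniteIntegral_iff_norm] at h5
    exact h5
  rw [h1, integral_tsum (fun n => (hm n).aestronglyMeasurable) hsum]
  have h7 : ∀ n, ∫ c in Ioo (-1 : ℝ) 1,
      Complex.exp (-((y * sc c + z * c : ℝ) : ℂ) * I) * pc g n c = Ex (pc g n) y z :=
    fun n => rfl
  simp only [h7]
  exact enorm_tsum_le_tsum_enorm

theorem geo2 (A ρ σ : ℝ) (hA : 0 ≤ A) (hρ0 : 0 ≤ ρ) (hρ : ρ < 1) (hσ0 : 0 ≤ σ) (hσ : σ < 1) :
    ∑' n : ℕ, ENNReal.ofReal (A * (ρ ^ n.unpair.1 * σ ^ n.unpair.2)) =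
      ENNReal.ofReal (A / ((1 - ρ) * (1 - σ))) := by
  have h1 : ∑' n : ℕ, ENNReal.ofReal (A * (ρ ^ n.unpair.1 * σ ^ n.unpair.2)) =
      ∑' p : ℕ × ℕ, ENNReal.ofReal (A * (ρ ^ p.1 * σ ^ p.2)) :=
    Nat.pairEquiv.symm.tsum_eq (fun p : ℕ × ℕ => ENNReal.ofReal (A * (ρ ^ p.1 * σ ^ p.2)))
  rw [h1, ENNReal.tsum_prod (f := fun j l => ENNReal.ofReal (A * (ρ ^ j * σ ^ l)))]
  have h2 : ∀ j : ℕ, ∑' l : ℕ, ENNReal.ofReal (A * (ρ ^ j * σ ^ l)) =
      ENNReal.ofReal (A / (1 - σ) * ρ ^ j) := by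
    intro j
    have := geo (A * ρ ^ j) σ (by positivity) hσ0 hσ
    simp only [mul_assoc] at this ⊢
    rw [this]
    congr 1
    ring
  simp only [h2]
  have h3 : 0 < 1 - σ := by linarith
  rw [geo _ ρ (by positivity) hρ0 hρ]
  congr 1
  rw [div_div, mul_comm (1 - σ)]

end Pool.Agent.V5helper17.SR
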