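import Mathlib
import Pool.Agent.V5helper17.SR.Pl5
set_option autoImplicit false

/-! # The planar `L^4` estimate, strong type -/

namespace Pool.Agent.V5helper17.SR

open MeasureTheory Set Complex
open scoped ENNReal
open Pool.Agent.H789R2.FR (sc band Ex)
open Pool.Agent.H789R2.FR.E4w (Ex_meas norm_phase)
open Pool.Agent.TH335.RF (bd bd_meas sc_meas' sc_pos sc_le exists_bd mink geo)

theorem planar1 (q : ℝ) (hq : 8 < q) : ∃ K : ℝ, 0 < K ∧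
    ∀ g : ℝ → ℂ, Measurable g → (∃ M : ℝ, ∀ c, ‖g c‖ ≤ M) →
    ∫⁻ c in Ioo (-1 : ℝ) 1, ‖g c‖ₑ ^ q ≤ 1 → ∀ Y : ℝ, 1 ≤ Y →
    ∫⁻ y in Icc (-Y) Y, ∫⁻ z : ℝ, ‖Ex (wd g) y z‖ₑ ^ (4 : ℝ) ≤
      ENNReal.ofReal (K * (1 + Real.log Y)) := by
  set θ : ℝ := (4 / q + 1 / 2) / 2 with hθ
  have hq0 : 0 < q := by linarith
  have h4q : 4 / q < 1 / 2 := by
    rw [div_lt_div_iff₀ hq0 (by norm_num)]
    linarith
  have hθ0 : 0 < θ := by positivity
  have hθ1 : θ < 1 / 2 := by rw [hθ]; linarith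
  have hθ2 : 4 < q * θ := by
    have : 4 / q < θ := by rw [hθ]; linarith
    rw [div_lt_iff₀ hq0] at this
    linarith
  obtain ⟨C, hC, h⟩ := piece4 q θ (by linarith) hθ0 (by linarith)
  set ρ : ℝ := (1 / 2 : ℝ) ^ ((1 - 2 * θ) / 4) with hρ
  set σ : ℝ := (1 / 2 : ℝ) ^ ((q * θ - 4) / 4) with hσ
  have hρ0 : 0 < ρ := by positivity
  have hσ0 : 0 < σ := by positivity
  have hρ1 : ρ < 1 := Real.rpow_lt_one (by norm_num) (by norm_num) (by linarith)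
  have hσ1 : σ < 1 := Real.rpow_lt_one (by norm_num) (by norm_num) (by linarith)
  have h1ρ : 0 < 1 - ρ := by linarith
  have h1σ : 0 < 1 - σ := by linarith
  refine ⟨C / ((1 - ρ) * (1 - σ)) ^ 4, by positivity, fun g hg hM hg1 Y hY => ?_⟩
  obtain ⟨M, hM⟩ := hM
  have hlogY : 0 ≤ Real.log Y := Real.log_nonneg hY
  set A : ℝ := (C * (1 + Real.log Y)) ^ (1 / 4 : ℝ) with hA
  have hA0 : 0 ≤ A := by positivity
  have hA4 : A ^ (4 : ℝ) = C * (1 + Real.log Y) := by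
    rw [hA, ← Real.rpow_mul (by positivity)]
    norm_num
  set μ : Measure (ℝ × ℝ) := (volume.restrict (Icc (-Y) Y)).prod volume with hμ
  set u : ℕ → ℝ × ℝ → ℝ≥0∞ := fun n p => ‖Ex (pc g n) p.1 p.2‖ₑ with hu
  have hum : ∀ n, Measurable (u n) := fun n => (Ex_meas _ (pc_meas g hg n)).enorm
  have hu4 : ∀ n, (∫⁻ p, u n p ^ (4 : ℝ) ∂μ) ^ (1 / (4 : ℝ)) ≤
      ENNReal.ofReal (A * (ρ ^ n.unpair.1 * σ ^ n.unpair.2)) := by
    intro n
    have e1 : ∫⁻ p, u n p ^ (4 : ℝ) ∂μ =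
        ∫⁻ y in Icc (-Y) Y, ∫⁻ z : ℝ, ‖Ex (pc g n) y z‖ₑ ^ (4 : ℝ) := by
      rw [hμ, lintegral_prod _ ((hum n).pow_const _).aemeasurable]
    rw [e1]
    refine (ENNReal.rpow_le_rpow (h g hg hg1 n Y hY) (by norm_num)).trans (le_of_eq ?_)
    rw [ENNReal.ofReal_rpow_of_nonneg (by positivity) (by norm_num)]
    congr 1
    rw [Real.mul_rpow (by positivity) (by positivity), ← hA,
      Real.mul_rpow (by positivity) (by positivity)]
    congr 2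
    · rw [hρ, ← Real.rpow_mul (by positivity), ← Real.rpow_natCast (1 / 2 : ℝ),
        ← Real.rpow_mul (by norm_num),
        ← Real.rpow_natCast ((1 / 2 : ℝ) ^ ((1 - 2 * θ) / 4)), ← Real.rpow_mul (by norm_num)]
      congr 1
      ring
    · have e9 : (1 / 2 : ℝ) = (2 : ℝ) ^ (-1 : ℝ) := by rw [Real.rpow_neg_one]; norm_num
      rw [hσ, ← Real.rpow_mul (by norm_num),
        ← Real.rpow_natCast ((1 / 2 : ℝ) ^ ((q * θ - 4) / 4)), ← Real.rpow_mul (by norm_num),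
        e9, ← Real.rpow_mul (by norm_num)]
      congr 1
      ring
  have hbm : Measurable fun p : ℝ × ℝ => ‖Ex (wd g) p.1 p.2‖ₑ ^ (4 : ℝ) :=
    (Ex_meas _ (wd_meas g hg)).enorm.pow_const _
  calc ∫⁻ y in Icc (-Y) Y, ∫⁻ z : ℝ, ‖Ex (wd g) y z‖ₑ ^ (4 : ℝ)
      = ∫⁻ p, ‖Ex (wd g) p.1 p.2‖ₑ ^ (4 : ℝ) ∂μ := by
        rw [hμ, lintegral_prod _ hbm.aemeasurable]
    _ ≤ ∫⁻ p, (∑' n, u n p) ^ (4 : ℝ) ∂μ := by
        apply lintegral_mono
        intro p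
        exact ENNReal.rpow_le_rpow (Ex_le_pc g hg M hM p.1 p.2) (by norm_num)
    _ ≤ (∑' n, (∫⁻ p, (u n p) ^ (4 : ℝ) ∂μ) ^ (1 / (4 : ℝ))) ^ (4 : ℝ) :=
        mink μ 4 (by norm_num) u hum
    _ ≤ (∑' n : ℕ, ENNReal.ofReal (A * (ρ ^ n.unpair.1 * σ ^ n.unpair.2))) ^ (4 : ℝ) :=
        ENNReal.rpow_le_rpow (ENNReal.tsum_le_tsum hu4) (by norm_num)
    _ = _ := by
        rw [geo2 A ρ σ hA0 hρ0.le hρ1 hσ0.le hσ1,
          ENNReal.ofReal_rpow_of_nonneg (by positivity) (by norm_num),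
          Real.div_rpow hA0 (by positivity), hA4]
        congr 1
        rw [show (((1 - ρ) * (1 - σ)) ^ (4 : ℝ)) = ((1 - ρ) * (1 - σ)) ^ 4 by
          rw [← Real.rpow_natCast ((1 - ρ) * (1 - σ)) 4]; norm_num]
        ring

theorem Ex_smul (t : ℂ) (b : ℝ → ℂ) (y z : ℝ) : Ex (fun c => t * b c) y z = t * Ex b y z := by
  unfold Ex
  rw [← integral_const_mul]
  congr 1
  funext c
  ring

theorem wd_smul (t : ℂ) (g : ℝ → ℂ) : wd (fun c => t * g c) = fun c => t * wd g c := by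
  funext c
  unfold wd
  ring

theorem Ex_zero_ae (b : ℝ → ℂ) (h : ∀ᵐ c ∂(volume.restrict (Ioo (-1 : ℝ) 1)), b c = 0)
    (y z : ℝ) : Ex b y z = 0 := by
  unfold Ex
  rw [integral_eq_zero_of_ae]
  filter_upwards [h] with c hc
  simp [hc]

theorem lq_fin (g : ℝ → ℂ) (M : ℝ) (hM : ∀ c, ‖g c‖ ≤ M) (q : ℝ) (hq : 0 ≤ q) :
    ∫⁻ c in Ioo (-1 : ℝ) 1, ‖g c‖ₑ ^ q < ⊤ := by
  have hM0 : 0 ≤ M := (norm_nonneg _).trans (hM 0)
  calc ∫⁻ c in Ioo (-1 : ℝ) 1, ‖g c‖ₑ ^ q ≤ ∫⁻ _ in Ioo (-1 : ℝ) 1, ENNReal.ofReal (M ^ q) := by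
        refine lintegral_mono fun c => ?_
        simp only
        rw [← ofReal_norm, ENNReal.ofReal_rpow_of_nonneg (norm_nonneg _) hq]
        exact ENNReal.ofReal_le_ofReal (Real.rpow_le_rpow (norm_nonneg _) (hM c) hq)
    _ < ⊤ := by
        rw [lintegral_const, Measure.restrict_apply_univ, Real.volume_Ioo]
        exact ENNReal.mul_lt_top ENNReal.ofReal_lt_top ENNReal.ofReal_lt_top

theorem planar (q : ℝ) (hq : 8 < q) : ∃ K : ℝ, 0 < K ∧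
    ∀ g : ℝ → ℂ, Measurable g → (∃ M : ℝ, ∀ c, ‖g c‖ ≤ M) → ∀ Y : ℝ, 1 ≤ Y →
    ∫⁻ y in Icc (-Y) Y, ∫⁻ z : ℝ, ‖Ex (wd g) y z‖ₑ ^ (4 : ℝ) ≤
      ENNReal.ofReal (K * (1 + Real.log Y)) *
        (∫⁻ c in Ioo (-1 : ℝ) 1, ‖g c‖ₑ ^ q) ^ (4 / q) := by
  obtain ⟨K, hK, h⟩ := planar1 q hq
  have hq0 : 0 < q := by linarith
  refine ⟨K, hK, fun g hg hM Y hY => ?_⟩
  obtain ⟨M, hM⟩ := hM
  set N := ∫⁻ c in Ioo (-1 : ℝ) 1, ‖g c‖ₑ ^ q with hN
  have hNf : N < ⊤ := lq_fin g M hM q hq0.le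
  have hlogY : 0 ≤ Real.log Y := Real.log_nonneg hY
  rcases eq_or_ne N 0 with h0 | h0
  · have hz : ∀ᵐ c ∂(volume.restrict (Ioo (-1 : ℝ) 1)), wd g c = 0 := by
      have h1 := (lintegral_eq_zero_iff (hg.enorm.pow_const q)).1 (hN ▸ h0)
      filter_upwards [h1] with c hc
      have h2 : ‖g c‖ₑ ^ q = 0 := hc
      rw [ENNReal.rpow_eq_zero_iff_of_pos hq0, enorm_eq_zero] at h2
      unfold wd
      rw [h2, mul_zero]
    simp only [Ex_zero_ae (wd g) hz]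
    simp
  · set t : ℝ := (N.toReal) ^ (1 / q) with ht
    have hN0 : 0 < N.toReal := ENNReal.toReal_pos h0 hNf.ne
    have ht0 : 0 < t := by positivity
    have htN : ENNReal.ofReal (t ^ q) = N := by
      rw [ht, ← Real.rpow_mul hN0.le, one_div_mul_cancel hq0.ne', Real.rpow_one,
        ENNReal.ofReal_toReal hNf.ne]
    have ht4 : ENNReal.ofReal (t ^ (4 : ℝ)) = N ^ (4 / q) := by
      rw [ht, ← Real.rpow_mul hN0.le, ← ENNReal.ofReal_rpow_of_pos hN0,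
        ENNReal.ofReal_toReal hNf.ne]
      congr 1
      ring
    set g' : ℝ → ℂ := fun c => ((t⁻¹ : ℝ) : ℂ) * g c with hg'
    have hgm : Measurable g' := hg.const_mul _
    have hgM : ∀ c, ‖g' c‖ ≤ t⁻¹ * M := by
      intro c
      rw [hg']
      simp only
      rw [norm_mul, Complex.norm_real, Real.norm_of_nonneg (by positivity)]
      gcongr
      exact hM c
    have hg1 : ∫⁻ c in Ioo (-1 : ℝ) 1, ‖g' c‖ₑ ^ q ≤ 1 := by
      have e1 : ∀ c, ‖g' c‖ₑ ^ q = ENNReal.ofReal (t⁻¹ ^ q) * ‖g c‖ₑ ^ q := by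
        intro c
        rw [hg']
        simp only
        rw [enorm_mul, ENNReal.mul_rpow_of_nonneg _ _ hq0.le, ← ofReal_norm ((t⁻¹ : ℝ) : ℂ),
          Complex.norm_real, Real.norm_of_nonneg (by positivity),
          ENNReal.ofReal_rpow_of_nonneg (by positivity) hq0.le]
      simp only [e1]
      rw [lintegral_const_mul' _ _ ENNReal.ofReal_ne_top, ← hN, ← htN,
        ← ENNReal.ofReal_mul (by positivity), ← Real.mul_rpow (by positivity) ht0.le,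
        inv_mul_cancel₀ ht0.ne', Real.one_rpow, ENNReal.ofReal_one]
    have h2 := h g' hgm ⟨_, hgM⟩ hg1 Y hY
    have e2 : ∀ y z, ‖Ex (wd g) y z‖ₑ ^ (4 : ℝ) =
        ENNReal.ofReal (t ^ (4 : ℝ)) * ‖Ex (wd g') y z‖ₑ ^ (4 : ℝ) := by
      intro y z
      rw [hg', wd_smul, Ex_smul, enorm_mul, ENNReal.mul_rpow_of_nonneg _ _ (by norm_num),
        ← ofReal_norm ((t⁻¹ : ℝ) : ℂ), Complex.norm_real, Real.norm_of_nonneg (by positivity),
        ENNReal.ofReal_rpow_of_nonneg (by positivity) (by norm_num), ← mul_assoc,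
        ← ENNReal.ofReal_mul (by positivity), ← Real.mul_rpow ht0.le (by positivity),
        mul_inv_cancel₀ ht0.ne', Real.one_rpow, ENNReal.ofReal_one, one_mul]
    simp only [e2]
    have e3 : ∀ y, ∫⁻ z : ℝ, ENNReal.ofReal (t ^ (4 : ℝ)) * ‖Ex (wd g') y z‖ₑ ^ (4 : ℝ) =
        ENNReal.ofReal (t ^ (4 : ℝ)) * ∫⁻ z : ℝ, ‖Ex (wd g') y z‖ₑ ^ (4 : ℝ) :=
      fun y => lintegral_const_mul' _ _ ENNReal.ofReal_ne_top
    simp only [e3]
    rw [lintegral_const_mul' _ _ ENNReal.ofReal_ne_top, ht4, mul_comm]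
    gcongr

end Pool.Agent.V5helper17.SR
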