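import Mathlib
import Pool.Agent.V5helper17.SR.Pl6
import Pool.Agent.H728R3.SR.K
set_option autoImplicit false

/-! # The planar estimate, square function version -/

namespace Pool.Agent.V5helper17.SR

open MeasureTheory Set Complex
open scoped ENNReal
open Pool.Agent.H789R2.FR (sc band Ex)
open Pool.Agent.H789R2.FR.E4w (Ex_meas norm_phase)
open Pool.Agent.TH335.RF (sc_meas' sc_pos sc_le)
open Pool.Agent.H728R3.SR (sg khinchine K1)

theorem sg_sq (e : Bool) : sg e * sg e = 1 := by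
  unfold sg
  cases e <;> simp

theorem sg_not (e : Bool) : sg (!e) = -sg e := by
  unfold sg
  cases e <;> simp

theorem sg_orth {N : ℕ} (j k : Fin N) :
    ∑ ε : Fin N → Bool, sg (ε j) * sg (ε k) = if j = k then 2 ^ N else 0 := by
  by_cases h : j = k
  · subst h
    simp [sg_sq]
  · rw [if_neg h]
    have h1 : ∑ ε : Fin N → Bool, sg (ε j) * sg (ε k) =
        ∑ ε : Fin N → Bool, -(sg (ε j) * sg (ε k)) := by
      refine Fintype.sum_equiv (Function.Involutive.toPerm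
        (fun ε : Fin N → Bool => Function.update ε j (!ε j)) (fun ε => ?_)) _ _ (fun ε => ?_)
      · simp
      · simp only [Function.Involutive.coe_toPerm, Function.update_self,
          Function.update_of_ne (Ne.symm h)]
        rw [sg_not]
        ring
    rw [Finset.sum_neg_distrib] at h1
    linarith

theorem sum_two {N : ℕ} (a : Fin N → ℝ) :
    ∑ ε : Fin N → Bool, (∑ k, sg (ε k) * a k) ^ 2 = 2 ^ N * ∑ k, a k ^ 2 := by
  have h1 : ∀ ε : Fin N → Bool, (∑ k, sg (ε k) * a k) ^ 2 =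
      ∑ j, ∑ k, (a j * a k) * (sg (ε j) * sg (ε k)) := by
    intro ε
    rw [sq, Finset.sum_mul_sum]
    refine Finset.sum_congr rfl fun j _ => Finset.sum_congr rfl fun k _ => by ring
  simp only [h1]
  rw [Finset.sum_comm]
  have h2 : ∀ j : Fin N, ∑ ε : Fin N → Bool, ∑ k, (a j * a k) * (sg (ε j) * sg (ε k)) =
      2 ^ N * a j ^ 2 := by
    intro j
    rw [Finset.sum_comm]
    simp only [← Finset.mul_sum, sg_orth]
    simp
    ring
  simp only [h2, ← Finset.mul_sum]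

theorem sum_two_c {N : ℕ} (a : Fin N → ℂ) :
    ∑ ε : Fin N → Bool, ‖∑ k, (sg (ε k) : ℂ) * a k‖ ^ 2 = 2 ^ N * ∑ k, ‖a k‖ ^ 2 := by
  have h1 : ∀ w : ℂ, ‖w‖ ^ 2 = w.re ^ 2 + w.im ^ 2 := by
    intro w
    rw [← Complex.normSq_eq_norm_sq, Complex.normSq_apply]
    ring
  have h2 : ∀ ε : Fin N → Bool, ‖∑ k, (sg (ε k) : ℂ) * a k‖ ^ 2 =
      (∑ k, sg (ε k) * (a k).re) ^ 2 + (∑ k, sg (ε k) * (a k).im) ^ 2 := by
    intro ε
    rw [h1, Complex.re_sum, Complex.im_sum]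
    simp only [Complex.re_ofReal_mul, Complex.im_ofReal_mul]
  simp only [h2, Finset.sum_add_distrib, sum_two, h1]
  ring

theorem four {N : ℕ} (a : Fin N → ℂ) :
    2 ^ N * (∑ k, ‖a k‖ ^ 2) ^ 2 ≤ ∑ ε : Fin N → Bool, ‖∑ k, (sg (ε k) : ℂ) * a k‖ ^ 4 := by
  have h1 := sq_sum_le_card_mul_sum_sq (s := (Finset.univ : Finset (Fin N → Bool)))
    (f := fun ε => ‖∑ k, (sg (ε k) : ℂ) * a k‖ ^ 2)
  rw [sum_two_c] at h1
  have h2 : ((Finset.univ : Finset (Fin N → Bool)).card : ℝ) = 2 ^ N := by simp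
  rw [h2] at h1
  have h3 : ∀ ε : Fin N → Bool, (‖∑ k, (sg (ε k) : ℂ) * a k‖ ^ 2) ^ 2 =
      ‖∑ k, (sg (ε k) : ℂ) * a k‖ ^ 4 := fun ε => by ring
  simp only [h3] at h1
  have h4 : (0 : ℝ) < 2 ^ N := by positivity
  have h5 : (2 : ℝ) ^ N * (2 ^ N * (∑ k, ‖a k‖ ^ 2) ^ 2) ≤
      2 ^ N * ∑ ε : Fin N → Bool, ‖∑ k, (sg (ε k) : ℂ) * a k‖ ^ 4 := by
    calc _ = (2 ^ N * ∑ k, ‖a k‖ ^ 2) ^ 2 := by ring
      _ ≤ _ := h1
  exact le_of_mul_le_mul_left h5 h4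

theorem e4 (w : ℂ) : ‖w‖ₑ ^ (4 : ℝ) = ENNReal.ofReal (‖w‖ ^ 4) := by
  rw [← ofReal_norm, ENNReal.ofReal_rpow_of_nonneg (norm_nonneg _) (by norm_num)]
  norm_num

theorem e2 (w : ℂ) : ‖w‖ₑ ^ 2 = ENNReal.ofReal (‖w‖ ^ 2) := by
  rw [← ofReal_norm, ENNReal.ofReal_pow (norm_nonneg _)]

theorem four_e {N : ℕ} (a : Fin N → ℂ) :
    (∑ k, ‖a k‖ₑ ^ 2) ^ (2 : ℝ) ≤ ((2 : ℝ≥0∞) ^ N)⁻¹ *
      ∑ ε : Fin N → Bool, ‖∑ k, (sg (ε k) : ℂ) * a k‖ₑ ^ (4 : ℝ) := by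
  simp only [e4, e2]
  rw [← ENNReal.ofReal_sum_of_nonneg (fun k _ => sq_nonneg _),
    ← ENNReal.ofReal_sum_of_nonneg (fun k _ => by positivity),
    ENNReal.ofReal_rpow_of_nonneg (Finset.sum_nonneg fun k _ => sq_nonneg _) (by norm_num)]
  have h1 : ((2 : ℝ≥0∞) ^ N)⁻¹ = ENNReal.ofReal (((2 : ℝ) ^ N)⁻¹) := by
    rw [ENNReal.ofReal_inv_of_pos (by positivity), ENNReal.ofReal_pow (by norm_num)]
    norm_num
  rw [h1, ← ENNReal.ofReal_mul (by positivity)]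
  apply ENNReal.ofReal_le_ofReal
  have h2 := four a
  rw [le_inv_mul_iff₀ (by positivity)]
  refine le_trans (le_of_eq ?_) h2
  norm_num

/-- signed sum of functions -/
noncomputable def ss {N : ℕ} (g : Fin N → ℝ → ℂ) (ε : Fin N → Bool) (c : ℝ) : ℂ :=
  ∑ k, (sg (ε k) : ℂ) * g k c

theorem ss_meas {N : ℕ} (g : Fin N → ℝ → ℂ) (hg : ∀ k, Measurable (g k)) (ε : Fin N → Bool) :
    Measurable (ss g ε) := by
  unfold ss
  exact Finset.measurable_sum _ fun k _ => (hg k).const_mul _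

theorem ss_bdd {N : ℕ} (g : Fin N → ℝ → ℂ) (hg : ∀ k, ∃ M : ℝ, ∀ c, ‖g k c‖ ≤ M)
    (ε : Fin N → Bool) : ∃ M : ℝ, ∀ c, ‖ss g ε c‖ ≤ M := by
  choose M hM using hg
  refine ⟨∑ k, M k, fun c => ?_⟩
  unfold ss
  refine (norm_sum_le _ _).trans (Finset.sum_le_sum fun k _ => ?_)
  rw [norm_mul, Complex.norm_real]
  have : ‖sg (ε k)‖ = 1 := by
    unfold sg
    split_ifs <;> simp
  rw [this, one_mul]
  exact hM k c

theorem wd_int (g : ℝ → ℂ) (hg : Measurable g) (M : ℝ) (hM : ∀ c, ‖g c‖ ≤ M) (y z : ℝ) :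
    Integrable (fun c => Complex.exp (-((y * sc c + z * c : ℝ) : ℂ) * I) * wd g c)
      (volume.restrict (Ioo (-1 : ℝ) 1)) := by
  have hm : Measurable fun c : ℝ =>
      Complex.exp (-((y * sc c + z * c : ℝ) : ℂ) * I) * wd g c := by
    have := wd_meas g hg
    have := sc_meas'
    fun_prop
  refine Integrable.mono' (Pool.Agent.H438R2.BR.arcsin_int.1.const_mul |M|)
    hm.aestronglyMeasurable ?_
  filter_upwards [ae_restrict_mem measurableSet_Ioo] with c hc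
  have h3 : 0 < 1 - c ^ 2 := by nlinarith [hc.1, hc.2]
  have h4 : (1 - c ^ 2) ^ (-(1 / 2) : ℝ) = (sc c)⁻¹ := by
    unfold sc
    rw [Real.sqrt_eq_rpow, ← Real.rpow_neg h3.le]
  rw [h4, norm_mul, norm_phase, one_mul]
  unfold wd
  have h5 := sc_pos hc
  rw [norm_mul, Complex.norm_real, Real.norm_of_nonneg (by positivity), mul_comm]
  gcongr
  exact (hM c).trans (le_abs_self M)

theorem Ex_ss {N : ℕ} (g : Fin N → ℝ → ℂ) (hg : ∀ k, Measurable (g k))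
    (hM : ∀ k, ∃ M : ℝ, ∀ c, ‖g k c‖ ≤ M) (ε : Fin N → Bool) (y z : ℝ) :
    Ex (wd (ss g ε)) y z = ∑ k, (sg (ε k) : ℂ) * Ex (wd (g k)) y z := by
  unfold Ex
  simp only [← integral_const_mul]
  rw [← integral_finsetSum]
  · congr 1
    funext c
    unfold wd ss
    rw [Finset.mul_sum, Finset.mul_sum]
    refine Finset.sum_congr rfl fun k _ => by ring
  · intro k _
    obtain ⟨M, hM⟩ := hM k
    exact (wd_int (g k) (hg k) M hM y z).const_mul _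

theorem conc (q : ℝ) (hq : 4 < q) (N : ℕ) (x : (Fin N → Bool) → ℝ≥0∞) :
    ((2 : ℝ≥0∞) ^ N)⁻¹ * ∑ ε, x ε ^ (4 / q) ≤ (((2 : ℝ≥0∞) ^ N)⁻¹ * ∑ ε, x ε) ^ (4 / q) := by
  have hq0 : 0 < q := by linarith
  have hw : ∑ _ε : Fin N → Bool, ((2 : ℝ≥0∞) ^ N)⁻¹ = 1 := by
    rw [Finset.sum_const, Finset.card_univ]
    simp only [Fintype.card_pi_const, Fintype.card_bool, nsmul_eq_mul]
    push_cast
    exact ENNReal.mul_inv_cancel (by positivity) (by simp)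
  have h := ENNReal.rpow_arith_mean_le_arith_mean_rpow (Finset.univ : Finset (Fin N → Bool))
    (fun _ => ((2 : ℝ≥0∞) ^ N)⁻¹) (fun ε => x ε ^ (4 / q)) hw (p := q / 4) (by linarith)
  have e1 : ∀ ε, (x ε ^ (4 / q)) ^ (q / 4) = x ε := by
    intro ε
    rw [← ENNReal.rpow_mul, div_mul_div_comm, mul_comm 4 q, div_self (by positivity),
      ENNReal.rpow_one]
  simp only [e1] at h
  rw [Finset.mul_sum, Finset.mul_sum]
  calc _ = ((∑ ε, ((2 : ℝ≥0∞) ^ N)⁻¹ * x ε ^ (4 / q)) ^ (q / 4)) ^ (4 / q) := by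
        rw [← ENNReal.rpow_mul, div_mul_div_comm, mul_comm q 4, div_self (by positivity),
          ENNReal.rpow_one]
    _ ≤ _ := ENNReal.rpow_le_rpow h (by positivity)

theorem avg_fub {ι : Type*} [Fintype ι] (μ : Measure ℝ) (c0 : ℝ≥0∞) (hc0 : c0 ≠ ⊤)
    (F : ι → ℝ → ℝ → ℝ≥0∞) (hF : ∀ i, Measurable (Function.uncurry (F i))) :
    ∫⁻ y, (∫⁻ z : ℝ, c0 * ∑ i, F i y z) ∂μ = c0 * ∑ i, ∫⁻ y, (∫⁻ z : ℝ, F i y z) ∂μ := by
  have h1 : ∀ i y, Measurable (F i y) := fun i y => (hF i).comp measurable_prodMk_left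
  have h2 : ∀ i, Measurable fun y => ∫⁻ z : ℝ, F i y z := fun i => (hF i).lintegral_prod_right'
  have e1 : ∀ y : ℝ, ∫⁻ z : ℝ, c0 * ∑ i, F i y z = c0 * ∑ i, ∫⁻ z : ℝ, F i y z := by
    intro y
    rw [lintegral_const_mul' _ _ hc0, lintegral_finsetSum _ fun i _ => h1 i y]
  simp only [e1]
  rw [lintegral_const_mul' _ _ hc0, lintegral_finsetSum _ fun i _ => h2 i]

/-- the square function version of the planar estimate -/
theorem vec4 (q : ℝ) (hq : 8 < q) : ∃ K : ℝ, 0 < K ∧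
    ∀ (N : ℕ) (g : Fin N → ℝ → ℂ), (∀ k, Measurable (g k)) →
    (∀ k, ∃ M : ℝ, ∀ c, ‖g k c‖ ≤ M) → ∀ Y : ℝ, 1 ≤ Y →
    ∫⁻ y in Icc (-Y) Y, ∫⁻ z : ℝ, (∑ k, ‖Ex (wd (g k)) y z‖ₑ ^ 2) ^ (2 : ℝ) ≤
      ENNReal.ofReal (K * (1 + Real.log Y)) *
        (∫⁻ c in Ioo (-1 : ℝ) 1, (∑ k, ‖g k c‖ₑ ^ 2) ^ (q / 2)) ^ (4 / q) := by
  obtain ⟨K, hK, h⟩ := planar q hq
  have hq0 : 0 < q := by linarith
  refine ⟨K * (|K1 q| + 1), by positivity, fun N g hg hM Y hY => ?_⟩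
  have hlogY : 0 ≤ Real.log Y := Real.log_nonneg hY
  set c0 : ℝ≥0∞ := ((2 : ℝ≥0∞) ^ N)⁻¹ with hc0
  have hc0t : c0 ≠ ⊤ := by rw [hc0]; simp
  have hEm : ∀ ε : Fin N → Bool, Measurable (Function.uncurry fun y z =>
      ‖Ex (wd (ss g ε)) y z‖ₑ ^ (4 : ℝ)) := fun ε =>
    (Ex_meas _ (wd_meas _ (ss_meas g hg ε))).enorm.pow_const _
  have hsm : ∀ ε : Fin N → Bool, Measurable fun c : ℝ => ‖ss g ε c‖ₑ ^ q := fun ε =>
    (ss_meas g hg ε).enorm.pow_const _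
  calc ∫⁻ y in Icc (-Y) Y, ∫⁻ z : ℝ, (∑ k, ‖Ex (wd (g k)) y z‖ₑ ^ 2) ^ (2 : ℝ)
      ≤ ∫⁻ y in Icc (-Y) Y, ∫⁻ z : ℝ, c0 *
          ∑ ε : Fin N → Bool, ‖Ex (wd (ss g ε)) y z‖ₑ ^ (4 : ℝ) := by
        refine lintegral_mono fun y => lintegral_mono fun z => ?_
        simp only [Ex_ss g hg hM]
        exact four_e fun k => Ex (wd (g k)) y z
    _ = c0 * ∑ ε : Fin N → Bool,
          ∫⁻ y in Icc (-Y) Y, ∫⁻ z : ℝ, ‖Ex (wd (ss g ε)) y z‖ₑ ^ (4 : ℝ) :=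
        avg_fub _ c0 hc0t (fun ε y z => ‖Ex (wd (ss g ε)) y z‖ₑ ^ (4 : ℝ)) hEm
    _ ≤ c0 * ∑ ε : Fin N → Bool, ENNReal.ofReal (K * (1 + Real.log Y)) *
        (∫⁻ c in Ioo (-1 : ℝ) 1, ‖ss g ε c‖ₑ ^ q) ^ (4 / q) := by
        gcongr with ε _
        exact h (ss g ε) (ss_meas g hg ε) (ss_bdd g hM ε) Y hY
    _ = ENNReal.ofReal (K * (1 + Real.log Y)) * (c0 * ∑ ε : Fin N → Bool,
        (∫⁻ c in Ioo (-1 : ℝ) 1, ‖ss g ε c‖ₑ ^ q) ^ (4 / q)) := by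
        rw [← Finset.mul_sum]
        ring
    _ ≤ ENNReal.ofReal (K * (1 + Real.log Y)) * (c0 * ∑ ε : Fin N → Bool,
        (∫⁻ c in Ioo (-1 : ℝ) 1, ‖ss g ε c‖ₑ ^ q)) ^ (4 / q) := by
        gcongr
        exact conc q (by linarith) N _
    _ ≤ ENNReal.ofReal (K * (1 + Real.log Y)) * (ENNReal.ofReal (K1 q) *
        ∫⁻ c in Ioo (-1 : ℝ) 1, (∑ k, ‖g k c‖ₑ ^ 2) ^ (q / 2)) ^ (4 / q) := by
        refine mul_le_mul' le_rfl (ENNReal.rpow_le_rpow ?_ (by positivity))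
        rw [← lintegral_finsetSum _ (fun ε _ => hsm ε), ← lintegral_const_mul' _ _ hc0t,
          ← lintegral_const_mul' _ _ ENNReal.ofReal_ne_top]
        refine lintegral_mono fun c => ?_
        simp only
        have h1 := khinchine q hq0 (fun k => g k c)
        rw [Fintype.card_fin] at h1
        calc c0 * ∑ ε : Fin N → Bool, ‖ss g ε c‖ₑ ^ q
            ≤ c0 * (2 ^ N * (ENNReal.ofReal (K1 q) * (∑ k, ‖g k c‖ₑ ^ 2) ^ (q / 2))) := by
              gcongr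
              exact h1
          _ = _ := by
              rw [← mul_assoc, hc0, ENNReal.inv_mul_cancel (by simp) (by simp), one_mul]
    _ ≤ _ := by
        rw [ENNReal.mul_rpow_of_nonneg _ _ (by positivity), ← mul_assoc]
        gcongr
        have h2 : ENNReal.ofReal (K1 q) ^ (4 / q) ≤ ENNReal.ofReal (|K1 q| + 1) := by
          have h3 : ENNReal.ofReal (K1 q) ≤ ENNReal.ofReal (|K1 q| + 1) :=
            ENNReal.ofReal_le_ofReal (by linarith [le_abs_self (K1 q)])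
          calc ENNReal.ofReal (K1 q) ^ (4 / q) ≤ ENNReal.ofReal (|K1 q| + 1) ^ (4 / q) :=
                ENNReal.rpow_le_rpow h3 (by positivity)
            _ ≤ ENNReal.ofReal (|K1 q| + 1) ^ (1 : ℝ) := by
                apply ENNReal.rpow_le_rpow_of_exponent_le
                · rw [← ENNReal.ofReal_one]
                  exact ENNReal.ofReal_le_ofReal (by linarith [abs_nonneg (K1 q)])
                · rw [div_le_one hq0]
                  linarith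
            _ = _ := ENNReal.rpow_one _
        calc ENNReal.ofReal (K * (1 + Real.log Y)) * ENNReal.ofReal (K1 q) ^ (4 / q)
            ≤ ENNReal.ofReal (K * (1 + Real.log Y)) * ENNReal.ofReal (|K1 q| + 1) := by gcongr
          _ = _ := by
              rw [← ENNReal.ofReal_mul (by positivity)]
              congr 1
              ring

end Pool.Agent.V5helper17.SR
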