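import Mathlib
import Pool.Agent.V5helper17.SR.Vec
import Pool.Agent.V5helper17.SR.Trig
set_option autoImplicit false

/-! # The waves attached to a density of one variable -/

namespace Pool.Agent.V5helper17.SR

open MeasureTheory Set Complex
open scoped ENNReal
open Pool.Agent.H789R2.FR (sc band Ex)
open Pool.Agent.H789R2.FR.E4w (Ex_meas norm_phase)
open Pool.Agent.TH335.RF (sc_meas' sc_pos sc_le)

theorem ph_meas (y z : ℝ) : Measurable fun c : ℝ =>
    Complex.exp (-((y * sc c + z * c : ℝ) : ℂ) * I) := by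
  have := sc_meas'
  fun_prop

theorem g_int (g : ℝ → ℂ) (hg : Measurable g) (M : ℝ) (hM : ∀ c, ‖g c‖ ≤ M) (y z : ℝ) :
    Integrable (fun c => Complex.exp (-((y * sc c + z * c : ℝ) : ℂ) * I) * g c)
      (volume.restrict (Ioo (-1 : ℝ) 1)) := by
  have : IsFiniteMeasure (volume.restrict (Ioo (-1 : ℝ) 1)) :=
    ⟨by rw [Measure.restrict_apply_univ, Real.volume_Ioo]; exact ENNReal.ofReal_lt_top⟩
  refine Integrable.of_bound ((ph_meas y z).mul hg).aestronglyMeasurable M
    (Filter.Eventually.of_forall fun c => ?_)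
  rw [norm_mul, norm_phase, one_mul]
  exact hM c

theorem Ex_cont (g : ℝ → ℂ) (hg : Measurable g) (M : ℝ) (hM : ∀ c, ‖g c‖ ≤ M) (z : ℝ) :
    Continuous fun y => Ex g y z := by
  have hf : IsFiniteMeasure (volume.restrict (Ioo (-1 : ℝ) 1)) :=
    ⟨by rw [Measure.restrict_apply_univ, Real.volume_Ioo]; exact ENNReal.ofReal_lt_top⟩
  unfold Ex
  apply continuous_of_dominated (bound := fun _ => M)
  · intro y
    exact ((ph_meas y z).mul hg).aestronglyMeasurable
  · intro y
    refine Filter.Eventually.of_forall fun c => ?_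
    rw [norm_mul, norm_phase, one_mul]
    exact hM c
  · exact integrable_const M
  · refine Filter.Eventually.of_forall fun c => ?_
    fun_prop

theorem Ex_deriv (g : ℝ → ℂ) (hg : Measurable g) (M : ℝ) (hM : ∀ c, ‖g c‖ ≤ M) (z s : ℝ) :
    HasDerivAt (fun y => Ex (wd g) y z) (-I * Ex g s z) s := by
  have hf : IsFiniteMeasure (volume.restrict (Ioo (-1 : ℝ) 1)) :=
    ⟨by rw [Measure.restrict_apply_univ, Real.volume_Ioo]; exact ENNReal.ofReal_lt_top⟩
  have key := hasDerivAt_integral_of_dominated_loc_of_deriv_le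
    (μ := volume.restrict (Ioo (-1 : ℝ) 1))
    (F := fun y c => Complex.exp (-((y * sc c + z * c : ℝ) : ℂ) * I) * wd g c)
    (F' := fun y c => -I * (Complex.exp (-((y * sc c + z * c : ℝ) : ℂ) * I) * g c))
    (x₀ := s) (s := univ) (bound := fun _ => M) Filter.univ_mem
    (Filter.Eventually.of_forall fun y => ((ph_meas y z).mul (wd_meas g hg)).aestronglyMeasurable)
    (wd_int g hg M hM s z)
    (((ph_meas s z).mul hg).const_mul _).aestronglyMeasurable
    (Filter.Eventually.of_forall fun c y _ => by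
      rw [norm_mul, norm_neg, Complex.norm_I, one_mul, norm_mul, norm_phase, one_mul]
      exact hM c)
    (integrable_const M)
    (by
      filter_upwards [ae_restrict_mem measurableSet_Ioo] with c hc y _
      have h0 := sc_pos hc
      have h0' : ((sc c : ℝ) : ℂ) ≠ 0 := by exact_mod_cast h0.ne'
      have h1 : HasDerivAt (fun y : ℝ => ((y * sc c + z * c : ℝ) : ℂ)) ((sc c : ℝ) : ℂ) y := by
        have h2 : HasDerivAt (fun y : ℝ => y * sc c + z * c) (sc c) y := by
          simpa using ((hasDerivAt_id y).mul_const (sc c)).add_const (z * c)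
        exact h2.ofReal_comp
      have h1' : HasDerivAt (fun y : ℝ => -((y * sc c + z * c : ℝ) : ℂ)) (-((sc c : ℝ) : ℂ)) y :=
        h1.neg
      have h3 := ((h1'.mul_const I).cexp).mul_const (wd g c)
      refine h3.congr_deriv ?_
      unfold wd
      rw [Complex.ofReal_inv]
      field_simp)
  have h1 : Ex (wd g) = fun y z => ∫ c in Ioo (-1 : ℝ) 1,
      Complex.exp (-((y * sc c + z * c : ℝ) : ℂ) * I) * wd g c := rfl
  have h2 := key.2
  rw [integral_const_mul] at h2
  exact h2

/-- the two waves -/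
theorem wave (g : ℝ → ℂ) (hg : Measurable g) (M : ℝ) (hM : ∀ c, ‖g c‖ ≤ M) (z ρ : ℝ) :
    Wv ρ (fun x => Ex g (ρ * Real.cos x) z) (fun x => Ex (wd g) (ρ * Real.cos x) z) := by
  refine ⟨(Ex_cont g hg M hM z).comp (by fun_prop), fun x => ?_⟩
  have h1 : HasDerivAt (fun x => ρ * Real.cos x) (ρ * (-Real.sin x)) x :=
    (Real.hasDerivAt_cos x).const_mul ρ
  have h2 := (Ex_deriv g hg M hM z (ρ * Real.cos x)).scomp x h1
  refine h2.congr_deriv ?_
  rw [Complex.real_smul]
  push_cast
  ring

end Pool.Agent.V5helper17.SR
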