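import Mathlib
import Pool.Agent.V5helper17.SR.Trig
set_option autoImplicit false

/-! # Integrals of the weight -/

namespace Pool.Agent.V5helper17.SR

open MeasureTheory Set
open scoped ENNReal

noncomputable def fs (a : ℝ) (x : ℝ) : ℝ≥0∞ := ENNReal.ofReal |Real.sin x| ^ (-a)

theorem fs_meas (a : ℝ) : Measurable (fs a) := by
  unfold fs
  have : Measurable fun x : ℝ => |Real.sin x| := by fun_prop
  exact this.ennreal_ofReal.pow_const _

theorem pw_fin (a : ℝ) (ha1 : a < 1) :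
    ∫⁻ x in Ioc (0 : ℝ) (Real.pi / 2), ENNReal.ofReal (2 / Real.pi * x) ^ (-a) ≠ ⊤ := by
  have hpi := Real.pi_pos
  have h1 : ∫⁻ x in Ioc (0 : ℝ) (Real.pi / 2), ENNReal.ofReal (2 / Real.pi * x) ^ (-a) =
      ∫⁻ x in Ioc (0 : ℝ) (Real.pi / 2), ENNReal.ofReal ((2 / Real.pi) ^ (-a) * x ^ (-a)) := by
    refine setLIntegral_congr_fun measurableSet_Ioc fun x hx => ?_
    rw [ENNReal.ofReal_rpow_of_pos (mul_pos (by positivity) hx.1),
      Real.mul_rpow (by positivity) hx.1.le]
  rw [h1]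
  have h2 : IntervalIntegrable (fun x : ℝ => x ^ (-a)) volume 0 (Real.pi / 2) :=
    intervalIntegral.intervalIntegrable_rpow' (by linarith)
  have h3 : IntegrableOn (fun x : ℝ => (2 / Real.pi) ^ (-a) * x ^ (-a)) (Ioc 0 (Real.pi / 2)) :=
    ((intervalIntegrable_iff_integrableOn_Ioc_of_le (by positivity)).1 h2).const_mul _
  exact h3.lintegral_lt_top.ne

theorem base (a : ℝ) (ha0 : 0 ≤ a) (ha1 : a < 1) :
    ∫⁻ x in Icc (-(Real.pi / 2)) (Real.pi / 2), fs a x ≠ ⊤ := by
  have hpi := Real.pi_pos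
  set J := ∫⁻ x in Ioc (0 : ℝ) (Real.pi / 2), ENNReal.ofReal (2 / Real.pi * x) ^ (-a) with hJ
  have hJt := pw_fin a ha1
  have h1 : ∫⁻ x in Ioc (0 : ℝ) (Real.pi / 2), fs a x ≤ J := by
    refine setLIntegral_mono' measurableSet_Ioc fun x hx => ?_
    unfold fs
    rw [ENNReal.rpow_neg, ENNReal.rpow_neg, ENNReal.inv_le_inv]
    apply ENNReal.rpow_le_rpow _ ha0
    apply ENNReal.ofReal_le_ofReal
    exact (Real.mul_le_sin hx.1.le hx.2).trans (le_abs_self _)
  have h2 : ∫⁻ x in Ico (-(Real.pi / 2)) (0 : ℝ), fs a x ≤ J := by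
    refine le_trans (le_of_eq ?_) h1
    rw [← lintegral_indicator measurableSet_Ico, ← lintegral_indicator measurableSet_Ioc]
    have h3 := (Measure.measurePreserving_neg (volume : Measure ℝ)).lintegral_comp
      ((fs_meas a).indicator (measurableSet_Ioc (a := (0 : ℝ)) (b := Real.pi / 2)))
    rw [← h3]
    refine lintegral_congr fun x => ?_
    by_cases hx : x ∈ Ico (-(Real.pi / 2)) (0 : ℝ)
    · have hx' : -x ∈ Ioc (0 : ℝ) (Real.pi / 2) := ⟨by linarith [hx.2], by linarith [hx.1]⟩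
      rw [indicator_of_mem hx, indicator_of_mem hx']
      unfold fs
      rw [Real.sin_neg, abs_neg]
    · have hx' : -x ∉ Ioc (0 : ℝ) (Real.pi / 2) := fun h => hx
        ⟨by linarith [h.2], by linarith [h.1]⟩
      rw [indicator_of_notMem hx, indicator_of_notMem hx']
  have h4 : Icc (-(Real.pi / 2)) (Real.pi / 2) ⊆ (Ico (-(Real.pi / 2)) (0 : ℝ) ∪ {0}) ∪
      Ioc (0 : ℝ) (Real.pi / 2) := by
    intro x hx
    rcases lt_trichotomy x 0 with h | h | h
    · left; left; exact ⟨hx.1, h⟩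
    · left; right; exact h
    · right; exact ⟨h, hx.2⟩
  have h5 : ∫⁻ x in Icc (-(Real.pi / 2)) (Real.pi / 2), fs a x ≤ (J + 0) + J := by
    refine (lintegral_mono_set h4).trans ((lintegral_union_le _ _ _).trans ?_)
    refine add_le_add ((lintegral_union_le _ _ _).trans (add_le_add h2 ?_)) h1
    rw [setLIntegral_measure_zero _ _ (by simp)]
  exact ne_top_of_le_ne_top (by simp [hJ, hJt]) h5

theorem fs_shift (a x : ℝ) (j : ℕ) : fs a (x + (j : ℝ) * Real.pi) = fs a x := by
  unfold fs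
  rw [Real.sin_add_nat_mul_pi, abs_mul, abs_pow, abs_neg, abs_one, one_pow, one_mul]

theorem big (a : ℝ) (ha0 : 0 ≤ a) (ha1 : a < 1) :
    ∫⁻ x in Icc (-(3 * Real.pi)) (3 * Real.pi), fs a x ≠ ⊤ := by
  have hpi := Real.pi_pos
  have hS := base a ha0 ha1
  set S := ∫⁻ x in Icc (-(Real.pi / 2)) (Real.pi / 2), fs a x with hSd
  -- shifted intervals
  have h1 : ∀ j : ℕ, ∫⁻ x in Icc (-(Real.pi / 2) - 3 * Real.pi + j * Real.pi)
      (Real.pi / 2 - 3 * Real.pi + j * Real.pi), fs a x = S := by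
    intro j
    have e : ∀ x : ℝ, fs a (x + ((j : ℝ) - 3) * Real.pi) = fs a x := by
      intro x
      have h2 := fs_shift a (x + ((j : ℝ) - 3) * Real.pi) 3
      have h3 := fs_shift a x j
      rw [← h2, ← h3]
      congr 1
      push_cast
      ring
    rw [hSd, ← lintegral_indicator measurableSet_Icc, ← lintegral_indicator measurableSet_Icc,
      ← lintegral_add_right_eq_self _ (((j : ℝ) - 3) * Real.pi)]
    refine lintegral_congr fun x => ?_
    by_cases hx : x ∈ Icc (-(Real.pi / 2)) (Real.pi / 2)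
    · have hx' : x + ((j : ℝ) - 3) * Real.pi ∈ Icc (-(Real.pi / 2) - 3 * Real.pi + j * Real.pi)
          (Real.pi / 2 - 3 * Real.pi + j * Real.pi) :=
        ⟨by linarith [hx.1], by linarith [hx.2]⟩
      rw [indicator_of_mem hx, indicator_of_mem hx', e]
    · have hx' : x + ((j : ℝ) - 3) * Real.pi ∉ Icc (-(Real.pi / 2) - 3 * Real.pi + j * Real.pi)
          (Real.pi / 2 - 3 * Real.pi + j * Real.pi) := fun h => hx
        ⟨by linarith [h.1], by linarith [h.2]⟩
      rw [indicator_of_notMem hx, indicator_of_notMem hx']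
  have h2 : Icc (-(3 * Real.pi)) (3 * Real.pi) ⊆ ⋃ j : Fin 7,
      Icc (-(Real.pi / 2) - 3 * Real.pi + (j : ℕ) * Real.pi)
        (Real.pi / 2 - 3 * Real.pi + (j : ℕ) * Real.pi) := by
    intro x hx
    set j := ⌊(x + 3 * Real.pi + Real.pi / 2) / Real.pi⌋₊ with hj
    have h0 : 0 ≤ (x + 3 * Real.pi + Real.pi / 2) / Real.pi := by
      apply div_nonneg _ hpi.le
      linarith [hx.1]
    have hj1 := Nat.floor_le h0
    have hj2 := Nat.lt_floor_add_one ((x + 3 * Real.pi + Real.pi / 2) / Real.pi)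
    rw [← hj] at hj1 hj2
    rw [le_div_iff₀ hpi] at hj1
    rw [div_lt_iff₀ hpi] at hj2
    have hj7 : j < 7 := by
      have : (j : ℝ) < 7 := by
        by_contra hc
        push Not at hc
        have : 7 * Real.pi ≤ (j : ℝ) * Real.pi := by gcongr
        linarith [hx.2]
      exact_mod_cast this
    rw [mem_iUnion]
    refine ⟨⟨j, hj7⟩, ?_, ?_⟩
    · simp only
      linarith
    · simp only
      linarith
  refine ne_top_of_le_ne_top ?_ ((lintegral_mono_set h2).trans (lintegral_iUnion_le _ _))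
  rw [tsum_fintype]
  simp only [h1]
  rw [Finset.sum_const]
  simp only [Finset.card_univ, Fintype.card_fin, nsmul_eq_mul]
  exact ENNReal.mul_ne_top (by norm_num) hS

/-- the cosine -/
theorem big_cos (a : ℝ) (ha0 : 0 ≤ a) (ha1 : a < 1) :
    ∫⁻ x in Icc (-(2 * Real.pi)) (2 * Real.pi), ENNReal.ofReal |Real.cos x| ^ (-a) ≠ ⊤ := by
  have hpi := Real.pi_pos
  refine ne_top_of_le_ne_top (big a ha0 ha1) ?_
  rw [← lintegral_indicator measurableSet_Icc, ← lintegral_indicator measurableSet_Icc,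
    ← lintegral_add_right_eq_self ((Icc (-(3 * Real.pi)) (3 * Real.pi)).indicator (fs a))
      (Real.pi / 2)]
  refine lintegral_mono fun x => ?_
  by_cases hx : x ∈ Icc (-(2 * Real.pi)) (2 * Real.pi)
  · have hx' : x + Real.pi / 2 ∈ Icc (-(3 * Real.pi)) (3 * Real.pi) :=
      ⟨by linarith [hx.1], by linarith [hx.2]⟩
    rw [indicator_of_mem hx, indicator_of_mem hx']
    unfold fs
    rw [Real.sin_add_pi_div_two]
  · rw [indicator_of_notMem hx]
    exact zero_le

theorem Kint (ε δ : ℝ) (hε0 : 0 < ε) (hε1 : ε < 1) (hδ0 : 0 ≤ δ) (hδ1 : δ < 1) :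
    ∃ C : ℝ, 0 < C ∧ ∀ R : ℝ, 0 < R →
      ∫⁻ x in Icc (-(2 * Real.pi)) (2 * Real.pi), KR R ε x * ENNReal.ofReal |Real.cos x| ^ (-δ) ≤
        ENNReal.ofReal (C * R ^ (-1 + ε / 2)) := by
  have hpi := Real.pi_pos
  set A := ∫⁻ x in Icc (-(3 * Real.pi)) (3 * Real.pi), fs (1 - ε) x with hA
  have hAt : A ≠ ⊤ := big (1 - ε) (by linarith) (by linarith)
  set B := ∫⁻ x in Icc (-(2 * Real.pi)) (2 * Real.pi), ENNReal.ofReal |Real.cos x| ^ (-δ) with hB
  have hBt : B ≠ ⊤ := big_cos δ hδ0 hδ1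
  set c : ℝ≥0∞ := (2 : ℝ≥0∞) with hc
  have hT : c * A + c * B ≠ ⊤ := by simp [hc, hAt, hBt, ENNReal.mul_eq_top]
  refine ⟨(c * A + c * B).toReal + 1, by positivity, fun R hR => ?_⟩
  have hpt : ∀ x : ℝ, fs (1 - ε) x * ENNReal.ofReal |Real.cos x| ^ (-δ) ≤
      c * fs (1 - ε) x + c * ENNReal.ofReal |Real.cos x| ^ (-δ) := by
    intro x
    have half : ∀ (y b : ℝ), 1 / 2 ≤ y → 0 ≤ b → b ≤ 1 → ENNReal.ofReal y ^ (-b) ≤ c := by
      intro y b hy hb0 hb1
      rw [ENNReal.ofReal_rpow_of_pos (by linarith), hc,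
        show (2 : ℝ≥0∞) = ENNReal.ofReal 2 by norm_num]
      apply ENNReal.ofReal_le_ofReal
      calc y ^ (-b) ≤ (1 / 2 : ℝ) ^ (-b) :=
            Real.rpow_le_rpow_of_nonpos (by norm_num) hy (by linarith)
        _ ≤ (1 / 2 : ℝ) ^ (-1 : ℝ) :=
            Real.rpow_le_rpow_of_exponent_ge (by norm_num) (by norm_num) (by linarith)
        _ = 2 := by rw [Real.rpow_neg_one]; norm_num
    rcases le_or_gt (1 / 2) |Real.cos x| with h | h
    · calc _ ≤ fs (1 - ε) x * c := by
            gcongr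
            exact half _ _ h hδ0 hδ1.le
        _ = c * fs (1 - ε) x := mul_comm _ _
        _ ≤ _ := le_self_add
    · have h2 : 1 / 2 ≤ |Real.sin x| := by
        by_contra hcon
        push Not at hcon
        have h3 := Real.sin_sq_add_cos_sq x
        have h4 : Real.sin x ^ 2 ≤ (1 / 2) ^ 2 := by
          rw [← sq_abs]
          exact pow_le_pow_left₀ (abs_nonneg _) hcon.le 2
        have h5 : Real.cos x ^ 2 ≤ (1 / 2) ^ 2 := by
          rw [← sq_abs]
          exact pow_le_pow_left₀ (abs_nonneg _) h.le 2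
        norm_num at h4 h5
        linarith
      calc _ ≤ c * ENNReal.ofReal |Real.cos x| ^ (-δ) := by
            gcongr
            exact half _ _ h2 (by linarith) (by linarith)
        _ ≤ _ := le_add_self
  have e1 : ∀ x : ℝ, KR R ε x * ENNReal.ofReal |Real.cos x| ^ (-δ) =
      ENNReal.ofReal (R ^ (-1 + ε / 2)) * (fs (1 - ε) x * ENNReal.ofReal |Real.cos x| ^ (-δ)) := by
    intro x
    unfold KR fs
    rw [mul_assoc]
  simp only [e1]
  rw [lintegral_const_mul' _ _ ENNReal.ofReal_ne_top]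
  have hcm : Measurable fun x : ℝ => ENNReal.ofReal |Real.cos x| ^ (-δ) := by
    have : Measurable fun x : ℝ => |Real.cos x| := by fun_prop
    exact this.ennreal_ofReal.pow_const _
  have h2 : ∫⁻ x in Icc (-(2 * Real.pi)) (2 * Real.pi),
      fs (1 - ε) x * ENNReal.ofReal |Real.cos x| ^ (-δ) ≤ c * A + c * B := by
    refine (lintegral_mono hpt).trans ?_
    rw [lintegral_add_left ((fs_meas _).const_mul _), lintegral_const_mul _ (fs_meas _),
      lintegral_const_mul _ hcm]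
    gcongr
    apply lintegral_mono_set
    apply Icc_subset_Icc <;> linarith
  calc _ ≤ ENNReal.ofReal (R ^ (-1 + ε / 2)) * (c * A + c * B) := by gcongr
    _ = ENNReal.ofReal (R ^ (-1 + ε / 2)) * ENNReal.ofReal (c * A + c * B).toReal := by
        rw [ENNReal.ofReal_toReal hT]
    _ ≤ ENNReal.ofReal (R ^ (-1 + ε / 2)) * ENNReal.ofReal ((c * A + c * B).toReal + 1) := by
        gcongr
        linarith
    _ = _ := by
        rw [← ENNReal.ofReal_mul (by positivity)]
        congr 1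
        ring

end Pool.Agent.V5helper17.SR
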