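import Mathlib
import Pool.Agent.V5helper17.SR.Gx
import Pool.Agent.V5helper17.SR.Kint
set_option autoImplicit false

/-! # Measure theoretic tools -/

namespace Pool.Agent.V5helper17.SR

open MeasureTheory Set
open scoped ENNReal

theorem cos_ae : ∀ᵐ x : ℝ, Real.cos x ≠ 0 := by
  have hc : {x : ℝ | Real.cos x = 0}.Countable := by
    have : {x : ℝ | Real.cos x = 0} ⊆ range fun k : ℤ => (2 * (k : ℝ) + 1) * Real.pi / 2 := by
      intro x hx
      obtain ⟨k, hk⟩ := Real.cos_eq_zero_iff.1 hx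
      exact ⟨k, hk.symm⟩
    exact (countable_range _).mono this
  have := hc.ae_notMem (μ := (volume : Measure ℝ))
  exact this

theorem scale1 (H : ℝ → ℝ≥0∞) (hH : Measurable H) (R c : ℝ) (hR : 0 < R) (hc : c ≠ 0)
    (hc1 : |c| ≤ 1) :
    ∫⁻ ρ in Icc R (2 * R), H (ρ * c) ≤ ENNReal.ofReal |c| ^ (-(1 : ℝ)) *
      ∫⁻ s in Icc (-(2 * R)) (2 * R), H s := by
  set H' : ℝ → ℝ≥0∞ := (Icc (-(2 * R)) (2 * R)).indicator H with hH'
  have hH'm : Measurable H' := hH.indicator measurableSet_Icc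
  have h1 : ∀ ρ ∈ Icc R (2 * R), H (ρ * c) ≤ H' (ρ * c) := by
    intro ρ hρ
    have h2 : ρ * c ∈ Icc (-(2 * R)) (2 * R) := by
      have h3 : |ρ * c| ≤ 2 * R := by
        rw [abs_mul, abs_of_pos (lt_of_lt_of_le hR hρ.1)]
        calc ρ * |c| ≤ (2 * R) * 1 :=
              mul_le_mul hρ.2 hc1 (abs_nonneg _) (by linarith)
          _ = 2 * R := mul_one _
      exact abs_le.1 h3
    rw [hH', indicator_of_mem h2]
  have h4 : ∫⁻ ρ : ℝ, H' (ρ * c) = ENNReal.ofReal |c⁻¹| * ∫⁻ s, H' s := by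
    rw [← lintegral_map hH'm (measurable_mul_const c), Real.map_volume_mul_right hc,
      lintegral_smul_measure, smul_eq_mul]
  have h5 : ENNReal.ofReal |c⁻¹| = ENNReal.ofReal |c| ^ (-(1 : ℝ)) := by
    rw [abs_inv, ENNReal.ofReal_inv_of_pos (abs_pos.2 hc), ENNReal.rpow_neg_one]
  calc ∫⁻ ρ in Icc R (2 * R), H (ρ * c) ≤ ∫⁻ ρ in Icc R (2 * R), H' (ρ * c) :=
        setLIntegral_mono' measurableSet_Icc h1
    _ ≤ ∫⁻ ρ : ℝ, H' (ρ * c) := setLIntegral_le_lintegral _ _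
    _ = _ := by rw [h4, h5, hH', lintegral_indicator measurableSet_Icc]

/-- weighted Cauchy-Schwarz -/
theorem csw {α : Type*} [MeasurableSpace α] (μ : Measure α) (w v h : α → ℝ≥0∞)
    (hw : Measurable w) (hv : Measurable v) (hh : Measurable h)
    (h0 : ∀ᵐ x ∂μ, v x ≠ 0 ∧ v x ≠ ⊤) :
    (∫⁻ x, w x * h x ∂μ) ^ 2 ≤ (∫⁻ x, w x * (v x)⁻¹ ∂μ) * ∫⁻ x, w x * v x * h x ^ 2 ∂μ := by
  set f : α → ℝ≥0∞ := fun x => (w x * (v x)⁻¹) ^ (1 / 2 : ℝ) with hf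
  set g : α → ℝ≥0∞ := fun x => (w x * v x) ^ (1 / 2 : ℝ) * h x with hg
  have hfm : Measurable f := (hw.mul hv.inv).pow_const _
  have hgm : Measurable g := ((hw.mul hv).pow_const _).mul hh
  have h2 := ENNReal.lintegral_mul_le_Lp_mul_Lq μ Real.HolderConjugate.two_two (f := f)
    (g := g) hfm.aemeasurable hgm.aemeasurable
  have e0 : ∀ y : ℝ≥0∞, (y ^ (1 / 2 : ℝ)) ^ (2 : ℝ) = y := by
    intro y
    rw [← ENNReal.rpow_mul]
    norm_num
  have e1 : ∫⁻ x, w x * h x ∂μ = ∫⁻ x, (f * g) x ∂μ := by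
    refine lintegral_congr_ae ?_
    filter_upwards [h0] with x hx
    simp only [Pi.mul_apply, hf, hg]
    rw [← mul_assoc, ← ENNReal.mul_rpow_of_nonneg _ _ (by norm_num : (0 : ℝ) ≤ 1 / 2)]
    have h3 : w x * (v x)⁻¹ * (w x * v x) = w x * w x := by
      calc w x * (v x)⁻¹ * (w x * v x) = w x * w x * ((v x)⁻¹ * v x) := by ring
        _ = _ := by rw [ENNReal.inv_mul_cancel hx.1 hx.2, mul_one]
    rw [h3, ENNReal.mul_rpow_of_nonneg _ _ (by norm_num : (0 : ℝ) ≤ 1 / 2)]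
    have h4 : w x ^ (1 / 2 : ℝ) * w x ^ (1 / 2 : ℝ) = w x := by
      rw [← ENNReal.rpow_add_of_nonneg _ _ (by norm_num) (by norm_num)]
      norm_num
    rw [h4]
  have e2 : ∀ x, f x ^ (2 : ℝ) = w x * (v x)⁻¹ := fun x => e0 _
  have e3 : ∀ x, g x ^ (2 : ℝ) = w x * v x * h x ^ 2 := by
    intro x
    rw [hg]
    simp only
    rw [ENNReal.mul_rpow_of_nonneg _ _ (by norm_num : (0 : ℝ) ≤ 2), e0, ENNReal.rpow_ofNat]
  simp only [e2, e3] at h2
  rw [e1]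
  calc (∫⁻ x, (f * g) x ∂μ) ^ 2 ≤ ((∫⁻ x, w x * (v x)⁻¹ ∂μ) ^ (1 / (2 : ℝ)) *
        (∫⁻ x, w x * v x * h x ^ 2 ∂μ) ^ (1 / (2 : ℝ))) ^ 2 := by gcongr
    _ = _ := by
        rw [mul_pow, ← ENNReal.rpow_natCast, ← ENNReal.rpow_natCast, ← ENNReal.rpow_mul,
          ← ENNReal.rpow_mul]
        norm_num

/-- Tonelli for four variables -/
theorem tri (A B J : Set ℝ) (f : (ℝ × ℝ × ℝ) × ℝ → ℝ≥0∞) (hf : Measurable f) :
    ∫⁻ a in A, ∫⁻ b in B, ∫⁻ z : ℝ, ∫⁻ x in J, f ((a, b, z), x) =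
      ∫⁻ x in J, ∫⁻ a in A, ∫⁻ b in B, ∫⁻ z : ℝ, f ((a, b, z), x) := by
  set P : Measure (ℝ × ℝ × ℝ) := (volume.restrict A).prod ((volume.restrict B).prod volume)
    with hP
  have h1 : ∀ F : ℝ × ℝ × ℝ → ℝ≥0∞, Measurable F →
      ∫⁻ a in A, ∫⁻ b in B, ∫⁻ z : ℝ, F (a, b, z) = ∫⁻ p, F p ∂P := by
    intro F hF
    rw [hP, lintegral_prod _ hF.aemeasurable]
    refine lintegral_congr fun a => ?_
    have hFa : Measurable fun q : ℝ × ℝ => F (a, q) := hF.comp measurable_prodMk_left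
    rw [lintegral_prod _ hFa.aemeasurable]
  have h2 : Measurable fun p : ℝ × ℝ × ℝ => ∫⁻ x in J, f (p, x) := hf.lintegral_prod_right'
  rw [h1 (fun p => ∫⁻ x in J, f (p, x)) h2,
    lintegral_lintegral_swap (f := fun p x => f (p, x)) hf.aemeasurable]
  refine lintegral_congr fun x => ?_
  exact (h1 (fun p => f (p, x)) (hf.comp measurable_prodMk_right)).symm

end Pool.Agent.V5helper17.SR
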