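import Mathlib
import Pool.Agent.V5helper17.SR.Tools
set_option autoImplicit false

/-! # The `L^4` bound of the square function on a shell -/

namespace Pool.Agent.V5helper17.SR

open MeasureTheory Set Complex
open scoped ENNReal
open Pool.Agent.H789R2.FR (sc band Ex)
open Pool.Agent.H789R2.FR.E4w (Ex_meas norm_phase)
open Pool.Agent.TH335.RF (sc_meas' sc_pos sc_le)

/-- arcs and densities -/
structure Dt {N : ℕ} (a b : Fin N → ℝ) (g : Fin N → ℝ → ℂ) : Prop where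
  ha : ∀ k, -Real.pi ≤ a k
  hab : ∀ k, a k ≤ b k
  hb : ∀ k, b k ≤ Real.pi
  hg : ∀ k, Measurable (g k)
  hM : ∀ k, ∃ M : ℝ, ∀ c, ‖g k c‖ ≤ M

variable {N : ℕ} {a b : Fin N → ℝ} {g : Fin N → ℝ → ℂ}

/-- the extension of one piece -/
noncomputable def Fk (a b : Fin N → ℝ) (g : Fin N → ℝ → ℂ) (k : Fin N) (ρ α z : ℝ) : ℂ :=
  ∫ x in (a k - α)..(b k - α), Ex (g k) (ρ * Real.cos x) z

/-- the square function of the waves -/
noncomputable def Vv (a b : Fin N → ℝ) (g : Fin N → ℝ → ℂ) (φ s z : ℝ) : ℝ≥0∞ :=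
  ∑ k, (Ioc (a k) (b k)).indicator
    (fun _ => ‖Ex (g k) s z‖ₑ ^ 2 + ‖Ex (wd (g k)) s z‖ₑ ^ 2) φ

/-- the square function of the densities -/
noncomputable def Aq (a b : Fin N → ℝ) (g : Fin N → ℝ → ℂ) (φ c : ℝ) : ℝ≥0∞ :=
  ∑ k, (Ioc (a k) (b k)).indicator (fun _ => ‖g k c‖ₑ ^ 2) φ

theorem ind_meas {β : Type*} [MeasurableSpace β] (S : Set ℝ) (hS : MeasurableSet S)
    (p : β → ℝ) (hp : Measurable p) (F : β → ℝ≥0∞) (hF : Measurable F) :
    Measurable fun x => S.indicator (fun _ => F x) (p x) := by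
  have h : (fun x => S.indicator (fun _ => F x) (p x)) = (p ⁻¹' S).indicator F := by
    funext x
    by_cases hx : p x ∈ S
    · rw [indicator_of_mem hx, indicator_of_mem (show x ∈ p ⁻¹' S from hx)]
    · rw [indicator_of_notMem hx, indicator_of_notMem (show x ∉ p ⁻¹' S from hx)]
  rw [h]
  exact hF.indicator (hp hS)

theorem Vv_meas (h : Dt a b g) : Measurable fun p : ℝ × ℝ × ℝ => Vv a b g p.1 p.2.1 p.2.2 := by
  unfold Vv
  refine Finset.measurable_sum _ fun k _ => ?_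
  refine ind_meas _ measurableSet_Ioc _ measurable_fst
    (fun p : ℝ × ℝ × ℝ => ‖Ex (g k) p.2.1 p.2.2‖ₑ ^ 2 + ‖Ex (wd (g k)) p.2.1 p.2.2‖ₑ ^ 2) ?_
  have h1 : Measurable fun p : ℝ × ℝ × ℝ => Ex (g k) p.2.1 p.2.2 :=
    (Ex_meas _ (h.hg k)).comp measurable_snd
  have h2 : Measurable fun p : ℝ × ℝ × ℝ => Ex (wd (g k)) p.2.1 p.2.2 :=
    (Ex_meas _ (wd_meas _ (h.hg k))).comp measurable_snd
  exact (h1.enorm.pow_const 2).add (h2.enorm.pow_const 2)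

theorem Aq_meas (h : Dt a b g) : Measurable fun p : ℝ × ℝ => Aq a b g p.1 p.2 := by
  unfold Aq
  refine Finset.measurable_sum _ fun k _ => ?_
  refine ind_meas _ measurableSet_Ioc _ measurable_fst (fun p : ℝ × ℝ => ‖g k p.2‖ₑ ^ 2) ?_
  exact ((h.hg k).comp measurable_snd).enorm.pow_const 2

/-- pointwise bound -/
theorem sq_le (h : Dt a b g) {R ε : ℝ} (hR : 1 ≤ R) (hε0 : 0 < ε) (hε1 : ε < 1) {ρ α : ℝ}
    (hρ : R ≤ ρ) (hα : α ∈ Icc (-Real.pi) Real.pi) (z : ℝ) :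
    ∑ k, ‖Fk a b g k ρ α z‖ₑ ^ 2 ≤ ENNReal.ofReal 378 *
      ∫⁻ x in Icc (-(2 * Real.pi)) (2 * Real.pi), KR R ε x * Vv a b g (α + x) (ρ * Real.cos x) z := by
  have hcosm : Measurable fun x : ℝ => ρ * Real.cos x := by fun_prop
  have hk : ∀ k, ‖Fk a b g k ρ α z‖ₑ ^ 2 ≤ ENNReal.ofReal 378 *
      ∫⁻ x in Icc (-(2 * Real.pi)) (2 * Real.pi), KR R ε x * (Ioc (a k) (b k)).indicator
        (fun _ => ‖Ex (g k) (ρ * Real.cos x) z‖ₑ ^ 2 +
          ‖Ex (wd (g k)) (ρ * Real.cos x) z‖ₑ ^ 2) (α + x) := by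
    intro k
    obtain ⟨M, hM⟩ := h.hM k
    have h1 := h.ha k
    have h2 := h.hab k
    have h3 := h.hb k
    have hw := arc hR hε0 hε1 hρ (wave (g k) (h.hg k) M hM z ρ) (p := a k - α) (q := b k - α)
      (by linarith [hα.2]) (by linarith) (by linarith [hα.1])
    refine hw.trans ?_
    gcongr ENNReal.ofReal 378 * ?_
    have hsub : Ioc (a k - α) (b k - α) ⊆ Icc (-(2 * Real.pi)) (2 * Real.pi) := by
      intro x hx
      exact ⟨by linarith [hx.1, hα.2], by linarith [hx.2, hα.1]⟩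
    rw [← lintegral_indicator measurableSet_Ioc, ← lintegral_indicator measurableSet_Icc]
    refine lintegral_mono fun x => ?_
    simp only
    by_cases hx : x ∈ Ioc (a k - α) (b k - α)
    · have hx2 : α + x ∈ Ioc (a k) (b k) := ⟨by linarith [hx.1], by linarith [hx.2]⟩
      rw [indicator_of_mem hx, indicator_of_mem (hsub hx), indicator_of_mem hx2]
      rfl
    · rw [indicator_of_notMem hx]
      exact bot_le
  calc ∑ k, ‖Fk a b g k ρ α z‖ₑ ^ 2 ≤ ∑ k, ENNReal.ofReal 378 *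
      ∫⁻ x in Icc (-(2 * Real.pi)) (2 * Real.pi), KR R ε x * (Ioc (a k) (b k)).indicator
        (fun _ => ‖Ex (g k) (ρ * Real.cos x) z‖ₑ ^ 2 +
          ‖Ex (wd (g k)) (ρ * Real.cos x) z‖ₑ ^ 2) (α + x) := Finset.sum_le_sum fun k _ => hk k
    _ = _ := by
        rw [← Finset.mul_sum, ← lintegral_finsetSum]
        · unfold Vv
          simp only [Finset.mul_sum]
        · intro k _
          refine (KR_meas R ε).mul ?_
          refine ind_meas _ measurableSet_Ioc _ (by fun_prop) _ ?_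
          have e1 : Measurable fun x : ℝ => Ex (g k) (ρ * Real.cos x) z :=
            Measurable.comp (g := fun p : ℝ × ℝ => Ex (g k) p.1 p.2) (f := fun x => (ρ * Real.cos x, z))
              (Ex_meas _ (h.hg k)) (hcosm.prodMk measurable_const)
          have e2 : Measurable fun x : ℝ => Ex (wd (g k)) (ρ * Real.cos x) z :=
            Measurable.comp (g := fun p : ℝ × ℝ => Ex (wd (g k)) p.1 p.2)
              (f := fun x => (ρ * Real.cos x, z))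
              (Ex_meas _ (wd_meas _ (h.hg k))) (hcosm.prodMk measurable_const)
          exact (e1.enorm.pow_const 2).add (e2.enorm.pow_const 2)

/-- the weight `|cos x|^(1/2)` -/
noncomputable def vc (x : ℝ) : ℝ≥0∞ := ENNReal.ofReal |Real.cos x| ^ (1 / 2 : ℝ)

theorem vc_meas : Measurable vc := by
  unfold vc
  have : Measurable fun x : ℝ => |Real.cos x| := by fun_prop
  exact this.ennreal_ofReal.pow_const _

theorem vc_inv (x : ℝ) : (vc x)⁻¹ = ENNReal.ofReal |Real.cos x| ^ (-(1 / 2) : ℝ) := by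
  unfold vc
  rw [ENNReal.rpow_neg]

/-- pointwise bound of the square -/
theorem sq4_le (h : Dt a b g) {R ε : ℝ} (hR : 1 ≤ R) (hε0 : 0 < ε) (hε1 : ε < 1) {K : ℝ≥0∞}
    (hK : ∫⁻ x in Icc (-(2 * Real.pi)) (2 * Real.pi), KR R ε x *
      ENNReal.ofReal |Real.cos x| ^ (-(1 / 2) : ℝ) ≤ K) {ρ α : ℝ}
    (hρ : R ≤ ρ) (hα : α ∈ Icc (-Real.pi) Real.pi) (z : ℝ) :
    (∑ k, ‖Fk a b g k ρ α z‖ₑ ^ 2) ^ 2 ≤ ENNReal.ofReal 378 ^ 2 * K *
      ∫⁻ x in Icc (-(2 * Real.pi)) (2 * Real.pi),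
        KR R ε x * vc x * Vv a b g (α + x) (ρ * Real.cos x) z ^ 2 := by
  have hVm : Measurable fun x : ℝ => Vv a b g (α + x) (ρ * Real.cos x) z :=
    Measurable.comp (g := fun p : ℝ × ℝ × ℝ => Vv a b g p.1 p.2.1 p.2.2)
      (f := fun x => (α + x, ρ * Real.cos x, z)) (Vv_meas h) (by fun_prop)
  have h1 := csw (volume.restrict (Icc (-(2 * Real.pi)) (2 * Real.pi))) (KR R ε) vc
    (fun x => Vv a b g (α + x) (ρ * Real.cos x) z) (KR_meas R ε) vc_meas hVm (by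
      filter_upwards [ae_restrict_of_ae cos_ae] with x hx
      unfold vc
      have hp : 0 < ENNReal.ofReal |Real.cos x| := ENNReal.ofReal_pos.2 (abs_pos.2 hx)
      exact ⟨(ENNReal.rpow_pos hp ENNReal.ofReal_ne_top).ne',
        ENNReal.rpow_ne_top_of_nonneg (by norm_num) ENNReal.ofReal_ne_top⟩)
  simp only [vc_inv] at h1
  calc (∑ k, ‖Fk a b g k ρ α z‖ₑ ^ 2) ^ 2 ≤ (ENNReal.ofReal 378 *
      ∫⁻ x in Icc (-(2 * Real.pi)) (2 * Real.pi),
        KR R ε x * Vv a b g (α + x) (ρ * Real.cos x) z) ^ 2 := by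
        gcongr
        exact sq_le h hR hε0 hε1 hρ hα z
    _ = ENNReal.ofReal 378 ^ 2 * (∫⁻ x in Icc (-(2 * Real.pi)) (2 * Real.pi),
        KR R ε x * Vv a b g (α + x) (ρ * Real.cos x) z) ^ 2 := mul_pow _ _ _
    _ ≤ ENNReal.ofReal 378 ^ 2 * (K * ∫⁻ x in Icc (-(2 * Real.pi)) (2 * Real.pi),
        KR R ε x * vc x * Vv a b g (α + x) (ρ * Real.cos x) z ^ 2) := by
        gcongr
        exact h1.trans (by gcongr)
    _ = _ := by ring

/-- the fourth moment of the waves -/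
noncomputable def Hh (a b : Fin N → ℝ) (g : Fin N → ℝ → ℂ) (Y φ : ℝ) : ℝ≥0∞ :=
  ∫⁻ s in Icc (-Y) Y, ∫⁻ z : ℝ, Vv a b g φ s z ^ 2

theorem Hh_meas (h : Dt a b g) (Y : ℝ) : Measurable (Hh a b g Y) := by
  unfold Hh
  have h1 : Measurable fun q : (ℝ × ℝ) × ℝ => Vv a b g q.1.1 q.1.2 q.2 ^ 2 :=
    Measurable.pow_const (Measurable.comp (g := fun p : ℝ × ℝ × ℝ => Vv a b g p.1 p.2.1 p.2.2)
      (f := fun q : (ℝ × ℝ) × ℝ => (q.1.1, q.1.2, q.2)) (Vv_meas h) (by fun_prop)) 2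
  have h2 : Measurable fun q : ℝ × ℝ => ∫⁻ z : ℝ, Vv a b g q.1 q.2 z ^ 2 :=
    h1.lintegral_prod_right'
  exact h2.lintegral_prod_right'

theorem Hh_supp (h : Dt a b g) (Y φ : ℝ) (hφ : φ ∉ Ioc (-Real.pi) Real.pi) :
    Hh a b g Y φ = 0 := by
  have h1 : ∀ s z, Vv a b g φ s z = 0 := by
    intro s z
    unfold Vv
    refine Finset.sum_eq_zero fun k _ => ?_
    apply indicator_of_notMem
    intro hk
    exact hφ ⟨lt_of_le_of_lt (h.ha k) hk.1, hk.2.trans (h.hb k)⟩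
  unfold Hh
  simp [h1]

/-- the inner integral for fixed `x`, abstract version -/
theorem shell_abs (G : ℝ → ℝ → ℝ → ℝ≥0∞) (hG : Measurable fun p : ℝ × ℝ × ℝ => G p.1 p.2.1 p.2.2)
    (hs : ∀ φ, φ ∉ Ioc (-Real.pi) Real.pi → ∀ s z, G φ s z = 0)
    {R : ℝ} (hR0 : 0 < R) (W : ℝ≥0∞) {x : ℝ} (hx : Real.cos x ≠ 0) :
    ∫⁻ α in Ioo (-Real.pi) Real.pi, ∫⁻ ρ in Icc R (2 * R), ∫⁻ z : ℝ,
      W * G (α + x) (ρ * Real.cos x) z ≤
      W * ENNReal.ofReal |Real.cos x| ^ (-(1 : ℝ)) *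
        ∫⁻ φ in Ioo (-Real.pi) Real.pi, ∫⁻ s in Icc (-(2 * R)) (2 * R), ∫⁻ z : ℝ, G φ s z := by
  set H : ℝ → ℝ → ℝ≥0∞ := fun φ s => ∫⁻ z : ℝ, G φ s z with hH
  have hHm : Measurable fun q : ℝ × ℝ => H q.1 q.2 := by
    have h1 : Measurable fun q : (ℝ × ℝ) × ℝ => G q.1.1 q.1.2 q.2 :=
      Measurable.comp (g := fun p : ℝ × ℝ × ℝ => G p.1 p.2.1 p.2.2)
        (f := fun q : (ℝ × ℝ) × ℝ => (q.1.1, q.1.2, q.2)) hG (by fun_prop)
    exact h1.lintegral_prod_right'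
  have hHm1 : ∀ φ, Measurable (H φ) := fun φ =>
    Measurable.comp (g := fun q : ℝ × ℝ => H q.1 q.2) (f := fun s => (φ, s)) hHm (by fun_prop)
  set I : ℝ → ℝ≥0∞ := fun φ => ∫⁻ s in Icc (-(2 * R)) (2 * R), H φ s with hI
  have hIm : Measurable I := hHm.lintegral_prod_right'
  have hIs : ∀ φ, φ ∉ Ioc (-Real.pi) Real.pi → I φ = 0 := by
    intro φ hφ
    rw [hI, hH]
    simp [hs φ hφ]
  have e0 : ∀ α ρ : ℝ, Measurable fun z : ℝ => G (α + x) (ρ * Real.cos x) z := fun α ρ =>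
    Measurable.comp (g := fun p : ℝ × ℝ × ℝ => G p.1 p.2.1 p.2.2)
        (f := fun z : ℝ => (α + x, ρ * Real.cos x, z)) hG (by fun_prop)
  have e000 : ∀ α : ℝ, Measurable fun ρ : ℝ => H (α + x) (ρ * Real.cos x) :=
    fun α => (hHm1 (α + x)).comp (measurable_mul_const _)
  have e4 : ∀ α : ℝ, ∫⁻ ρ in Icc R (2 * R), H (α + x) (ρ * Real.cos x) ≤
      ENNReal.ofReal |Real.cos x| ^ (-(1 : ℝ)) * I (α + x) := fun α =>
    scale1 (H (α + x)) (hHm1 (α + x)) R (Real.cos x) hR0 hx (Real.abs_cos_le_one x)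
  have e5 : ∫⁻ α in Ioo (-Real.pi) Real.pi, I (α + x) ≤
      ∫⁻ φ in Ioo (-Real.pi) Real.pi, I φ := by
    calc ∫⁻ α in Ioo (-Real.pi) Real.pi, I (α + x) ≤
          ∫⁻ α, I (α + x) := setLIntegral_le_lintegral _ _
      _ = ∫⁻ α, I α := lintegral_add_right_eq_self _ x
      _ = ∫⁻ α in Ioc (-Real.pi) Real.pi, I α := by
          rw [← lintegral_indicator measurableSet_Ioc]
          refine lintegral_congr fun φ => ?_
          by_cases hφ : φ ∈ Ioc (-Real.pi) Real.pi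
          · rw [indicator_of_mem hφ]
          · rw [indicator_of_notMem hφ, hIs _ hφ]
      _ = _ := setLIntegral_congr Ioo_ae_eq_Ioc.symm
  calc ∫⁻ α in Ioo (-Real.pi) Real.pi, ∫⁻ ρ in Icc R (2 * R), ∫⁻ z : ℝ,
        W * G (α + x) (ρ * Real.cos x) z
      = ∫⁻ α in Ioo (-Real.pi) Real.pi, W *
          ∫⁻ ρ in Icc R (2 * R), H (α + x) (ρ * Real.cos x) := by
        refine lintegral_congr fun α => ?_
        rw [← lintegral_const_mul _ (e000 α)]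
        refine lintegral_congr fun ρ => ?_
        rw [hH]
        exact lintegral_const_mul _ (e0 α ρ)
    _ ≤ ∫⁻ α in Ioo (-Real.pi) Real.pi, W *
          (ENNReal.ofReal |Real.cos x| ^ (-(1 : ℝ)) * I (α + x)) := by
        refine lintegral_mono fun α => ?_
        exact mul_le_mul' le_rfl (e4 α)
    _ = W * ENNReal.ofReal |Real.cos x| ^ (-(1 : ℝ)) *
          ∫⁻ α in Ioo (-Real.pi) Real.pi, I (α + x) := by
        have m3 : Measurable fun α : ℝ => I (α + x) := hIm.comp (measurable_add_const x)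
        rw [← lintegral_const_mul _ m3]
        refine lintegral_congr fun α => ?_
        ring
    _ ≤ _ := mul_le_mul' le_rfl e5

theorem Vv_supp (h : Dt a b g) (φ : ℝ) (hφ : φ ∉ Ioc (-Real.pi) Real.pi) (s z : ℝ) :
    Vv a b g φ s z = 0 := by
  unfold Vv
  refine Finset.sum_eq_zero fun k _ => ?_
  apply indicator_of_notMem
  intro hk
  exact hφ ⟨lt_of_le_of_lt (h.ha k) hk.1, hk.2.trans (h.hb k)⟩

/-- the inner integral for fixed `x` -/
theorem shell_x (h : Dt a b g) {R : ℝ} (hR0 : 0 < R) (W : ℝ≥0∞) {x : ℝ} (hx : Real.cos x ≠ 0) :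
    ∫⁻ α in Ioo (-Real.pi) Real.pi, ∫⁻ ρ in Icc R (2 * R), ∫⁻ z : ℝ,
      W * Vv a b g (α + x) (ρ * Real.cos x) z ^ 2 ≤
      W * ENNReal.ofReal |Real.cos x| ^ (-(1 : ℝ)) *
        ∫⁻ φ in Ioo (-Real.pi) Real.pi, Hh a b g (2 * R) φ :=
  shell_abs (fun φ s z => Vv a b g φ s z ^ 2) ((Vv_meas h).pow_const 2)
    (fun φ hφ s z => by simp [Vv_supp h φ hφ s z]) hR0 W hx

theorem vc_mul {x : ℝ} (hx : Real.cos x ≠ 0) :
    vc x * ENNReal.ofReal |Real.cos x| ^ (-(1 : ℝ)) =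
      ENNReal.ofReal |Real.cos x| ^ (-(1 / 2) : ℝ) := by
  have hp : ENNReal.ofReal |Real.cos x| ≠ 0 := (ENNReal.ofReal_pos.2 (abs_pos.2 hx)).ne'
  unfold vc
  rw [← ENNReal.rpow_add _ _ hp ENNReal.ofReal_ne_top]
  norm_num

/-- the shell bound in terms of `Hh` -/
theorem shell1 (h : Dt a b g) {R ε : ℝ} (hR : 1 ≤ R) (hε0 : 0 < ε) (hε1 : ε < 1) {K : ℝ≥0∞}
    (hK : ∫⁻ x in Icc (-(2 * Real.pi)) (2 * Real.pi), KR R ε x *
      ENNReal.ofReal |Real.cos x| ^ (-(1 / 2) : ℝ) ≤ K) :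
    ∫⁻ α in Ioo (-Real.pi) Real.pi, ∫⁻ ρ in Icc R (2 * R), ∫⁻ z : ℝ,
      (∑ k, ‖Fk a b g k ρ α z‖ₑ ^ 2) ^ 2 ≤ ENNReal.ofReal 378 ^ 2 * K * K *
        ∫⁻ φ in Ioo (-Real.pi) Real.pi, Hh a b g (2 * R) φ := by
  have hR0 : 0 < R := by linarith
  set J := Icc (-(2 * Real.pi)) (2 * Real.pi) with hJ
  set c0 : ℝ≥0∞ := ENNReal.ofReal 378 ^ 2 * K with hc0
  set D : ℝ≥0∞ := ∫⁻ φ in Ioo (-Real.pi) Real.pi, Hh a b g (2 * R) φ with hD
  have hVm : Measurable fun p : (ℝ × ℝ × ℝ) × ℝ =>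
      Vv a b g (p.1.1 + p.2) (p.1.2.1 * Real.cos p.2) p.1.2.2 :=
    Measurable.comp (g := fun p : ℝ × ℝ × ℝ => Vv a b g p.1 p.2.1 p.2.2)
      (f := fun p : (ℝ × ℝ × ℝ) × ℝ => (p.1.1 + p.2, p.1.2.1 * Real.cos p.2, p.1.2.2))
      (Vv_meas h) (by fun_prop)
  have hwm : Measurable fun p : (ℝ × ℝ × ℝ) × ℝ => c0 * (KR R ε p.2 * vc p.2) :=
    measurable_const.mul (((KR_meas R ε).mul vc_meas).comp measurable_snd)
  have hfm : Measurable fun p : (ℝ × ℝ × ℝ) × ℝ => c0 * (KR R ε p.2 * vc p.2) *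
      Vv a b g (p.1.1 + p.2) (p.1.2.1 * Real.cos p.2) p.1.2.2 ^ 2 := hwm.mul (hVm.pow_const 2)
  have m1 : Measurable fun x : ℝ =>
      KR R ε x * ENNReal.ofReal |Real.cos x| ^ (-(1 / 2) : ℝ) := by
    refine (KR_meas R ε).mul ?_
    have : Measurable fun x : ℝ => |Real.cos x| := by fun_prop
    exact this.ennreal_ofReal.pow_const _
  have hpt : ∀ α ∈ Ioo (-Real.pi) Real.pi, ∀ ρ ∈ Icc R (2 * R), ∀ z : ℝ,
      (∑ k, ‖Fk a b g k ρ α z‖ₑ ^ 2) ^ 2 ≤ ∫⁻ x in J, c0 * (KR R ε x * vc x) *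
        Vv a b g (α + x) (ρ * Real.cos x) z ^ 2 := by
    intro α hα ρ hρ z
    refine (sq4_le h hR hε0 hε1 hK hρ.1 (Ioo_subset_Icc_self hα) z).trans (le_of_eq ?_)
    have hVm' : Measurable fun x : ℝ => Vv a b g (α + x) (ρ * Real.cos x) z :=
      Measurable.comp (g := fun p : ℝ × ℝ × ℝ => Vv a b g p.1 p.2.1 p.2.2)
        (f := fun x => (α + x, ρ * Real.cos x, z)) (Vv_meas h) (by fun_prop)
    have e1 : Measurable fun x : ℝ =>
        KR R ε x * vc x * Vv a b g (α + x) (ρ * Real.cos x) z ^ 2 :=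
      ((KR_meas R ε).mul vc_meas).mul (hVm'.pow_const 2)
    rw [← lintegral_const_mul _ e1]
    refine lintegral_congr fun x => ?_
    rw [hc0]
    ring
  calc ∫⁻ α in Ioo (-Real.pi) Real.pi, ∫⁻ ρ in Icc R (2 * R), ∫⁻ z : ℝ,
        (∑ k, ‖Fk a b g k ρ α z‖ₑ ^ 2) ^ 2
      ≤ ∫⁻ α in Ioo (-Real.pi) Real.pi, ∫⁻ ρ in Icc R (2 * R), ∫⁻ z : ℝ, ∫⁻ x in J,
          c0 * (KR R ε x * vc x) * Vv a b g (α + x) (ρ * Real.cos x) z ^ 2 := by
        refine setLIntegral_mono' measurableSet_Ioo fun α hα => ?_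
        refine setLIntegral_mono' measurableSet_Icc fun ρ hρ => ?_
        exact lintegral_mono fun z => hpt α hα ρ hρ z
    _ = ∫⁻ x in J, ∫⁻ α in Ioo (-Real.pi) Real.pi, ∫⁻ ρ in Icc R (2 * R), ∫⁻ z : ℝ,
          c0 * (KR R ε x * vc x) * Vv a b g (α + x) (ρ * Real.cos x) z ^ 2 :=
        tri (Ioo (-Real.pi) Real.pi) (Icc R (2 * R)) J _ hfm
    _ ≤ ∫⁻ x in J, c0 * (KR R ε x * ENNReal.ofReal |Real.cos x| ^ (-(1 / 2) : ℝ)) * D := by
        refine lintegral_mono_ae ?_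
        filter_upwards [ae_restrict_of_ae cos_ae] with x hx
        refine (shell_x h hR0 _ hx).trans (le_of_eq ?_)
        rw [← vc_mul hx]
        ring
    _ = c0 * (∫⁻ x in J, KR R ε x * ENNReal.ofReal |Real.cos x| ^ (-(1 / 2) : ℝ)) * D := by
        have m2 : Measurable fun x : ℝ => c0 *
            (KR R ε x * ENNReal.ofReal |Real.cos x| ^ (-(1 / 2) : ℝ)) := measurable_const.mul m1
        rw [lintegral_mul_const _ m2, lintegral_const_mul _ m1]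
    _ ≤ _ := by gcongr

end Pool.Agent.V5helper17.SR
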