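import Mathlib
import Pool.Agent.V5helper17.SR.Shell
set_option autoImplicit false

/-! # The `L^4` bound of the square function on a shell, final form -/

namespace Pool.Agent.V5helper17.SR

open MeasureTheory Set Complex
open scoped ENNReal
open Pool.Agent.H789R2.FR (sc band Ex)
open Pool.Agent.H789R2.FR.E4w (Ex_meas norm_phase)
open Pool.Agent.TH335.RF (sc_meas' sc_pos sc_le)

variable {N : ℕ} {a b : Fin N → ℝ} {g : Fin N → ℝ → ℂ}

/-- the densities of the arcs over `φ` -/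
noncomputable def gp (a b : Fin N → ℝ) (g : Fin N → ℝ → ℂ) (φ : ℝ) (k : Fin N) (c : ℝ) : ℂ :=
  (Ioc (a k) (b k)).indicator (fun _ => g k c) φ

theorem gp_meas (h : Dt a b g) (φ : ℝ) (k : Fin N) : Measurable (gp a b g φ k) := by
  unfold gp
  by_cases hφ : φ ∈ Ioc (a k) (b k)
  · simp only [indicator_of_mem hφ]
    exact h.hg k
  · simp only [indicator_of_notMem hφ]
    exact measurable_const

theorem gp_norm (φ : ℝ) (k : Fin N) (c : ℝ) : ‖gp a b g φ k c‖ ≤ ‖g k c‖ := by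
  unfold gp
  by_cases hφ : φ ∈ Ioc (a k) (b k)
  · rw [indicator_of_mem hφ]
  · rw [indicator_of_notMem hφ, norm_zero]
    exact norm_nonneg _

theorem Ex_fun_zero (y z : ℝ) : Ex (fun _ => 0) y z = 0 := by
  unfold Ex
  simp

theorem Ex_gp (φ : ℝ) (k : Fin N) (y z : ℝ) :
    ‖Ex (gp a b g φ k) y z‖ₑ ^ 2 = (Ioc (a k) (b k)).indicator
      (fun _ => ‖Ex (g k) y z‖ₑ ^ 2) φ := by
  unfold gp
  by_cases hφ : φ ∈ Ioc (a k) (b k)
  · simp only [indicator_of_mem hφ]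
  · simp only [indicator_of_notMem hφ]
    rw [Ex_fun_zero]
    simp

theorem Ex_wd_gp (φ : ℝ) (k : Fin N) (y z : ℝ) :
    ‖Ex (wd (gp a b g φ k)) y z‖ₑ ^ 2 = (Ioc (a k) (b k)).indicator
      (fun _ => ‖Ex (wd (g k)) y z‖ₑ ^ 2) φ := by
  unfold gp
  by_cases hφ : φ ∈ Ioc (a k) (b k)
  · simp only [indicator_of_mem hφ]
  · simp only [indicator_of_notMem hφ]
    have : wd (fun _ => (0 : ℂ)) = fun _ => 0 := by
      funext c
      unfold wd
      simp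
    rw [this, Ex_fun_zero]
    simp

theorem Ex_sc (f : ℝ → ℂ) (y z : ℝ) : Ex (wd fun c => ((sc c : ℝ) : ℂ) * f c) y z = Ex f y z := by
  unfold Ex
  refine setIntegral_congr_fun measurableSet_Ioo fun c hc => ?_
  have h0 := sc_pos hc
  have h0' : ((sc c : ℝ) : ℂ) ≠ 0 := by exact_mod_cast h0.ne'
  unfold wd
  simp only
  rw [Complex.ofReal_inv, inv_mul_cancel_left₀ h0']

theorem add_sq4 (u v : ℝ≥0∞) : (u + v) ^ 2 ≤ 4 * (u ^ 2 + v ^ 2) := by
  have h1 : u + v ≤ 2 * max u v := by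
    rw [two_mul]
    exact add_le_add (le_max_left _ _) (le_max_right _ _)
  calc (u + v) ^ 2 ≤ (2 * max u v) ^ 2 := by gcongr
    _ = 4 * (max u v) ^ 2 := by rw [mul_pow]; norm_num
    _ ≤ 4 * (u ^ 2 + v ^ 2) := by
        gcongr
        rcases max_cases u v with h | h
        · rw [h.1]; exact le_self_add
        · rw [h.1]; exact le_add_self

theorem Vv_eq (φ s z : ℝ) : Vv a b g φ s z =
    ∑ k, ‖Ex (wd fun c => ((sc c : ℝ) : ℂ) * gp a b g φ k c) s z‖ₑ ^ 2 +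
      ∑ k, ‖Ex (wd (gp a b g φ k)) s z‖ₑ ^ 2 := by
  simp only [Ex_sc, Ex_gp, Ex_wd_gp]
  unfold Vv
  rw [← Finset.sum_add_distrib]
  refine Finset.sum_congr rfl fun k _ => ?_
  by_cases hφ : φ ∈ Ioc (a k) (b k)
  · simp only [indicator_of_mem hφ]
  · simp only [indicator_of_notMem hφ, add_zero]

theorem Aq_gp (φ c : ℝ) : ∑ k, ‖gp a b g φ k c‖ₑ ^ 2 = Aq a b g φ c := by
  unfold Aq gp
  refine Finset.sum_congr rfl fun k _ => ?_
  by_cases hφ : φ ∈ Ioc (a k) (b k)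
  · simp only [indicator_of_mem hφ]
  · simp only [indicator_of_notMem hφ]
    simp

theorem Hh_le (q : ℝ) (hq : 8 < q) : ∃ K : ℝ, 0 < K ∧
    ∀ (N : ℕ) (a b : Fin N → ℝ) (g : Fin N → ℝ → ℂ), Dt a b g → ∀ Y : ℝ, 1 ≤ Y → ∀ φ : ℝ,
    Hh a b g Y φ ≤ ENNReal.ofReal (K * (1 + Real.log Y)) *
      (∫⁻ c in Ioo (-1 : ℝ) 1, (Aq a b g φ c) ^ (q / 2)) ^ (4 / q) := by
  obtain ⟨K, hK, h4⟩ := vec4 q hq
  have hq0 : 0 < q := by linarith
  refine ⟨8 * K, by positivity, fun N a b g h Y hY φ => ?_⟩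
  have hlogY : 0 ≤ Real.log Y := Real.log_nonneg hY
  set D := (∫⁻ c in Ioo (-1 : ℝ) 1, (Aq a b g φ c) ^ (q / 2)) ^ (4 / q) with hD
  have hgm := gp_meas h φ
  have hgM : ∀ k, ∃ M : ℝ, ∀ c, ‖gp a b g φ k c‖ ≤ M := fun k => by
    obtain ⟨M, hM⟩ := h.hM k
    exact ⟨M, fun c => (gp_norm φ k c).trans (hM c)⟩
  have hsn : ∀ k c, ‖((sc c : ℝ) : ℂ) * gp a b g φ k c‖ ≤ ‖gp a b g φ k c‖ := fun k c => by
    rw [norm_mul, Complex.norm_real, Real.norm_of_nonneg (by unfold sc; exact Real.sqrt_nonneg _)]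
    exact mul_le_of_le_one_left (norm_nonneg _) (sc_le c)
  have hsm : ∀ k, Measurable fun c => ((sc c : ℝ) : ℂ) * gp a b g φ k c := fun k =>
    sc_meas'.complex_ofReal.mul (hgm k)
  have hsM : ∀ k, ∃ M : ℝ, ∀ c, ‖((sc c : ℝ) : ℂ) * gp a b g φ k c‖ ≤ M := fun k => by
    obtain ⟨M, hM⟩ := hgM k
    exact ⟨M, fun c => (hsn k c).trans (hM c)⟩
  have h1 := h4 N (fun k c => ((sc c : ℝ) : ℂ) * gp a b g φ k c) hsm hsM Y hY
  have h2 := h4 N (gp a b g φ) hgm hgM Y hY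
  have h1' : ∫⁻ y in Icc (-Y) Y, ∫⁻ z : ℝ,
      (∑ k, ‖Ex (wd fun c => ((sc c : ℝ) : ℂ) * gp a b g φ k c) y z‖ₑ ^ 2) ^ 2 ≤
      ENNReal.ofReal (K * (1 + Real.log Y)) * D := by
    simp only [ENNReal.rpow_ofNat] at h1
    refine h1.trans ?_
    rw [hD]
    refine mul_le_mul' le_rfl (ENNReal.rpow_le_rpow ?_ (by positivity))
    refine lintegral_mono fun c => ?_
    refine ENNReal.rpow_le_rpow ?_ (by positivity)
    rw [← Aq_gp]
    refine Finset.sum_le_sum fun k _ => ?_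
    have := hsn k c
    gcongr
    rw [← ofReal_norm, ← ofReal_norm]
    exact ENNReal.ofReal_le_ofReal this
  have h2' : ∫⁻ y in Icc (-Y) Y, ∫⁻ z : ℝ, (∑ k, ‖Ex (wd (gp a b g φ k)) y z‖ₑ ^ 2) ^ 2 ≤
      ENNReal.ofReal (K * (1 + Real.log Y)) * D := by
    simp only [ENNReal.rpow_ofNat] at h2
    refine h2.trans ?_
    rw [hD]
    refine mul_le_mul' le_rfl (ENNReal.rpow_le_rpow ?_ (by positivity))
    refine lintegral_mono fun c => ?_
    refine ENNReal.rpow_le_rpow ?_ (by positivity)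
    rw [← Aq_gp]
  have m1 : Measurable fun p : ℝ × ℝ =>
      (∑ k, ‖Ex (wd fun c => ((sc c : ℝ) : ℂ) * gp a b g φ k c) p.1 p.2‖ₑ ^ 2) ^ 2 :=
    (Finset.measurable_sum _ fun k _ => (Ex_meas _ (wd_meas _ (hsm k))).enorm.pow_const 2).pow_const 2
  have m2 : Measurable fun p : ℝ × ℝ =>
      (∑ k, ‖Ex (wd (gp a b g φ k)) p.1 p.2‖ₑ ^ 2) ^ 2 :=
    (Finset.measurable_sum _ fun k _ => (Ex_meas _ (wd_meas _ (hgm k))).enorm.pow_const 2).pow_const 2
  calc Hh a b g Y φ ≤ ∫⁻ s in Icc (-Y) Y, ∫⁻ z : ℝ,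
      (4 * ((∑ k, ‖Ex (wd fun c => ((sc c : ℝ) : ℂ) * gp a b g φ k c) s z‖ₑ ^ 2) ^ 2 +
        (∑ k, ‖Ex (wd (gp a b g φ k)) s z‖ₑ ^ 2) ^ 2)) := by
        unfold Hh
        refine lintegral_mono fun s => lintegral_mono fun z => ?_
        simp only
        rw [Vv_eq]
        exact add_sq4 _ _
    _ = 4 * ((∫⁻ y in Icc (-Y) Y, ∫⁻ z : ℝ,
        (∑ k, ‖Ex (wd fun c => ((sc c : ℝ) : ℂ) * gp a b g φ k c) y z‖ₑ ^ 2) ^ 2) +
        ∫⁻ y in Icc (-Y) Y, ∫⁻ z : ℝ, (∑ k, ‖Ex (wd (gp a b g φ k)) y z‖ₑ ^ 2) ^ 2) := by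
        have e1 : ∀ s : ℝ, ∫⁻ z : ℝ,
            (4 * ((∑ k, ‖Ex (wd fun c => ((sc c : ℝ) : ℂ) * gp a b g φ k c) s z‖ₑ ^ 2) ^ 2 +
            (∑ k, ‖Ex (wd (gp a b g φ k)) s z‖ₑ ^ 2) ^ 2)) =
            4 * ((∫⁻ z : ℝ,
              (∑ k, ‖Ex (wd fun c => ((sc c : ℝ) : ℂ) * gp a b g φ k c) s z‖ₑ ^ 2) ^ 2) +
            ∫⁻ z : ℝ, (∑ k, ‖Ex (wd (gp a b g φ k)) s z‖ₑ ^ 2) ^ 2) := by
          intro s
          have m1s := m1.comp (measurable_prodMk_left (x := s))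
          have m2s := m2.comp (measurable_prodMk_left (x := s))
          simp only [Function.comp_def] at m1s m2s
          rw [lintegral_const_mul' _ _ (by norm_num), lintegral_add_left m1s]
        simp only [e1]
        rw [lintegral_const_mul' _ _ (by norm_num), lintegral_add_left m1.lintegral_prod_right']
    _ ≤ 4 * (ENNReal.ofReal (K * (1 + Real.log Y)) * D +
        ENNReal.ofReal (K * (1 + Real.log Y)) * D) := by gcongr
    _ = _ := by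
        have e2 : ENNReal.ofReal (8 * K * (1 + Real.log Y)) =
            8 * ENNReal.ofReal (K * (1 + Real.log Y)) := by
          rw [mul_assoc, ENNReal.ofReal_mul (by norm_num)]
          norm_num
        rw [e2]
        ring

end Pool.Agent.V5helper17.SR
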