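import Mathlib
import Pool.Agent.V5helper17.SR.Shell2
set_option autoImplicit false

/-! # The `L^4` bound of the square function on a shell, numerical form -/

namespace Pool.Agent.V5helper17.SR

open MeasureTheory Set Complex
open scoped ENNReal

/-- the `L^(q/2)` norm of the square function of the densities -/
noncomputable def Xq {N : ℕ} (a b : Fin N → ℝ) (g : Fin N → ℝ → ℂ) (q : ℝ) : ℝ≥0∞ :=
  ∫⁻ φ in Ioo (-Real.pi) Real.pi, ∫⁻ c in Ioo (-1 : ℝ) 1, (Aq a b g φ c) ^ (q / 2)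

theorem rpow_le_one_add (x : ℝ≥0∞) (t : ℝ) (ht0 : 0 ≤ t) (ht1 : t ≤ 1) : x ^ t ≤ 1 + x := by
  rcases le_total x 1 with h | h
  · calc x ^ t ≤ 1 := ENNReal.rpow_le_one h ht0
      _ ≤ _ := le_self_add
  · calc x ^ t ≤ x ^ (1 : ℝ) := ENNReal.rpow_le_rpow_of_exponent_le h ht1
      _ = x := ENNReal.rpow_one x
      _ ≤ _ := le_add_self

theorem shell4 (q ε : ℝ) (hq : 8 < q) (hε0 : 0 < ε) (hε1 : ε < 1) : ∃ C : ℝ, 0 < C ∧
    ∀ (N : ℕ) (a b : Fin N → ℝ) (g : Fin N → ℝ → ℂ), Dt a b g → Xq a b g q ≤ 1 →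
    ∀ R : ℝ, 1 ≤ R →
    ∫⁻ α in Ioo (-Real.pi) Real.pi, ∫⁻ ρ in Icc R (2 * R), ∫⁻ z : ℝ,
      (∑ k, ‖Fk a b g k ρ α z‖ₑ ^ 2) ^ 2 ≤ ENNReal.ofReal (C * R ^ (-2 + 2 * ε)) := by
  obtain ⟨K, hK, hH⟩ := Hh_le q hq
  obtain ⟨C1, hC1, hI⟩ := Kint ε (1 / 2) hε0 hε1 (by norm_num) (by norm_num)
  have hpi := Real.pi_pos
  have hq0 : 0 < q := by linarith
  set B : ℝ := 1 + Real.log 2 + 1 / ε with hB
  have hl2 : 0 < Real.log 2 := Real.log_pos (by norm_num)
  have hB0 : 0 < B := by positivity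
  refine ⟨378 ^ 2 * C1 * C1 * (K * B) * (2 * Real.pi + 1), by positivity,
    fun N a b g h hX R hR => ?_⟩
  have hR0 : 0 < R := by linarith
  have hs := shell1 h hR hε0 hε1 (K := ENNReal.ofReal (C1 * R ^ (-1 + ε / 2))) (hI R hR0)
  refine hs.trans ?_
  have hlog : 1 + Real.log (2 * R) ≤ B * R ^ ε := by
    rw [Real.log_mul (by norm_num) hR0.ne']
    have h1 : Real.log R ≤ R ^ ε / ε := Real.log_le_rpow_div hR0.le hε0
    have h2 : 1 ≤ R ^ ε := Real.one_le_rpow hR hε0.le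
    have h3 : R ^ ε / ε = 1 / ε * R ^ ε := by ring
    rw [hB]
    nlinarith
  have hAm : Measurable fun φ : ℝ => ∫⁻ c in Ioo (-1 : ℝ) 1, (Aq a b g φ c) ^ (q / 2) :=
    ((Aq_meas h).pow_const _).lintegral_prod_right'
  have hD : ∫⁻ φ in Ioo (-Real.pi) Real.pi, Hh a b g (2 * R) φ ≤
      ENNReal.ofReal (K * (B * R ^ ε) * (2 * Real.pi + 1)) := by
    calc ∫⁻ φ in Ioo (-Real.pi) Real.pi, Hh a b g (2 * R) φ
        ≤ ∫⁻ φ in Ioo (-Real.pi) Real.pi, ENNReal.ofReal (K * (B * R ^ ε)) *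
          (1 + ∫⁻ c in Ioo (-1 : ℝ) 1, (Aq a b g φ c) ^ (q / 2)) := by
          refine lintegral_mono fun φ => ?_
          refine (hH N a b g h (2 * R) (by linarith) φ).trans ?_
          refine mul_le_mul' (ENNReal.ofReal_le_ofReal (by gcongr)) ?_
          exact rpow_le_one_add _ _ (by positivity) (by
            rw [div_le_one hq0]
            linarith)
      _ = ENNReal.ofReal (K * (B * R ^ ε)) * (ENNReal.ofReal (2 * Real.pi) + Xq a b g q) := by
          rw [lintegral_const_mul' _ _ ENNReal.ofReal_ne_top, lintegral_add_left measurable_const]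
          congr 2
          rw [lintegral_one, Measure.restrict_apply_univ, Real.volume_Ioo]
          congr 1
          ring
      _ ≤ ENNReal.ofReal (K * (B * R ^ ε)) * (ENNReal.ofReal (2 * Real.pi) + ENNReal.ofReal 1) := by
          rw [ENNReal.ofReal_one]
          gcongr
      _ = _ := by
          rw [← ENNReal.ofReal_add (by positivity) (by norm_num),
            ← ENNReal.ofReal_mul (by positivity)]
  calc ENNReal.ofReal 378 ^ 2 * ENNReal.ofReal (C1 * R ^ (-1 + ε / 2)) *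
        ENNReal.ofReal (C1 * R ^ (-1 + ε / 2)) *
        ∫⁻ φ in Ioo (-Real.pi) Real.pi, Hh a b g (2 * R) φ
      ≤ ENNReal.ofReal 378 ^ 2 * ENNReal.ofReal (C1 * R ^ (-1 + ε / 2)) *
        ENNReal.ofReal (C1 * R ^ (-1 + ε / 2)) *
        ENNReal.ofReal (K * (B * R ^ ε) * (2 * Real.pi + 1)) := by gcongr
    _ = _ := by
        rw [← ENNReal.ofReal_pow (by norm_num), ← ENNReal.ofReal_mul (by positivity),
          ← ENNReal.ofReal_mul (by positivity), ← ENNReal.ofReal_mul (by positivity)]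
        congr 1
        have e1 : R ^ (-2 + 2 * ε) = R ^ (-1 + ε / 2) * R ^ (-1 + ε / 2) * R ^ ε := by
          rw [← Real.rpow_add hR0, ← Real.rpow_add hR0]
          congr 1
          ring
        rw [e1]
        ring

end Pool.Agent.V5helper17.SR
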