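import Mathlib
import Pool.Agent.V5helper17.SR.Shell3
import Pool.Agent.V5helper17.RL.L2c
import Pool.Agent.V5helper17.RL.Frame
set_option autoImplicit false

/-! # Polar coordinates in the plane and the measure on the circle -/

namespace Pool.Agent.V5helper17.SR

open MeasureTheory Set Complex
open scoped ENNReal RealInnerProductSpace
open Pool.Agent.H789R2.FR (E sg T sg_finite)
open Pool.Agent.H438R2.BR (J J_mp J_inner)
open Pool.Agent.H438R2.BR.T10 (e0 e0_norm)
open Pool.Agent.V5helper17.RL (lint_J2 J_norm_sq)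

/-- the point of the unit circle with angle `φ` -/
noncomputable def cs (φ : ℝ) : E (1 + 1) := J (Real.cos φ • e0) (Real.sin φ • e0)

theorem cs_inner (α φ : ℝ) : (⟪cs α, cs φ⟫ : ℝ) = Real.cos (φ - α) := by
  unfold cs
  rw [J_inner, real_inner_smul_left, real_inner_smul_right, real_inner_smul_left,
    real_inner_smul_right, real_inner_self_eq_norm_sq, e0_norm, Real.cos_sub]
  ring

theorem cs_norm (φ : ℝ) : ‖cs φ‖ = 1 := by
  have h := cs_inner φ φ
  rw [sub_self, Real.cos_zero, real_inner_self_eq_norm_sq] at h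
  exact (pow_eq_one_iff_of_nonneg (norm_nonneg _) (by norm_num)).1 h

theorem smul_J {k m : ℕ} (r : ℝ) (x : E k) (y : E m) : r • J x y = J (r • x) (r • y) := by
  unfold J
  ext i
  refine Fin.addCases (fun j => ?_) (fun j => ?_) i
  · simp [Fin.append_left]
  · simp [Fin.append_right]

theorem cs_meas : Measurable cs := by
  unfold cs
  have hJ : Measurable fun p : E 1 × E 1 => J p.1 p.2 := (J_mp 1 1).measurable
  exact hJ.comp (Measurable.prodMk (Real.measurable_cos.smul_const _)
    (Real.measurable_sin.smul_const _))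

/-- polar coordinates in the plane -/
theorem pol2 (f : E (1 + 1) → ℝ≥0∞) (hf : Measurable f) :
    ∫⁻ y, f y = ∫⁻ φ in Ioo (-Real.pi) Real.pi, ∫⁻ r in Ioi (0 : ℝ),
      ENNReal.ofReal r * f (r • cs φ) := by
  have hJ : Measurable fun p : ℝ × ℝ => f (J (p.1 • e0) (p.2 • e0)) := by
    have hJ : Measurable fun p : E 1 × E 1 => J p.1 p.2 := (J_mp 1 1).measurable
    exact hf.comp (hJ.comp (Measurable.prodMk (measurable_fst.smul_const _)
      (measurable_snd.smul_const _)))
  have h1 := lintegral_comp_polarCoord_symm fun p : ℝ × ℝ => f (J (p.1 • e0) (p.2 • e0))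
  have hm : Measurable fun p : ℝ × ℝ => ENNReal.ofReal p.1 * f (p.1 • cs p.2) := by
    refine (measurable_fst.ennreal_ofReal).mul (hf.comp ?_)
    exact measurable_fst.smul (cs_meas.comp measurable_snd)
  rw [lint_J2 f hf, ← lintegral_prod (fun p : ℝ × ℝ => f (J (p.1 • e0) (p.2 • e0)))
    hJ.aemeasurable]
  change ∫⁻ p : ℝ × ℝ, f (J (p.1 • e0) (p.2 • e0)) = _
  rw [← h1]
  have e1 : ∀ p : ℝ × ℝ, ENNReal.ofReal p.1 • f (J ((polarCoord.symm p).1 • e0)
      ((polarCoord.symm p).2 • e0)) = ENNReal.ofReal p.1 * f (p.1 • cs p.2) := by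
    intro p
    unfold cs
    rw [smul_J, polarCoord_symm_apply, smul_smul, smul_smul]
    rfl
  simp only [e1]
  rw [polarCoord_target, Measure.volume_eq_prod, ← Measure.prod_restrict,
    lintegral_prod_symm _ hm.aemeasurable]

end Pool.Agent.V5helper17.SR
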