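import Mathlib
import Pool.Agent.V5helper17.SR.Coord
set_option autoImplicit false

/-! # The measure on the circle in terms of the angle -/

namespace Pool.Agent.V5helper17.SR

open MeasureTheory Set Complex
open scoped ENNReal RealInnerProductSpace
open Pool.Agent.H789R2.FR (E sg T sg_finite sg_ae polar)
open Pool.Agent.H438R2.BR (J J_mp J_inner)
open Pool.Agent.H438R2.BR.T10 (e0 e0_norm)

/-- the auxiliary constant -/
noncomputable def cc : ℝ≥0∞ := ∫⁻ r in Ioi (0 : ℝ), ENNReal.ofReal r * (Iio (1 : ℝ)).indicator 1 r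

theorem cc_top : cc ≠ ⊤ := by
  have h1 : cc ≤ ∫⁻ r in Ioi (0 : ℝ), (Ioo (0 : ℝ) 1).indicator 1 r := by
    unfold cc
    refine setLIntegral_mono' measurableSet_Ioi fun r hr => ?_
    by_cases h : r < 1
    · rw [indicator_of_mem (show r ∈ Iio (1 : ℝ) from h),
        indicator_of_mem (show r ∈ Ioo (0 : ℝ) 1 from ⟨hr, h⟩)]
      simp only [Pi.one_apply, mul_one]
      rw [← ENNReal.ofReal_one]
      exact ENNReal.ofReal_le_ofReal h.le
    · rw [indicator_of_notMem (show r ∉ Iio (1 : ℝ) from h), mul_zero]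
      exact bot_le
  refine (h1.trans_lt ?_).ne
  refine (setLIntegral_le_lintegral _ _).trans_lt ?_
  rw [lintegral_indicator_one measurableSet_Ioo, Real.volume_Ioo]
  exact ENNReal.ofReal_lt_top

theorem cc_zero : cc ≠ 0 := by
  have h1 : ∫⁻ r in Ioi (0 : ℝ), (Ioo (1 / 2 : ℝ) 1).indicator (fun _ => ENNReal.ofReal (1 / 2)) r
      ≤ cc := by
    unfold cc
    refine setLIntegral_mono' measurableSet_Ioi fun r hr => ?_
    by_cases h : r ∈ Ioo (1 / 2 : ℝ) 1
    · rw [indicator_of_mem h, indicator_of_mem (show r ∈ Iio (1 : ℝ) from h.2)]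
      simp only [Pi.one_apply, mul_one]
      exact ENNReal.ofReal_le_ofReal h.1.le
    · rw [indicator_of_notMem h]
      exact bot_le
  intro h0
  rw [h0, nonpos_iff_eq_zero, ← lintegral_indicator measurableSet_Ioi] at h1
  have h2 : ∀ r : ℝ, (Ioi (0 : ℝ)).indicator
      (fun r => (Ioo (1 / 2 : ℝ) 1).indicator (fun _ => ENNReal.ofReal (1 / 2)) r) r =
      (Ioo (1 / 2 : ℝ) 1).indicator (fun _ => ENNReal.ofReal (1 / 2)) r := by
    intro r
    by_cases h : r ∈ Ioo (1 / 2 : ℝ) 1
    · rw [indicator_of_mem (show r ∈ Ioi (0 : ℝ) from lt_trans (by norm_num) h.1)]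
    · by_cases h3 : r ∈ Ioi (0 : ℝ)
      · rw [indicator_of_mem h3]
      · rw [indicator_of_notMem h3, indicator_of_notMem h]
  simp only [h2] at h1
  rw [lintegral_indicator measurableSet_Ioo, lintegral_const, Measure.restrict_apply_univ,
    Real.volume_Ioo] at h1
  have h3 : ENNReal.ofReal (1 / 2) * ENNReal.ofReal (1 - 1 / 2) ≠ 0 := by
    rw [← ENNReal.ofReal_mul (by norm_num)]
    exact (ENNReal.ofReal_pos.2 (by norm_num)).ne'
  exact h3 h1

theorem circ (f : E (1 + 1) → ℝ≥0∞) (hf : Measurable f) :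
    ∫⁻ u, f u ∂(sg (1 + 1)) = ∫⁻ φ in Ioo (-Real.pi) Real.pi, f (cs φ) := by
  set G : E (1 + 1) → ℝ≥0∞ := (Metric.ball (0 : E (1 + 1)) 1).indicator
    fun x => f (‖x‖⁻¹ • x) with hG
  have hGm : Measurable G := by
    refine Measurable.indicator ?_ measurableSet_ball
    exact hf.comp ((measurable_norm.inv).smul measurable_id)
  have key : ∀ w : E (1 + 1), ‖w‖ = 1 → ∀ r ∈ Ioi (0 : ℝ),
      G (r • w) = (Iio (1 : ℝ)).indicator 1 r * f w := by
    intro w hw r hr
    have hr0 : (0 : ℝ) < r := hr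
    have hn : ‖r • w‖ = r := by rw [norm_smul, hw, mul_one, Real.norm_of_nonneg hr0.le]
    rw [hG]
    by_cases h : r < 1
    · rw [indicator_of_mem (show r • w ∈ Metric.ball (0 : E (1 + 1)) 1 by
        rw [mem_ball_zero_iff, hn]; exact h), indicator_of_mem (show r ∈ Iio (1 : ℝ) from h), hn,
        smul_smul, inv_mul_cancel₀ hr0.ne', one_smul, Pi.one_apply, one_mul]
    · rw [indicator_of_notMem (show r • w ∉ Metric.ball (0 : E (1 + 1)) 1 by
        rw [mem_ball_zero_iff, hn]; exact h), indicator_of_notMem (show r ∉ Iio (1 : ℝ) from h),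
        zero_mul]
  have hcm : Measurable fun r : ℝ => ENNReal.ofReal r * (Iio (1 : ℝ)).indicator 1 r :=
    measurable_id.ennreal_ofReal.mul (measurable_one.indicator measurableSet_Iio)
  have h1 : ∫⁻ x, G x = cc * ∫⁻ u, f u ∂(sg (1 + 1)) := by
    rw [polar (by norm_num) G hGm, ← lintegral_const_mul _ hf]
    refine lintegral_congr_ae ?_
    filter_upwards [sg_ae (1 + 1)] with w hw
    unfold cc
    rw [← lintegral_mul_const _ hcm]
    refine setLIntegral_congr_fun measurableSet_Ioi fun r hr => ?_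
    change ENNReal.ofReal (r ^ (1 + 1 - 1)) * G (r • w) =
      ENNReal.ofReal r * (Iio (1 : ℝ)).indicator 1 r * f w
    rw [key w hw r hr, show 1 + 1 - 1 = 1 from rfl, pow_one]
    ring
  have h2 : ∫⁻ x, G x = cc * ∫⁻ φ in Ioo (-Real.pi) Real.pi, f (cs φ) := by
    have hfc : Measurable fun φ => f (cs φ) := hf.comp cs_meas
    rw [pol2 G hGm, ← lintegral_const_mul _ hfc]
    refine lintegral_congr fun φ => ?_
    unfold cc
    rw [← lintegral_mul_const _ hcm]
    refine setLIntegral_congr_fun measurableSet_Ioi fun r hr => ?_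
    change ENNReal.ofReal r * G (r • cs φ) =
      ENNReal.ofReal r * (Iio (1 : ℝ)).indicator 1 r * f (cs φ)
    rw [key (cs φ) (cs_norm φ) r hr]
    ring
  exact (ENNReal.mul_right_inj cc_zero cc_top).1 (h1.symm.trans h2)

theorem circ_measure : sg (1 + 1) = (volume.restrict (Ioo (-Real.pi) Real.pi)).map cs := by
  refine Measure.ext_of_lintegral _ fun f hf => ?_
  rw [circ f hf, lintegral_map hf cs_meas]

/-- the extension operator on the circle -/
theorem T_circ (h : E (1 + 1) → ℂ) (hh : Measurable h) (ρ α : ℝ) :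
    T h (ρ • cs α) = ∫ φ in Ioo (-Real.pi) Real.pi,
      Complex.exp (-((ρ * Real.cos (φ - α) : ℝ) : ℂ) * I) * h (cs φ) := by
  unfold T
  have hm : Measurable fun w : E (1 + 1) =>
      Complex.exp (-((⟪ρ • cs α, w⟫ : ℝ) : ℂ) * I) * h w := by
    have h1 : Measurable fun w : E (1 + 1) => (⟪ρ • cs α, w⟫ : ℝ) := by fun_prop
    exact (Complex.measurable_exp.comp ((Complex.measurable_ofReal.comp h1).neg.mul_const I)).mul hh
  rw [circ_measure, integral_map cs_meas.aemeasurable hm.aestronglyMeasurable]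
  refine integral_congr_ae (Filter.Eventually.of_forall fun φ => ?_)
  simp only
  rw [real_inner_smul_left, cs_inner]

end Pool.Agent.V5helper17.SR
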