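import Mathlib
import Pool.Agent.V5helper17.SR.Circ
set_option autoImplicit false

/-! # The extension of one piece in cylindrical coordinates -/

namespace Pool.Agent.V5helper17.SR

open MeasureTheory Set Complex
open scoped ENNReal RealInnerProductSpace
open Pool.Agent.H789R2.FR (E sg T sg_finite sg_ae polar sc Ex)
open Pool.Agent.H438R2.BR (J J_mp J_inner)
open Pool.Agent.H438R2.BR.T10 (e0 e0_norm)
open Pool.Agent.V5helper17.RL (sl am am_meas T_am arch2 am_meas1 ball_line)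
open Pool.Agent.TH335.RF (FB wt wt_line sc_pos sc_le line_mp sc_meas' e0_zero)

/-- the density `1_{(a,b]}(arg(x_0 + i x_1)) g(x_2)` -/
noncomputable def dens (a b : ℝ) (g : ℝ → ℂ) (w : E (1 + 1 + 1)) : ℂ :=
  (Ioc a b).indicator (fun _ => g (w 2)) (Complex.arg ((w 0 : ℂ) + (w 1 : ℂ) * I))

theorem dens_meas (a b : ℝ) (g : ℝ → ℂ) (hg : Measurable g) : Measurable (dens a b g) := by
  have h1 : Measurable fun w : E (1 + 1 + 1) => Complex.arg ((w 0 : ℂ) + (w 1 : ℂ) * I) := by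
    apply Complex.measurable_arg.comp
    fun_prop
  have h2 : Measurable fun w : E (1 + 1 + 1) => g (w 2) := hg.comp (by fun_prop)
  have h3 : dens a b g = ((fun w : E (1 + 1 + 1) => Complex.arg ((w 0 : ℂ) + (w 1 : ℂ) * I)) ⁻¹'
      Ioc a b).indicator fun w => g (w 2) := by
    funext w
    unfold dens
    by_cases h : Complex.arg ((w 0 : ℂ) + (w 1 : ℂ) * I) ∈ Ioc a b
    · rw [indicator_of_mem h, indicator_of_mem (by exact h)]
    · rw [indicator_of_notMem h, indicator_of_notMem (by exact h)]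
  rw [h3]
  exact h2.indicator (h1 measurableSet_Ioc)

theorem dens_le (a b : ℝ) (g : ℝ → ℂ) (M : ℝ) (hM : ∀ c, ‖g c‖ ≤ M) (w : E (1 + 1 + 1)) :
    ‖dens a b g w‖ ≤ M := by
  unfold dens
  exact (norm_indicator_le_norm_self _ _).trans (hM _)

theorem cs_zero (φ : ℝ) : cs φ 0 = Real.cos φ := by
  unfold cs
  rw [Pool.Agent.V5helper17.RL.J2_zero]

theorem cs_one' (φ : ℝ) : cs φ 1 = Real.sin φ := by
  unfold cs
  have h : (J (Real.cos φ • e0) (Real.sin φ • e0) : E (1 + 1)) (Fin.natAdd 1 0) =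
      (Real.sin φ • e0 : E 1) 0 :=
    congrArg (fun w : E 1 => w 0)
      (Pool.Agent.H438R2.PD.P2_J (Real.cos φ • e0) (Real.sin φ • e0))
  rw [show (1 : Fin (1 + 1)) = Fin.natAdd 1 0 from rfl, h, PiLp.smul_apply, e0_zero, smul_eq_mul,
    mul_one]

theorem J3_zero (y : E (1 + 1)) (v : E 1) : (J y v : E (1 + 1 + 1)) 0 = y 0 := by
  have h := congrArg (fun w : E (1 + 1) => w 0) (Pool.Agent.H438R2.PD.P1_J y v)
  exact h

theorem J3_one (y : E (1 + 1)) (v : E 1) : (J y v : E (1 + 1 + 1)) 1 = y 1 := by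
  have h := congrArg (fun w : E (1 + 1) => w 1) (Pool.Agent.H438R2.PD.P1_J y v)
  exact h

theorem J3_two (y : E (1 + 1)) (v : E 1) : (J y v : E (1 + 1 + 1)) 2 = v 0 := by
  have h := congrArg (fun w : E 1 => w 0) (Pool.Agent.H438R2.PD.P2_J y v)
  exact h

/-- the density on a latitude circle -/
theorem dens_slice (a b : ℝ) (g : ℝ → ℂ) {c : ℝ} (hc : c ∈ Ioo (-1 : ℝ) 1) {φ : ℝ}
    (hφ : φ ∈ Ioc (-Real.pi) Real.pi) :
    dens a b g (J (sc c • cs φ) (c • e0)) = (Ioc a b).indicator (fun _ => g c) φ := by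
  have h0 := sc_pos hc
  unfold dens
  have e1 : (((J (sc c • cs φ) (c • e0) : E (1 + 1 + 1)) 0 : ℝ) : ℂ) +
      (((J (sc c • cs φ) (c • e0) : E (1 + 1 + 1)) 1 : ℝ) : ℂ) * I =
      ((sc c : ℝ) : ℂ) * (Complex.cos (φ : ℂ) + Complex.sin (φ : ℂ) * I) := by
    rw [J3_zero, J3_one, PiLp.smul_apply, PiLp.smul_apply, cs_zero, cs_one']
    simp only [smul_eq_mul]
    push_cast
    ring
  have e2 : (J (sc c • cs φ) (c • e0) : E (1 + 1 + 1)) 2 = c := by
    rw [J3_two, PiLp.smul_apply, e0_zero, smul_eq_mul, mul_one]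
  rw [e1, Complex.arg_mul_cos_add_sin_mul_I h0 hφ, e2]

end Pool.Agent.V5helper17.SR
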