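import Mathlib
import Pool.Agent.V5helper17.SR.Form
set_option autoImplicit false

/-! # The extension of one piece in cylindrical coordinates: the formula -/

namespace Pool.Agent.V5helper17.SR

open MeasureTheory Set Complex
open scoped ENNReal RealInnerProductSpace
open Pool.Agent.H789R2.FR (E sg T sg_finite sg_ae polar sc Ex)
open Pool.Agent.H438R2.BR (J J_mp J_inner)
open Pool.Agent.H438R2.BR.T10 (e0 e0_norm)
open Pool.Agent.V5helper17.RL (sl am am_meas T_am arch2 am_meas1 ball_line)
open Pool.Agent.TH335.RF (FB wt wt_line sc_pos sc_le line_mp sc_meas' e0_zero)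

theorem FB_line (A : E 1 → ℂ) (hA : Measurable A) (z : ℝ) :
    FB A (z • e0) = ∫ c in Ioo (-1 : ℝ) 1,
      A (c • e0) * Complex.exp (-((c * z : ℝ) : ℂ) * I) := by
  unfold FB
  have hm : Measurable fun y' : E 1 => (Metric.ball (0 : E 1) 1).indicator
      (fun y' => A y' * Complex.exp (-((⟪y', z • e0⟫ : ℝ) : ℂ) * I)) y' := by
    refine Measurable.indicator ?_ measurableSet_ball
    have h1 : Measurable fun y' : E 1 => (⟪y', z • e0⟫ : ℝ) := by fun_prop
    exact hA.mul
      (Complex.measurable_exp.comp ((Complex.measurable_ofReal.comp h1).neg.mul_const I))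
  rw [← integral_indicator measurableSet_ball, ← integral_indicator measurableSet_Ioo,
    ← line_mp.map_eq, integral_map line_mp.measurable.aemeasurable hm.aestronglyMeasurable]
  refine integral_congr_ae (Filter.Eventually.of_forall fun c => ?_)
  simp only
  by_cases hc : c ∈ Ioo (-1 : ℝ) 1
  · rw [indicator_of_mem ((ball_line c).2 hc), indicator_of_mem hc]
    rw [real_inner_smul_left, real_inner_smul_right, real_inner_self_eq_norm_sq, e0_norm]
    norm_num
  · rw [indicator_of_notMem (fun h => hc ((ball_line c).1 h)), indicator_of_notMem hc]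

/-- the kernel of the double integral -/
noncomputable def kr (a b : ℝ) (g : ℝ → ℂ) (ρ α z c φ : ℝ) : ℂ :=
  Complex.exp (-((sc c * ρ * Real.cos (φ - α) : ℝ) : ℂ) * I) *
    (Ioc a b).indicator (fun _ => g c) φ * Complex.exp (-((c * z : ℝ) : ℂ) * I)

theorem kr_eq (a b : ℝ) (g : ℝ → ℂ) (ρ α z c φ : ℝ) : kr a b g ρ α z c φ =
    (Ioc a b).indicator (fun _ =>
      Complex.exp (-(((ρ * Real.cos (φ - α)) * sc c + z * c : ℝ) : ℂ) * I) * g c) φ := by
  unfold kr
  by_cases h : φ ∈ Ioc a b
  · rw [indicator_of_mem h, indicator_of_mem h]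
    have e3 : Complex.exp (-(((ρ * Real.cos (φ - α)) * sc c + z * c : ℝ) : ℂ) * I) =
        Complex.exp (-((sc c * ρ * Real.cos (φ - α) : ℝ) : ℂ) * I) *
        Complex.exp (-((c * z : ℝ) : ℂ) * I) := by
      rw [← Complex.exp_add]
      congr 1
      push_cast
      ring
    rw [e3]
    ring
  · rw [indicator_of_notMem h, indicator_of_notMem h]
    simp

theorem kr_meas (a b : ℝ) (g : ℝ → ℂ) (hg : Measurable g) (ρ α z : ℝ) :
    Measurable fun p : ℝ × ℝ => kr a b g ρ α z p.1 p.2 := by
  have h1 : Measurable fun p : ℝ × ℝ => (Ioc a b).indicator (fun _ => g p.1) p.2 := by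
    have h2 : (fun p : ℝ × ℝ => (Ioc a b).indicator (fun _ => g p.1) p.2) =
        ((fun p : ℝ × ℝ => p.2) ⁻¹' (Ioc a b)).indicator fun p => g p.1 := by
      funext p
      by_cases hp : p.2 ∈ Ioc a b
      · rw [indicator_of_mem hp, indicator_of_mem (by exact hp)]
      · rw [indicator_of_notMem hp, indicator_of_notMem (by exact hp)]
    rw [h2]
    exact (hg.comp measurable_fst).indicator (measurable_snd measurableSet_Ioc)
  have h3 : Measurable fun p : ℝ × ℝ => sc p.1 := sc_meas'.comp measurable_fst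
  unfold kr
  fun_prop

theorem kr_le (a b : ℝ) (g : ℝ → ℂ) (M : ℝ) (hM : ∀ c, ‖g c‖ ≤ M) (ρ α z c φ : ℝ) :
    ‖kr a b g ρ α z c φ‖ ≤ M := by
  rw [kr_eq]
  refine (norm_indicator_le_norm_self _ _).trans ?_
  rw [norm_mul, Pool.Agent.H789R2.FR.E4w.norm_phase, one_mul]
  exact hM c

/-- the formula for one piece -/
theorem T_form {a b : ℝ} (ha : -Real.pi ≤ a) (hab : a ≤ b) (hb : b ≤ Real.pi) (g : ℝ → ℂ)
    (hg : Measurable g) (M : ℝ) (hM : ∀ c, ‖g c‖ ≤ M) (ρ α z : ℝ) :
    T (dens a b g) (J (ρ • cs α) (z • e0)) =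
      ∫ x in (a - α)..(b - α), Ex g (ρ * Real.cos x) z := by
  have hfin := sg_finite (1 + 1)
  have hf1 : IsFiniteMeasure (volume.restrict (Ioo (-1 : ℝ) 1)) :=
    ⟨by rw [Measure.restrict_apply_univ, Real.volume_Ioo]; exact ENNReal.ofReal_lt_top⟩
  have hf2 : IsFiniteMeasure (volume.restrict (Ioo (-Real.pi) Real.pi)) :=
    ⟨by rw [Measure.restrict_apply_univ, Real.volume_Ioo]; exact ENNReal.ofReal_lt_top⟩
  have hFm := dens_meas a b g hg
  rw [T_am (arch2 1 le_rfl) (dens a b g) hFm M (dens_le a b g M hM) (ρ • cs α) (z • e0),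
    FB_line _ (am_meas1 _ hFm _)]
  have h3 : ∀ c ∈ Ioo (-1 : ℝ) 1, am (dens a b g) (ρ • cs α) (c • e0) *
      Complex.exp (-((c * z : ℝ) : ℂ) * I) =
      ∫ φ in Ioo (-Real.pi) Real.pi, kr a b g ρ α z c φ := by
    intro c hc
    unfold am kr
    rw [wt_line, smul_smul, T_circ _ (Pool.Agent.V5helper17.RL.sl_meas1 _ hFm _),
      ← integral_mul_const]
    refine setIntegral_congr_fun measurableSet_Ioo fun φ hφ => ?_
    have h4 : sl (dens a b g) (c • e0) (cs φ) = (Ioc a b).indicator (fun _ => g c) φ := by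
      unfold sl
      rw [wt_line]
      exact dens_slice a b g hc (Ioo_subset_Ioc_self hφ)
    rw [h4]
  rw [setIntegral_congr_fun measurableSet_Ioo h3]
  rw [integral_integral_swap]
  · have h5 : ∀ φ : ℝ, ∫ c in Ioo (-1 : ℝ) 1, kr a b g ρ α z c φ =
        (Ioc a b).indicator (fun φ => Ex g (ρ * Real.cos (φ - α)) z) φ := by
      intro φ
      simp only [kr_eq]
      by_cases h : φ ∈ Ioc a b
      · simp only [indicator_of_mem h]
        rfl
      · simp only [indicator_of_notMem h]
        simp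
    simp only [h5]
    rw [← integral_Ioc_eq_integral_Ioo, setIntegral_indicator measurableSet_Ioc,
      inter_eq_right.2 (Ioc_subset_Ioc ha hb), ← intervalIntegral.integral_of_le hab]
    exact intervalIntegral.integral_comp_sub_right (fun x => Ex g (ρ * Real.cos x) z) α
  · refine Integrable.of_bound (C := M) ?_ ?_
    · exact (kr_meas a b g hg ρ α z).aestronglyMeasurable
    · exact Filter.Eventually.of_forall fun p => kr_le a b g M hM ρ α z p.1 p.2

end Pool.Agent.V5helper17.SR
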