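import Mathlib
import Pool.Agent.V5helper17.SR.Form2
set_option autoImplicit false

/-! # The `L^2` bound on cylinders -/

namespace Pool.Agent.V5helper17.SR

open MeasureTheory Set Complex Metric
open scoped ENNReal RealInnerProductSpace
open Pool.Agent.H789R2.FR (E sg T sg_finite sg_ae polar sc Ex)
open Pool.Agent.H438R2.BR (J J_mp J_inner)
open Pool.Agent.H438R2.BR.T10 (e0 e0_norm)
open Pool.Agent.V5helper17.RL (sl am am_meas T_am arch2 am_meas1 ball_line ball_L2s sl_meas1)
open Pool.Agent.TH335.RF (FB wt wt_line sc_pos sc_le line_mp sc_meas' e0_zero FB_L2 wt_meas wt_pos)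

theorem lint_line (G : E 1 → ℝ≥0∞) (hG : Measurable G) :
    ∫⁻ v in ball (0 : E 1) 1, G v = ∫⁻ c in Ioo (-1 : ℝ) 1, G (c • e0) := by
  rw [← lintegral_indicator measurableSet_ball, ← lintegral_indicator measurableSet_Ioo,
    ← line_mp.lintegral_comp (hG.indicator measurableSet_ball)]
  refine lintegral_congr fun c => ?_
  by_cases hc : c ∈ Ioo (-1 : ℝ) 1
  · rw [indicator_of_mem ((ball_line c).2 hc), indicator_of_mem hc]
  · rw [indicator_of_notMem (fun h => hc ((ball_line c).1 h)), indicator_of_notMem hc]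

theorem L2_piece : ∃ C : ℝ, 0 < C ∧ ∀ (a b : ℝ) (g : ℝ → ℂ), Measurable g →
    (∃ M : ℝ, ∀ c, ‖g c‖ ≤ M) → ∀ l : ℝ, 0 < l →
    ∫⁻ y in closedBall (0 : E (1 + 1)) l, ∫⁻ z : ℝ,
      ‖T (dens a b g) (J y (z • e0))‖ₑ ^ 2 ≤ ENNReal.ofReal (C * l) *
      ∫⁻ c in Ioo (-1 : ℝ) 1, ENNReal.ofReal (sc c)⁻¹ *
        ∫⁻ φ in Ioo (-Real.pi) Real.pi, (Ioc a b).indicator (fun _ => ‖g c‖ₑ ^ 2) φ := by
  obtain ⟨C, hC, hball⟩ := ball_L2s (1 + 1) (by norm_num)
  have hpi := Real.pi_pos
  refine ⟨2 * Real.pi * C, by positivity, fun a b g hg hM l hl => ?_⟩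
  obtain ⟨M, hM⟩ := hM
  have hfin := sg_finite (1 + 1)
  set F := dens a b g with hF
  have hFm : Measurable F := dens_meas a b g hg
  have hFle : ∀ w, ‖F w‖ ≤ M := dens_le a b g M hM
  have hballfin : volume (ball (0 : E 1) 1) ≠ ⊤ := measure_ball_lt_top.ne
  have ham : ∀ y v, ‖am F y v‖ ≤ M * (sg (1 + 1)).real univ := fun y v =>
    Pool.Agent.H789R2.FR.Lp_T_bdd (fun u => by unfold sl; exact hFle _) _
  have hamm := am_meas F hFm
  have hpl : ∀ y : E (1 + 1), ∫⁻ z : ℝ, ‖T F (J y (z • e0))‖ₑ ^ 2 ≤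
      ENNReal.ofReal (2 * Real.pi) * ∫⁻ v in ball (0 : E 1) 1, ‖am F y v‖ₑ ^ 2 := by
    intro y
    have hAm : Measurable (am F y) := am_meas1 F hFm y
    have hfinA : ∫⁻ z in ball (0 : E 1) 1, ‖am F y z‖ₑ ^ (2 : ℝ) ≠ ⊤ := by
      refine ((lintegral_mono fun z => ?_).trans_lt (?_ :
        ∫⁻ _ in ball (0 : E 1) 1, ENNReal.ofReal ((M * (sg (1 + 1)).real univ) ^ 2) < ⊤)).ne
      · simp only
        rw [ENNReal.rpow_ofNat, enorm_sq']
        exact ENNReal.ofReal_le_ofReal (pow_le_pow_left₀ (norm_nonneg _) (ham y z) 2)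
      · rw [lintegral_const, Measure.restrict_apply_univ]
        exact ENNReal.mul_lt_top ENNReal.ofReal_lt_top measure_ball_lt_top
    have hFBm : Measurable fun v : E 1 => ‖FB (am F y) v‖ₑ ^ 2 := by
      have h1 : (fun v : E 1 => FB (am F y) v) = fun v => T F (J y v) := by
        funext v
        exact (T_am (arch2 1 le_rfl) F hFm M hFle y v).symm
      have h2 : Measurable fun v : E 1 => T F (J y v) := by
        have hJ : Measurable fun p : E (1 + 1) × E 1 => J p.1 p.2 := (J_mp (1 + 1) 1).measurable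
        have hJ2 : Measurable fun v : E 1 => (J y v : E (1 + 1 + 1)) :=
          Measurable.comp (g := fun p : E (1 + 1) × E 1 => J p.1 p.2) (f := fun v => (y, v)) hJ
            (measurable_const.prodMk measurable_id)
        exact (Pool.Agent.H438R2.PD.T_meas' F hFm).comp hJ2
      have h3 : Measurable fun v : E 1 => FB (am F y) v := by rw [h1]; exact h2
      exact h3.enorm.pow_const 2
    have e1 : ∫⁻ z : ℝ, ‖T F (J y (z • e0))‖ₑ ^ 2 = ∫⁻ v : E 1, ‖FB (am F y) v‖ₑ ^ 2 := by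
      rw [← line_mp.lintegral_comp hFBm]
      refine lintegral_congr fun z => ?_
      rw [T_am (arch2 1 le_rfl) F hFm M hFle y (z • e0)]
    rw [e1]
    have h4 := FB_L2 (am F y) hAm hfinA
    simp only [ENNReal.rpow_ofNat] at h4
    refine le_trans (le_of_eq h4) ?_
    simp
  set Gv : E 1 → ℝ≥0∞ := fun v => ENNReal.ofReal (C * l * wt v * (wt v ^ (1 + 1))⁻¹) *
    ∫⁻ w, ‖sl F v w‖ₑ ^ 2 ∂(sg (1 + 1)) with hGv
  have hGm : Measurable Gv := by
    have h1 : Measurable fun p : E 1 × E (1 + 1) => ‖sl F p.1 p.2‖ₑ ^ 2 :=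
      (Pool.Agent.V5helper17.RL.sl_meas F hFm).enorm.pow_const 2
    have h2 : Measurable fun v : E 1 => C * l * wt v * (wt v ^ (1 + 1))⁻¹ := by
      have := wt_meas (m := 1)
      fun_prop
    exact h2.ennreal_ofReal.mul h1.lintegral_prod_right'
  calc ∫⁻ y in closedBall (0 : E (1 + 1)) l, ∫⁻ z : ℝ, ‖T F (J y (z • e0))‖ₑ ^ 2
      ≤ ∫⁻ y in closedBall (0 : E (1 + 1)) l, ENNReal.ofReal (2 * Real.pi) *
          ∫⁻ v in ball (0 : E 1) 1, ‖am F y v‖ₑ ^ 2 := lintegral_mono fun y => hpl y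
    _ = ENNReal.ofReal (2 * Real.pi) * ∫⁻ v in ball (0 : E 1) 1,
          ∫⁻ y in closedBall (0 : E (1 + 1)) l, ‖am F y v‖ₑ ^ 2 := by
        rw [lintegral_const_mul' _ _ ENNReal.ofReal_ne_top,
          lintegral_lintegral_swap (hamm.enorm.pow_const 2).aemeasurable]
    _ ≤ ENNReal.ofReal (2 * Real.pi) * ∫⁻ v in ball (0 : E 1) 1, Gv v := by
        gcongr 1
        refine setLIntegral_mono' measurableSet_ball fun v hv => ?_
        exact hball (sl F v) (sl_meas1 F hFm v) ⟨M, fun u => hFle _⟩ l hl (wt v) (wt_pos hv)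
    _ = ENNReal.ofReal (2 * Real.pi) * ∫⁻ c in Ioo (-1 : ℝ) 1, ENNReal.ofReal (C * l) *
          (ENNReal.ofReal (sc c)⁻¹ *
          ∫⁻ φ in Ioo (-Real.pi) Real.pi, (Ioc a b).indicator (fun _ => ‖g c‖ₑ ^ 2) φ) := by
        rw [lint_line Gv hGm]
        congr 1
        refine setLIntegral_congr_fun measurableSet_Ioo fun c hc => ?_
        have h0 := sc_pos hc
        rw [hGv]
        simp only
        rw [wt_line, ← mul_assoc, ← ENNReal.ofReal_mul (by positivity)]
        congr 1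
        · congr 1
          field_simp
        · rw [circ _ ((sl_meas1 F hFm _).enorm.pow_const 2)]
          refine setLIntegral_congr_fun measurableSet_Ioo fun φ hφ => ?_
          have h4 : sl F (c • e0) (cs φ) = (Ioc a b).indicator (fun _ => g c) φ := by
            unfold sl
            rw [wt_line]
            exact dens_slice a b g hc (Ioo_subset_Ioc_self hφ)
          rw [h4]
          by_cases h : φ ∈ Ioc a b
          · rw [indicator_of_mem h, indicator_of_mem h]
          · rw [indicator_of_notMem h, indicator_of_notMem h]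
            simp
    _ = _ := by
        rw [lintegral_const_mul' _ _ ENNReal.ofReal_ne_top, ← mul_assoc,
          ← ENNReal.ofReal_mul (by positivity)]
        congr 2
        ring

end Pool.Agent.V5helper17.SR
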