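import Mathlib
import Pool.Agent.V5helper17.SR.L2
set_option autoImplicit false

/-! # The three estimates for the square function -/

namespace Pool.Agent.V5helper17.SR

open MeasureTheory Set Complex Metric
open scoped ENNReal RealInnerProductSpace
open Pool.Agent.H789R2.FR (E sg T sg_finite sg_ae polar sc Ex)
open Pool.Agent.H438R2.BR (J J_mp J_inner)
open Pool.Agent.H438R2.BR.T10 (e0 e0_norm)
open Pool.Agent.TH335.RF (sc_pos sc_le sc_meas')

theorem sc_int : ∫⁻ c in Ioo (-1 : ℝ) 1, ENNReal.ofReal (sc c)⁻¹ ^ (4 / 3 : ℝ) ≠ ⊤ := by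
  rw [Pool.Agent.V5helper17.RL.subst_cos]
  have h1 : ∀ θ ∈ Ioo (0 : ℝ) Real.pi, ENNReal.ofReal (Real.sin θ) *
      ENNReal.ofReal (sc (Real.cos θ))⁻¹ ^ (4 / 3 : ℝ) = fs (1 / 3) θ := by
    intro θ hθ
    have hs := Real.sin_pos_of_mem_Ioo hθ
    have e1 : sc (Real.cos θ) = Real.sin θ := by
      unfold sc
      rw [← Real.sin_sq, Real.sqrt_sq hs.le]
    unfold fs
    rw [e1, abs_of_pos hs, ENNReal.ofReal_rpow_of_pos (by positivity),
      ENNReal.ofReal_rpow_of_pos hs, ← ENNReal.ofReal_mul hs.le]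
    congr 1
    rw [Real.inv_rpow hs.le, ← Real.rpow_neg hs.le]
    nth_rewrite 1 [← Real.rpow_one (Real.sin θ)]
    rw [← Real.rpow_add hs]
    norm_num
  rw [setLIntegral_congr_fun measurableSet_Ioo h1]
  have h2 := big (1 / 3) (by norm_num) (by norm_num)
  have hpi := Real.pi_pos
  refine ((lintegral_mono_set ?_).trans_lt (lt_top_iff_ne_top.2 h2)).ne
  intro θ hθ
  exact ⟨by linarith [hθ.1], by linarith [hθ.2]⟩

theorem young (x y : ℝ≥0∞) : x * y ≤ x ^ (4 / 3 : ℝ) + y ^ (4 : ℝ) := by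
  rcases le_total y (x ^ (1 / 3 : ℝ)) with h | h
  · calc x * y ≤ x ^ (1 : ℝ) * x ^ (1 / 3 : ℝ) := by
          rw [ENNReal.rpow_one]
          gcongr
      _ = x ^ (4 / 3 : ℝ) := by
          rw [← ENNReal.rpow_add_of_nonneg _ _ (by norm_num) (by norm_num)]
          norm_num
      _ ≤ _ := le_self_add
  · have h1 : x ≤ y ^ (3 : ℝ) := by
      calc x = (x ^ (1 / 3 : ℝ)) ^ (3 : ℝ) := by
            rw [← ENNReal.rpow_mul]
            norm_num
        _ ≤ y ^ (3 : ℝ) := ENNReal.rpow_le_rpow h (by norm_num)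
    calc x * y ≤ y ^ (3 : ℝ) * y ^ (1 : ℝ) := by
          rw [ENNReal.rpow_one]
          gcongr
      _ = y ^ (4 : ℝ) := by
          rw [← ENNReal.rpow_add_of_nonneg _ _ (by norm_num) (by norm_num)]
          norm_num
      _ ≤ _ := le_add_self

theorem pow_mono (y : ℝ≥0∞) (s t : ℝ) (hs : 0 ≤ s) (hst : s ≤ t) : y ^ s ≤ 1 + y ^ t := by
  rcases le_total y 1 with h | h
  · calc y ^ s ≤ 1 := ENNReal.rpow_le_one h hs
      _ ≤ _ := le_self_add
  · calc y ^ s ≤ y ^ t := ENNReal.rpow_le_rpow_of_exponent_le h hst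
      _ ≤ _ := le_add_self

variable {N : ℕ} {a b : Fin N → ℝ} {g : Fin N → ℝ → ℂ}

/-- weighted integral of `Aq` -/
theorem Aq_w (q : ℝ) (hq : 8 < q) : ∃ C : ℝ, 0 < C ∧
    ∀ (N : ℕ) (a b : Fin N → ℝ) (g : Fin N → ℝ → ℂ), Dt a b g → Xq a b g q ≤ 1 →
    ∫⁻ φ in Ioo (-Real.pi) Real.pi, ∫⁻ c in Ioo (-1 : ℝ) 1,
      ENNReal.ofReal (sc c)⁻¹ * Aq a b g φ c ≤ ENNReal.ofReal C := by
  set I0 := ∫⁻ c in Ioo (-1 : ℝ) 1, ENNReal.ofReal (sc c)⁻¹ ^ (4 / 3 : ℝ) with hI0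
  have hI0t : I0 ≠ ⊤ := sc_int
  have hpi := Real.pi_pos
  set B : ℝ≥0∞ := (I0 + ENNReal.ofReal 2) * ENNReal.ofReal (2 * Real.pi) + 1 with hB
  have hBt : B ≠ ⊤ := by
    rw [hB]
    exact ENNReal.add_ne_top.2 ⟨ENNReal.mul_ne_top (ENNReal.add_ne_top.2
      ⟨hI0t, ENNReal.ofReal_ne_top⟩) ENNReal.ofReal_ne_top, by simp⟩
  refine ⟨B.toReal + 1, by positivity, fun N a b g h hX => ?_⟩
  have hq2 : (4 : ℝ) ≤ q / 2 := by linarith
  have mA : ∀ φ, Measurable fun c => Aq a b g φ c := fun φ =>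
    Measurable.comp (g := fun p : ℝ × ℝ => Aq a b g p.1 p.2) (f := fun c => (φ, c)) (Aq_meas h)
      (by fun_prop)
  have hsm : Measurable fun c : ℝ => ENNReal.ofReal (sc c)⁻¹ ^ (4 / 3 : ℝ) :=
    (sc_meas'.inv.ennreal_ofReal).pow_const _
  calc ∫⁻ φ in Ioo (-Real.pi) Real.pi, ∫⁻ c in Ioo (-1 : ℝ) 1,
        ENNReal.ofReal (sc c)⁻¹ * Aq a b g φ c
      ≤ ∫⁻ φ in Ioo (-Real.pi) Real.pi, (I0 + ENNReal.ofReal 2 +
          ∫⁻ c in Ioo (-1 : ℝ) 1, (Aq a b g φ c) ^ (q / 2)) := by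
        refine lintegral_mono fun φ => ?_
        calc ∫⁻ c in Ioo (-1 : ℝ) 1, ENNReal.ofReal (sc c)⁻¹ * Aq a b g φ c
            ≤ ∫⁻ c in Ioo (-1 : ℝ) 1, (ENNReal.ofReal (sc c)⁻¹ ^ (4 / 3 : ℝ) +
              (1 + (Aq a b g φ c) ^ (q / 2))) := by
              refine lintegral_mono fun c => ?_
              refine (young _ _).trans (add_le_add le_rfl ?_)
              exact pow_mono _ 4 (q / 2) (by norm_num) hq2
          _ = I0 + (ENNReal.ofReal 2 + ∫⁻ c in Ioo (-1 : ℝ) 1, (Aq a b g φ c) ^ (q / 2)) := by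
              rw [lintegral_add_left hsm, lintegral_add_left measurable_const]
              congr 2
              rw [lintegral_one, Measure.restrict_apply_univ, Real.volume_Ioo]
              norm_num
          _ = _ := by rw [add_assoc]
    _ = (I0 + ENNReal.ofReal 2) * ENNReal.ofReal (2 * Real.pi) + Xq a b g q := by
        rw [lintegral_add_left measurable_const, lintegral_const, Measure.restrict_apply_univ,
          Real.volume_Ioo]
        congr 3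
        ring
    _ ≤ B := by
        rw [hB]
        gcongr
    _ ≤ _ := by
        rw [← ENNReal.ofReal_toReal hBt]
        exact ENNReal.ofReal_le_ofReal (by simp)

/-- the extension of a piece in cartesian coordinates -/
noncomputable def Tk (a b : Fin N → ℝ) (g : Fin N → ℝ → ℂ) (k : Fin N) (y : E (1 + 1)) (z : ℝ) : ℂ :=
  T (dens (a k) (b k) (g k)) (J y (z • e0))

theorem Tk_meas (h : Dt a b g) (k : Fin N) :
    Measurable fun p : E (1 + 1) × ℝ => Tk a b g k p.1 p.2 :=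
  (Pool.Agent.H438R2.PD.T_meas' _ (dens_meas _ _ _ (h.hg k))).comp
    (Pool.Agent.V5helper17.RL.phys_meas (1 + 1))

/-- the square function -/
noncomputable def Sq (a b : Fin N → ℝ) (g : Fin N → ℝ → ℂ) (p : E (1 + 1) × ℝ) : ℝ≥0∞ :=
  ∑ k, ‖Tk a b g k p.1 p.2‖ₑ ^ 2

theorem Sq_meas (h : Dt a b g) : Measurable (Sq a b g) := by
  unfold Sq
  exact Finset.measurable_sum _ fun k _ => (Tk_meas h k).enorm.pow_const 2

theorem swap_A (h : Dt a b g) : ∫⁻ c in Ioo (-1 : ℝ) 1, ∫⁻ φ in Ioo (-Real.pi) Real.pi,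
      ENNReal.ofReal (sc c)⁻¹ * Aq a b g φ c = ∫⁻ φ in Ioo (-Real.pi) Real.pi,
      ∫⁻ c in Ioo (-1 : ℝ) 1, ENNReal.ofReal (sc c)⁻¹ * Aq a b g φ c := by
  have h5 : Measurable fun p : ℝ × ℝ => ENNReal.ofReal (sc p.1)⁻¹ * Aq a b g p.2 p.1 := by
    have h6 : Measurable fun p : ℝ × ℝ => Aq a b g p.2 p.1 :=
      Measurable.comp (g := fun p : ℝ × ℝ => Aq a b g p.1 p.2) (f := fun p : ℝ × ℝ => (p.2, p.1))
        (Aq_meas h) (by fun_prop)
    exact ((sc_meas'.comp measurable_fst).inv.ennreal_ofReal).mul h6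
  exact lintegral_lintegral_swap (f := fun c φ => ENNReal.ofReal (sc c)⁻¹ * Aq a b g φ c)
    h5.aemeasurable

theorem L2_all (q : ℝ) (hq : 8 < q) : ∃ C : ℝ, 0 < C ∧
    ∀ (N : ℕ) (a b : Fin N → ℝ) (g : Fin N → ℝ → ℂ), Dt a b g → Xq a b g q ≤ 1 →
    ∀ l : ℝ, 0 < l → ∫⁻ y in closedBall (0 : E (1 + 1)) l, ∫⁻ z : ℝ, Sq a b g (y, z) ≤
      ENNReal.ofReal (C * l) := by
  obtain ⟨C1, hC1, h1⟩ := L2_piece
  obtain ⟨C2, hC2, h2⟩ := Aq_w q hq
  refine ⟨C1 * C2, by positivity, fun N a b g h hX l hl => ?_⟩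
  have m0 : ∀ k, Measurable fun p : E (1 + 1) × ℝ => ‖Tk a b g k p.1 p.2‖ₑ ^ 2 :=
    fun k => (Tk_meas h k).enorm.pow_const 2
  have m1 : ∀ (k : Fin N) (y : E (1 + 1)), Measurable fun z : ℝ => ‖Tk a b g k y z‖ₑ ^ 2 :=
    fun k y => Measurable.comp (g := fun p : E (1 + 1) × ℝ => ‖Tk a b g k p.1 p.2‖ₑ ^ 2)
      (f := fun z => (y, z)) (m0 k) (measurable_const.prodMk measurable_id)
  have m2 : ∀ k : Fin N, Measurable fun c : ℝ => ENNReal.ofReal (sc c)⁻¹ *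
      ∫⁻ φ in Ioo (-Real.pi) Real.pi, (Ioc (a k) (b k)).indicator (fun _ => ‖g k c‖ₑ ^ 2) φ := by
    intro k
    refine (sc_meas'.inv.ennreal_ofReal).mul ?_
    have h3 : Measurable fun p : ℝ × ℝ =>
        (Ioc (a k) (b k)).indicator (fun _ => ‖g k p.1‖ₑ ^ 2) p.2 :=
      ind_meas _ measurableSet_Ioc _ measurable_snd (fun p : ℝ × ℝ => ‖g k p.1‖ₑ ^ 2)
        (((h.hg k).comp measurable_fst).enorm.pow_const 2)
    exact h3.lintegral_prod_right'
  have m3 : ∀ (k : Fin N) (c : ℝ), Measurable fun φ : ℝ =>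
      (Ioc (a k) (b k)).indicator (fun _ => ‖g k c‖ₑ ^ 2) φ := fun k c =>
    measurable_const.indicator measurableSet_Ioc
  calc ∫⁻ y in closedBall (0 : E (1 + 1)) l, ∫⁻ z : ℝ, Sq a b g (y, z)
      = ∑ k, ∫⁻ y in closedBall (0 : E (1 + 1)) l, ∫⁻ z : ℝ, ‖Tk a b g k y z‖ₑ ^ 2 := by
        unfold Sq
        rw [← lintegral_finsetSum _ fun k _ => (m0 k).lintegral_prod_right']
        refine lintegral_congr fun y => ?_
        rw [← lintegral_finsetSum _ fun k _ => m1 k y]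
    _ ≤ ∑ k, ENNReal.ofReal (C1 * l) *
      ∫⁻ c in Ioo (-1 : ℝ) 1, ENNReal.ofReal (sc c)⁻¹ * ∫⁻ φ in Ioo (-Real.pi) Real.pi,
        (Ioc (a k) (b k)).indicator (fun _ => ‖g k c‖ₑ ^ 2) φ :=
        Finset.sum_le_sum fun k _ => h1 (a k) (b k) (g k) (h.hg k) (h.hM k) l hl
    _ = ENNReal.ofReal (C1 * l) * ∫⁻ c in Ioo (-1 : ℝ) 1, ∫⁻ φ in Ioo (-Real.pi) Real.pi,
        ENNReal.ofReal (sc c)⁻¹ * Aq a b g φ c := by
        rw [← Finset.mul_sum, ← lintegral_finsetSum _ fun k _ => m2 k]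
        congr 1
        refine lintegral_congr fun c => ?_
        rw [lintegral_const_mul' _ _ ENNReal.ofReal_ne_top, ← Finset.mul_sum]
        congr 1
        unfold Aq
        rw [lintegral_finsetSum _ fun k _ => m3 k c]
    _ = ENNReal.ofReal (C1 * l) * ∫⁻ φ in Ioo (-Real.pi) Real.pi, ∫⁻ c in Ioo (-1 : ℝ) 1,
        ENNReal.ofReal (sc c)⁻¹ * Aq a b g φ c := by
        rw [swap_A h]
    _ ≤ ENNReal.ofReal (C1 * l) * ENNReal.ofReal C2 := by
        gcongr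
        exact h2 N a b g h hX
    _ = _ := by
        rw [← ENNReal.ofReal_mul (by positivity)]
        congr 1
        ring

end Pool.Agent.V5helper17.SR
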