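import Mathlib
import Pool.Agent.V5helper17.SR.Est
set_option autoImplicit false

/-! # The supremum bound and the `L^4` bound for the square function -/

namespace Pool.Agent.V5helper17.SR

open MeasureTheory Set Complex Metric
open scoped ENNReal RealInnerProductSpace
open Pool.Agent.H789R2.FR (E sg T sg_finite sg_ae polar sc Ex)
open Pool.Agent.H438R2.BR (J J_mp J_inner)
open Pool.Agent.H438R2.BR.T10 (e0 e0_norm)
open Pool.Agent.TH335.RF (sc_pos sc_le sc_meas' wt_line)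
open Pool.Agent.V5helper17.RL (cs_lint arch_lint arch2)

variable {N : ℕ} {a b : Fin N → ℝ} {g : Fin N → ℝ → ℂ}

/-- integrals over the sphere -/
theorem sph3 (f : E (1 + 1 + 1) → ℝ≥0∞) (hf : Measurable f) :
    ∫⁻ w, f w ∂(sg (1 + 1 + 1)) = ∫⁻ c in Ioo (-1 : ℝ) 1, ∫⁻ φ in Ioo (-Real.pi) Real.pi,
      f (J (sc c • cs φ) (c • e0)) := by
  have hfin := sg_finite (1 + 1)
  have hm : Measurable fun p : E 1 × E (1 + 1) => f (J (Pool.Agent.TH335.RF.wt p.1 • p.2) p.1) :=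
    hf.comp (Pool.Agent.V5helper17.RL.par_meas (1 + 1) 1)
  rw [arch_lint (arch2 1 le_rfl) f hf, lint_line _ hm.lintegral_prod_right']
  refine lintegral_congr fun c => ?_
  have hm1 : Measurable fun u : E (1 + 1) =>
      f (J (Pool.Agent.TH335.RF.wt (c • e0) • u) (c • e0)) :=
    Measurable.comp (g := fun p : E 1 × E (1 + 1) =>
      f (J (Pool.Agent.TH335.RF.wt p.1 • p.2) p.1)) (f := fun u => (c • e0, u)) hm
      (measurable_const.prodMk measurable_id)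
  rw [circ _ hm1, wt_line]

theorem T_sq (f : E (1 + 1 + 1) → ℂ) (hf : Measurable f) (X : E (1 + 1 + 1)) :
    ‖T f X‖ₑ ^ 2 ≤ sg (1 + 1 + 1) univ * ∫⁻ w, ‖f w‖ₑ ^ 2 ∂(sg (1 + 1 + 1)) := by
  have h1 : ‖T f X‖ₑ ≤ ∫⁻ w, ‖f w‖ₑ ∂(sg (1 + 1 + 1)) := by
    unfold T
    refine (enorm_integral_le_lintegral_enorm _).trans (le_of_eq ?_)
    refine lintegral_congr fun w => ?_
    rw [enorm_mul, Pool.Agent.TH335.RF.enorm_e, one_mul]
  calc ‖T f X‖ₑ ^ 2 ≤ (∫⁻ w, ‖f w‖ₑ ∂(sg (1 + 1 + 1))) ^ 2 := by gcongr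
    _ ≤ _ := cs_lint _ _ hf.enorm

theorem Aq_int (q : ℝ) (hq : 8 < q) : ∃ C : ℝ, 0 < C ∧
    ∀ (N : ℕ) (a b : Fin N → ℝ) (g : Fin N → ℝ → ℂ), Dt a b g → Xq a b g q ≤ 1 →
    ∫⁻ c in Ioo (-1 : ℝ) 1, ∫⁻ φ in Ioo (-Real.pi) Real.pi, Aq a b g φ c ≤ ENNReal.ofReal C := by
  obtain ⟨C, hC, h⟩ := Aq_w q hq
  refine ⟨C, hC, fun N a b g hd hX => ?_⟩
  refine le_trans ?_ (h N a b g hd hX)
  rw [← swap_A hd]
  refine setLIntegral_mono' measurableSet_Ioo fun c hc => ?_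
  refine lintegral_mono fun φ => ?_
  have h0 := sc_pos hc
  have h1 : (1 : ℝ≥0∞) ≤ ENNReal.ofReal (sc c)⁻¹ := by
    rw [← ENNReal.ofReal_one]
    exact ENNReal.ofReal_le_ofReal ((one_le_inv₀ h0).2 (sc_le c))
  calc Aq a b g φ c = 1 * Aq a b g φ c := (one_mul _).symm
    _ ≤ _ := mul_le_mul' h1 le_rfl

theorem sup_all (q : ℝ) (hq : 8 < q) : ∃ C : ℝ, 0 < C ∧
    ∀ (N : ℕ) (a b : Fin N → ℝ) (g : Fin N → ℝ → ℂ), Dt a b g → Xq a b g q ≤ 1 →
    ∀ p, Sq a b g p ≤ ENNReal.ofReal C := by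
  obtain ⟨C, hC, h⟩ := Aq_int q hq
  have hfin := sg_finite (1 + 1 + 1)
  refine ⟨((sg (1 + 1 + 1)).real univ + 1) * C, by positivity, fun N a b g hd hX p => ?_⟩
  have m3 : ∀ (k : Fin N) (c : ℝ), Measurable fun φ : ℝ =>
      (Ioc (a k) (b k)).indicator (fun _ => ‖g k c‖ₑ ^ 2) φ := fun k c =>
    measurable_const.indicator measurableSet_Ioc
  have m4 : ∀ k : Fin N, Measurable fun c : ℝ => ∫⁻ φ in Ioo (-Real.pi) Real.pi,
      (Ioc (a k) (b k)).indicator (fun _ => ‖g k c‖ₑ ^ 2) φ := by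
    intro k
    have h3 : Measurable fun p : ℝ × ℝ =>
        (Ioc (a k) (b k)).indicator (fun _ => ‖g k p.1‖ₑ ^ 2) p.2 :=
      ind_meas _ measurableSet_Ioc _ measurable_snd (fun p : ℝ × ℝ => ‖g k p.1‖ₑ ^ 2)
        (((hd.hg k).comp measurable_fst).enorm.pow_const 2)
    exact h3.lintegral_prod_right'
  have h1 : ∀ k, ∫⁻ w, ‖dens (a k) (b k) (g k) w‖ₑ ^ 2 ∂(sg (1 + 1 + 1)) =
      ∫⁻ c in Ioo (-1 : ℝ) 1, ∫⁻ φ in Ioo (-Real.pi) Real.pi,
        (Ioc (a k) (b k)).indicator (fun _ => ‖g k c‖ₑ ^ 2) φ := by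
    intro k
    rw [sph3 _ ((dens_meas _ _ _ (hd.hg k)).enorm.pow_const 2)]
    refine setLIntegral_congr_fun measurableSet_Ioo fun c hc => ?_
    refine setLIntegral_congr_fun measurableSet_Ioo fun φ hφ => ?_
    rw [dens_slice _ _ _ hc (Ioo_subset_Ioc_self hφ)]
    by_cases h' : φ ∈ Ioc (a k) (b k)
    · rw [indicator_of_mem h', indicator_of_mem h']
    · rw [indicator_of_notMem h', indicator_of_notMem h']
      simp
  calc Sq a b g p ≤ ∑ k, sg (1 + 1 + 1) univ *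
        ∫⁻ w, ‖dens (a k) (b k) (g k) w‖ₑ ^ 2 ∂(sg (1 + 1 + 1)) := by
        unfold Sq
        exact Finset.sum_le_sum fun k _ => T_sq _ (dens_meas _ _ _ (hd.hg k)) _
    _ = sg (1 + 1 + 1) univ * ∫⁻ c in Ioo (-1 : ℝ) 1, ∫⁻ φ in Ioo (-Real.pi) Real.pi,
        Aq a b g φ c := by
        simp only [h1]
        rw [← Finset.mul_sum, ← lintegral_finsetSum _ fun k _ => m4 k]
        congr 1
        refine lintegral_congr fun c => ?_
        unfold Aq
        rw [lintegral_finsetSum _ fun k _ => m3 k c]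
    _ ≤ sg (1 + 1 + 1) univ * ENNReal.ofReal C := by
        gcongr
        exact h N a b g hd hX
    _ ≤ _ := by
        rw [ENNReal.ofReal_mul (by positivity)]
        gcongr
        rw [ENNReal.ofReal_add (by positivity) (by norm_num), ofReal_measureReal]
        exact le_self_add

theorem Tk_form (h : Dt a b g) (k : Fin N) (ρ α z : ℝ) :
    Tk a b g k (ρ • cs α) z = Fk a b g k ρ α z := by
  obtain ⟨M, hM⟩ := h.hM k
  exact T_form (h.ha k) (h.hab k) (h.hb k) (g k) (h.hg k) M hM ρ α z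

theorem L4_all (q ε : ℝ) (hq : 8 < q) (hε0 : 0 < ε) (hε1 : ε < 1) : ∃ C : ℝ, 0 < C ∧
    ∀ (N : ℕ) (a b : Fin N → ℝ) (g : Fin N → ℝ → ℂ), Dt a b g → Xq a b g q ≤ 1 →
    ∀ R : ℝ, 1 ≤ R → ∫⁻ y in {y : E (1 + 1) | R ≤ ‖y‖ ∧ ‖y‖ ≤ 2 * R}, ∫⁻ z : ℝ,
      Sq a b g (y, z) ^ 2 ≤ ENNReal.ofReal (C * R ^ (-1 + 2 * ε)) := by
  obtain ⟨C, hC, h⟩ := shell4 q ε hq hε0 hε1
  refine ⟨2 * C, by positivity, fun N a b g hd hX R hR => ?_⟩
  have hR0 : 0 < R := by linarith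
  set S : Set (E (1 + 1)) := {y : E (1 + 1) | R ≤ ‖y‖ ∧ ‖y‖ ≤ 2 * R} with hS
  have hSm : MeasurableSet S :=
    (measurableSet_le measurable_const measurable_norm).inter
      (measurableSet_le measurable_norm measurable_const)
  set W : E (1 + 1) → ℝ≥0∞ := fun y => ∫⁻ z : ℝ, Sq a b g (y, z) ^ 2 with hW
  have hWm : Measurable W := ((Sq_meas hd).pow_const 2).lintegral_prod_right'
  have h2 : ∀ α : ℝ, ∫⁻ r in Ioi (0 : ℝ), ENNReal.ofReal r * S.indicator W (r • cs α) ≤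
      ENNReal.ofReal (2 * R) * ∫⁻ ρ in Icc R (2 * R), ∫⁻ z : ℝ,
        (∑ k, ‖Fk a b g k ρ α z‖ₑ ^ 2) ^ 2 := by
    intro α
    rw [← lintegral_const_mul' _ _ ENNReal.ofReal_ne_top, ← lintegral_indicator measurableSet_Ioi,
      ← lintegral_indicator measurableSet_Icc]
    refine lintegral_mono fun r => ?_
    simp only
    by_cases hr : r ∈ Ioi (0 : ℝ)
    · rw [indicator_of_mem hr]
      have hr0 : (0 : ℝ) < r := hr
      have hn : ‖r • cs α‖ = r := by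
        rw [norm_smul, cs_norm, mul_one, Real.norm_of_nonneg hr0.le]
      by_cases hr2 : r ∈ Icc R (2 * R)
      · rw [indicator_of_mem hr2, indicator_of_mem (show r • cs α ∈ S by
          rw [hS]; exact ⟨by rw [hn]; exact hr2.1, by rw [hn]; exact hr2.2⟩)]
        refine mul_le_mul' (ENNReal.ofReal_le_ofReal hr2.2) (le_of_eq ?_)
        rw [hW]
        simp only
        refine lintegral_congr fun z => ?_
        unfold Sq
        simp only [Tk_form hd]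
      · rw [indicator_of_notMem (show r • cs α ∉ S by
          intro hm
          rw [hS] at hm
          obtain ⟨h3, h4⟩ := hm
          rw [hn] at h3 h4
          exact hr2 ⟨h3, h4⟩), mul_zero]
        exact bot_le
    · rw [indicator_of_notMem hr]
      exact bot_le
  calc ∫⁻ y in S, W y = ∫⁻ y, S.indicator W y := (lintegral_indicator hSm _).symm
    _ = ∫⁻ α in Ioo (-Real.pi) Real.pi, ∫⁻ r in Ioi (0 : ℝ),
        ENNReal.ofReal r * S.indicator W (r • cs α) := pol2 _ (hWm.indicator hSm)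
    _ ≤ ∫⁻ α in Ioo (-Real.pi) Real.pi, ENNReal.ofReal (2 * R) * ∫⁻ ρ in Icc R (2 * R),
        ∫⁻ z : ℝ, (∑ k, ‖Fk a b g k ρ α z‖ₑ ^ 2) ^ 2 := lintegral_mono fun α => h2 α
    _ = ENNReal.ofReal (2 * R) * ∫⁻ α in Ioo (-Real.pi) Real.pi, ∫⁻ ρ in Icc R (2 * R),
        ∫⁻ z : ℝ, (∑ k, ‖Fk a b g k ρ α z‖ₑ ^ 2) ^ 2 :=
        lintegral_const_mul' _ _ ENNReal.ofReal_ne_top
    _ ≤ ENNReal.ofReal (2 * R) * ENNReal.ofReal (C * R ^ (-2 + 2 * ε)) := by
        gcongr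
        exact h N a b g hd hX R hR
    _ = _ := by
        rw [← ENNReal.ofReal_mul (by positivity)]
        congr 1
        have e1 : R ^ (-1 + 2 * ε) = R * R ^ (-2 + 2 * ε) := by
          nth_rewrite 2 [← Real.rpow_one R]
          rw [← Real.rpow_add hR0]
          congr 1
          ring
        rw [e1]
        ring

end Pool.Agent.V5helper17.SR
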