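import Mathlib
import Pool.Agent.V5helper17.SR.Est2
set_option autoImplicit false

/-! # The square function is in `L^p` for all `p > 3` -/

namespace Pool.Agent.V5helper17.SR

open MeasureTheory Set Complex Metric
open scoped ENNReal RealInnerProductSpace
open Pool.Agent.H789R2.FR (E sg T sg_finite sg_ae polar sc Ex)
open Pool.Agent.TH335.RF (geo)

theorem interp2 {α : Type*} [MeasurableSpace α] (μ : Measure α) (u : α → ℝ≥0∞) (hu : Measurable u)
    (t : ℝ) (ht0 : 0 ≤ t) (ht1 : t ≤ 1) :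
    ∫⁻ x, u x ^ (1 + t) ∂μ ≤ (∫⁻ x, u x ∂μ) ^ (1 - t) * (∫⁻ x, u x ^ 2 ∂μ) ^ t := by
  have h := ENNReal.lintegral_mul_norm_pow_le (μ := μ) (f := u) (g := fun x => u x ^ 2)
    hu.aemeasurable (hu.pow_const 2).aemeasurable (p := 1 - t) (q := t) (by linarith) ht0 (by ring)
  refine le_trans (le_of_eq ?_) h
  refine lintegral_congr fun x => ?_
  rw [← ENNReal.rpow_natCast, ← ENNReal.rpow_mul, ← ENNReal.rpow_add_of_nonneg _ _ (by linarith)
    (by positivity)]
  congr 1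
  push_cast
  ring

variable {N : ℕ} {a b : Fin N → ℝ} {g : Fin N → ℝ → ℂ}

/-- shells -/
def shl (j : ℕ) : Set (E (1 + 1)) := {y | (2 : ℝ) ^ j ≤ ‖y‖ ∧ ‖y‖ ≤ 2 * 2 ^ j}

theorem shl_meas (j : ℕ) : MeasurableSet (shl j) :=
  (measurableSet_le measurable_const measurable_norm).inter
    (measurableSet_le measurable_norm measurable_const)

theorem shl_cover : (univ : Set (E (1 + 1))) ⊆ closedBall (0 : E (1 + 1)) 1 ∪ ⋃ j, shl j := by
  intro y _
  rcases le_or_gt ‖y‖ 1 with h | h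
  · left
    rw [mem_closedBall_zero_iff]
    exact h
  · right
    obtain ⟨j, hj1, hj2⟩ := exists_nat_pow_near h.le (by norm_num : (1 : ℝ) < 2)
    refine mem_iUnion.2 ⟨j, hj1, ?_⟩
    rw [pow_succ] at hj2
    linarith

theorem square0 (q t : ℝ) (hq : 8 < q) (ht : 1 / 2 < t) (ht1 : t < 1) : ∃ C : ℝ, 0 < C ∧
    ∀ (N : ℕ) (a b : Fin N → ℝ) (g : Fin N → ℝ → ℂ), Dt a b g → Xq a b g q ≤ 1 →
    ∫⁻ y : E (1 + 1), ∫⁻ z : ℝ, Sq a b g (y, z) ^ (1 + t) ≤ ENNReal.ofReal C := by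
  set ε : ℝ := (2 * t - 1) / (4 * t) with hε
  have ht0 : 0 < t := by linarith
  have hε0 : 0 < ε := div_pos (by linarith) (by linarith)
  have hε1 : ε < 1 := by
    rw [hε, div_lt_one (by linarith)]
    linarith
  obtain ⟨C0, hC0, hsup⟩ := sup_all q hq
  obtain ⟨C2, hC2, hL2⟩ := L2_all q hq
  obtain ⟨C4, hC4, hL4⟩ := L4_all q ε hq hε0 hε1
  set A : ℝ := (C2 * 2) ^ (1 - t) * C4 ^ t with hA
  have hA0 : 0 < A := by positivity
  set ρ : ℝ := (2 : ℝ) ^ (-((2 * t - 1) / 2)) with hρ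
  have hρ0 : 0 < ρ := by positivity
  have hρ1 : ρ < 1 := Real.rpow_lt_one_of_one_lt_of_neg (by norm_num) (by linarith)
  have h1ρ : 0 < 1 - ρ := by linarith
  refine ⟨C0 ^ t * C2 + A / (1 - ρ), by positivity, fun N a b g hd hX => ?_⟩
  have hSm := Sq_meas hd
  set W : E (1 + 1) → ℝ≥0∞ := fun y => ∫⁻ z : ℝ, Sq a b g (y, z) ^ (1 + t) with hW
  -- the small ball
  have hball : ∫⁻ y in closedBall (0 : E (1 + 1)) 1, W y ≤ ENNReal.ofReal (C0 ^ t * C2) := by
    calc ∫⁻ y in closedBall (0 : E (1 + 1)) 1, W y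
        ≤ ∫⁻ y in closedBall (0 : E (1 + 1)) 1, ∫⁻ z : ℝ,
            ENNReal.ofReal C0 ^ t * Sq a b g (y, z) := by
          refine lintegral_mono fun y => lintegral_mono fun z => ?_
          simp only
          rw [ENNReal.rpow_add_of_nonneg _ _ (by norm_num) ht0.le, ENNReal.rpow_one, mul_comm]
          refine mul_le_mul' (ENNReal.rpow_le_rpow (hsup N a b g hd hX _) ht0.le) le_rfl
      _ = ENNReal.ofReal C0 ^ t * ∫⁻ y in closedBall (0 : E (1 + 1)) 1, ∫⁻ z : ℝ,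
            Sq a b g (y, z) := by
          have hc : ENNReal.ofReal C0 ^ t ≠ ⊤ :=
            ENNReal.rpow_ne_top_of_nonneg ht0.le ENNReal.ofReal_ne_top
          rw [← lintegral_const_mul' _ _ hc]
          refine lintegral_congr fun y => ?_
          rw [← lintegral_const_mul' _ _ hc]
      _ ≤ ENNReal.ofReal C0 ^ t * ENNReal.ofReal (C2 * 1) := by
          gcongr
          exact hL2 N a b g hd hX 1 one_pos
      _ = _ := by
          rw [ENNReal.ofReal_rpow_of_pos hC0, ← ENNReal.ofReal_mul (by positivity), mul_one]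
  -- the shells
  have hshl : ∀ j : ℕ, ∫⁻ y in shl j, W y ≤ ENNReal.ofReal (A * ρ ^ j) := by
    intro j
    set R : ℝ := 2 ^ j with hR
    have hR1 : 1 ≤ R := one_le_pow₀ (by norm_num)
    have hR0 : 0 < R := by linarith
    set μ : Measure (E (1 + 1) × ℝ) := (volume.restrict (shl j)).prod volume with hμ
    have e1 : ∀ F : E (1 + 1) × ℝ → ℝ≥0∞, Measurable F →
        ∫⁻ y in shl j, ∫⁻ z : ℝ, F (y, z) = ∫⁻ p, F p ∂μ := by
      intro F hF
      rw [hμ, lintegral_prod _ hF.aemeasurable]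
    have h2 : ∫⁻ p, Sq a b g p ∂μ ≤ ENNReal.ofReal (C2 * 2 * R) := by
      rw [← e1 _ hSm]
      refine (lintegral_mono_set (fun y hy => ?_)).trans ((hL2 N a b g hd hX (2 * R)
        (by positivity)).trans (le_of_eq ?_))
      · rw [mem_closedBall_zero_iff]
        exact hy.2
      · congr 1
        ring
    have h4 : ∫⁻ p, Sq a b g p ^ 2 ∂μ ≤ ENNReal.ofReal (C4 * R ^ (-1 + 2 * ε)) := by
      rw [← e1 (fun p => Sq a b g p ^ 2) (hSm.pow_const 2)]
      exact hL4 N a b g hd hX R hR1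
    calc ∫⁻ y in shl j, W y = ∫⁻ p, Sq a b g p ^ (1 + t) ∂μ :=
          e1 (fun p => Sq a b g p ^ (1 + t)) (hSm.pow_const _)
      _ ≤ (∫⁻ p, Sq a b g p ∂μ) ^ (1 - t) * (∫⁻ p, Sq a b g p ^ 2 ∂μ) ^ t :=
          interp2 μ _ hSm t ht0.le ht1.le
      _ ≤ ENNReal.ofReal (C2 * 2 * R) ^ (1 - t) *
          ENNReal.ofReal (C4 * R ^ (-1 + 2 * ε)) ^ t :=
          mul_le_mul' (ENNReal.rpow_le_rpow h2 (by linarith)) (ENNReal.rpow_le_rpow h4 ht0.le)
      _ = _ := by
          rw [ENNReal.ofReal_rpow_of_pos (by positivity), ENNReal.ofReal_rpow_of_pos (by positivity),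
            ← ENNReal.ofReal_mul (by positivity)]
          congr 1
          rw [Real.mul_rpow (by positivity) hR0.le, Real.mul_rpow hC4.le (by positivity),
            ← Real.rpow_mul hR0.le, hA]
          have e2 : ρ ^ j = R ^ (1 - t) * R ^ ((-1 + 2 * ε) * t) := by
            rw [← Real.rpow_add hR0, hR, hρ, ← Real.rpow_natCast 2 j, ← Real.rpow_mul (by norm_num),
              ← Real.rpow_natCast ((2 : ℝ) ^ (-((2 * t - 1) / 2))) j, ← Real.rpow_mul (by norm_num)]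
            congr 1
            rw [hε]
            field_simp
            ring
          rw [e2]
          ring
  calc ∫⁻ y : E (1 + 1), W y = ∫⁻ y in (univ : Set (E (1 + 1))), W y := by
        rw [Measure.restrict_univ]
    _ ≤ ∫⁻ y in closedBall (0 : E (1 + 1)) 1 ∪ ⋃ j, shl j, W y := lintegral_mono_set shl_cover
    _ ≤ (∫⁻ y in closedBall (0 : E (1 + 1)) 1, W y) + ∫⁻ y in ⋃ j, shl j, W y :=
        lintegral_union_le _ _ _
    _ ≤ ENNReal.ofReal (C0 ^ t * C2) + ∑' j : ℕ, ENNReal.ofReal (A * ρ ^ j) := by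
        refine add_le_add hball ((lintegral_iUnion_le _ _).trans (ENNReal.tsum_le_tsum hshl))
    _ = _ := by
        rw [geo A ρ hA0.le hρ0.le hρ1, ← ENNReal.ofReal_add (by positivity) (by positivity)]

theorem square (p q : ℝ) (hp : 3 < p) (hq : 8 < q) : ∃ C : ℝ, 0 < C ∧
    ∀ (N : ℕ) (a b : Fin N → ℝ) (g : Fin N → ℝ → ℂ), Dt a b g → Xq a b g q ≤ 1 →
    ∫⁻ y : E (1 + 1), ∫⁻ z : ℝ, Sq a b g (y, z) ^ (p / 2) ≤ ENNReal.ofReal C := by
  set p' : ℝ := min p (7 / 2) with hp'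
  have h1 : 3 < p' := lt_min hp (by norm_num)
  have h2 : p' ≤ p := min_le_left _ _
  have h3 : p' ≤ 7 / 2 := min_le_right _ _
  set t : ℝ := p' / 2 - 1 with ht
  obtain ⟨C0, hC0, hsup⟩ := sup_all q hq
  obtain ⟨C, hC, h⟩ := square0 q t hq (by rw [ht]; linarith) (by rw [ht]; linarith)
  refine ⟨C0 ^ ((p - p') / 2) * C, by positivity, fun N a b g hd hX => ?_⟩
  have hc : ENNReal.ofReal C0 ^ ((p - p') / 2) ≠ ⊤ :=
    ENNReal.rpow_ne_top_of_nonneg (by linarith) ENNReal.ofReal_ne_top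
  calc ∫⁻ y : E (1 + 1), ∫⁻ z : ℝ, Sq a b g (y, z) ^ (p / 2)
      ≤ ∫⁻ y : E (1 + 1), ∫⁻ z : ℝ, ENNReal.ofReal C0 ^ ((p - p') / 2) *
          Sq a b g (y, z) ^ (1 + t) := by
        refine lintegral_mono fun y => lintegral_mono fun z => ?_
        simp only
        have e1 : p / 2 = (p - p') / 2 + (1 + t) := by rw [ht]; ring
        rw [e1, ENNReal.rpow_add_of_nonneg _ _ (by linarith) (by linarith)]
        exact mul_le_mul' (ENNReal.rpow_le_rpow (hsup N a b g hd hX _) (by linarith)) le_rfl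
    _ = ENNReal.ofReal C0 ^ ((p - p') / 2) * ∫⁻ y : E (1 + 1), ∫⁻ z : ℝ,
          Sq a b g (y, z) ^ (1 + t) := by
        rw [← lintegral_const_mul' _ _ hc]
        refine lintegral_congr fun y => ?_
        rw [← lintegral_const_mul' _ _ hc]
    _ ≤ ENNReal.ofReal C0 ^ ((p - p') / 2) * ENNReal.ofReal C := by
        gcongr
        exact h N a b g hd hX
    _ = _ := by
        rw [ENNReal.ofReal_rpow_of_pos hC0, ← ENNReal.ofReal_mul (by positivity)]

end Pool.Agent.V5helper17.SR
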