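import Mathlib
import Pool.Agent.V5helper17.SR.Square
set_option autoImplicit false

/-! # The estimates for one generation of short arcs -/

namespace Pool.Agent.V5helper17.SR

open MeasureTheory Set Complex Metric
open scoped ENNReal RealInnerProductSpace
open Pool.Agent.H789R2.FR (E sg T sg_finite sg_ae polar sc Ex)
open Pool.Agent.H438R2.BR (J J_mp J_inner)
open Pool.Agent.H438R2.BR.T10 (e0 e0_norm)

/-- a family of disjoint arcs of length at most `δ` with densities bounded by `M` -/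
structure Gn {N : ℕ} (a b : Fin N → ℝ) (g : Fin N → ℝ → ℂ) (M δ : ℝ) : Prop where
  dt : Dt a b g
  le : ∀ k c, ‖g k c‖ ≤ M
  len : ∀ k, b k - a k ≤ δ
  tot : ∑ k, (b k - a k) ≤ 2 * Real.pi
  dis : ∀ φ : ℝ, ∀ k l, φ ∈ Ioc (a k) (b k) → φ ∈ Ioc (a l) (b l) → k = l

variable {N : ℕ} {a b : Fin N → ℝ} {g : Fin N → ℝ → ℂ} {M δ : ℝ}

theorem Gn.Aq_le (h : Gn a b g M δ) (hM : 0 ≤ M) (φ c : ℝ) :
    Aq a b g φ c ≤ ENNReal.ofReal (M ^ 2) := by
  unfold Aq
  by_cases hex : ∃ k, φ ∈ Ioc (a k) (b k)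
  · obtain ⟨k, hk⟩ := hex
    rw [Finset.sum_eq_single k]
    · rw [indicator_of_mem hk, enorm_sq']
      exact ENNReal.ofReal_le_ofReal (pow_le_pow_left₀ (norm_nonneg _) (h.le k c) 2)
    · intro l _ hl
      apply indicator_of_notMem
      intro hl2
      exact hl (h.dis φ l k hl2 hk)
    · intro hk'
      exact absurd (Finset.mem_univ k) hk'
  · push Not at hex
    rw [Finset.sum_eq_zero fun k _ => indicator_of_notMem (hex k) _]
    exact bot_le

/-- scaling -/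
noncomputable def sgm (t : ℝ) (g : Fin N → ℝ → ℂ) (k : Fin N) (c : ℝ) : ℂ := ((t : ℝ) : ℂ) * g k c

theorem Dt.scale (h : Dt a b g) (t : ℝ) : Dt a b (sgm t g) := by
  refine ⟨h.ha, h.hab, h.hb, fun k => (h.hg k).const_mul _, fun k => ?_⟩
  obtain ⟨B, hB⟩ := h.hM k
  refine ⟨|t| * B, fun c => ?_⟩
  unfold sgm
  rw [norm_mul, Complex.norm_real, Real.norm_eq_abs]
  exact mul_le_mul_of_nonneg_left (hB c) (abs_nonneg _)

theorem Aq_scale (t : ℝ) (ht : 0 ≤ t) (φ c : ℝ) :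
    Aq a b (sgm t g) φ c = ENNReal.ofReal (t ^ 2) * Aq a b g φ c := by
  unfold Aq
  rw [Finset.mul_sum]
  refine Finset.sum_congr rfl fun k _ => ?_
  by_cases hk : φ ∈ Ioc (a k) (b k)
  · rw [indicator_of_mem hk, indicator_of_mem hk]
    unfold sgm
    rw [enorm_mul, mul_pow]
    congr 1
    rw [enorm_sq', Complex.norm_real, Real.norm_of_nonneg ht]
  · rw [indicator_of_notMem hk, indicator_of_notMem hk, mul_zero]

theorem dens_scale (t : ℝ) (k : Fin N) (w : E (1 + 1 + 1)) :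
    dens (a k) (b k) (sgm t g k) w = ((t : ℝ) : ℂ) * dens (a k) (b k) (g k) w := by
  unfold dens
  by_cases hk : Complex.arg ((w 0 : ℂ) + (w 1 : ℂ) * I) ∈ Ioc (a k) (b k)
  · rw [indicator_of_mem hk, indicator_of_mem hk]
    rfl
  · rw [indicator_of_notMem hk, indicator_of_notMem hk, mul_zero]

theorem Tk_scale (t : ℝ) (k : Fin N) (y : E (1 + 1)) (z : ℝ) :
    Tk a b (sgm t g) k y z = ((t : ℝ) : ℂ) * Tk a b g k y z := by
  unfold Tk T
  rw [← integral_const_mul]
  refine integral_congr_ae (Filter.Eventually.of_forall fun w => ?_)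
  simp only
  rw [dens_scale]
  ring

theorem Sq_scale (t : ℝ) (ht : 0 ≤ t) (p : E (1 + 1) × ℝ) :
    Sq a b (sgm t g) p = ENNReal.ofReal (t ^ 2) * Sq a b g p := by
  unfold Sq
  rw [Finset.mul_sum]
  refine Finset.sum_congr rfl fun k _ => ?_
  rw [Tk_scale, enorm_mul, mul_pow]
  congr 1
  rw [enorm_sq', Complex.norm_real, Real.norm_of_nonneg ht]

/-- the scaled family is admissible -/
theorem Gn.Xq (h : Gn a b g M δ) (hM : 0 < M) : Xq a b (sgm (1 / (2 * M)) g) 9 ≤ 1 := by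
  have hpi := Real.pi_pos
  have hpi4 : Real.pi < 4 := by linarith [Real.pi_lt_d2]
  have h1 : ∀ φ c, Aq a b (sgm (1 / (2 * M)) g) φ c ≤ ENNReal.ofReal (1 / 4) := by
    intro φ c
    rw [Aq_scale _ (by positivity)]
    refine (mul_le_mul' le_rfl (h.Aq_le hM.le φ c)).trans (le_of_eq ?_)
    rw [← ENNReal.ofReal_mul (by positivity)]
    congr 1
    field_simp
    norm_num
  unfold SR.Xq
  calc ∫⁻ φ in Ioo (-Real.pi) Real.pi, ∫⁻ c in Ioo (-1 : ℝ) 1,
        (Aq a b (sgm (1 / (2 * M)) g) φ c) ^ ((9 : ℝ) / 2)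
      ≤ ∫⁻ _ in Ioo (-Real.pi) Real.pi, ∫⁻ _ in Ioo (-1 : ℝ) 1,
          ENNReal.ofReal ((1 / 2) ^ 9) := by
        refine lintegral_mono fun φ => lintegral_mono fun c => ?_
        refine (ENNReal.rpow_le_rpow (h1 φ c) (by norm_num)).trans (le_of_eq ?_)
        rw [ENNReal.ofReal_rpow_of_pos (by norm_num)]
        congr 1
        rw [show (1 / 4 : ℝ) = (1 / 2) ^ (2 : ℝ) by norm_num, ← Real.rpow_mul (by norm_num)]
        norm_num
    _ = ENNReal.ofReal ((1 / 2) ^ 9 * 2 * (2 * Real.pi)) := by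
        rw [lintegral_const, lintegral_const, Measure.restrict_apply_univ,
          Measure.restrict_apply_univ, Real.volume_Ioo, Real.volume_Ioo,
          ← ENNReal.ofReal_mul (by norm_num), ← ENNReal.ofReal_mul (by norm_num)]
        congr 1
        ring
    _ ≤ 1 := by
        rw [← ENNReal.ofReal_one]
        apply ENNReal.ofReal_le_ofReal
        norm_num
        linarith

theorem gen_L2 : ∃ C : ℝ, 0 < C ∧ ∀ (N : ℕ) (a b : Fin N → ℝ) (g : Fin N → ℝ → ℂ) (M δ : ℝ),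
    0 < M → Gn a b g M δ → ∀ l : ℝ, 0 < l →
    ∫⁻ y in closedBall (0 : E (1 + 1)) l, ∫⁻ z : ℝ, Sq a b g (y, z) ≤
      ENNReal.ofReal (C * M ^ 2 * l) := by
  obtain ⟨C, hC, h⟩ := L2_all 9 (by norm_num)
  refine ⟨4 * C, by positivity, fun N a b g M δ hM hg l hl => ?_⟩
  have h1 := h N a b _ (hg.dt.scale (1 / (2 * M))) (hg.Xq hM) l hl
  have e1 : ∀ p, Sq a b g p = ENNReal.ofReal (4 * M ^ 2) * Sq a b (sgm (1 / (2 * M)) g) p := by
    intro p
    rw [Sq_scale _ (by positivity), ← mul_assoc, ← ENNReal.ofReal_mul (by positivity)]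
    have : 4 * M ^ 2 * (1 / (2 * M)) ^ 2 = 1 := by
      field_simp
      norm_num
    rw [this, ENNReal.ofReal_one, one_mul]
  have e2 : ∀ y : E (1 + 1), ∫⁻ z : ℝ, Sq a b g (y, z) = ENNReal.ofReal (4 * M ^ 2) *
      ∫⁻ z : ℝ, Sq a b (sgm (1 / (2 * M)) g) (y, z) := by
    intro y
    simp only [e1]
    exact lintegral_const_mul' _ _ ENNReal.ofReal_ne_top
  simp only [e2]
  rw [lintegral_const_mul' _ _ ENNReal.ofReal_ne_top]
  refine (mul_le_mul' le_rfl h1).trans (le_of_eq ?_)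
  rw [← ENNReal.ofReal_mul (by positivity)]
  congr 1
  ring

theorem gen_L4 (ε : ℝ) (hε0 : 0 < ε) (hε1 : ε < 1) : ∃ C : ℝ, 0 < C ∧
    ∀ (N : ℕ) (a b : Fin N → ℝ) (g : Fin N → ℝ → ℂ) (M δ : ℝ), 0 < M → Gn a b g M δ →
    ∀ R : ℝ, 1 ≤ R → ∫⁻ y in {y : E (1 + 1) | R ≤ ‖y‖ ∧ ‖y‖ ≤ 2 * R}, ∫⁻ z : ℝ,
      Sq a b g (y, z) ^ 2 ≤ ENNReal.ofReal (C * M ^ 4 * R ^ (-1 + 2 * ε)) := by
  obtain ⟨C, hC, h⟩ := L4_all 9 ε (by norm_num) hε0 hε1
  refine ⟨16 * C, by positivity, fun N a b g M δ hM hg R hR => ?_⟩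
  have h1 := h N a b _ (hg.dt.scale (1 / (2 * M))) (hg.Xq hM) R hR
  have e1 : ∀ p, Sq a b g p ^ 2 =
      ENNReal.ofReal (16 * M ^ 4) * Sq a b (sgm (1 / (2 * M)) g) p ^ 2 := by
    intro p
    rw [Sq_scale _ (by positivity), mul_pow, ← mul_assoc, ← ENNReal.ofReal_pow (by positivity),
      ← ENNReal.ofReal_mul (by positivity)]
    have : 16 * M ^ 4 * ((1 / (2 * M)) ^ 2) ^ 2 = 1 := by
      field_simp
      norm_num
    rw [this, ENNReal.ofReal_one, one_mul]
  have e2 : ∀ y : E (1 + 1), ∫⁻ z : ℝ, Sq a b g (y, z) ^ 2 = ENNReal.ofReal (16 * M ^ 4) *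
      ∫⁻ z : ℝ, Sq a b (sgm (1 / (2 * M)) g) (y, z) ^ 2 := by
    intro y
    simp only [e1]
    exact lintegral_const_mul' _ _ ENNReal.ofReal_ne_top
  simp only [e2]
  rw [lintegral_const_mul' _ _ ENNReal.ofReal_ne_top]
  refine (mul_le_mul' le_rfl h1).trans (le_of_eq ?_)
  rw [← ENNReal.ofReal_mul (by positivity)]
  congr 1
  ring

/-- the trivial bound for one piece -/
theorem Tk_triv (h : Gn a b g M δ) (hM : 0 ≤ M) (k : Fin N) (y : E (1 + 1)) (z : ℝ) :
    ‖Tk a b g k y z‖ₑ ≤ ENNReal.ofReal (2 * M * (b k - a k)) := by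
  have hfin := sg_finite (1 + 1 + 1)
  have hk0 : 0 ≤ b k - a k := by linarith [h.dt.hab k]
  have h1 : ‖Tk a b g k y z‖ₑ ≤ ∫⁻ w, ‖dens (a k) (b k) (g k) w‖ₑ ∂(sg (1 + 1 + 1)) := by
    unfold Tk T
    refine (enorm_integral_le_lintegral_enorm _).trans (le_of_eq ?_)
    refine lintegral_congr fun w => ?_
    rw [enorm_mul, Pool.Agent.TH335.RF.enorm_e, one_mul]
  refine h1.trans ?_
  rw [sph3 _ (dens_meas _ _ _ (h.dt.hg k)).enorm]
  calc ∫⁻ c in Ioo (-1 : ℝ) 1, ∫⁻ φ in Ioo (-Real.pi) Real.pi,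
        ‖dens (a k) (b k) (g k) (J (sc c • cs φ) (c • e0))‖ₑ
      ≤ ∫⁻ c in Ioo (-1 : ℝ) 1, ENNReal.ofReal (M * (b k - a k)) := by
        refine setLIntegral_mono' measurableSet_Ioo fun c hc => ?_
        calc ∫⁻ φ in Ioo (-Real.pi) Real.pi,
              ‖dens (a k) (b k) (g k) (J (sc c • cs φ) (c • e0))‖ₑ
            ≤ ∫⁻ φ in Ioo (-Real.pi) Real.pi,
                (Ioc (a k) (b k)).indicator (fun _ => ENNReal.ofReal M) φ := by
              refine setLIntegral_mono' measurableSet_Ioo fun φ hφ => ?_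
              rw [dens_slice _ _ _ hc (Ioo_subset_Ioc_self hφ)]
              by_cases h' : φ ∈ Ioc (a k) (b k)
              · rw [indicator_of_mem h', indicator_of_mem h', ← ofReal_norm]
                exact ENNReal.ofReal_le_ofReal (h.le k c)
              · rw [indicator_of_notMem h', indicator_of_notMem h']
                simp
          _ ≤ ∫⁻ φ, (Ioc (a k) (b k)).indicator (fun _ => ENNReal.ofReal M) φ :=
              setLIntegral_le_lintegral _ _
          _ = _ := by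
              rw [lintegral_indicator measurableSet_Ioc, lintegral_const,
                Measure.restrict_apply_univ, Real.volume_Ioc, ← ENNReal.ofReal_mul hM]
    _ = _ := by
        rw [lintegral_const, Measure.restrict_apply_univ, Real.volume_Ioo,
          ← ENNReal.ofReal_mul (mul_nonneg hM hk0)]
        congr 1
        ring

/-- the supremum bound with a gain -/
theorem gen_sup (h : Gn a b g M δ) (hM : 0 ≤ M) (hδ : 0 ≤ δ) (p : E (1 + 1) × ℝ) :
    Sq a b g p ≤ ENNReal.ofReal (8 * Real.pi * M ^ 2 * δ) := by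
  have hpi := Real.pi_pos
  have hk0 : ∀ k, 0 ≤ b k - a k := fun k => by linarith [h.dt.hab k]
  calc Sq a b g p ≤ ∑ k, ENNReal.ofReal (4 * M ^ 2 * δ * (b k - a k)) := by
        unfold Sq
        refine Finset.sum_le_sum fun k _ => ?_
        refine (pow_le_pow_left' (Tk_triv h hM k p.1 p.2) 2).trans ?_
        rw [← ENNReal.ofReal_pow (mul_nonneg (by positivity) (hk0 k))]
        apply ENNReal.ofReal_le_ofReal
        have h1 := h.len k
        have h2 := hk0 k
        calc (2 * M * (b k - a k)) ^ 2 = 4 * M ^ 2 * ((b k - a k) * (b k - a k)) := by ring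
          _ ≤ 4 * M ^ 2 * (δ * (b k - a k)) := by gcongr
          _ = _ := by ring
    _ = ENNReal.ofReal (4 * M ^ 2 * δ * ∑ k, (b k - a k)) := by
        rw [← ENNReal.ofReal_sum_of_nonneg fun k _ => mul_nonneg (by positivity) (hk0 k),
          Finset.mul_sum]
    _ ≤ _ := by
        apply ENNReal.ofReal_le_ofReal
        calc 4 * M ^ 2 * δ * ∑ k, (b k - a k) ≤ 4 * M ^ 2 * δ * (2 * Real.pi) := by
              have := h.tot
              gcongr
          _ = _ := by ring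

end Pool.Agent.V5helper17.SR
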