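import Mathlib
import Pool.Agent.V5helper17.SR.Gen
import Pool.Agent.V5helper17.SR.MartC
set_option autoImplicit false

/-! # Random families of arcs: measurability and orthogonality -/

namespace Pool.Agent.V5helper17.SR

open MeasureTheory Set Complex Metric ProbabilityTheory Filter
open scoped ENNReal RealInnerProductSpace
open Pool.Agent.H789R2.FR (E sg T sg_finite sg_ae polar sc Ex)
open Pool.Agent.H438R2.BR (J J_mp J_inner)
open Pool.Agent.H438R2.BR.T10 (e0 e0_norm)
open Pool.Agent.V5helper63.RH (BM)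

/-- orthogonality for complex random variables with vanishing conditional expectation -/
theorem orthC {Ω : Type*} {m mΩ : MeasurableSpace Ω} (hm : m ≤ mΩ) {P : Measure Ω}
    [IsProbabilityMeasure P] {D : Ω → ℂ} {Z : Ω → ℝ} (hD : Measurable D)
    (hb : ∃ c : ℝ, ∀ ω, ‖D ω‖ ≤ c) (h0 : P[D | m] =ᵐ[P] 0) (hZ : BM m Z) :
    ∫ ω, (Z ω : ℂ) * D ω ∂P = 0 := by
  obtain ⟨c, hc⟩ := hb
  have hi : Integrable D P := Integrable.of_bound hD.aestronglyMeasurable c (Eventually.of_forall hc)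
  have key : ∀ L : ℂ →L[ℝ] ℝ, (∀ z, |L z| ≤ ‖z‖) → ∫ ω, Z ω * L (D ω) ∂P = 0 := by
    intro L hL
    refine Pool.Agent.V5helper63.RH.orth_of_condExp hm
      ⟨L.continuous.measurable.comp hD, ⟨c, fun ω => (hL _).trans (hc ω)⟩⟩ ?_ hZ
    have h2 : P[fun ω => L (D ω) | m] =ᵐ[P] fun ω => L (P[D | m] ω) :=
      (L.comp_condExp_comm (m := m) hi).symm
    filter_upwards [h2, h0] with ω h3 h4
    rw [h3, h4]
    simp
  obtain ⟨d, hd⟩ := hZ.bdd
  have hZm : Measurable[mΩ] Z := hZ.meas.mono hm le_rfl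
  have hint : Integrable (fun ω => (Z ω : ℂ) * D ω) P := by
    refine Integrable.of_bound ((Complex.measurable_ofReal.comp hZm).mul
      hD).aestronglyMeasurable (d * c) (Eventually.of_forall fun ω => ?_)
    rw [norm_mul, Complex.norm_real, Real.norm_eq_abs]
    exact mul_le_mul (hd ω) (hc ω) (norm_nonneg _) ((abs_nonneg _).trans (hd ω))
  apply Complex.ext
  · have h2 := integral_re hint
    have h3 : ∫ ω, RCLike.re ((Z ω : ℂ) * D ω) ∂P = ∫ ω, Z ω * (D ω).re ∂P :=
      integral_congr_ae (Eventually.of_forall fun ω => Complex.re_ofReal_mul _ _)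
    have h4 : ∫ ω, Z ω * (D ω).re ∂P = 0 := key Complex.reCLM fun z => Complex.abs_re_le_norm z
    rw [h3, h4] at h2
    exact h2.symm
  · have h2 := integral_im hint
    have h3 : ∫ ω, RCLike.im ((Z ω : ℂ) * D ω) ∂P = ∫ ω, Z ω * (D ω).im ∂P :=
      integral_congr_ae (Eventually.of_forall fun ω => Complex.im_ofReal_mul _ _)
    have h4 : ∫ ω, Z ω * (D ω).im ∂P = 0 := key Complex.imCLM fun z => Complex.abs_im_le_norm z
    rw [h3, h4] at h2
    exact h2.symm

/-- joint measurability of the density -/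
theorem dens_joint {α : Type*} [MeasurableSpace α] (a b : ℝ) (g : α → ℝ → ℂ)
    (hg : Measurable fun q : α × ℝ => g q.1 q.2) :
    Measurable fun q : α × E (1 + 1 + 1) => dens a b (g q.1) q.2 := by
  have h1 : Measurable fun q : α × E (1 + 1 + 1) =>
      Complex.arg ((q.2 0 : ℂ) + (q.2 1 : ℂ) * I) := by
    apply Complex.measurable_arg.comp
    fun_prop
  have h2 : Measurable fun q : α × E (1 + 1 + 1) => g q.1 (q.2 2) :=
    Measurable.comp (g := fun q : α × ℝ => g q.1 q.2)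
      (f := fun q : α × E (1 + 1 + 1) => (q.1, q.2 2)) hg (by fun_prop)
  have h3 : (fun q : α × E (1 + 1 + 1) => dens a b (g q.1) q.2) =
      ((fun q : α × E (1 + 1 + 1) => Complex.arg ((q.2 0 : ℂ) + (q.2 1 : ℂ) * I)) ⁻¹'
      Ioc a b).indicator fun q => g q.1 (q.2 2) := by
    funext q
    unfold dens
    by_cases h : Complex.arg ((q.2 0 : ℂ) + (q.2 1 : ℂ) * I) ∈ Ioc a b
    · rw [indicator_of_mem h, indicator_of_mem (by exact h)]
    · rw [indicator_of_notMem h, indicator_of_notMem (by exact h)]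
  rw [h3]
  exact h2.indicator (h1 measurableSet_Ioc)

/-- joint measurability of the extension of a random density -/
theorem T_joint {α : Type*} [MeasurableSpace α] (f : α → E (1 + 1 + 1) → ℂ)
    (hf : Measurable fun q : α × E (1 + 1 + 1) => f q.1 q.2) :
    Measurable fun q : α × (E (1 + 1) × ℝ) => T (f q.1) (J q.2.1 (q.2.2 • e0)) := by
  have hfin : IsFiniteMeasure (sg (1 + 1 + 1)) := sg_finite _
  unfold T
  apply StronglyMeasurable.measurable
  apply StronglyMeasurable.integral_prod_right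
    (f := fun (q : α × (E (1 + 1) × ℝ)) (z : E (1 + 1 + 1)) =>
      Complex.exp (-((⟪J q.2.1 (q.2.2 • e0), z⟫ : ℝ) : ℂ) * I) * f q.1 z)
  apply Measurable.stronglyMeasurable
  change Measurable fun p : (α × (E (1 + 1) × ℝ)) × E (1 + 1 + 1) =>
    Complex.exp (-((⟪J p.1.2.1 (p.1.2.2 • e0), p.2⟫ : ℝ) : ℂ) * I) * f p.1.1 p.2
  have h1 : Measurable fun p : (α × (E (1 + 1) × ℝ)) × E (1 + 1 + 1) => f p.1.1 p.2 :=
    Measurable.comp (g := fun q : α × E (1 + 1 + 1) => f q.1 q.2)
      (f := fun p : (α × (E (1 + 1) × ℝ)) × E (1 + 1 + 1) => (p.1.1, p.2)) hf (by fun_prop)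
  have h0 : Measurable fun p : (α × (E (1 + 1) × ℝ)) × E (1 + 1 + 1) =>
      ((J p.1.2.1 (p.1.2.2 • e0) : E (1 + 1 + 1)), p.2) :=
    Measurable.prodMk ((Pool.Agent.V5helper17.RL.phys_meas (1 + 1)).comp
      (measurable_snd.comp measurable_fst)) measurable_snd
  have h2 : Measurable fun p : (α × (E (1 + 1) × ℝ)) × E (1 + 1 + 1) =>
      (⟪J p.1.2.1 (p.1.2.2 • e0), p.2⟫ : ℝ) :=
    (continuous_inner (𝕜 := ℝ)).measurable.comp h0
  have h3 : Measurable fun p : (α × (E (1 + 1) × ℝ)) × E (1 + 1 + 1) =>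
      Complex.exp (-((⟪J p.1.2.1 (p.1.2.2 • e0), p.2⟫ : ℝ) : ℂ) * I) :=
    Complex.measurable_exp.comp (((Complex.measurable_ofReal.comp h2).neg).mul_const I)
  exact h3.mul h1

variable {N : ℕ} {a b : Fin N → ℝ}

theorem Tk_joint {α : Type*} [MeasurableSpace α] (g : α → Fin N → ℝ → ℂ) (k : Fin N)
    (hg : Measurable fun q : α × ℝ => g q.1 k q.2) :
    Measurable fun q : α × (E (1 + 1) × ℝ) => Tk a b (g q.1) k q.2.1 q.2.2 :=
  T_joint (fun x => dens (a k) (b k) (g x k)) (dens_joint (a k) (b k) (fun x => g x k) hg)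

theorem Tk_om {α : Type*} [MeasurableSpace α] (g : α → Fin N → ℝ → ℂ) (k : Fin N)
    (hg : Measurable fun q : α × ℝ => g q.1 k q.2) (y : E (1 + 1)) (z : ℝ) :
    Measurable fun x : α => Tk a b (g x) k y z :=
  Measurable.comp (g := fun q : α × (E (1 + 1) × ℝ) => Tk a b (g q.1) k q.2.1 q.2.2)
    (f := fun x : α => (x, (y, z))) (Tk_joint g k hg)
    (Measurable.prodMk measurable_id measurable_const)

/-- null sets of heights -/
theorem height_ae {p : ℝ → Prop} (h : ∀ᵐ c : ℝ, p c) :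
    ∀ᵐ w ∂(sg (1 + 1 + 1)), p (w 2) := by
  rw [ae_iff] at h ⊢
  set S : Set ℝ := toMeasurable volume {c | ¬ p c} with hS
  have hSm : MeasurableSet S := measurableSet_toMeasurable _ _
  have hS0 : volume S = 0 := by rw [hS, measure_toMeasurable, h]
  have hsub : {w : E (1 + 1 + 1) | ¬ p (w 2)} ⊆ (fun w : E (1 + 1 + 1) => w 2) ⁻¹' S := by
    intro w hw
    exact subset_toMeasurable _ _ hw
  have hm2 : Measurable fun w : E (1 + 1 + 1) => w 2 := by fun_prop
  refine measure_mono_null hsub ?_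
  rw [← lintegral_indicator_one (hm2 hSm), sph3 _ (measurable_one.indicator (hm2 hSm))]
  have h1 : ∀ c : ℝ, ∀ φ : ℝ, ((fun w : E (1 + 1 + 1) => w 2) ⁻¹' S).indicator
      (1 : E (1 + 1 + 1) → ℝ≥0∞) (J (sc c • cs φ) (c • e0)) = S.indicator 1 c := by
    intro c φ
    have h2 : (J (sc c • cs φ) (c • e0) : E (1 + 1 + 1)) 2 = c := by
      rw [J3_two]
      simp [e0]
    by_cases hc : c ∈ S
    · rw [indicator_of_mem hc, indicator_of_mem]
      · rfl
      · change (J (sc c • cs φ) (c • e0) : E (1 + 1 + 1)) 2 ∈ S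
        rw [h2]
        exact hc
    · rw [indicator_of_notMem hc, indicator_of_notMem]
      change (J (sc c • cs φ) (c • e0) : E (1 + 1 + 1)) 2 ∉ S
      rw [h2]
      exact hc
  simp only [h1, lintegral_const]
  rw [lintegral_mul_const _ (measurable_one.indicator hSm)]
  have h3 : ∫⁻ c in Ioo (-1 : ℝ) 1, S.indicator (1 : ℝ → ℝ≥0∞) c = 0 := by
    refine le_antisymm ?_ bot_le
    refine (setLIntegral_le_lintegral _ _).trans ?_
    rw [lintegral_indicator_one hSm, hS0]
  rw [h3, zero_mul]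

end Pool.Agent.V5helper17.SR
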