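import Mathlib
import Pool.Agent.V5helper17.SR.Rn
import Pool.Agent.V5helper17.SR.Ffam
set_option autoImplicit false

/-! # Random families of arcs with fair densities -/

namespace Pool.Agent.V5helper17.SR

open MeasureTheory Set Complex Metric ProbabilityTheory Filter
open scoped ENNReal RealInnerProductSpace
open Pool.Agent.H789R2.FR (E sg T sg_finite sg_ae polar sc Ex)
open Pool.Agent.H438R2.BR (J J_mp J_inner)
open Pool.Agent.H438R2.BR.T10 (e0 e0_norm)
open Pool.Agent.V5helper63.RH (BM)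

variable {Ω : Type*} {mΩ : MeasurableSpace Ω}

/-- a random family of arcs with fair densities -/
structure Rg (P : Measure Ω) (F : Filtration ℕ mΩ) {N : ℕ} (rk : Fin N → ℕ) (a b : Fin N → ℝ)
    (g : Ω → Fin N → ℝ → ℂ) (M δ : ℝ) : Prop where
  gn : ∀ ω, Gn a b (g ω) M δ
  meas : ∀ k, Measurable[(F (rk k + 1)).prod inferInstance] fun q : Ω × ℝ => g q.1 k q.2
  fair : ∀ k, ∀ᵐ c : ℝ, P[fun ω => g ω k c | F (rk k)] =ᵐ[P] 0

variable {P : Measure Ω} [IsProbabilityMeasure P] {F : Filtration ℕ mΩ} {N : ℕ}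
  {rk : Fin N → ℕ} {a b : Fin N → ℝ} {g : Ω → Fin N → ℝ → ℂ} {M δ : ℝ}

omit [IsProbabilityMeasure P] in
theorem Rg.mM (h : Rg P F rk a b g M δ) (k : Fin N) : Measurable fun q : Ω × ℝ => g q.1 k q.2 := by
  refine (h.meas k).mono ?_ le_rfl
  exact sup_le_sup (MeasurableSpace.comap_mono (F.le _)) le_rfl

theorem Rg.orth (h : Rg P F rk a b g M δ) (k : Fin N) (y : E (1 + 1)) (z : ℝ) (Z : Ω → ℝ)
    (hZ : BM (F (rk k)) Z) : ∫ ω, (Z ω : ℂ) * Tk a b (g ω) k y z ∂P = 0 := by
  have hfin : IsFiniteMeasure (sg (1 + 1 + 1)) := sg_finite _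
  have hZm : BM mΩ Z := hZ.mono (F.le _)
  obtain ⟨d, hd⟩ := hZm.bdd
  have hg := h.mM k
  have hdm := dens_joint (a k) (b k) (fun ω => g ω k) hg
  have hem : Measurable fun w : E (1 + 1 + 1) =>
      Complex.exp (-((⟪J y (z • e0), w⟫ : ℝ) : ℂ) * I) := by
    have : Continuous fun w : E (1 + 1 + 1) =>
      Complex.exp (-((⟪J y (z • e0), w⟫ : ℝ) : ℂ) * I) := by fun_prop
    exact this.measurable
  have hjm : Measurable fun q : Ω × E (1 + 1 + 1) => (Z q.1 : ℂ) *
      (Complex.exp (-((⟪J y (z • e0), q.2⟫ : ℝ) : ℂ) * I) * dens (a k) (b k) (g q.1 k) q.2) :=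
    (Complex.measurable_ofReal.comp (hZm.meas.comp measurable_fst)).mul
      ((hem.comp measurable_snd).mul hdm)
  have hint : Integrable (fun q : Ω × E (1 + 1 + 1) => (Z q.1 : ℂ) *
      (Complex.exp (-((⟪J y (z • e0), q.2⟫ : ℝ) : ℂ) * I) * dens (a k) (b k) (g q.1 k) q.2))
      (P.prod (sg (1 + 1 + 1))) := by
    refine Integrable.of_bound hjm.aestronglyMeasurable (d * M) (Eventually.of_forall fun q => ?_)
    rw [norm_mul, norm_mul, Complex.norm_real, Real.norm_eq_abs,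
      show -((⟪J y (z • e0), q.2⟫ : ℝ) : ℂ) * I =
        ((-(⟪J y (z • e0), q.2⟫ : ℝ) : ℝ) : ℂ) * I by push_cast; ring,
      Complex.norm_exp_ofReal_mul_I, one_mul]
    exact mul_le_mul (hd _) (dens_le _ _ _ M ((h.gn q.1).le k) _) (norm_nonneg _)
      ((abs_nonneg _).trans (hd q.1))
  calc ∫ ω, (Z ω : ℂ) * Tk a b (g ω) k y z ∂P
      = ∫ ω, ∫ w, (Z ω : ℂ) * (Complex.exp (-((⟪J y (z • e0), w⟫ : ℝ) : ℂ) * I) *
          dens (a k) (b k) (g ω k) w) ∂(sg (1 + 1 + 1)) ∂P := by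
        refine integral_congr_ae (Eventually.of_forall fun ω => ?_)
        simp only
        rw [integral_const_mul]
        rfl
    _ = ∫ w, ∫ ω, (Z ω : ℂ) * (Complex.exp (-((⟪J y (z • e0), w⟫ : ℝ) : ℂ) * I) *
          dens (a k) (b k) (g ω k) w) ∂P ∂(sg (1 + 1 + 1)) := integral_integral_swap hint
    _ = ∫ _, (0 : ℂ) ∂(sg (1 + 1 + 1)) := by
        have hae := height_ae (h.fair k)
        refine integral_congr_ae ?_
        filter_upwards [hae] with w hw
        have h0 : ∫ ω, (Z ω : ℂ) * g ω k (w 2) ∂P = 0 := by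
          refine orthC (F.le (rk k)) ?_ ⟨M, fun ω => (h.gn ω).le k _⟩ hw hZ
          exact Measurable.comp (g := fun q : Ω × ℝ => g q.1 k q.2) (f := fun ω => (ω, w 2)) hg
            (measurable_id.prodMk measurable_const)
        by_cases hw' : Complex.arg ((w 0 : ℂ) + (w 1 : ℂ) * I) ∈ Ioc (a k) (b k)
        · have e1 : ∀ ω, (Z ω : ℂ) * (Complex.exp (-((⟪J y (z • e0), w⟫ : ℝ) : ℂ) * I) *
              dens (a k) (b k) (g ω k) w) = Complex.exp (-((⟪J y (z • e0), w⟫ : ℝ) : ℂ) * I) *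
                ((Z ω : ℂ) * g ω k (w 2)) := by
            intro ω
            unfold dens
            rw [indicator_of_mem hw']
            ring
          simp only [e1]
          rw [integral_const_mul, h0, mul_zero]
        · have e1 : ∀ ω, (Z ω : ℂ) * (Complex.exp (-((⟪J y (z • e0), w⟫ : ℝ) : ℂ) * I) *
              dens (a k) (b k) (g ω k) w) = 0 := by
            intro ω
            unfold dens
            rw [indicator_of_notMem hw', mul_zero, mul_zero]
          simp only [e1]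
          simp
    _ = 0 := by simp

theorem Rg.ff (h : Rg P F rk a b g M δ) (hM : 0 ≤ M) (y : E (1 + 1)) (z : ℝ) :
    Ff P F rk fun k ω => Tk a b (g ω) k y z := by
  refine ⟨fun k => ?_, fun k => ⟨2 * M * (b k - a k), fun ω => ?_⟩, fun k Z hZ => h.orth k y z Z hZ⟩
  · exact @Tk_om N a b Ω (F (rk k + 1)) g k (h.meas k) y z
  · have h1 := Tk_triv (h.gn ω) hM k y z
    rw [← ofReal_norm] at h1
    have h2 : 0 ≤ 2 * M * (b k - a k) := by
      have := (h.gn ω).dt.hab k
      exact mul_nonneg (by positivity) (by linarith)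
    exact (ENNReal.ofReal_le_ofReal_iff h2).1 h1

end Pool.Agent.V5helper17.SR
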