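import Mathlib
import Pool.Agent.V5helper17.SR.Rg
set_option autoImplicit false

/-! # The estimate for one generation of a random density -/

namespace Pool.Agent.V5helper17.SR

open MeasureTheory Set Complex Metric ProbabilityTheory Filter
open scoped ENNReal RealInnerProductSpace
open Pool.Agent.H789R2.FR (E sg T sg_finite sg_ae polar sc Ex)
open Pool.Agent.TH335.RF (geo)

/-- the bookkeeping on the shells -/
theorem book1 (t κ ε C2 C4 M δ L R : ℝ) (ht0 : 0 < t)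
    (hC2 : 0 < C2) (hC4 : 0 < C4) (hM : 0 < M) (hδ : 0 < δ) (hL : 0 < L) (hR : 0 < R) :
    (L * (C2 * M ^ 2 * (2 * R))) ^ (1 - t) * (588 * L ^ 2 *
      ((16 * Real.pi * C2 * M ^ 4 * δ * R) ^ (κ / t) *
        (C4 * M ^ 4 * R ^ (-1 + 2 * ε)) ^ (1 - κ / t))) ^ t =
    ((2 * C2) ^ (1 - t) * 588 ^ t * (16 * Real.pi * C2) ^ κ * C4 ^ (t - κ)) *
      L ^ (1 + t) * M ^ (2 + 2 * t) * δ ^ κ * R ^ (1 - 2 * t + 2 * κ + 2 * ε * (t - κ)) := by
  have hpi := Real.pi_pos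
  apply Real.log_injOn_pos (Set.mem_Ioi.2 (by positivity)) (Set.mem_Ioi.2 (by positivity))
  have l : ∀ x y : ℝ, 0 < x → 0 < y → Real.log (x * y) = Real.log x + Real.log y :=
    fun x y hx hy => Real.log_mul hx.ne' hy.ne'
  have r : ∀ x y : ℝ, 0 < x → Real.log (x ^ y) = y * Real.log x :=
    fun x y hx => Real.log_rpow hx y
  rw [l _ _ (by positivity) (by positivity), r _ _ (by positivity), r _ _ (by positivity),
    l L _ hL (by positivity), l (C2 * M ^ 2) _ (by positivity) (by positivity),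
    l C2 _ hC2 (by positivity), l 2 R (by positivity) hR,
    l (588 * L ^ 2) _ (by positivity) (by positivity), l 588 _ (by positivity) (by positivity),
    l ((16 * Real.pi * C2 * M ^ 4 * δ * R) ^ (κ / t)) _ (by positivity) (by positivity),
    r (16 * Real.pi * C2 * M ^ 4 * δ * R) _ (by positivity),
    r (C4 * M ^ 4 * R ^ (-1 + 2 * ε)) _ (by positivity),
    l (16 * Real.pi * C2 * M ^ 4 * δ) R (by positivity) hR,
    l (16 * Real.pi * C2 * M ^ 4) δ (by positivity) hδ,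
    l (16 * Real.pi * C2) (M ^ 4) (by positivity) (by positivity),
    l (C4 * M ^ 4) _ (by positivity) (by positivity), l C4 (M ^ 4) hC4 (by positivity),
    r R _ hR]
  rw [l (((2 * C2) ^ (1 - t) * 588 ^ t * (16 * Real.pi * C2) ^ κ * C4 ^ (t - κ)) *
      L ^ (1 + t) * M ^ (2 + 2 * t) * δ ^ κ) _ (by positivity) (by positivity),
    l (((2 * C2) ^ (1 - t) * 588 ^ t * (16 * Real.pi * C2) ^ κ * C4 ^ (t - κ)) *
      L ^ (1 + t) * M ^ (2 + 2 * t)) _ (by positivity) (by positivity),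
    l (((2 * C2) ^ (1 - t) * 588 ^ t * (16 * Real.pi * C2) ^ κ * C4 ^ (t - κ)) *
      L ^ (1 + t)) _ (by positivity) (by positivity),
    l ((2 * C2) ^ (1 - t) * 588 ^ t * (16 * Real.pi * C2) ^ κ * C4 ^ (t - κ)) _
      (by positivity) (by positivity),
    l ((2 * C2) ^ (1 - t) * 588 ^ t * (16 * Real.pi * C2) ^ κ) _ (by positivity) (by positivity),
    l ((2 * C2) ^ (1 - t) * 588 ^ t) _ (by positivity) (by positivity),
    l ((2 * C2) ^ (1 - t)) _ (by positivity) (by positivity),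
    r (2 * C2) _ (by positivity), r 588 _ (by norm_num), r (16 * Real.pi * C2) _ (by positivity),
    r C4 _ hC4, r L _ hL, r M _ hM, r δ _ hδ, r R _ hR, l 2 C2 (by norm_num) hC2,
    Real.log_pow, Real.log_pow, Real.log_pow]
  push_cast
  field_simp
  ring

/-- the bookkeeping on the small ball -/
theorem book2 (t κ C2 M δ L : ℝ) (hC2 : 0 < C2) (hM : 0 < M) (hδ : 0 < δ)
    (hδ2 : δ ≤ 2 * Real.pi) (hL : 0 < L) (hκ : κ < t) :
    (L * (C2 * M ^ 2)) ^ (1 - t) * (588 * L ^ 2 * (8 * Real.pi * C2 * M ^ 4 * δ)) ^ t ≤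
    (C2 ^ (1 - t) * (588 * (8 * Real.pi * C2)) ^ t * (2 * Real.pi) ^ (t - κ)) *
      L ^ (1 + t) * M ^ (2 + 2 * t) * δ ^ κ := by
  have hpi := Real.pi_pos
  have e : (L * (C2 * M ^ 2)) ^ (1 - t) * (588 * L ^ 2 * (8 * Real.pi * C2 * M ^ 4 * δ)) ^ t =
      (C2 ^ (1 - t) * (588 * (8 * Real.pi * C2)) ^ t) *
      L ^ (1 + t) * M ^ (2 + 2 * t) * δ ^ t := by
    apply Real.log_injOn_pos (Set.mem_Ioi.2 (by positivity)) (Set.mem_Ioi.2 (by positivity))
    have l : ∀ x y : ℝ, 0 < x → 0 < y → Real.log (x * y) = Real.log x + Real.log y :=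
      fun x y hx hy => Real.log_mul hx.ne' hy.ne'
    have r : ∀ x y : ℝ, 0 < x → Real.log (x ^ y) = y * Real.log x :=
      fun x y hx => Real.log_rpow hx y
    rw [l _ _ (by positivity) (by positivity), r _ _ (by positivity), r _ _ (by positivity),
      l L _ hL (by positivity), l C2 _ hC2 (by positivity),
      l (588 * L ^ 2) _ (by positivity) (by positivity), l 588 _ (by positivity) (by positivity),
      l (8 * Real.pi * C2 * M ^ 4) δ (by positivity) hδ,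
      l (8 * Real.pi * C2) (M ^ 4) (by positivity) (by positivity)]
    rw [l (C2 ^ (1 - t) * (588 * (8 * Real.pi * C2)) ^ t * L ^ (1 + t) * M ^ (2 + 2 * t)) _
        (by positivity) (by positivity),
      l (C2 ^ (1 - t) * (588 * (8 * Real.pi * C2)) ^ t * L ^ (1 + t)) _
        (by positivity) (by positivity),
      l (C2 ^ (1 - t) * (588 * (8 * Real.pi * C2)) ^ t) _ (by positivity) (by positivity),
      l (C2 ^ (1 - t)) _ (by positivity) (by positivity),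
      r C2 _ hC2, r (588 * (8 * Real.pi * C2)) _ (by positivity), r L _ hL, r M _ hM, r δ _ hδ,
      l 588 _ (by norm_num) (by positivity), Real.log_pow, Real.log_pow, Real.log_pow]
    push_cast
    try ring
  rw [e]
  have h1 : δ ^ t ≤ (2 * Real.pi) ^ (t - κ) * δ ^ κ := by
    have h2 : δ ^ t = δ ^ (t - κ) * δ ^ κ := by
      rw [← Real.rpow_add hδ]
      congr 1
      ring
    rw [h2]
    gcongr
  calc (C2 ^ (1 - t) * (588 * (8 * Real.pi * C2)) ^ t) * L ^ (1 + t) * M ^ (2 + 2 * t) * δ ^ t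
      ≤ (C2 ^ (1 - t) * (588 * (8 * Real.pi * C2)) ^ t) * L ^ (1 + t) * M ^ (2 + 2 * t) *
        ((2 * Real.pi) ^ (t - κ) * δ ^ κ) := by gcongr
    _ = _ := by ring

/-- cylinders over a set -/
noncomputable def cyl (B : Set (E (1 + 1))) : Measure (E (1 + 1) × ℝ) :=
  (volume.restrict B).prod volume

instance (B : Set (E (1 + 1))) : SFinite (cyl B) := by
  unfold cyl
  infer_instance

theorem cyl_eq (B : Set (E (1 + 1))) (F : E (1 + 1) × ℝ → ℝ≥0∞) (hF : Measurable F) :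
    ∫⁻ p, F p ∂(cyl B) = ∫⁻ y in B, ∫⁻ z : ℝ, F (y, z) := by
  unfold cyl
  rw [lintegral_prod _ hF.aemeasurable]

theorem cover_int (F : E (1 + 1) × ℝ → ℝ≥0∞) (hF : Measurable F) :
    ∫⁻ y : E (1 + 1), ∫⁻ z : ℝ, F (y, z) ≤ (∫⁻ p, F p ∂(cyl (closedBall 0 1))) +
      ∑' j, ∫⁻ p, F p ∂(cyl (shl j)) := by
  simp only [cyl_eq _ F hF]
  set W : E (1 + 1) → ℝ≥0∞ := fun y => ∫⁻ z : ℝ, F (y, z) with hW
  calc ∫⁻ y : E (1 + 1), W y = ∫⁻ y in (univ : Set (E (1 + 1))), W y := by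
        rw [Measure.restrict_univ]
    _ ≤ ∫⁻ y in closedBall (0 : E (1 + 1)) 1 ∪ ⋃ j, shl j, W y := lintegral_mono_set shl_cover
    _ ≤ (∫⁻ y in closedBall (0 : E (1 + 1)) 1, W y) + ∫⁻ y in ⋃ j, shl j, W y :=
        lintegral_union_le _ _ _
    _ ≤ _ := add_le_add le_rfl (lintegral_iUnion_le _ _)

theorem min_interp (x a b : ℝ≥0∞) (h1 : x ≤ a) (h2 : x ≤ b) (s : ℝ) (hs0 : 0 ≤ s) (hs1 : s ≤ 1) :
    x ≤ a ^ s * b ^ (1 - s) := by
  calc x = x ^ s * x ^ (1 - s) := by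
        rw [← ENNReal.rpow_add_of_nonneg _ _ hs0 (by linarith)]
        simp
    _ ≤ _ := mul_le_mul' (ENNReal.rpow_le_rpow h1 hs0) (ENNReal.rpow_le_rpow h2 (by linarith))

/-- the supremum bound gives a bound for the fourth power -/
theorem Sq2_triv {N : ℕ} {a b : Fin N → ℝ} {g : Fin N → ℝ → ℂ} {M δ C2 : ℝ}
    (hg : Gn a b g M δ) (hM : 0 < M) (hδ : 0 < δ) (hC2 : 0 < C2) (B : Set (E (1 + 1))) (l : ℝ)
    (hl : 0 < l) (hB : B ⊆ closedBall 0 l)
    (h : ∫⁻ y in closedBall (0 : E (1 + 1)) l, ∫⁻ z : ℝ, Sq a b g (y, z) ≤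
      ENNReal.ofReal (C2 * M ^ 2 * l)) :
    ∫⁻ p, Sq a b g p ^ 2 ∂(cyl B) ≤ ENNReal.ofReal (8 * Real.pi * C2 * M ^ 4 * δ * l) := by
  have hpi := Real.pi_pos
  rw [cyl_eq _ (fun p => Sq a b g p ^ 2) ((Sq_meas hg.dt).pow_const 2)]
  calc ∫⁻ y in B, ∫⁻ z : ℝ, Sq a b g (y, z) ^ 2
      ≤ ∫⁻ y in closedBall (0 : E (1 + 1)) l, ∫⁻ z : ℝ,
          ENNReal.ofReal (8 * Real.pi * M ^ 2 * δ) * Sq a b g (y, z) := by
        refine (lintegral_mono_set hB).trans ?_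
        refine lintegral_mono fun y => lintegral_mono fun z => ?_
        simp only
        rw [sq]
        exact mul_le_mul' (gen_sup hg hM.le hδ.le _) le_rfl
    _ = ENNReal.ofReal (8 * Real.pi * M ^ 2 * δ) *
          ∫⁻ y in closedBall (0 : E (1 + 1)) l, ∫⁻ z : ℝ, Sq a b g (y, z) := by
        rw [← lintegral_const_mul' _ _ ENNReal.ofReal_ne_top]
        refine lintegral_congr fun y => ?_
        rw [← lintegral_const_mul' _ _ ENNReal.ofReal_ne_top]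
    _ ≤ ENNReal.ofReal (8 * Real.pi * M ^ 2 * δ) * ENNReal.ofReal (C2 * M ^ 2 * l) := by
        gcongr
    _ = _ := by
        rw [← ENNReal.ofReal_mul (by positivity)]
        congr 1
        ring

section

variable {Ω : Type*} {mΩ : MeasurableSpace Ω} {P : Measure Ω} [IsProbabilityMeasure P]
  {F : Filtration ℕ mΩ} {N : ℕ} {rk : Fin N → ℕ} {a b : Fin N → ℝ} {g : Ω → Fin N → ℝ → ℂ}
  {M δ : ℝ}

/-- the power of the sum of all pieces -/
noncomputable def Pw (a b : Fin N → ℝ) (g : Fin N → ℝ → ℂ) (t : ℝ) (p : E (1 + 1) × ℝ) : ℝ≥0∞ :=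
  ‖∑ k, Tk a b g k p.1 p.2‖ₑ ^ (2 + 2 * t)

omit [IsProbabilityMeasure P] in
theorem Rg.sum_meas (hg : Rg P F rk a b g M δ) :
    Measurable fun q : Ω × (E (1 + 1) × ℝ) => ∑ k, Tk a b (g q.1) k q.2.1 q.2.2 :=
  Finset.measurable_fun_sum _ fun k _ => Tk_joint g k (hg.mM k)

omit [IsProbabilityMeasure P] in
theorem Rg.Pw_meas (hg : Rg P F rk a b g M δ) (t : ℝ) :
    Measurable fun q : Ω × (E (1 + 1) × ℝ) => Pw a b (g q.1) t q.2 :=
  hg.sum_meas.enorm.pow_const _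

/-- the interpolated bound on a cylinder -/
theorem gen_cyl (hg : Rg P F rk a b g M δ) (hM : 0 < M) (L : ℕ)
    (hLc : ∀ n, (Finset.univ.filter fun k => rk k = n).card ≤ L) (t : ℝ) (ht0 : 0 ≤ t)
    (ht1 : t ≤ 1) (B : Set (E (1 + 1))) (A2 A4 : ℝ≥0∞)
    (h2 : ∀ ω, ∫⁻ y in B, ∫⁻ z : ℝ, Sq a b (g ω) (y, z) ≤ A2)
    (h4 : ∀ ω, ∫⁻ p, Sq a b (g ω) p ^ 2 ∂(cyl B) ≤ A4) :
    ∫⁻ ω, ∫⁻ p, Pw a b (g ω) t p ∂(cyl B) ∂P ≤
      (L * A2) ^ (1 - t) * (ENNReal.ofReal 588 * (L : ℝ≥0∞) ^ 2 * A4) ^ t := by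
  refine fair_interp (P := P) (F := F) (rk := rk) (cyl B)
    (fun k ω p => Tk a b (g ω) k p.1 p.2) (fun k => Tk_joint g k (hg.mM k)) L hLc
    (fun p => hg.ff hM.le p.1 p.2) t ht0 ht1 _ _ (fun ω => ?_) h4
  exact le_trans (le_of_eq (cyl_eq B (Sq a b (g ω)) (Sq_meas (hg.gn ω).dt))) (h2 ω)

end

theorem gen_est (t κ : ℝ) (ht1 : t < 1) (hκ0 : 0 ≤ κ) (hκ : κ < t - 1 / 2) :
    ∃ C : ℝ, 0 < C ∧ ∀ {Ω : Type*} {mΩ : MeasurableSpace Ω} (P : Measure Ω)
    [IsProbabilityMeasure P] (F : Filtration ℕ mΩ) (N : ℕ) (rk : Fin N → ℕ) (a b : Fin N → ℝ)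
    (g : Ω → Fin N → ℝ → ℂ) (M δ : ℝ) (L : ℕ), 0 < M → 0 < δ → δ ≤ 2 * Real.pi → 1 ≤ L →
    (∀ n, (Finset.univ.filter fun k => rk k = n).card ≤ L) → Rg P F rk a b g M δ →
    ∫⁻ ω, (∫⁻ y : E (1 + 1), ∫⁻ z : ℝ, Pw a b (g ω) t (y, z)) ∂P ≤
      ENNReal.ofReal (C * (L : ℝ) ^ (1 + t) * M ^ (2 + 2 * t) * δ ^ κ) := by
  have hpi := Real.pi_pos
  have ht0 : 0 < t := by linarith
  have htκ : κ < t := by linarith
  set ε : ℝ := (2 * t - 1 - 2 * κ) / (4 * (t - κ)) with hε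
  have hε0 : 0 < ε := div_pos (by linarith) (by linarith)
  have hε1 : ε < 1 := by
    rw [hε, div_lt_one (by linarith)]
    linarith
  obtain ⟨C2, hC2, hL2⟩ := gen_L2
  obtain ⟨C4, hC4, hL4⟩ := gen_L4 ε hε0 hε1
  set s : ℝ := (2 * t - 1 - 2 * κ) / 2 with hs
  have hs0 : 0 < s := by rw [hs]; linarith
  have hes : 1 - 2 * t + 2 * κ + 2 * ε * (t - κ) = -s := by
    have h3 : t - κ ≠ 0 := by linarith
    rw [hε, hs]
    field_simp
    ring
  set ρ : ℝ := (2 : ℝ) ^ (-s) with hρ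
  have hρ0 : 0 < ρ := by positivity
  have hρ1 : ρ < 1 := Real.rpow_lt_one_of_one_lt_of_neg (by norm_num) (by linarith)
  have h1ρ : 0 < 1 - ρ := by linarith
  set K1 : ℝ := (2 * C2) ^ (1 - t) * 588 ^ t * (16 * Real.pi * C2) ^ κ * C4 ^ (t - κ) with hK1
  set K2 : ℝ := C2 ^ (1 - t) * (588 * (8 * Real.pi * C2)) ^ t * (2 * Real.pi) ^ (t - κ) with hK2
  have hK10 : 0 < K1 := by positivity
  have hK20 : 0 < K2 := by positivity
  refine ⟨K2 + K1 / (1 - ρ), by positivity,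
    fun {Ω} {mΩ} P hP F N rk a b g M δ L hM hδ hδ2 hL1 hLc hg => ?_⟩
  have hL0 : (0 : ℝ) < L := by exact_mod_cast hL1
  -- the small ball
  have hball : ∫⁻ ω, ∫⁻ p, Pw a b (g ω) t p ∂(cyl (closedBall 0 1)) ∂P ≤
      ENNReal.ofReal (K2 * (L : ℝ) ^ (1 + t) * M ^ (2 + 2 * t) * δ ^ κ) := by
    refine (gen_cyl hg hM L hLc t ht0.le ht1.le (closedBall 0 1)
      (ENNReal.ofReal (C2 * M ^ 2 * 1)) (ENNReal.ofReal (8 * Real.pi * C2 * M ^ 4 * δ * 1))
      (fun ω => hL2 N a b (g ω) M δ hM (hg.gn ω) 1 one_pos)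
      (fun ω => Sq2_triv (hg.gn ω) hM hδ hC2 _ 1 one_pos le_rfl
        (hL2 N a b (g ω) M δ hM (hg.gn ω) 1 one_pos))).trans ?_
    rw [← ENNReal.ofReal_natCast L, ← ENNReal.ofReal_pow hL0.le,
      ← ENNReal.ofReal_mul (by positivity), ← ENNReal.ofReal_mul (by positivity),
      ← ENNReal.ofReal_mul (by positivity),
      ENNReal.ofReal_rpow_of_pos (by positivity), ENNReal.ofReal_rpow_of_pos (by positivity),
      ← ENNReal.ofReal_mul (by positivity), mul_one, mul_one]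
    exact ENNReal.ofReal_le_ofReal (book2 t κ C2 M δ L hC2 hM hδ hδ2 hL0 htκ)
  -- the shells
  have hshl : ∀ j : ℕ, ∫⁻ ω, ∫⁻ p, Pw a b (g ω) t p ∂(cyl (shl j)) ∂P ≤
      ENNReal.ofReal ((K1 * (L : ℝ) ^ (1 + t) * M ^ (2 + 2 * t) * δ ^ κ) * ρ ^ j) := by
    intro j
    set R : ℝ := 2 ^ j with hR
    have hR1 : 1 ≤ R := one_le_pow₀ (by norm_num)
    have hR0 : 0 < R := by linarith
    have hsub : shl j ⊆ closedBall (0 : E (1 + 1)) (2 * R) := by
      intro y hy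
      rw [mem_closedBall_zero_iff]
      exact hy.2
    have hX2 : ∀ ω, ∫⁻ y in closedBall (0 : E (1 + 1)) (2 * R), ∫⁻ z : ℝ,
        Sq a b (g ω) (y, z) ≤ ENNReal.ofReal (C2 * M ^ 2 * (2 * R)) := fun ω =>
      hL2 N a b (g ω) M δ hM (hg.gn ω) (2 * R) (by positivity)
    refine (gen_cyl hg hM L hLc t ht0.le ht1.le (shl j)
      (ENNReal.ofReal (C2 * M ^ 2 * (2 * R))) (ENNReal.ofReal
      ((16 * Real.pi * C2 * M ^ 4 * δ * R) ^ (κ / t) *
        (C4 * M ^ 4 * R ^ (-1 + 2 * ε)) ^ (1 - κ / t)))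
      (fun ω => (lintegral_mono_set hsub).trans (hX2 ω)) (fun ω => ?_)).trans ?_
    · rw [ENNReal.ofReal_mul (by positivity), ← ENNReal.ofReal_rpow_of_pos (by positivity),
        ← ENNReal.ofReal_rpow_of_pos (by positivity)]
      refine min_interp _ _ _ ?_ ?_ _ (by positivity) (by rw [div_le_one ht0]; exact htκ.le)
      · refine (Sq2_triv (hg.gn ω) hM hδ hC2 _ (2 * R) (by positivity) hsub (hX2 ω)).trans
          (le_of_eq ?_)
        congr 1
        ring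
      · rw [cyl_eq _ (fun p => Sq a b (g ω) p ^ 2) ((Sq_meas (hg.gn ω).dt).pow_const 2)]
        exact hL4 N a b (g ω) M δ hM (hg.gn ω) R hR1
    · rw [← ENNReal.ofReal_natCast L, ← ENNReal.ofReal_pow hL0.le,
        ← ENNReal.ofReal_mul (by positivity), ← ENNReal.ofReal_mul (by positivity),
        ← ENNReal.ofReal_mul (by positivity),
        ENNReal.ofReal_rpow_of_pos (by positivity), ENNReal.ofReal_rpow_of_pos (by positivity),
        ← ENNReal.ofReal_mul (by positivity),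
        book1 t κ ε C2 C4 M δ L R ht0 hC2 hC4 hM hδ hL0 hR0, hes]
      have e2 : R ^ (-s) = ρ ^ j := by
        rw [hR, hρ, ← Real.rpow_natCast 2 j, ← Real.rpow_mul (by norm_num),
          ← Real.rpow_natCast ((2 : ℝ) ^ (-s)) j, ← Real.rpow_mul (by norm_num)]
        congr 1
        ring
      rw [e2]
  have hmF := hg.Pw_meas t
  have hmc : ∀ B : Set (E (1 + 1)), Measurable fun ω => ∫⁻ p, Pw a b (g ω) t p ∂(cyl B) :=
    fun B => Measurable.lintegral_prod_right'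
      (f := fun q : Ω × (E (1 + 1) × ℝ) => Pw a b (g q.1) t q.2) hmF
  have hmω : ∀ ω, Measurable (Pw a b (g ω) t) := fun ω => Measurable.comp
      (g := fun q : Ω × (E (1 + 1) × ℝ) => Pw a b (g q.1) t q.2)
      (f := fun p : E (1 + 1) × ℝ => (ω, p)) hmF measurable_prodMk_left
  calc ∫⁻ ω, (∫⁻ y : E (1 + 1), ∫⁻ z : ℝ, Pw a b (g ω) t (y, z)) ∂P
      ≤ ∫⁻ ω, ((∫⁻ p, Pw a b (g ω) t p ∂(cyl (closedBall 0 1))) +
          ∑' j, ∫⁻ p, Pw a b (g ω) t p ∂(cyl (shl j))) ∂P :=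
        lintegral_mono fun ω => cover_int _ (hmω ω)
    _ = (∫⁻ ω, ∫⁻ p, Pw a b (g ω) t p ∂(cyl (closedBall 0 1)) ∂P) +
          ∑' j, ∫⁻ ω, ∫⁻ p, Pw a b (g ω) t p ∂(cyl (shl j)) ∂P := by
        rw [lintegral_add_left (hmc _), lintegral_tsum fun j => (hmc _).aemeasurable]
    _ ≤ ENNReal.ofReal (K2 * (L : ℝ) ^ (1 + t) * M ^ (2 + 2 * t) * δ ^ κ) +
          ∑' j : ℕ, ENNReal.ofReal ((K1 * (L : ℝ) ^ (1 + t) * M ^ (2 + 2 * t) * δ ^ κ) * ρ ^ j) :=
        add_le_add hball (ENNReal.tsum_le_tsum hshl)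
    _ = _ := by
        rw [geo _ ρ (by positivity) hρ0.le hρ1, ← ENNReal.ofReal_add (by positivity) (by positivity)]
        congr 1
        ring

end Pool.Agent.V5helper17.SR
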