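import Mathlib
import Pool.Agent.V5helper17.SR.Rest
set_option autoImplicit false

/-! # One generation of a random density: all exponents -/

namespace Pool.Agent.V5helper17.SR

open MeasureTheory Set Complex Metric ProbabilityTheory Filter
open scoped ENNReal RealInnerProductSpace
open Pool.Agent.H789R2.FR (E sg T sg_finite sg_ae polar sc Ex)
open Pool.Agent.H438R2.BR (J J_mp J_inner)
open Pool.Agent.H438R2.BR.T10 (e0 e0_norm)

theorem sum_triv {N : ℕ} {a b : Fin N → ℝ} {g : Fin N → ℝ → ℂ} {M δ : ℝ} (hg : Gn a b g M δ)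
    (hM : 0 ≤ M) (p : E (1 + 1) × ℝ) :
    ‖∑ k, Tk a b g k p.1 p.2‖ₑ ≤ ENNReal.ofReal (4 * Real.pi * M) := by
  have hk0 : ∀ k, 0 ≤ b k - a k := fun k => by linarith [hg.dt.hab k]
  calc ‖∑ k, Tk a b g k p.1 p.2‖ₑ ≤ ∑ k, ‖Tk a b g k p.1 p.2‖ₑ := enorm_sum_le _ _
    _ ≤ ∑ k, ENNReal.ofReal (2 * M * (b k - a k)) :=
        Finset.sum_le_sum fun k _ => Tk_triv hg hM k _ _
    _ = ENNReal.ofReal (2 * M * ∑ k, (b k - a k)) := by
        rw [← ENNReal.ofReal_sum_of_nonneg fun k _ => mul_nonneg (by positivity) (hk0 k),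
          Finset.mul_sum]
    _ ≤ _ := by
        apply ENNReal.ofReal_le_ofReal
        have := hg.tot
        calc 2 * M * ∑ k, (b k - a k) ≤ 2 * M * (2 * Real.pi) := by gcongr
          _ = _ := by ring

theorem gen_p (p t κ : ℝ) (ht1 : t < 1) (hκ0 : 0 ≤ κ) (hκ : κ < t - 1 / 2)
    (hp : 2 + 2 * t ≤ p) :
    ∃ C : ℝ, 0 < C ∧ ∀ {Ω : Type*} {mΩ : MeasurableSpace Ω} (P : Measure Ω)
    [IsProbabilityMeasure P] (F : Filtration ℕ mΩ) (N : ℕ) (rk : Fin N → ℕ) (a b : Fin N → ℝ)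
    (g : Ω → Fin N → ℝ → ℂ) (M δ : ℝ) (L : ℕ), 0 < M → 0 < δ → δ ≤ 2 * Real.pi → 1 ≤ L →
    (∀ n, (Finset.univ.filter fun k => rk k = n).card ≤ L) → Rg P F rk a b g M δ →
    ∫⁻ ω, (∫⁻ y : E (1 + 1), ∫⁻ z : ℝ, ‖∑ k, Tk a b (g ω) k y z‖ₑ ^ p) ∂P ≤
      ENNReal.ofReal (C * (L : ℝ) ^ (1 + t) * M ^ p * δ ^ κ) := by
  have hpi := Real.pi_pos
  obtain ⟨C, hC, h⟩ := gen_est t κ ht1 hκ0 hκ
  set s : ℝ := p - (2 + 2 * t) with hs
  have hs0 : 0 ≤ s := by rw [hs]; linarith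
  refine ⟨(4 * Real.pi) ^ s * C, by positivity,
    fun {Ω} {mΩ} P hP F N rk a b g M δ L hM hδ hδ2 hL1 hLc hg => ?_⟩
  have hL0 : (0 : ℝ) < L := by exact_mod_cast hL1
  have h1 := h P F N rk a b g M δ L hM hδ hδ2 hL1 hLc hg
  have hc : ENNReal.ofReal (4 * Real.pi * M) ^ s ≠ ⊤ :=
    ENNReal.rpow_ne_top_of_nonneg hs0 ENNReal.ofReal_ne_top
  have e1 : ∀ ω, ∀ y z, ‖∑ k, Tk a b (g ω) k y z‖ₑ ^ p ≤
      ENNReal.ofReal (4 * Real.pi * M) ^ s * Pw a b (g ω) t (y, z) := by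
    intro ω y z
    have e2 : p = s + (2 + 2 * t) := by rw [hs]; ring
    have e3 := sum_triv (hg.gn ω) hM.le (y, z)
    unfold Pw
    nth_rewrite 1 [e2]
    rw [ENNReal.rpow_add_of_nonneg _ _ hs0 (by linarith)]
    exact mul_le_mul' (ENNReal.rpow_le_rpow e3 hs0) le_rfl
  calc ∫⁻ ω, (∫⁻ y : E (1 + 1), ∫⁻ z : ℝ, ‖∑ k, Tk a b (g ω) k y z‖ₑ ^ p) ∂P
      ≤ ∫⁻ ω, (∫⁻ y : E (1 + 1), ∫⁻ z : ℝ,
          ENNReal.ofReal (4 * Real.pi * M) ^ s * Pw a b (g ω) t (y, z)) ∂P :=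
        lintegral_mono fun ω => lintegral_mono fun y => lintegral_mono fun z => e1 ω y z
    _ = ENNReal.ofReal (4 * Real.pi * M) ^ s *
        ∫⁻ ω, (∫⁻ y : E (1 + 1), ∫⁻ z : ℝ, Pw a b (g ω) t (y, z)) ∂P := by
        rw [← lintegral_const_mul' _ _ hc]
        refine lintegral_congr fun ω => ?_
        rw [← lintegral_const_mul' _ _ hc]
        refine lintegral_congr fun y => ?_
        rw [← lintegral_const_mul' _ _ hc]
    _ ≤ ENNReal.ofReal (4 * Real.pi * M) ^ s *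
        ENNReal.ofReal (C * (L : ℝ) ^ (1 + t) * M ^ (2 + 2 * t) * δ ^ κ) := by gcongr
    _ = _ := by
        rw [ENNReal.ofReal_rpow_of_pos (by positivity), ← ENNReal.ofReal_mul (by positivity)]
        congr 1
        rw [Real.mul_rpow (by positivity) hM.le]
        have e2 : M ^ p = M ^ s * M ^ (2 + 2 * t) := by
          rw [← Real.rpow_add hM]
          congr 1
          rw [hs]
          ring
        rw [e2]
        ring

/-- one arc -/
theorem gen_mean (p : ℝ) (hp : 3 < p) : ∃ C : ℝ, 0 < C ∧ ∀ (g : ℝ → ℂ) (M : ℝ), 0 < M →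
    Measurable g → (∀ c, ‖g c‖ ≤ M) →
    ∫⁻ y : E (1 + 1), ∫⁻ z : ℝ, ‖T (dens (-Real.pi) Real.pi g) (J y (z • e0))‖ₑ ^ p ≤
      ENNReal.ofReal (C * M ^ p) := by
  have hpi := Real.pi_pos
  obtain ⟨C, hC, h⟩ := square p 9 hp (by norm_num)
  refine ⟨2 ^ p * C, by positivity, fun g M hM hg hgM => ?_⟩
  set a : Fin 1 → ℝ := fun _ => -Real.pi with ha
  set b : Fin 1 → ℝ := fun _ => Real.pi with hb
  set g1 : Fin 1 → ℝ → ℂ := fun _ => g with hg1
  have hG : Gn a b g1 M (2 * Real.pi) := by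
    refine ⟨⟨fun _ => le_rfl, fun _ => ?_, fun _ => le_rfl, fun _ => hg, fun _ => ⟨M, hgM⟩⟩,
      fun _ => hgM, fun _ => ?_, ?_, fun φ k l _ _ => Subsingleton.elim k l⟩
    · rw [ha, hb]; simp only; linarith
    · rw [ha, hb]; simp only; linarith
    · rw [ha, hb]
      simp only [Finset.sum_const, Finset.card_univ, Fintype.card_fin, one_smul]
      linarith
  have h1 := h 1 a b _ (hG.dt.scale (1 / (2 * M))) (hG.Xq hM)
  have e1 : ∀ y z, ‖T (dens (-Real.pi) Real.pi g) (J y (z • e0))‖ₑ ^ p =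
      ENNReal.ofReal ((2 * M) ^ p) * Sq a b (sgm (1 / (2 * M)) g1) (y, z) ^ (p / 2) := by
    intro y z
    have e2 : Sq a b g1 (y, z) = ‖T (dens (-Real.pi) Real.pi g) (J y (z • e0))‖ₑ ^ 2 := by
      unfold Sq
      simp only [Fin.sum_univ_one]
      rfl
    rw [Sq_scale _ (by positivity), ENNReal.mul_rpow_of_nonneg _ _ (by linarith), e2,
      ← ENNReal.rpow_natCast, ← ENNReal.rpow_mul, ENNReal.ofReal_rpow_of_pos (by positivity),
      ← mul_assoc, ← ENNReal.ofReal_mul (by positivity)]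
    have e3 : (2 * M) ^ p * ((1 / (2 * M)) ^ 2) ^ (p / 2) = 1 := by
      have e4 : ((2 : ℕ) : ℝ) * (p / 2) = p := by push_cast; ring
      rw [← Real.rpow_natCast (1 / (2 * M)) 2, ← Real.rpow_mul (by positivity), e4,
        ← Real.mul_rpow (by positivity) (by positivity),
        mul_one_div_cancel (by positivity), Real.one_rpow]
    rw [e3, ENNReal.ofReal_one, one_mul]
    congr 1
    push_cast
    ring
  simp only [e1]
  have e5 : ∀ y : E (1 + 1), ∫⁻ z : ℝ, ENNReal.ofReal ((2 * M) ^ p) *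
      Sq a b (sgm (1 / (2 * M)) g1) (y, z) ^ (p / 2) = ENNReal.ofReal ((2 * M) ^ p) *
      ∫⁻ z : ℝ, Sq a b (sgm (1 / (2 * M)) g1) (y, z) ^ (p / 2) := fun y =>
    lintegral_const_mul' _ _ ENNReal.ofReal_ne_top
  simp only [e5]
  rw [lintegral_const_mul' _ _ ENNReal.ofReal_ne_top]
  refine (mul_le_mul' le_rfl h1).trans (le_of_eq ?_)
  rw [← ENNReal.ofReal_mul (by positivity), Real.mul_rpow (by norm_num) hM.le]
  congr 1
  ring

end Pool.Agent.V5helper17.SR
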