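import Mathlib
import Pool.Agent.V5helper17.SR.Rest2
import Pool.Agent.V5helper17.SR.Dy
set_option autoImplicit false

/-! # Dyadic decomposition of a density along the latitude circles -/

namespace Pool.Agent.V5helper17.SR

open MeasureTheory Set Complex Metric ProbabilityTheory Filter Topology
open scoped ENNReal RealInnerProductSpace
open Pool.Agent.H789R2.FR (E sg T sg_finite sg_ae polar sc Ex)
open Pool.Agent.H438R2.BR (J J_mp J_inner)
open Pool.Agent.H438R2.BR.T10 (e0 e0_norm)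
open Pool.Agent.TH335.RF (sc_pos sc_le sc_meas')

/-- the point with height `c` and longitude `φ` -/
noncomputable def Pt (c φ : ℝ) : E (1 + 1 + 1) := J (sc c • cs φ) (c • e0)

theorem Pt_meas : Measurable fun q : ℝ × ℝ => Pt q.1 q.2 := by
  unfold Pt
  have hJ : Measurable fun p : E (1 + 1) × E 1 => J p.1 p.2 := (J_mp (1 + 1) 1).measurable
  exact hJ.comp (Measurable.prodMk ((sc_meas'.comp measurable_fst).smul
    (cs_meas.comp measurable_snd)) (measurable_fst.smul_const _))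

/-- the measure `dc dφ` -/
noncomputable def m0 : Measure (ℝ × ℝ) :=
  (volume.restrict (Ioo (-1 : ℝ) 1)).prod (volume.restrict (Ioc (-Real.pi) Real.pi))

instance : IsFiniteMeasure m0 := by
  unfold m0
  have h1 : IsFiniteMeasure (volume.restrict (Ioo (-1 : ℝ) 1)) :=
    ⟨by rw [Measure.restrict_apply_univ, Real.volume_Ioo]; exact ENNReal.ofReal_lt_top⟩
  have h2 : IsFiniteMeasure (volume.restrict (Ioc (-Real.pi) Real.pi)) :=
    ⟨by rw [Measure.restrict_apply_univ, Real.volume_Ioc]; exact ENNReal.ofReal_lt_top⟩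
  infer_instance

theorem sg_map : sg (1 + 1 + 1) = Measure.map (fun q : ℝ × ℝ => Pt q.1 q.2) m0 := by
  ext S hS
  rw [← lintegral_indicator_one hS, ← lintegral_indicator_one hS,
    lintegral_map (measurable_one.indicator hS) Pt_meas, sph3 _ (measurable_one.indicator hS)]
  unfold m0
  have hm : Measurable fun q : ℝ × ℝ => S.indicator (1 : E (1 + 1 + 1) → ℝ≥0∞) (Pt q.1 q.2) :=
    (measurable_one.indicator hS).comp Pt_meas
  rw [lintegral_prod _ hm.aemeasurable]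
  refine lintegral_congr fun c => ?_
  rw [Measure.restrict_congr_set Ioo_ae_eq_Ioc]
  rfl

theorem sg_int {f : E (1 + 1 + 1) → ℂ} (hf : Integrable f (sg (1 + 1 + 1))) :
    Integrable (fun q : ℝ × ℝ => f (Pt q.1 q.2)) m0 := by
  rw [sg_map] at hf
  exact (integrable_map_measure hf.aestronglyMeasurable Pt_meas.aemeasurable).1 hf

/-- integrals over the sphere as iterated integrals -/
theorem sg_iter {f : E (1 + 1 + 1) → ℂ} (hf : Integrable f (sg (1 + 1 + 1))) :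
    ∫ w, f w ∂(sg (1 + 1 + 1)) =
      ∫ c in Ioo (-1 : ℝ) 1, ∫ φ in Ioc (-Real.pi) Real.pi, f (Pt c φ) := by
  have h := sg_int hf
  rw [sg_map] at hf ⊢
  rw [integral_map Pt_meas.aemeasurable hf.aestronglyMeasurable]
  unfold m0 at h ⊢
  rw [integral_prod _ h]

/-- null sets of heights -/
theorem height_ae' {p : ℝ → Prop} (h : ∀ᵐ c ∂(volume.restrict (Ioo (-1 : ℝ) 1)), p c) :
    ∀ᵐ w ∂(sg (1 + 1 + 1)), p (w 2) := by
  have h1 : ∀ᵐ c : ℝ, c ∈ Ioo (-1 : ℝ) 1 → p c := (ae_restrict_iff' measurableSet_Ioo).1 h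
  have h2 := height_ae h1
  have h3 : ∀ᵐ w ∂(sg (1 + 1 + 1)), w 2 ∈ Ioo (-1 : ℝ) 1 := by
    rw [sg_map]
    have hS : MeasurableSet {w : E (1 + 1 + 1) | w 2 ∈ Ioo (-1 : ℝ) 1} := by
      have hm2 : Measurable fun w : E (1 + 1 + 1) => w 2 := by fun_prop
      exact hm2 measurableSet_Ioo
    rw [ae_map_iff Pt_meas.aemeasurable hS]
    unfold m0
    have h4 : ∀ᵐ q ∂((volume.restrict (Ioo (-1 : ℝ) 1)).prod
        (volume.restrict (Ioc (-Real.pi) Real.pi))), q.1 ∈ Ioo (-1 : ℝ) 1 :=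
      (Measure.quasiMeasurePreserving_fst).ae (ae_restrict_mem measurableSet_Ioo)
    filter_upwards [h4] with q hq
    have h5 : (Pt q.1 q.2) 2 = q.1 := by
      unfold Pt
      rw [J3_two]
      simp [e0]
    change (Pt q.1 q.2) 2 ∈ Ioo (-1 : ℝ) 1
    rw [h5]
    exact hq
  filter_upwards [h2, h3] with w h5 h6 using h5 h6

/-- the jump from an arc of generation `N` to the arc number `k` of generation `N'` -/
noncomputable def jm (u : ℝ → ℂ) (N N' k : ℕ) : ℂ := av u N' k - av u N (k / 2 ^ (N' - N))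

/-- the restriction of a function to a latitude circle -/
noncomputable def sl (g : E (1 + 1 + 1) → ℂ) (c φ : ℝ) : ℂ := g (Pt c φ)

/-- the conditional expectation of generation `J` -/
noncomputable def Ew (g : E (1 + 1 + 1) → ℂ) (J : ℕ) (w : E (1 + 1 + 1)) : ℂ :=
  ∑ k : Fin (2 ^ J), dens (da J k) (da J (k + 1)) (fun c => av (sl g c) J k) w

/-- the difference of two conditional expectations -/
noncomputable def Dw (g : E (1 + 1 + 1) → ℂ) (N N' : ℕ) (w : E (1 + 1 + 1)) : ℂ :=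
  ∑ k : Fin (2 ^ N'), dens (da N' k) (da N' (k + 1)) (fun c => jm (sl g c) N N' k) w

theorem Ew_step (g : E (1 + 1 + 1) → ℂ) {N N' : ℕ} (h : N ≤ N') (w : E (1 + 1 + 1)) :
    Ew g N' w = Ew g N w + Dw g N N' w := by
  set φ := Complex.arg ((w 0 : ℂ) + (w 1 : ℂ) * I) with hφ
  have hφm : φ ∈ Ioc (-Real.pi) Real.pi := Complex.arg_mem_Ioc _
  obtain ⟨k, hk⟩ := ar_ex (J := N') hφm
  have hl := ar_anc h hk
  have e1 : ∀ (J : ℕ) (F : Fin (2 ^ J) → ℝ → ℂ) (l : Fin (2 ^ J)), φ ∈ ar J l →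
      ∑ k : Fin (2 ^ J), dens (da J k) (da J (k + 1)) (F k) w = F l (w 2) := by
    intro J F l hl
    unfold dens
    exact sum_ind hl fun k => F k (w 2)
  unfold Ew Dw
  rw [e1 N' _ k hk, e1 N' _ k hk, e1 N _ ⟨(k : ℕ) / 2 ^ (N' - N), ar_anc_lt h k⟩ hl]
  unfold jm
  simp only
  ring

theorem Ew_slice (g : E (1 + 1 + 1) → ℂ) (J : ℕ) {c : ℝ} (hc : c ∈ Ioo (-1 : ℝ) 1) {φ : ℝ}
    (hφ : φ ∈ Ioc (-Real.pi) Real.pi) : Ew g J (Pt c φ) = EJ (sl g c) J φ := by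
  unfold Ew EJ
  refine Finset.sum_congr rfl fun k _ => ?_
  exact dens_slice _ _ _ hc hφ

theorem Pt_lip (c φ ψ : ℝ) : ‖Pt c φ - Pt c ψ‖ ≤ |φ - ψ| := by
  have h1 : ‖cs φ - cs ψ‖ ≤ |φ - ψ| := by
    have h2 : ‖cs φ - cs ψ‖ ^ 2 ≤ |φ - ψ| ^ 2 := by
      rw [norm_sub_sq_real, cs_norm, cs_norm, cs_inner, sq_abs]
      have := Real.one_sub_sq_div_two_le_cos (x := ψ - φ)
      nlinarith
    exact (pow_le_pow_iff_left₀ (norm_nonneg _) (abs_nonneg _) (by norm_num)).1 h2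
  have h3 : Pt c φ - Pt c ψ = J (sc c • (cs φ - cs ψ)) 0 := by
    unfold Pt J
    ext i
    refine Fin.addCases (fun j => ?_) (fun j => ?_) i
    · simp [Fin.append_left, smul_sub]
    · simp [Fin.append_right]
  rw [h3]
  have h4 : ‖(J (sc c • (cs φ - cs ψ)) 0 : E (1 + 1 + 1))‖ ^ 2 = ‖sc c • (cs φ - cs ψ)‖ ^ 2 := by
    rw [Pool.Agent.V5helper17.RL.J_norm_sq]
    simp
  have h5 : ‖(J (sc c • (cs φ - cs ψ)) 0 : E (1 + 1 + 1))‖ = ‖sc c • (cs φ - cs ψ)‖ :=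
    (pow_left_inj₀ (norm_nonneg _) (norm_nonneg _) (by norm_num)).1 h4
  rw [h5, norm_smul, Real.norm_of_nonneg (show 0 ≤ sc c from Real.sqrt_nonneg _)]
  calc sc c * ‖cs φ - cs ψ‖ ≤ 1 * |φ - ψ| := by
        gcongr
        exact sc_le c
    _ = _ := one_mul _

/-- the character -/
noncomputable def ch (X w : E (1 + 1 + 1)) : ℂ := Complex.exp (-((⟪X, w⟫ : ℝ) : ℂ) * I)

theorem ch_norm (X w : E (1 + 1 + 1)) : ‖ch X w‖ = 1 := by
  unfold ch
  rw [show -((⟪X, w⟫ : ℝ) : ℂ) * I = ((-(⟪X, w⟫ : ℝ) : ℝ) : ℂ) * I by push_cast; ring,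
    Complex.norm_exp_ofReal_mul_I]

theorem ch_cont (X : E (1 + 1 + 1)) : Continuous (ch X) := by
  unfold ch
  fun_prop

theorem ch_lip (X w v : E (1 + 1 + 1)) : ‖ch X w - ch X v‖ ≤ ‖X‖ * ‖w - v‖ := by
  have e1 : ch X w - ch X v = ch X v *
      (Complex.exp (I * ((-(⟪X, w - v⟫ : ℝ) : ℝ) : ℂ)) - 1) := by
    unfold ch
    rw [mul_sub, mul_one, ← Complex.exp_add]
    congr 2
    rw [inner_sub_right]
    push_cast
    ring
  rw [e1, norm_mul, ch_norm, one_mul]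
  refine Real.norm_exp_I_mul_ofReal_sub_one_le.trans ?_
  rw [norm_neg]
  exact norm_inner_le_norm _ _

theorem T_ch (f : E (1 + 1 + 1) → ℂ) (X : E (1 + 1 + 1)) :
    T f X = ∫ w, ch X w * f w ∂(sg (1 + 1 + 1)) := rfl

theorem ch_int {f : E (1 + 1 + 1) → ℂ} (hf : Integrable f (sg (1 + 1 + 1)))
    (X : E (1 + 1 + 1)) : Integrable (fun w => ch X w * f w) (sg (1 + 1 + 1)) :=
  hf.bdd_mul (ch_cont X).aestronglyMeasurable (Eventually.of_forall fun w => (ch_norm X w).le)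

theorem T_add {f₁ f₂ : E (1 + 1 + 1) → ℂ} (h1 : Integrable f₁ (sg (1 + 1 + 1)))
    (h2 : Integrable f₂ (sg (1 + 1 + 1))) (X : E (1 + 1 + 1)) :
    T (fun w => f₁ w + f₂ w) X = T f₁ X + T f₂ X := by
  simp only [T_ch, mul_add]
  exact integral_add (ch_int h1 X) (ch_int h2 X)

/-- the rate of convergence -/
theorem T_rate {g : E (1 + 1 + 1) → ℂ} (hg : Integrable g (sg (1 + 1 + 1))) (J : ℕ)
    (hE : Integrable (Ew g J) (sg (1 + 1 + 1))) (X : E (1 + 1 + 1)) :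
    ‖T (Ew g J) X - T g X‖ ≤ 2 * (‖X‖ * (2 * Real.pi / 2 ^ J)) *
      ∫ w, ‖g w‖ ∂(sg (1 + 1 + 1)) := by
  have hd : Integrable (fun w => Ew g J w - g w) (sg (1 + 1 + 1)) := hE.sub hg
  have e1 : T (Ew g J) X - T g X = ∫ w, ch X w * (Ew g J w - g w) ∂(sg (1 + 1 + 1)) := by
    simp only [T_ch, mul_sub]
    exact (integral_sub (ch_int hE X) (ch_int hg X)).symm
  have hgi := sg_int hg
  have hni : Integrable (fun w => ((‖g w‖ : ℝ) : ℂ)) (sg (1 + 1 + 1)) := hg.norm.ofReal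
  have e2 : ∫ w, ‖g w‖ ∂(sg (1 + 1 + 1)) =
      ∫ c in Ioo (-1 : ℝ) 1, ∫ φ in Ioc (-Real.pi) Real.pi, ‖sl g c φ‖ := by
    have h1 := sg_iter hni
    have h2 : ∫ w, ((‖g w‖ : ℝ) : ℂ) ∂(sg (1 + 1 + 1)) =
        ((∫ w, ‖g w‖ ∂(sg (1 + 1 + 1)) : ℝ) : ℂ) := integral_ofReal
    have h3 : ∀ c, ∫ φ in Ioc (-Real.pi) Real.pi, ((‖g (Pt c φ)‖ : ℝ) : ℂ) =
        ((∫ φ in Ioc (-Real.pi) Real.pi, ‖g (Pt c φ)‖ : ℝ) : ℂ) := fun c => integral_ofReal
    have h4 : ∫ c in Ioo (-1 : ℝ) 1, ((∫ φ in Ioc (-Real.pi) Real.pi, ‖g (Pt c φ)‖ : ℝ) : ℂ) =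
        ((∫ c in Ioo (-1 : ℝ) 1, ∫ φ in Ioc (-Real.pi) Real.pi, ‖g (Pt c φ)‖ : ℝ) : ℂ) :=
      integral_ofReal
    simp only [h3] at h1
    rw [h2, h4] at h1
    exact_mod_cast h1
  have hn2 : Integrable (fun c => ∫ φ in Ioc (-Real.pi) Real.pi, ‖sl g c φ‖)
      (volume.restrict (Ioo (-1 : ℝ) 1)) := by
    unfold m0 at hgi
    exact hgi.norm.integral_prod_left
  rw [e1, sg_iter (ch_int hd X), e2]
  calc ‖∫ c in Ioo (-1 : ℝ) 1, ∫ φ in Ioc (-Real.pi) Real.pi,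
        ch X (Pt c φ) * (Ew g J (Pt c φ) - g (Pt c φ))‖
      ≤ ∫ c in Ioo (-1 : ℝ) 1, 2 * (‖X‖ * (2 * Real.pi / 2 ^ J)) *
          ∫ φ in Ioc (-Real.pi) Real.pi, ‖sl g c φ‖ := by
        refine norm_integral_le_of_norm_le (hn2.const_mul _) ?_
        unfold m0 at hgi
        filter_upwards [hgi.prod_right_ae, ae_restrict_mem measurableSet_Ioo] with c hc1 hc2
        have e3 : ∫ φ in Ioc (-Real.pi) Real.pi,
            ch X (Pt c φ) * (Ew g J (Pt c φ) - g (Pt c φ)) =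
            ∫ φ in Ioc (-Real.pi) Real.pi, ch X (Pt c φ) * (EJ (sl g c) J φ - sl g c φ) :=
          setIntegral_congr_fun measurableSet_Ioc fun φ hφ => by
            rw [Ew_slice g J hc2 hφ]
            rfl
        rw [e3]
        refine EJ_weak (e := fun φ => ch X (Pt c φ)) J hc1 ?_ (B := 1) (K := ‖X‖)
          (fun φ => (ch_norm X _).le) fun φ ψ => ?_
        · have hl : LipschitzWith 1 (Pt c) := by
            refine LipschitzWith.of_dist_le_mul fun x y => ?_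
            rw [dist_eq_norm, Real.dist_eq]
            simpa using Pt_lip c x y
          exact (ch_cont X).comp hl.continuous
        · refine (ch_lip X _ _).trans ?_
          gcongr
          exact Pt_lip c φ ψ
    _ = _ := integral_const_mul _ _

end Pool.Agent.V5helper17.SR
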