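import Mathlib
import Pool.Agent.V5helper17.SR.Dy2
set_option autoImplicit false

/-! # The dyadic expansion of the extension of one density -/

namespace Pool.Agent.V5helper17.SR

open MeasureTheory Set Complex Metric ProbabilityTheory Filter Topology
open scoped ENNReal RealInnerProductSpace
open Pool.Agent.H789R2.FR (E sg T sg_finite sg_ae polar sc Ex)
open Pool.Agent.H438R2.BR (J J_mp J_inner)
open Pool.Agent.H438R2.BR.T10 (e0 e0_norm)
open Pool.Agent.TH335.RF (sc_pos sc_le sc_meas')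

/-- truncation -/
noncomputable def tr (M : ℝ) (z : ℂ) : ℂ := {z : ℂ | ‖z‖ ≤ M}.indicator id z

theorem tr_of_le {M : ℝ} {z : ℂ} (h : ‖z‖ ≤ M) : tr M z = z := by
  unfold tr
  rw [indicator_of_mem (show z ∈ {z : ℂ | ‖z‖ ≤ M} from h)]
  rfl

theorem tr_le {M : ℝ} (hM : 0 ≤ M) (z : ℂ) : ‖tr M z‖ ≤ M := by
  by_cases h : ‖z‖ ≤ M
  · rw [tr_of_le h]
    exact h
  · unfold tr
    rw [indicator_of_notMem (show z ∉ {z : ℂ | ‖z‖ ≤ M} from h), norm_zero]
    exact hM

theorem tr_meas (M : ℝ) : Measurable (tr M) := by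
  unfold tr
  exact measurable_id.indicator (measurableSet_le measurable_norm measurable_const)

theorem av_meas {α : Type*} [MeasurableSpace α] (g : α → E (1 + 1 + 1) → ℂ)
    (hg : Measurable fun q : α × E (1 + 1 + 1) => g q.1 q.2) (J l : ℕ) :
    Measurable fun q : α × ℝ => av (sl (g q.1) q.2) J l := by
  simp only [av_eq]
  refine Measurable.const_mul ?_ _
  apply StronglyMeasurable.measurable
  refine StronglyMeasurable.integral_prod_right (f := fun (q : α × ℝ) (φ : ℝ) => sl (g q.1) q.2 φ) ?_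
  apply Measurable.stronglyMeasurable
  change Measurable fun p : (α × ℝ) × ℝ => g p.1.1 (Pt p.1.2 p.2)
  have h1 : Measurable fun p : (α × ℝ) × ℝ => (p.1.1, Pt p.1.2 p.2) :=
    Measurable.prodMk (measurable_fst.comp measurable_fst)
      (Measurable.comp (g := fun q : ℝ × ℝ => Pt q.1 q.2)
        (f := fun p : (α × ℝ) × ℝ => (p.1.2, p.2)) Pt_meas (by fun_prop))
  exact Measurable.comp (g := fun q : α × E (1 + 1 + 1) => g q.1 q.2)
    (f := fun p : (α × ℝ) × ℝ => (p.1.1, Pt p.1.2 p.2)) hg h1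

theorem jm_meas {α : Type*} [MeasurableSpace α] (g : α → E (1 + 1 + 1) → ℂ)
    (hg : Measurable fun q : α × E (1 + 1 + 1) => g q.1 q.2) (N N' k : ℕ) :
    Measurable fun q : α × ℝ => jm (sl (g q.1) q.2) N N' k := by
  unfold jm
  exact (av_meas g hg _ _).sub (av_meas g hg _ _)

theorem av_meas1 {g : E (1 + 1 + 1) → ℂ} (hg : Measurable g) (J l : ℕ) :
    Measurable fun c : ℝ => av (sl g c) J l :=
  Measurable.comp (g := fun q : Unit × ℝ => av (sl ((fun _ : Unit => g) q.1) q.2) J l)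
    (f := fun c : ℝ => ((), c)) (av_meas (fun _ : Unit => g) (hg.comp measurable_snd) J l)
    (by fun_prop)

theorem jm_meas1 {g : E (1 + 1 + 1) → ℂ} (hg : Measurable g) (N N' k : ℕ) :
    Measurable fun c : ℝ => jm (sl g c) N N' k := by
  unfold jm
  exact (av_meas1 hg _ _).sub (av_meas1 hg _ _)

/-- densities with bounded jumps -/
structure Db (g : E (1 + 1 + 1) → ℂ) (M : ℝ) (N : ℕ → ℕ) : Prop where
  meas : Measurable g
  int : Integrable g (sg (1 + 1 + 1))
  mean : ∀ᵐ c ∂(volume.restrict (Ioo (-1 : ℝ) 1)), ‖av (sl g c) 0 0‖ ≤ M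
  jump : ∀ i, ∀ k : Fin (2 ^ N (i + 1)), ∀ᵐ c ∂(volume.restrict (Ioo (-1 : ℝ) 1)),
    ‖jm (sl g c) (N i) (N (i + 1)) k‖ ≤ M

variable {g : E (1 + 1 + 1) → ℂ} {M : ℝ} {N : ℕ → ℕ}

/-- the truncated mean value -/
noncomputable def mt (M : ℝ) (g : E (1 + 1 + 1) → ℂ) (c : ℝ) : ℂ := tr M (av (sl g c) 0 0)

/-- the truncated jumps -/
noncomputable def jt (M : ℝ) (g : E (1 + 1 + 1) → ℂ) (N N' k : ℕ) (c : ℝ) : ℂ :=
  (Ioo (-1 : ℝ) 1).indicator (fun c => tr M (jm (sl g c) N N' k)) c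

theorem mt_meas (hg : Measurable g) (M : ℝ) : Measurable (mt M g) :=
  (tr_meas M).comp (av_meas1 hg 0 0)

theorem jt_meas (hg : Measurable g) (M : ℝ) (N N' k : ℕ) : Measurable (jt M g N N' k) :=
  ((tr_meas M).comp (jm_meas1 hg N N' k)).indicator measurableSet_Ioo

theorem jt_le (hM : 0 ≤ M) (g : E (1 + 1 + 1) → ℂ) (N N' k : ℕ) (c : ℝ) :
    ‖jt M g N N' k c‖ ≤ M :=
  (norm_indicator_le_norm_self _ _).trans (tr_le hM _)

/-- the sum of the truncated jumps -/
noncomputable def Dt' (M : ℝ) (g : E (1 + 1 + 1) → ℂ) (N N' : ℕ) (w : E (1 + 1 + 1)) : ℂ :=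
  ∑ k : Fin (2 ^ N'), dens (da N' k) (da N' (k + 1)) (jt M g N N' k) w

theorem int_bdd {f : E (1 + 1 + 1) → ℂ} (hf : Measurable f) (B : ℝ) (hB : ∀ w, ‖f w‖ ≤ B) :
    Integrable f (sg (1 + 1 + 1)) := by
  have hfin : IsFiniteMeasure (sg (1 + 1 + 1)) := sg_finite _
  exact Integrable.of_bound hf.aestronglyMeasurable B (Eventually.of_forall hB)

theorem dens_int (a b : ℝ) {f : ℝ → ℂ} (hf : Measurable f) (B : ℝ) (hB : ∀ c, ‖f c‖ ≤ B) :
    Integrable (dens a b f) (sg (1 + 1 + 1)) :=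
  int_bdd (dens_meas a b f hf) B (dens_le a b f B hB)

theorem Dt'_int (hg : Measurable g) (hM : 0 ≤ M) (N N' : ℕ) :
    Integrable (Dt' M g N N') (sg (1 + 1 + 1)) := by
  unfold Dt'
  exact integrable_finsetSum _ fun k _ => dens_int _ _ (jt_meas hg M N N' k) M (jt_le hM g N N' k)

theorem Ew_zero (h : Db g M N) :
    Ew g 0 =ᵐ[sg (1 + 1 + 1)] dens (-Real.pi) Real.pi (mt M g) := by
  have h1 := height_ae' h.mean
  filter_upwards [h1] with w hw
  have e1 : Ew g 0 w = dens (da 0 0) (da 0 1) (fun c => av (sl g c) 0 0) w := by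
    unfold Ew
    rw [Finset.sum_eq_single (⟨0, by norm_num⟩ : Fin (2 ^ 0))]
    · intro b _ hb
      exfalso
      apply hb
      ext
      have := b.2
      simp only [pow_zero, Nat.lt_one_iff] at this
      exact this
    · intro h
      exact absurd (Finset.mem_univ _) h
  have e2 : da 0 1 = Real.pi := by
    have := da_last 0
    simpa using this
  rw [e1, da_zero, e2]
  unfold dens mt
  rw [tr_of_le hw]

theorem Dw_ae (h : Db g M N) (i : ℕ) :
    Dw g (N i) (N (i + 1)) =ᵐ[sg (1 + 1 + 1)] Dt' M g (N i) (N (i + 1)) := by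
  have h1 : ∀ᵐ c ∂(volume.restrict (Ioo (-1 : ℝ) 1)), c ∈ Ioo (-1 : ℝ) 1 ∧
      ∀ k : Fin (2 ^ N (i + 1)), ‖jm (sl g c) (N i) (N (i + 1)) k‖ ≤ M := by
    filter_upwards [ae_restrict_mem measurableSet_Ioo, ae_all_iff.2 (h.jump i)] with c h2 h3
    exact ⟨h2, h3⟩
  have h2 := height_ae' h1
  filter_upwards [h2] with w hw
  unfold Dw Dt'
  refine Finset.sum_congr rfl fun k _ => ?_
  unfold dens jt
  rw [indicator_of_mem hw.1, tr_of_le (hw.2 k)]

theorem T_congr_ae {f₁ f₂ : E (1 + 1 + 1) → ℂ} (h : f₁ =ᵐ[sg (1 + 1 + 1)] f₂)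
    (X : E (1 + 1 + 1)) : T f₁ X = T f₂ X := by
  simp only [T_ch]
  refine integral_congr_ae ?_
  filter_upwards [h] with w hw
  rw [hw]

theorem Ew_int (h : Db g M N) (hM : 0 ≤ M) (hN0 : N 0 = 0) (hN : ∀ i, N i ≤ N (i + 1)) (i : ℕ) :
    Integrable (Ew g (N i)) (sg (1 + 1 + 1)) := by
  induction i with
  | zero =>
    rw [hN0]
    exact (integrable_congr (Ew_zero h)).2 (dens_int _ _ (mt_meas h.meas M) M fun c => tr_le hM _)
  | succ i ih =>
    have e : Ew g (N (i + 1)) = fun w => Ew g (N i) w + Dw g (N i) (N (i + 1)) w :=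
      funext fun w => Ew_step g (hN i) w
    rw [e]
    exact ih.add ((integrable_congr (Dw_ae h i)).2 (Dt'_int h.meas hM _ _))

theorem T_Ew (h : Db g M N) (hM : 0 ≤ M) (hN0 : N 0 = 0) (hN : ∀ i, N i ≤ N (i + 1)) (i : ℕ)
    (X : E (1 + 1 + 1)) : T (Ew g (N i)) X = T (dens (-Real.pi) Real.pi (mt M g)) X +
      ∑ j ∈ Finset.range i, T (Dt' M g (N j) (N (j + 1))) X := by
  induction i with
  | zero =>
    rw [hN0, T_congr_ae (Ew_zero h)]
    simp
  | succ i ih =>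
    have e : Ew g (N (i + 1)) = fun w => Ew g (N i) w + Dw g (N i) (N (i + 1)) w :=
      funext fun w => Ew_step g (hN i) w
    rw [e, T_add (Ew_int h hM hN0 hN i) ((integrable_congr (Dw_ae h i)).2
      (Dt'_int h.meas hM _ _)), ih, T_congr_ae (Dw_ae h i), Finset.sum_range_succ]
    ring

/-- the extension is dominated by the sum over all generations -/
theorem T_le (h : Db g M N) (hM : 0 ≤ M) (hN0 : N 0 = 0) (hN : StrictMono N)
    (X : E (1 + 1 + 1)) : ‖T g X‖ₑ ≤ ‖T (dens (-Real.pi) Real.pi (mt M g)) X‖ₑ +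
      ∑' j, ‖T (Dt' M g (N j) (N (j + 1))) X‖ₑ := by
  have hN' : ∀ i, N i ≤ N (i + 1) := fun i => (hN (Nat.lt_succ_self i)).le
  have hlim : Tendsto (fun i => T (Ew g (N i)) X) atTop (𝓝 (T g X)) := by
    rw [tendsto_iff_norm_sub_tendsto_zero]
    have h1 : Tendsto (fun i : ℕ => 2 * (‖X‖ * (2 * Real.pi / 2 ^ (N i))) *
        ∫ w, ‖g w‖ ∂(sg (1 + 1 + 1))) atTop (𝓝 0) := by
      have h2 : Tendsto (fun i : ℕ => ((1 / 2 : ℝ)) ^ (N i)) atTop (𝓝 0) :=
        (tendsto_pow_atTop_nhds_zero_of_lt_one (by norm_num) (by norm_num)).comp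
          hN.tendsto_atTop
      have h3 := h2.const_mul (2 * (‖X‖ * (2 * Real.pi)) * ∫ w, ‖g w‖ ∂(sg (1 + 1 + 1)))
      rw [mul_zero] at h3
      refine h3.congr fun i => ?_
      rw [one_div, inv_pow]
      field_simp
    exact squeeze_zero (fun i => norm_nonneg _)
      (fun i => T_rate h.int (N i) (Ew_int h hM hN0 hN' i) X) h1
  refine le_of_tendsto hlim.enorm (Eventually.of_forall fun i => ?_)
  rw [T_Ew h hM hN0 hN' i X]
  refine (enorm_add_le _ _).trans (add_le_add le_rfl ?_)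
  exact (enorm_sum_le _ _).trans (ENNReal.sum_le_tsum _)

theorem T_Dt' (hg : Measurable g) (hM : 0 ≤ M) (N N' : ℕ) (y : E (1 + 1)) (z : ℝ) :
    T (Dt' M g N N') (J y (z • e0)) = ∑ k : Fin (2 ^ N'),
      Tk (fun k : Fin (2 ^ N') => da N' k) (fun k : Fin (2 ^ N') => da N' (k + 1))
        (fun k : Fin (2 ^ N') => jt M g N N' k) k y z := by
  unfold Dt' Tk
  simp only [T_ch, Finset.mul_sum]
  exact integral_finsetSum _ fun k _ =>
    ch_int (dens_int _ _ (jt_meas hg M N N' k) M (jt_le hM g N N' k)) _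

end Pool.Agent.V5helper17.SR
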