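import Mathlib
import Pool.Agent.V5helper17.SR.Dy3
set_option autoImplicit false

/-! # Random densities with fair increments along the latitude circles -/

namespace Pool.Agent.V5helper17.SR

open MeasureTheory Set Complex Metric ProbabilityTheory Filter Topology
open scoped ENNReal RealInnerProductSpace
open Pool.Agent.H789R2.FR (E sg T sg_finite sg_ae polar sc Ex)
open Pool.Agent.H438R2.BR (J J_mp J_inner)
open Pool.Agent.H438R2.BR.T10 (e0 e0_norm)
open Pool.Agent.TH335.RF (sc_pos sc_le sc_meas')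

/-- random densities with fair and bounded jumps in the block `i` -/
structure Rb {Ω : Type*} {mΩ : MeasurableSpace Ω} (P : Measure Ω) (M : ℝ) (N : ℕ → ℕ)
    (g : Ω → E (1 + 1 + 1) → ℂ) : Prop where
  meas : Measurable fun q : Ω × E (1 + 1 + 1) => g q.1 q.2
  db : ∀ ω, Db (g ω) M N
  fair : ∀ i, ∃ (F : Filtration ℕ mΩ) (rk : ℕ → ℕ), InjOn rk {l | l < 2 ^ N i} ∧
    ∀ k : Fin (2 ^ N (i + 1)),
      (Measurable[(F (rk (k / 2 ^ (N (i + 1) - N i)) + 1)).prod inferInstance]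
        fun q : Ω × ℝ => jm (sl (g q.1) q.2) (N i) (N (i + 1)) k) ∧
      ∀ᵐ c ∂(volume.restrict (Ioo (-1 : ℝ) 1)),
        P[fun ω => jm (sl (g ω) c) (N i) (N (i + 1)) k | F (rk (k / 2 ^ (N (i + 1) - N i)))]
          =ᵐ[P] 0

/-- the number of arcs of a generation inside one arc -/
theorem card_div (m q l : ℕ) (hq : 0 < q) :
    (Finset.univ.filter fun k : Fin m => (k : ℕ) / q = l).card ≤ q := by
  classical
  calc (Finset.univ.filter fun k : Fin m => (k : ℕ) / q = l).card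
      ≤ (Finset.range q).card := by
        refine Finset.card_le_card_of_injOn (fun k : Fin m => (k : ℕ) % q) (fun k _ => ?_) ?_
        · simp only [Finset.coe_range, mem_Iio]
          exact Nat.mod_lt _ hq
        · intro a ha b hb hab
          simp only [Finset.coe_filter, Finset.mem_univ, true_and, mem_setOf_eq] at ha hb
          simp only at hab
          apply Fin.ext
          rw [← Nat.div_add_mod (a : ℕ) q, ← Nat.div_add_mod (b : ℕ) q, ha, hb, hab]
    _ = q := Finset.card_range q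

theorem card_rank {N N' : ℕ} (h : N ≤ N') (rk : ℕ → ℕ) (hrk : InjOn rk {l | l < 2 ^ N}) (n : ℕ) :
    (Finset.univ.filter fun k : Fin (2 ^ N') => rk (k / 2 ^ (N' - N)) = n).card ≤
      2 ^ (N' - N) := by
  classical
  by_cases hex : ∃ k : Fin (2 ^ N'), rk (k / 2 ^ (N' - N)) = n
  · obtain ⟨k0, hk0⟩ := hex
    refine le_trans (Finset.card_le_card fun k hk => ?_)
      (card_div (2 ^ N') (2 ^ (N' - N)) ((k0 : ℕ) / 2 ^ (N' - N)) (by positivity))
    rw [Finset.mem_filter] at hk ⊢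
    refine ⟨hk.1, hrk (ar_anc_lt h k) (ar_anc_lt h k0) ?_⟩
    rw [hk.2, hk0]
  · push Not at hex
    rw [Finset.filter_false_of_mem fun k _ => hex k]
    simp

theorem jt_gn {g : E (1 + 1 + 1) → ℂ} (hg : Measurable g) {M : ℝ} (hM : 0 ≤ M) (N N' : ℕ) :
    Gn (fun k : Fin (2 ^ N') => da N' k) (fun k : Fin (2 ^ N') => da N' (k + 1))
      (fun k : Fin (2 ^ N') => jt M g N N' k) M (2 * Real.pi / 2 ^ N') := by
  refine ⟨⟨fun k => ?_, fun k => ?_, fun k => ?_, fun k => jt_meas hg M N N' k, fun k =>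
    ⟨M, jt_le hM g N N' k⟩⟩, fun k => jt_le hM g N N' k, fun k => ?_, ?_, ?_⟩
  · rw [← da_zero N']
    exact (da_strict N').monotone (Nat.zero_le _)
  · exact ((da_strict N') (Nat.lt_succ_self _)).le
  · rw [← da_last N']
    exact (da_strict N').monotone k.2
  · exact (da_len N' k).le
  · simp only [da_len, Finset.sum_const, Finset.card_univ, Fintype.card_fin, nsmul_eq_mul]
    push_cast
    have : (2 : ℝ) ^ N' * (2 * Real.pi / 2 ^ N') = 2 * Real.pi := by field_simp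
    rw [this]
  · intro φ k l h1 h2
    exact Fin.ext (ar_disj h1 h2)

theorem jt_joint {α : Type*} [MeasurableSpace α] {g : α → E (1 + 1 + 1) → ℂ} {N N' k : ℕ}
    (h : Measurable fun q : α × ℝ => jm (sl (g q.1) q.2) N N' k) (M : ℝ) :
    Measurable fun q : α × ℝ => jt M (g q.1) N N' k q.2 := by
  have e : (fun q : α × ℝ => jt M (g q.1) N N' k q.2) = (Prod.snd ⁻¹' Ioo (-1 : ℝ) 1).indicator
      (fun q : α × ℝ => tr M (jm (sl (g q.1) q.2) N N' k)) := by
    funext q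
    unfold jt
    by_cases hq : q.2 ∈ Ioo (-1 : ℝ) 1
    · rw [indicator_of_mem hq, indicator_of_mem (show q ∈ Prod.snd ⁻¹' Ioo (-1 : ℝ) 1 from hq)]
    · rw [indicator_of_notMem hq,
        indicator_of_notMem (show q ∉ Prod.snd ⁻¹' Ioo (-1 : ℝ) 1 from hq)]
  rw [e]
  exact ((tr_meas M).comp h).indicator (measurable_snd measurableSet_Ioo)

variable {Ω : Type*} {mΩ : MeasurableSpace Ω} {P : Measure Ω} [IsProbabilityMeasure P] {M : ℝ}
  {N : ℕ → ℕ} {g : Ω → E (1 + 1 + 1) → ℂ}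

theorem swap_ae {p : Ω → ℝ → Prop} (hp : MeasurableSet {q : Ω × ℝ | p q.1 q.2})
    (h : ∀ ω, ∀ᵐ c ∂(volume.restrict (Ioo (-1 : ℝ) 1)), p ω c) :
    ∀ᵐ c ∂(volume.restrict (Ioo (-1 : ℝ) 1)), ∀ᵐ ω ∂P, p ω c := by
  have h1 : ∀ᵐ q ∂(P.prod (volume.restrict (Ioo (-1 : ℝ) 1))), p q.1 q.2 :=
    (Measure.ae_prod_iff_ae_ae hp).2 (Eventually.of_forall h)
  have h2 : ∀ᵐ q ∂((volume.restrict (Ioo (-1 : ℝ) 1)).prod P), p q.2 q.1 := by
    have h3 := Measure.measurePreserving_swap (μ := volume.restrict (Ioo (-1 : ℝ) 1)) (ν := P)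
    exact h3.quasiMeasurePreserving.ae h1
  exact Measure.ae_ae_of_ae_prod h2

theorem Rb.rg (h : Rb P M N g) (hM : 0 ≤ M) (hN : ∀ i, N i ≤ N (i + 1)) (i : ℕ) :
    ∃ (F : Filtration ℕ mΩ) (rk : Fin (2 ^ N (i + 1)) → ℕ),
      (∀ n, (Finset.univ.filter fun k => rk k = n).card ≤ 2 ^ (N (i + 1) - N i)) ∧
      Rg P F rk (fun k : Fin (2 ^ N (i + 1)) => da (N (i + 1)) k)
        (fun k : Fin (2 ^ N (i + 1)) => da (N (i + 1)) (k + 1))
        (fun ω => fun k : Fin (2 ^ N (i + 1)) => jt M (g ω) (N i) (N (i + 1)) k) M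
        (2 * Real.pi / 2 ^ N (i + 1)) := by
  obtain ⟨F, rk, hinj, hf⟩ := h.fair i
  refine ⟨F, fun k => rk (k / 2 ^ (N (i + 1) - N i)), card_rank (hN i) rk hinj,
    fun ω => jt_gn (h.db ω).meas hM _ _, fun k => ?_, fun k => ?_⟩
  · exact @jt_joint Ω (F (rk (k / 2 ^ (N (i + 1) - N i)) + 1)) g _ _ _ (hf k).1 M
  · have hjm := jm_meas g h.meas (N i) (N (i + 1)) k
    have h1 := swap_ae (P := P) (p := fun ω c => ‖jm (sl (g ω) c) (N i) (N (i + 1)) k‖ ≤ M)
      (measurableSet_le hjm.norm measurable_const) fun ω => (h.db ω).jump i k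
    have h2 : ∀ᵐ c : ℝ, c ∈ Ioo (-1 : ℝ) 1 →
        (∀ᵐ ω ∂P, ‖jm (sl (g ω) c) (N i) (N (i + 1)) k‖ ≤ M) ∧
        P[fun ω => jm (sl (g ω) c) (N i) (N (i + 1)) k | F (rk (k / 2 ^ (N (i + 1) - N i)))]
          =ᵐ[P] 0 := by
      rw [← ae_restrict_iff' measurableSet_Ioo]
      filter_upwards [h1, (hf k).2] with c h3 h4 using ⟨h3, h4⟩
    filter_upwards [h2] with c hc
    by_cases hcm : c ∈ Ioo (-1 : ℝ) 1
    · obtain ⟨h3, h4⟩ := hc hcm
      have h5 : (fun ω => jt M (g ω) (N i) (N (i + 1)) k c) =ᵐ[P]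
          fun ω => jm (sl (g ω) c) (N i) (N (i + 1)) k := by
        filter_upwards [h3] with ω hω
        unfold jt
        rw [indicator_of_mem hcm, tr_of_le hω]
      exact (condExp_congr_ae h5).trans h4
    · have h5 : (fun ω => jt M (g ω) (N i) (N (i + 1)) k c) = fun _ => (0 : ℂ) := by
        funext ω
        unfold jt
        rw [indicator_of_notMem hcm]
      rw [h5]
      have h6 : P[(fun _ => (0 : ℂ)) | F (rk (k / 2 ^ (N (i + 1) - N i)))] = 0 := condExp_zero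
      rw [h6]

end Pool.Agent.V5helper17.SR
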