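import Mathlib
import Pool.Agent.V5helper17.SR.Dy4
set_option autoImplicit false

/-! # The main estimate for random densities with fair increments along the latitude circles -/

namespace Pool.Agent.V5helper17.SR

open MeasureTheory Set Complex Metric ProbabilityTheory Filter Topology
open scoped ENNReal RealInnerProductSpace
open Pool.Agent.H789R2.FR (E sg T sg_finite sg_ae polar sc Ex)
open Pool.Agent.H438R2.BR (J J_mp J_inner)
open Pool.Agent.H438R2.BR.T10 (e0 e0_norm)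
open Pool.Agent.TH335.RF (sc_pos sc_le sc_meas' geo mink)
open Pool.Agent.V5helper17.RL (lint_phys phys_meas)

theorem params (δ p : ℝ) (hδ0 : 0 ≤ δ) (hδ : δ < 1 / 3) (hp : 3 + 3 * δ < p) :
    ∃ t κ : ℝ, t < 1 ∧ 0 ≤ κ ∧ κ < t - 1 / 2 ∧ 2 + 2 * t ≤ p ∧ (1 + t) * δ / (1 + δ) < κ := by
  set t0 : ℝ := min ((p - 2) / 2) 1 with ht0
  have h1 : (1 + 3 * δ) / 2 < t0 := lt_min (by linarith) (by linarith)
  have h2 : t0 ≤ 1 := min_le_right _ _
  have h3 : t0 ≤ (p - 2) / 2 := min_le_left _ _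
  set t : ℝ := ((1 + 3 * δ) / 2 + t0) / 2 with ht
  have h4 : (1 + 3 * δ) / 2 < t := by rw [ht]; linarith
  have h5 : t < t0 := by rw [ht]; linarith
  have h6 : 0 < 1 + δ := by linarith
  have h7 : (1 + t) * δ / (1 + δ) < t - 1 / 2 := by
    rw [div_lt_iff₀ h6]
    nlinarith
  set κ : ℝ := ((1 + t) * δ / (1 + δ) + (t - 1 / 2)) / 2 with hκ
  have h8 : 0 ≤ (1 + t) * δ / (1 + δ) := by
    have : 0 ≤ 1 + t := by linarith
    positivity
  exact ⟨t, κ, by linarith, by rw [hκ]; linarith, by rw [hκ]; linarith, by linarith,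
    by rw [hκ]; linarith⟩

theorem blk (δ t κ K : ℝ) (hδ0 : 0 ≤ δ) (ht : 0 ≤ 1 + t) (hκ : (1 + t) * δ / (1 + δ) < κ)
    (N N' i : ℕ) (hN : N ≤ N') (hi : i ≤ N') (h : (N' : ℝ) ≤ (1 + δ) * N + K) :
    (((2 ^ (N' - N) : ℕ) : ℕ) : ℝ) ^ (1 + t) * (2 * Real.pi / 2 ^ N') ^ κ ≤
      ((2 * Real.pi) ^ κ * 2 ^ ((1 + t) * K / (1 + δ))) *
        2 ^ (-(κ - (1 + t) * δ / (1 + δ)) * (i : ℝ)) := by
  have hpi := Real.pi_pos
  have h6 : 0 < 1 + δ := by linarith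
  have e1 : (((2 ^ (N' - N) : ℕ) : ℕ) : ℝ) = 2 ^ ((N' : ℝ) - N) := by
    rw [Nat.cast_pow, ← Real.rpow_natCast, Nat.cast_sub hN]
    norm_num
  have e2 : (2 * Real.pi / 2 ^ N') ^ κ = (2 * Real.pi) ^ κ * 2 ^ (-(κ * (N' : ℝ))) := by
    rw [Real.div_rpow (by positivity) (by positivity), Real.rpow_neg (by norm_num),
      ← Real.rpow_natCast, ← Real.rpow_mul (by norm_num), mul_comm (N' : ℝ) κ, div_eq_mul_inv]
  rw [e1, e2, ← Real.rpow_mul (by norm_num)]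
  calc (2 : ℝ) ^ (((N' : ℝ) - N) * (1 + t)) * ((2 * Real.pi) ^ κ * 2 ^ (-(κ * (N' : ℝ))))
      = (2 * Real.pi) ^ κ * 2 ^ (((N' : ℝ) - N) * (1 + t) + -(κ * (N' : ℝ))) := by
        rw [Real.rpow_add (by norm_num)]
        ring
    _ ≤ (2 * Real.pi) ^ κ * 2 ^ ((1 + t) * K / (1 + δ) +
          -(κ - (1 + t) * δ / (1 + δ)) * (i : ℝ)) := by
        refine mul_le_mul_of_nonneg_left (Real.rpow_le_rpow_of_exponent_le (by norm_num) ?_)
          (by positivity)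
        have h1 : (N' : ℝ) - N ≤ (δ * N' + K) / (1 + δ) := by
          rw [le_div_iff₀ h6]
          linarith
        have h2 : ((N' : ℝ) - N) * (1 + t) ≤ (δ * N' + K) / (1 + δ) * (1 + t) :=
          mul_le_mul_of_nonneg_right h1 ht
        have h3 : (δ * N' + K) / (1 + δ) * (1 + t) =
            (1 + t) * K / (1 + δ) + (1 + t) * δ / (1 + δ) * N' := by
          field_simp
          ring
        have h4 : (i : ℝ) ≤ N' := by exact_mod_cast hi
        have h5 : (κ - (1 + t) * δ / (1 + δ)) * (i : ℝ) ≤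
            (κ - (1 + t) * δ / (1 + δ)) * N' :=
          mul_le_mul_of_nonneg_left h4 (by linarith)
        linarith
    _ = _ := by
        rw [Real.rpow_add (by norm_num)]
        ring

section

variable {Ω : Type*} {mΩ : MeasurableSpace Ω}

/-- the parts of the expansion -/
noncomputable def Vg (M : ℝ) (N : ℕ → ℕ) (g : Ω → E (1 + 1 + 1) → ℂ) :
    ℕ → Ω × (E (1 + 1) × ℝ) → ℂ
  | 0, q => T (dens (-Real.pi) Real.pi (mt M (g q.1))) (J q.2.1 (q.2.2 • e0))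
  | i + 1, q => T (Dt' M (g q.1) (N i) (N (i + 1))) (J q.2.1 (q.2.2 • e0))

theorem Dt'_joint (M : ℝ) {g : Ω → E (1 + 1 + 1) → ℂ}
    (hg : Measurable fun q : Ω × E (1 + 1 + 1) => g q.1 q.2) (N N' : ℕ) :
    Measurable fun q : Ω × E (1 + 1 + 1) => Dt' M (g q.1) N N' q.2 := by
  unfold Dt'
  exact Finset.measurable_fun_sum _ fun k _ =>
    dens_joint _ _ (fun ω => jt M (g ω) N N' k) (jt_joint (jm_meas g hg N N' k) M)

theorem Vg_meas (M : ℝ) (N : ℕ → ℕ) {g : Ω → E (1 + 1 + 1) → ℂ}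
    (hg : Measurable fun q : Ω × E (1 + 1 + 1) => g q.1 q.2) (j : ℕ) :
    Measurable (Vg M N g j) := by
  rcases j with _ | i
  · refine T_joint (fun ω => dens (-Real.pi) Real.pi (mt M (g ω))) ?_
    exact dens_joint _ _ (fun ω => mt M (g ω)) ((tr_meas M).comp (av_meas g hg 0 0))
  · exact T_joint (fun ω => Dt' M (g ω) (N i) (N (i + 1))) (Dt'_joint M hg _ _)

theorem T_le' {M : ℝ} {N : ℕ → ℕ} {g : Ω → E (1 + 1 + 1) → ℂ} (ω : Ω) (h : Db (g ω) M N)
    (hM : 0 ≤ M) (hN0 : N 0 = 0) (hN : StrictMono N) (y : E (1 + 1)) (z : ℝ) :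
    ‖T (g ω) (J y (z • e0))‖ₑ ≤ ∑' j, ‖Vg M N g j (ω, (y, z))‖ₑ := by
  rw [tsum_eq_zero_add' ENNReal.summable]
  exact T_le h hM hN0 hN _

end

theorem prod3 {Ω : Type*} {mΩ : MeasurableSpace Ω} (P : Measure Ω) [IsProbabilityMeasure P]
    (F : Ω × (E (1 + 1) × ℝ) → ℝ≥0∞) (hF : Measurable F) :
    ∫⁻ q, F q ∂(P.prod ((volume : Measure (E (1 + 1))).prod (volume : Measure ℝ))) =
      ∫⁻ ω, (∫⁻ y : E (1 + 1), ∫⁻ z : ℝ, F (ω, (y, z))) ∂P := by
  rw [lintegral_prod _ hF.aemeasurable]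
  refine lintegral_congr fun ω => ?_
  have h1 : Measurable fun p : E (1 + 1) × ℝ => F (ω, p) := hF.comp measurable_prodMk_left
  rw [lintegral_prod _ h1.aemeasurable]

theorem main (δ p K : ℝ) (hδ0 : 0 ≤ δ) (hδ : δ < 1 / 3) (hp : 3 + 3 * δ < p) :
    ∃ C : ℝ, 0 < C ∧ ∀ {Ω : Type*} {mΩ : MeasurableSpace Ω} (P : Measure Ω)
    [IsProbabilityMeasure P] (M : ℝ) (N : ℕ → ℕ) (g : Ω → E (1 + 1 + 1) → ℂ), 0 < M →
    N 0 = 0 → StrictMono N → (∀ i, (N (i + 1) : ℝ) ≤ (1 + δ) * N i + K) → Rb P M N g →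
    ∫⁻ ω, (∫⁻ X : E (1 + 1 + 1), ‖T (g ω) X‖ₑ ^ p) ∂P ≤ ENNReal.ofReal (C * M ^ p) := by
  have hpi := Real.pi_pos
  obtain ⟨t, κ, ht1, hκ0, hκ1, htp, hκ2⟩ := params δ p hδ0 hδ hp
  have hp0 : 0 < p := by linarith
  have hp1 : 1 ≤ p := by linarith
  obtain ⟨C0, hC0, hmean⟩ := gen_mean p (by linarith)
  obtain ⟨C1, hC1, hgen⟩ := gen_p p t κ ht1 hκ0 hκ1 htp
  set η : ℝ := κ - (1 + t) * δ / (1 + δ) with hη
  have hη0 : 0 < η := by rw [hη]; linarith
  set K1 : ℝ := C1 * ((2 * Real.pi) ^ κ * 2 ^ ((1 + t) * K / (1 + δ))) with hK1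
  have hK10 : 0 < K1 := by positivity
  set A : ℝ := C0 ^ (1 / p) + K1 ^ (1 / p) with hA
  have hA0 : 0 < A := by positivity
  set r : ℝ := (2 : ℝ) ^ (-η / p) with hr
  have hr0 : 0 < r := by positivity
  have hr1 : r < 1 := Real.rpow_lt_one_of_one_lt_of_neg (by norm_num)
    (div_neg_of_neg_of_pos (by linarith) hp0)
  have h1r : 0 < 1 - r := by linarith
  refine ⟨(A / (1 - r)) ^ p, by positivity, fun {Ω} {mΩ} P hP M N g hM hN0 hN hNK hg => ?_⟩
  have hN' : ∀ i, N i ≤ N (i + 1) := fun i => (hN (Nat.lt_succ_self i)).le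
  set μ : Measure (Ω × (E (1 + 1) × ℝ)) :=
    P.prod ((volume : Measure (E (1 + 1))).prod (volume : Measure ℝ)) with hμ
  have hVm : ∀ j, Measurable (Vg M N g j) := fun j => Vg_meas M N hg.meas j
  have hUm : ∀ j, Measurable fun q => ‖Vg M N g j q‖ₑ := fun j => (hVm j).enorm
  -- the size of the parts
  have hpart : ∀ j, (∫⁻ q, ‖Vg M N g j q‖ₑ ^ p ∂μ) ^ (1 / p) ≤
      ENNReal.ofReal ((A * M) * r ^ j) := by
    intro j
    have hMp : (M ^ p) ^ (1 / p) = M := by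
      rw [← Real.rpow_mul hM.le, mul_one_div_cancel hp0.ne', Real.rpow_one]
    rcases j with _ | i
    · have h1 : ∫⁻ q, ‖Vg M N g 0 q‖ₑ ^ p ∂μ ≤ ENNReal.ofReal (C0 * M ^ p) := by
        rw [hμ, prod3 P _ ((hUm 0).pow_const p)]
        calc ∫⁻ ω, (∫⁻ y : E (1 + 1), ∫⁻ z : ℝ, ‖Vg M N g 0 (ω, (y, z))‖ₑ ^ p) ∂P
            ≤ ∫⁻ _, ENNReal.ofReal (C0 * M ^ p) ∂P :=
              lintegral_mono fun ω => hmean (mt M (g ω)) M hM (mt_meas (hg.db ω).meas M)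
                fun c => tr_le hM.le _
          _ = _ := by simp
      calc (∫⁻ q, ‖Vg M N g 0 q‖ₑ ^ p ∂μ) ^ (1 / p)
          ≤ ENNReal.ofReal (C0 * M ^ p) ^ (1 / p) := ENNReal.rpow_le_rpow h1 (by positivity)
        _ = ENNReal.ofReal (C0 ^ (1 / p) * M) := by
            rw [ENNReal.ofReal_rpow_of_pos (by positivity), Real.mul_rpow hC0.le (by positivity),
              hMp]
        _ ≤ _ := by
            apply ENNReal.ofReal_le_ofReal
            rw [pow_zero, mul_one, hA]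
            have : 0 ≤ K1 ^ (1 / p) := by positivity
            gcongr
            linarith
    · obtain ⟨F, rk, hcard, hRg⟩ := hg.rg hM.le hN' i
      have hNi : i + 1 ≤ N (i + 1) := hN.id_le (i + 1)
      have h1 := hgen P F _ rk _ _ _ M (2 * Real.pi / 2 ^ N (i + 1)) (2 ^ (N (i + 1) - N i)) hM
        (by positivity) (by
          rw [div_le_iff₀ (by positivity)]
          have : (1 : ℝ) ≤ 2 ^ N (i + 1) := one_le_pow₀ (by norm_num)
          nlinarith) (Nat.one_le_two_pow) hcard hRg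
      have h2 : ∫⁻ q, ‖Vg M N g (i + 1) q‖ₑ ^ p ∂μ ≤
          ENNReal.ofReal (K1 * M ^ p * 2 ^ (-η * ((i + 1 : ℕ) : ℝ))) := by
        rw [hμ, prod3 P _ ((hUm (i + 1)).pow_const p)]
        have e1 : ∀ ω y z, Vg M N g (i + 1) (ω, (y, z)) = ∑ k,
            Tk (fun k : Fin (2 ^ N (i + 1)) => da (N (i + 1)) k)
              (fun k : Fin (2 ^ N (i + 1)) => da (N (i + 1)) (k + 1))
              (fun k : Fin (2 ^ N (i + 1)) => jt M (g ω) (N i) (N (i + 1)) k) k y z :=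
          fun ω y z => T_Dt' (hg.db ω).meas hM.le _ _ y z
        simp only [e1]
        refine h1.trans (ENNReal.ofReal_le_ofReal ?_)
        have h3 := blk δ t κ K hδ0 (by linarith) hκ2 (N i) (N (i + 1)) (i + 1) (hN' i) hNi (hNK i)
        calc C1 * (((2 ^ (N (i + 1) - N i) : ℕ) : ℕ) : ℝ) ^ (1 + t) * M ^ p *
              (2 * Real.pi / 2 ^ N (i + 1)) ^ κ
            = C1 * M ^ p * ((((2 ^ (N (i + 1) - N i) : ℕ) : ℕ) : ℝ) ^ (1 + t) *
              (2 * Real.pi / 2 ^ N (i + 1)) ^ κ) := by ring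
          _ ≤ C1 * M ^ p * (((2 * Real.pi) ^ κ * 2 ^ ((1 + t) * K / (1 + δ))) *
              2 ^ (-η * ((i + 1 : ℕ) : ℝ))) := by gcongr
          _ = _ := by rw [hK1]; ring
      calc (∫⁻ q, ‖Vg M N g (i + 1) q‖ₑ ^ p ∂μ) ^ (1 / p)
          ≤ ENNReal.ofReal (K1 * M ^ p * 2 ^ (-η * ((i + 1 : ℕ) : ℝ))) ^ (1 / p) :=
            ENNReal.rpow_le_rpow h2 (by positivity)
        _ = ENNReal.ofReal (K1 ^ (1 / p) * M * r ^ (i + 1)) := by
            rw [ENNReal.ofReal_rpow_of_pos (by positivity),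
              Real.mul_rpow (by positivity) (by positivity),
              Real.mul_rpow hK10.le (by positivity), hMp]
            congr 2
            rw [hr, ← Real.rpow_natCast ((2 : ℝ) ^ (-η / p)), ← Real.rpow_mul (by norm_num),
              ← Real.rpow_mul (by norm_num)]
            congr 1
            field_simp
        _ ≤ _ := by
            apply ENNReal.ofReal_le_ofReal
            rw [hA]
            have : 0 ≤ C0 ^ (1 / p) := by positivity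
            gcongr
            linarith
  -- the sum
  have hmk := mink μ p hp1 (fun j q => ‖Vg M N g j q‖ₑ) hUm
  have hTm : ∀ ω, Measurable fun X : E (1 + 1 + 1) => ‖T (g ω) X‖ₑ ^ p := fun ω =>
    (Pool.Agent.H438R2.PD.T_meas' _ (hg.db ω).meas).enorm.pow_const p
  calc ∫⁻ ω, (∫⁻ X : E (1 + 1 + 1), ‖T (g ω) X‖ₑ ^ p) ∂P
      = ∫⁻ ω, (∫⁻ y : E (1 + 1), ∫⁻ z : ℝ, ‖T (g ω) (J y (z • e0))‖ₑ ^ p) ∂P :=
        lintegral_congr fun ω => lint_phys _ (hTm ω)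
    _ ≤ ∫⁻ ω, (∫⁻ y : E (1 + 1), ∫⁻ z : ℝ, (∑' j, ‖Vg M N g j (ω, (y, z))‖ₑ) ^ p) ∂P :=
        lintegral_mono fun ω => lintegral_mono fun y => lintegral_mono fun z =>
          ENNReal.rpow_le_rpow (T_le' ω (hg.db ω) hM.le hN0 hN y z) hp0.le
    _ = ∫⁻ q, (∑' j, ‖Vg M N g j q‖ₑ) ^ p ∂μ :=
        (prod3 P _ ((Measurable.tsum hUm).pow_const p)).symm
    _ ≤ (∑' j, (∫⁻ q, ‖Vg M N g j q‖ₑ ^ p ∂μ) ^ (1 / p)) ^ p := hmk
    _ ≤ (∑' j : ℕ, ENNReal.ofReal ((A * M) * r ^ j)) ^ p :=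
        ENNReal.rpow_le_rpow (ENNReal.tsum_le_tsum hpart) hp0.le
    _ = _ := by
        rw [geo _ r (by positivity) hr0.le hr1, ENNReal.ofReal_rpow_of_pos (by positivity)]
        congr 1
        rw [← Real.mul_rpow (by positivity) hM.le]
        congr 1
        ring

end Pool.Agent.V5helper17.SR
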